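import Pool.Agent.Run7.h561.TP.Stm
import Pool.Agent.W424.OD.Defs
import Pool.Agent.Y989.FR.StmA
import Pool.Agent.H389R2.Dim.Lower

/-!
# Project TP, part B: the outer boundary of every subsequential limit has dimension `4 / 3` almost
surely.  The steps (every step is a `Prop`; nothing is assumed).
-/

set_option autoImplicit false

namespace Run7.h561

open H974 H12S Finset H389NS H984P H984N H342P H342L H342T
open MeasureTheory Filter Topology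
open Pool.Agent.H389R2.Dim Pool.Agent.W822.PD Pool.Agent.W424.OD
open scoped ENNReal NNReal

/-- `sel` chooses a largest cluster and the trace of `γ` is its outer boundary. -/
def Gam (sel : (n : ℕ) → Finset Plain.Edge → ℤ × ℤ)
    (γ : (n : ℕ) → Finset Plain.Edge → Curve) : Prop :=
  (∀ n F, 0 < n → F ⊆ Plain.edges n → Plain.Largest n F (sel n F)) ∧
  ∀ n F, 0 < n → F ⊆ Plain.edges n → Set.range (γ n F).path = outerBoundary n F (sel n F)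

/-! ### Upper bound -/

/-- UPO: the outer boundary of the limits has dimension at most `4/3` (`hnd`: the limits are not
points). -/
def S_UPO : Prop := Pool.Agent.W424.OD.U3 → ∀ (sel : (n : ℕ) → Finset Plain.Edge → ℤ × ℤ)
  (γ : (n : ℕ) → Finset Plain.Edge → Curve), Gam sel γ → ∀ (k : ℕ → ℕ), Tendsto k atTop atTop →
  ∀ μ : ProbabilityMeasure Curve, Tendsto (fun i => lawOf (k i) (γ (k i))) atTop (𝓝 μ) →
    (∀ᵐ c : Curve ∂(μ : Measure Curve), ∃ s t, c.path s ≠ c.path t) →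
    ∀ᵐ c : Curve ∂(μ : Measure Curve), dimH (oB (Set.range c.path)) ≤ 4 / 3

/-! ### The discrete lower bound -/

/-- SLIT: the macroscopic clusters keep away from the part of the line which lies well below their
tip. -/
def S_SLIT : Prop := ∀ ε δ κ : ℝ, 0 < ε → 0 < δ → 0 < κ → ∃ (ζ : ℝ) (n0 : ℕ), 0 < ζ ∧
  ∀ n : ℕ, n0 ≤ n → ∀ (x0 : ℤ) (w : ℕ), δ * n ≤ w → (w : ℤ) ≤ x0 → x0 ≤ n - w →
    PQ (1 / 2) (RE 0 n 0 n) (fun F => ∃ z : Vtx, (0 ≤ z.2 ∧ z.2 ≤ n) ∧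
      TipE x0 w (↑F : Set Edg) z ∧ ∃ (s : ℤ) (c : Vtx), (s : ℝ) ≤ z.2 - κ * n ∧
        c ∈ Cu (↑F : Set Edg) z ∧ ((sd (x0, s) c : ℤ) : ℝ) ≤ ζ * n) ≤ ε

/-- `x` is at bounded distance of `w` and keeps away from `C` (polynomially, as seen from `w`). -/
def Clr (M B n : ℕ) (C : Set Vtx) (w x : Vtx) : Prop :=
  sd x w ≤ 12 * n ∧ ∀ c ∈ C, sd x w ^ B ≤ (M : ℤ) * (n : ℤ) ^ (B - 1) * sd x c

/-- Many vertices of the cluster of `v`, with small energy, from the vicinity of which lattice paths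
lead far away and keep away from the cluster. -/
def RichO (t lam E : ℝ) (M B n : ℕ) (v : Vtx) (F : Set Edg) : Prop :=
  ∃ V : Finset Vtx, lam * (n : ℝ) ^ (4 / 3 : ℝ) ≤ (V.card : ℝ) ∧
    EnV t V ≤ E * (n : ℝ) ^ (8 / 3 - t) ∧
    ∀ w ∈ V, w ∈ Cu F v ∧ ∃ x y : Vtx, sd x w ≤ 2 ∧ (10 * n : ℤ) ≤ sd y w ∧
      Reach {e | Clr M B n (Cu F v) w (src e) ∧ Clr M B n (Cu F v) w (tgt e)} x y

/-- DISC: the largest cluster is rich with probability close to one. -/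
def S_DISC : Prop := ∀ t : ℝ, 0 < t → t < 4 / 3 → ∀ ε : ℝ, 0 < ε →
  ∃ (M B : ℕ) (lam E : ℝ) (n0 : ℕ), 1 ≤ M ∧ 1 ≤ B ∧ 0 < lam ∧ 0 < E ∧ ∀ n : ℕ, n0 ≤ n →
    PQ (1 / 2) (RE 0 n 0 n) (fun F => ∃ v, Plain.Largest n F v ∧
      ¬ RichO t lam E M B n v (↑F : Set Edg)) ≤ ε

/-! ### The limit -/

/-- LGC: abstract passage to the limit. -/
def S_LGC : Prop := ∀ (μs : ℕ → ProbabilityMeasure Curve) (μ : ProbabilityMeasure Curve),
  Tendsto μs atTop (𝓝 μ) → ∀ t : ℝ, 0 < t → ∀ T : C(unitInterval, ℂ) → Set ℂ,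
  (∀ ε : ℝ≥0∞, 0 < ε → ∃ (c : ℝ) (K : Set ℂ) (Q : ℕ → Set (C(unitInterval, ℂ) × ℂ)), 0 < c ∧
    IsCompact K ∧ (∀ k, IsClosed (Q k)) ∧
    (∀ k f z (φ : unitInterval ≃o unitInterval), (f, z) ∈ Q k → (rep f φ, z) ∈ Q k) ∧
    (∀ f, ∀ z ∈ K, (∀ k, (f, z) ∈ Q k) → z ∈ T f) ∧
    ∀ ε' : ℝ, 0 < ε' → ∀ᶠ i in atTop,
      (μs i : Measure Curve) {γ : Curve | ¬ Good t ε' c
        {z | z ∈ K ∧ ∀ k : ℕ, ε' ≤ 1 / ((k : ℝ) + 1) → (γ.path, z) ∈ Q k}} ≤ ε) →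
  ∀ᵐ p : Curve ∂(μ : Measure Curve), ENNReal.ofReal t ≤ dimH (T p.path)

/-- GEOB: in the limit `z` lies on the outer boundary. -/
def S_GEOB : Prop := ∀ (M κ R : ℝ) (B : ℕ) (N : ℕ → ℕ) (f : C(unitInterval, ℂ)) (z : ℂ), 0 < M →
  8 ≤ κ → 1 ≤ B → (∀ s, ‖f s‖ ≤ 2) →
  (∀ k : ℕ, (f, z) ∈ Pool.Agent.Y989.FR.Qc M κ R (1 / ((k : ℝ) + 1)) B (N k)) →
    z ∈ oB (Set.range f)

/-- LOWB: lower bound for the limits. -/
def S_LOWB : Prop := ∀ (sel : (n : ℕ) → Finset Plain.Edge → ℤ × ℤ)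
  (γ : (n : ℕ) → Finset Plain.Edge → Curve), Gam sel γ → ∀ (k : ℕ → ℕ), Tendsto k atTop atTop →
  ∀ μ : ProbabilityMeasure Curve, Tendsto (fun i => lawOf (k i) (γ (k i))) atTop (𝓝 μ) →
    ∀ t : ℝ, 0 < t → t < 4 / 3 →
      ∀ᵐ c : Curve ∂(μ : Measure Curve), ENNReal.ofReal t ≤ dimH (oB (Set.range c.path))

/-- LIMB: passage to the limit. -/
def S_LIMB : Prop := S_DISC → S_LGC → S_GEOB → Pool.Agent.Y989.FR.S_QC →
  Pool.Agent.Y989.FR.S_CHN → S_LOWB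

end Run7.h561
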