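import Pool.Agent.Run7.h561.TP.P_ALL0
import Pool.Agent.Y989.FR.AllA
import Pool.Agent.W808.TA.RSAll

/-! # Project TP: the inputs from the starting files (three arms in annuli, the thick path) -/

set_option autoImplicit false

namespace Run7.h561

open H974 H984P H984N Pool.Agent.Y989.FR

/-- upper bound for three arms -/
theorem i_U3 : S_U3 := Pool.Agent.W424.KI.u3

/-- lower bound for three arms -/
theorem i_L3 : S_L3 := Pool.Agent.W808.TA.RSA.a_LOWB

theorem sd_nm (v : Vtx) : sd v (0, 0) = Pool.Agent.H160R2.ML.nm v := by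
  unfold sd Pool.Agent.H160R2.ML.nm
  simp

/-- discrete Jordan theorem -/
theorem i_JR : S_JR := by
  intro W μ d k hd hdk h
  refine Pool.Agent.W801.RS.t_JOR W μ d k hd hdk ?_
  intro v w hv hw h1 h2 h3 h4
  rw [← sd_nm] at h3 h4
  exact h v w hv hw h1 h2 h3 h4

theorem a_GAD : S_GAD := a_GAD' (ACC.t_ACC i_L3) (ACU.t_ACU i_U3) (a_THK i_JR i_U3) i_U3

end Run7.h561
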