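import Pool.Agent.Run7.h561.TP.P_FINB

/-! # FINC: accessible vertices of all macroscopic clusters -/

set_option autoImplicit false

namespace Run7.h561

open H974 H12S Finset H984P H984N SURG H342P

/-- FINC: every macroscopic cluster has at least `lam * n ^ (4/3)` accessible vertices. -/
def S_FINC : Prop := ∀ ε δ : ℝ, 0 < ε → 0 < δ → ∃ (lam : ℝ) (n0 : ℕ), 0 < lam ∧ ∀ n : ℕ, n0 ≤ n →
  1 - ε ≤ Plain.prob n (fun F => ∀ v ∈ Plain.box n, ∀ x ∈ Plain.cluster F v,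
    ∀ y ∈ Plain.cluster F v, (δ * n) ^ 2 ≤ (Plain.sqDist x y : ℝ) →
      lam * (n : ℝ) ^ (4 / 3 : ℝ) ≤ ((Pool.Agent.W424.OD.accessible n F v).card : ℝ))

theorem t_FINC (gad : S_GAD) (tip : S_TIP) : S_FINC := by
  -- it suffices to treat small `δ`
  suffices main : ∀ ε δ : ℝ, 0 < ε → 0 < δ → δ ≤ 1 → ∃ (lam : ℝ) (n0 : ℕ), 0 < lam ∧
      ∀ n : ℕ, n0 ≤ n → 1 - ε ≤ Plain.prob n (fun F => ∀ v ∈ Plain.box n,
        ∀ x ∈ Plain.cluster F v, ∀ y ∈ Plain.cluster F v, (δ * n) ^ 2 ≤ (Plain.sqDist x y : ℝ) →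
        lam * (n : ℝ) ^ (4 / 3 : ℝ) ≤ ((Pool.Agent.W424.OD.accessible n F v).card : ℝ)) by
    intro ε δ hε hδ
    obtain ⟨lam, n0, h1, h2⟩ := main ε (min δ 1) hε (lt_min hδ one_pos) (min_le_right _ _)
    refine ⟨lam, n0, h1, fun n hn => (h2 n hn).trans ?_⟩
    rw [Plain.prob_eq, Plain.prob_eq]
    refine Pr_mono ok_half fun F _ hF v hv x hx y hy hxy => hF v hv x hx y hy ?_
    refine le_trans (pow_le_pow_left₀ (by positivity) ?_ 2) hxy
    exact mul_le_mul_of_nonneg_right (min_le_left _ _) (Nat.cast_nonneg n)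
  intro ε δ hε hδ hδ1
  obtain ⟨M, B, a0, d, -, -, hd, hgad⟩ := gad 1 (by norm_num) (by norm_num)
  obtain ⟨a1, htip⟩ := tip (ε * δ / 96) (δ / 16) (by positivity) (by positivity)
  set a : ℕ := 2 * d * (a0 + a1 + 1) with ha
  have haa : a0 + a1 + 1 ≤ a := by
    rw [ha]
    exact Nat.le_mul_of_pos_left _ (by omega)
  obtain ⟨p, c0, E0, m0, hp, hc0, hE0, hm0⟩ := hgad a (by omega) ⟨2 * (a0 + a1 + 1), by rw [ha]; ring⟩
    ⟨d * (a0 + a1 + 1), by rw [ha]; ring⟩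
  obtain ⟨η, n0, hη, hn0⟩ := htip a (by omega) ⟨d * (a0 + a1 + 1), by rw [ha]; ring⟩ p (m0 + 1) hp
  choose! G hG using hm0
  obtain ⟨n1, hn1⟩ := exists_nat_gt (64 / δ)
  refine ⟨c0 / 25 * η ^ (4 / 3 : ℝ), n0 + n1 + 1, by positivity, ?_⟩
  intro n hn
  have hnn0 : n0 ≤ n := by omega
  have hnn1 : (n1 : ℝ) ≤ n := by
    have : n1 ≤ n := by omega
    exact_mod_cast this
  have hδn : 64 < δ * n := by
    rw [div_lt_iff₀ hδ] at hn1
    nlinarith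
  obtain ⟨m1, hm1⟩ : ∃ m1 : ℕ, m1 = ⌊δ * n / 4⌋₊ := ⟨_, rfl⟩
  have m1a : (m1 : ℝ) ≤ δ * n / 4 := by rw [hm1]; exact Nat.floor_le (by positivity)
  have m1b : δ * n / 4 < m1 + 1 := by rw [hm1]; exact Nat.lt_floor_add_one _
  set w : ℕ := m1 / 2 with hw
  have hw2 : m1 ≤ 2 * w + 1 := by omega
  have hw2' : (m1 : ℝ) ≤ 2 * w + 1 := by exact_mod_cast hw2
  have hδw : δ / 16 * n ≤ w := by linarith
  have hw1 : 1 ≤ w := by
    have : (4 : ℝ) < w := by linarith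
    have h2 : (4 : ℕ) < w := by exact_mod_cast this
    omega
  have hnwR : (n : ℝ) ≤ 16 / δ * w := by
    rw [div_mul_eq_mul_div, le_div_iff₀ hδ]
    linarith
  set S : Finset Edg := RE 0 n 0 n with hS
  -- lines
  set J : Finset ℤ := (Finset.Icc (1 : ℤ) ((n : ℤ) / w)).filter
    (fun j => (w : ℤ) ≤ w * j ∧ w * j ≤ n - w) with hJ
  have hJc : (J.card : ℝ) ≤ 16 / δ := by
    have h1 : J.card ≤ (Finset.Icc (1 : ℤ) ((n : ℤ) / w)).card := Finset.card_filter_le _ _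
    rw [Int.card_Icc, add_sub_cancel_right] at h1
    have h2 : (((n : ℤ) / w).toNat : ℝ) ≤ (n : ℝ) / w := by
      rw [← Int.natCast_div, Int.toNat_natCast]
      exact Nat.cast_div_le
    have h3 : (J.card : ℝ) ≤ (((n : ℤ) / w).toNat : ℝ) := by exact_mod_cast h1
    refine (h3.trans h2).trans ?_
    rw [div_le_iff₀ (by positivity)]
    exact hnwR
  have hbad1 : ∀ j ∈ J, PQ (1 / 2) S (BadL a (m0 + 1) η n w G (w * j)) ≤ ε * δ / 96 := by
    intro j hj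
    rw [hJ, Finset.mem_filter] at hj
    exact hn0 n hnn0 G (fun m hm => (hG m (by omega)).toGLc) (w * j) w hδw hj.2.1 hj.2.2
  have hbad2 : ∀ j ∈ J, PQ (1 / 2) S (fun F => BadL a (m0 + 1) η n w G (w * j) (tps.mp F)) ≤
      ε * δ / 96 := by
    intro j hj
    have h1 := LSym.pr tps (1 / 2) S (BadL a (m0 + 1) η n w G (w * j))
    have h2 : tps.mp S = S := by rw [hS, tps_RE]
    rw [h2] at h1
    unfold PQ
    rw [← h1]
    exact hbad1 j hj
  rw [Plain.prob_eq]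
  -- union bound
  have hall : PQ (1 / 2) S (fun F => ¬ (∀ v ∈ Plain.box n, ∀ x ∈ Plain.cluster F v,
      ∀ y ∈ Plain.cluster F v, (δ * n) ^ 2 ≤ (Plain.sqDist x y : ℝ) →
      c0 / 25 * η ^ (4 / 3 : ℝ) * (n : ℝ) ^ (4 / 3 : ℝ) ≤
        ((Pool.Agent.W424.OD.accessible n F v).card : ℝ))) ≤
      PQ (1 / 2) S (fun F => (∃ j ∈ J, BadL a (m0 + 1) η n w G (w * j) F) ∨
        ∃ j ∈ J, BadL a (m0 + 1) η n w G (w * j) (tps.mp F)) := by
    refine Pr_mono ok_half fun F hF hbadF => ?_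
    by_contra hcon
    push Not at hcon
    obtain ⟨hb1, hb2⟩ := hcon
    apply hbadF
    intro v hvb x hx y hy h9
    rw [Plain.mem_cluster] at hx hy
    have h10 : 2 * (m1 : ℤ) ≤ |x.1 - y.1| ∨ 2 * (m1 : ℤ) ≤ |x.2 - y.2| := by
      by_contra h11
      push Not at h11
      have k1 : (x.1 - y.1) ^ 2 ≤ (2 * (m1 : ℤ)) ^ 2 := by
        rw [← sq_abs (x.1 - y.1)]
        exact pow_le_pow_left₀ (abs_nonneg _) h11.1.le 2
      have k2 : (x.2 - y.2) ^ 2 ≤ (2 * (m1 : ℤ)) ^ 2 := by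
        rw [← sq_abs (x.2 - y.2)]
        exact pow_le_pow_left₀ (abs_nonneg _) h11.2.le 2
      have k3 : ((Plain.sqDist x y : ℤ) : ℝ) ≤ (8 * (m1 : ℤ) ^ 2 : ℤ) := by
        unfold Plain.sqDist
        have : (x.1 - y.1) ^ 2 + (x.2 - y.2) ^ 2 ≤ 8 * (m1 : ℤ) ^ 2 := by linarith
        exact_mod_cast this
      push_cast at k3
      have k4 : (m1 : ℝ) ^ 2 ≤ (δ * n / 4) ^ 2 := pow_le_pow_left₀ (by positivity) m1a 2
      nlinarith
    have main : ∀ (F : Finset Edg) (v x y : Vtx), F ⊆ RE 0 n 0 n → v ∈ Plain.box n →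
        Reach (↑F : Set Edg) v x → Reach (↑F : Set Edg) v y → 2 * (m1 : ℤ) ≤ |x.1 - y.1| →
        (∀ j ∈ J, ¬ BadL a (m0 + 1) η n w G (w * j) F) →
        c0 / 25 * η ^ (4 / 3 : ℝ) * (n : ℝ) ^ (4 / 3 : ℝ) ≤
          ((Pool.Agent.W424.OD.accessible n F v).card : ℝ) := by
      intro F v x y hF hv hx hy hd hb
      have hb' : ∀ j ∈ Finset.Icc (1 : ℤ) ((n : ℤ) / w), (w : ℤ) ≤ w * j → w * j ≤ n - w →
          ¬ BadL a (m0 + 1) η n w G (w * j) F := by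
        intro j j1 j2 j3
        exact hb j (by rw [hJ, Finset.mem_filter]; exact ⟨j1, j2, j3⟩)
      rw [le_abs'] at hd
      rcases hd with hd | hd
      · exact fin_one (by omega) (by omega) hc0.le hη.le (fun m hm => hG m (by omega)) hF
          (by omega) (m1 := m1) (by omega) hv hx hy (by omega) hb'
      · exact fin_one (by omega) (by omega) hc0.le hη.le (fun m hm => hG m (by omega)) hF
          (by omega) (m1 := m1) (by omega) hv hy hx (by omega) hb'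
    rcases h10 with h10 | h10
    · exact main F v x y hF hvb hx hy h10 hb1
    · have hF' : tps.mp F ⊆ RE 0 n 0 n := by
        have := LSym.mp_mono tps hF
        rwa [tps_RE] at this
      have r1 : ∀ {c : Vtx}, Reach (↑F : Set Edg) v c →
          Reach (↑(tps.mp F) : Set Edg) (v.2, v.1) (c.2, c.1) := by
        intro c hc
        rw [LSym.coe_mp]
        exact tps.reach hc
      have h12 := main (tps.mp F) (v.2, v.1) (x.2, x.1) (y.2, y.1) hF'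
        (by rw [mem_box] at hvb ⊢; exact ⟨hvb.2, hvb.1⟩) (r1 hx) (r1 hy) h10 hb2
      refine h12.trans ?_
      exact_mod_cast acc_tps v
  have h2 := Pr_or_le ok_half S (fun F => ∃ j ∈ J, BadL a (m0 + 1) η n w G (w * j) F)
    (fun F => ∃ j ∈ J, BadL a (m0 + 1) η n w G (w * j) (tps.mp F))
  have h3 := Pr_exists_le ok_half S J (fun j => BadL a (m0 + 1) η n w G (w * j))
  have h4 := Pr_exists_le ok_half S J (fun j F => BadL a (m0 + 1) η n w G (w * j) (tps.mp F))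
  have hsum : (J.card : ℝ) * (ε * δ / 96) ≤ ε / 4 := by
    calc (J.card : ℝ) * (ε * δ / 96) ≤ (16 / δ) * (ε * δ / 96) :=
          mul_le_mul_of_nonneg_right hJc (by positivity)
      _ = ε / 6 := by field_simp; ring
      _ ≤ ε / 4 := by linarith
  have h5 : ∑ j ∈ J, Pr (fun _ => (1 / 2 : ℝ)) S (BadL a (m0 + 1) η n w G (w * j)) ≤ ε / 4 := by
    refine (Finset.sum_le_sum hbad1).trans ?_
    rw [Finset.sum_const, nsmul_eq_mul]
    exact hsum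
  have h6 : ∑ j ∈ J, Pr (fun _ => (1 / 2 : ℝ)) S
      (fun F => BadL a (m0 + 1) η n w G (w * j) (tps.mp F)) ≤ ε / 4 := by
    refine (Finset.sum_le_sum hbad2).trans ?_
    rw [Finset.sum_const, nsmul_eq_mul]
    exact hsum
  unfold PQ at hall
  rw [Pr_not] at hall
  linarith

/-- The largest clusters are macroscopic. -/
theorem big_ex {ε : ℝ} (hε : 0 < ε) : ∃ (δ : ℝ) (n0 : ℕ), 0 < δ ∧ ∀ n : ℕ, n0 ≤ n →
    PQ (1 / 2) (RE 0 n 0 n) (fun F => ¬ ∀ v, Plain.Largest n F v → ∃ x ∈ Plain.cluster F v,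
      ∃ y ∈ Plain.cluster F v, (δ * n) ^ 2 ≤ (Plain.sqDist x y : ℝ)) ≤ ε := by
  obtain ⟨K0, hK0⟩ := exists_pow_lt_of_lt_one hε (show (1/2:ℝ) < 1 by norm_num)
  set K := K0 + 1 with hK
  have hKd : (1/2:ℝ) ^ K ≤ ε := by
    rw [hK, pow_succ]
    have : (0:ℝ) ≤ (1/2) ^ K0 := by positivity
    linarith
  have hK1 : (1 : ℝ) ≤ K := by rw [hK]; push_cast; linarith [Nat.cast_nonneg (α := ℝ) K0]
  refine ⟨1 / (8 * K), 96 * K, by positivity, ?_⟩
  intro n hn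
  set L : ℕ := n / (2 * K) with hL
  set m1 : ℕ := L / 3 with hm1
  have hKpos : 0 < K := by omega
  have hLn : 2 * K * L ≤ n := Nat.mul_div_le n (2 * K)
  have hLn2 : n < 2 * K * (L + 1) := Nat.lt_mul_div_succ n (by omega)
  have hL48 : 48 ≤ L := by
    rw [hL, Nat.le_div_iff_mul_le (by omega)]
    omega
  have hKL : K * (L + 1) ≤ n + 1 := by nlinarith
  have hLnn : L ≤ n := by nlinarith
  have hLw : L + 1 ≤ 4 * m1 := by omega
  have hnw : n ≤ 8 * K * m1 := by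
    have : 2 * K * (L + 1) ≤ 2 * K * (4 * m1) := Nat.mul_le_mul_left _ hLw
    nlinarith
  have hnwR : (n : ℝ) ≤ 8 * K * m1 := by exact_mod_cast hnw
  have hδ : 1 / (8 * (K : ℝ)) * n ≤ m1 := by
    rw [div_mul_eq_mul_div, one_mul, div_le_iff₀ (by positivity)]
    linarith
  have hNB := pr_not_big (n := n) (L := L) (K := K) (by omega) (m := (m1 : ℤ)) (by omega)
    (by omega) hKL hLnn
  refine le_trans (Pr_mono ok_half fun F _ hbadF => ?_) (hNB.trans hKd)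
  intro hbig
  apply hbadF
  intro v hv
  obtain ⟨x, y, hx, hy, hxy⟩ := Plain.isMax_of_largest hv
  obtain ⟨c, e, hc, he, hce, h8⟩ := hbig
  have h9 : 8 * (m1 : ℤ) ^ 2 ≤ dsq x y := h8.trans (hxy c e hc he hce)
  refine ⟨x, (Plain.mem_cluster _ _ _).2 hx, y, (Plain.mem_cluster _ _ _).2 hy, ?_⟩
  have h10 : ((8 * (m1 : ℤ) ^ 2 : ℤ) : ℝ) ≤ (Plain.sqDist x y : ℝ) := by
    have : 8 * (m1 : ℤ) ^ 2 ≤ Plain.sqDist x y := h9
    exact_mod_cast this
  push_cast at h10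
  have k4 : (1 / (8 * (K : ℝ)) * n) ^ 2 ≤ (m1 : ℝ) ^ 2 := pow_le_pow_left₀ (by positivity) hδ 2
  have : (0 : ℝ) ≤ (m1 : ℝ) ^ 2 := by positivity
  linarith

theorem FINA_of_FINC (h : S_FINC) : S_FINA := by
  intro ε hε
  obtain ⟨δ, n0, hδ, hn0⟩ := big_ex (half_pos hε)
  obtain ⟨lam, n1, hlam, hn1⟩ := h (ε / 2) δ (half_pos hε) hδ
  refine ⟨lam, n0 + n1, hlam, fun n hn => ?_⟩
  have h1 := hn0 n (by omega)
  have h2 := hn1 n (by omega)
  rw [Plain.prob_eq] at h2 ⊢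
  have h3 : PQ (1 / 2) (RE 0 n 0 n) (fun F => ¬ ∀ v, Plain.Largest n F v →
      lam * (n : ℝ) ^ (4 / 3 : ℝ) ≤ ((Pool.Agent.W424.OD.accessible n F v).card : ℝ)) ≤
      PQ (1 / 2) (RE 0 n 0 n) (fun F => (¬ ∀ v, Plain.Largest n F v → ∃ x ∈ Plain.cluster F v,
        ∃ y ∈ Plain.cluster F v, (δ * n) ^ 2 ≤ (Plain.sqDist x y : ℝ)) ∨
        ¬ (∀ v ∈ Plain.box n, ∀ x ∈ Plain.cluster F v,
    ∀ y ∈ Plain.cluster F v, (δ * n) ^ 2 ≤ (Plain.sqDist x y : ℝ) →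
      lam * (n : ℝ) ^ (4 / 3 : ℝ) ≤ ((Pool.Agent.W424.OD.accessible n F v).card : ℝ))) := by
    refine Pr_mono ok_half fun F _ hbad => ?_
    by_contra hcon
    rw [not_or, not_not, not_not] at hcon
    apply hbad
    intro v hv
    obtain ⟨x, hx, y, hy, hxy⟩ := hcon.1 v hv
    exact hcon.2 v hv.1 x hx y hy hxy
  have h4 := Pr_or_le ok_half (RE 0 n 0 n) (fun F => ¬ ∀ v, Plain.Largest n F v →
    ∃ x ∈ Plain.cluster F v, ∃ y ∈ Plain.cluster F v, (δ * n) ^ 2 ≤ (Plain.sqDist x y : ℝ))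
    (fun F => ¬ (∀ v ∈ Plain.box n, ∀ x ∈ Plain.cluster F v,
    ∀ y ∈ Plain.cluster F v, (δ * n) ^ 2 ≤ (Plain.sqDist x y : ℝ) →
      lam * (n : ℝ) ^ (4 / 3 : ℝ) ≤ ((Pool.Agent.W424.OD.accessible n F v).card : ℝ)))
  unfold PQ at h1 h3
  rw [Pr_not] at h3
  rw [Pr_not (RE 0 n 0 n) (fun F => ∀ v ∈ Plain.box n,
    ∀ x ∈ Plain.cluster F v, ∀ y ∈ Plain.cluster F v, (δ * n) ^ 2 ≤ (Plain.sqDist x y : ℝ) →
      lam * (n : ℝ) ^ (4 / 3 : ℝ) ≤ ((Pool.Agent.W424.OD.accessible n F v).card : ℝ))] at h4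
  linarith

end Run7.h561
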