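import Pool.Agent.Run7.h561.TP.StmB
import Pool.Agent.Y989.FR.T_LG

/-! # LGC: abstract passage to the limit in the space of curves -/

set_option autoImplicit false

namespace Run7.h561

open Set Filter Topology Metric MeasureTheory H342L
open Pool.Agent.H389R2.Dim Pool.Agent.Y989.FR.LG
open scoped ENNReal NNReal

/-- Closed sets of paths which do not depend on the parametrisation. -/
theorem closed_curve {A : Set C(unitInterval, ℂ)} (hA : IsClosed A)
    (hinv : ∀ f (φ : unitInterval ≃o unitInterval), f ∈ A → rep f φ ∈ A) :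
    IsClosed {c : Curve | c.path ∈ A} := by
  rw [← isOpen_compl_iff, Metric.isOpen_iff]
  intro c hc
  have h1 : c.path ∈ Aᶜ := hc
  obtain ⟨ε, hε, hb⟩ := Metric.isOpen_iff.1 hA.isOpen_compl _ h1
  refine ⟨ε, hε, fun c' hc' => ?_⟩
  rw [Metric.mem_ball, dist_comm, Curve.dist_def, cdist_eq] at hc'
  obtain ⟨φ, hφ⟩ := exists_lt_of_ciInf_lt hc'
  intro hcon
  have h2 : rep c'.path φ ∈ A := hinv _ φ hcon
  have h3 : rep c'.path φ ∈ ball c.path ε := by
    rw [Metric.mem_ball, dist_comm]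
    exact hφ
  exact hb h3 h2

theorem AA_rep {K : Set ℂ} {Q : ℕ → Set (C(unitInterval, ℂ) × ℂ)}
    (hQ : ∀ k f z (φ : unitInterval ≃o unitInterval), (f, z) ∈ Q k → (rep f φ, z) ∈ Q k)
    (e : ℝ) (f : C(unitInterval, ℂ)) (φ : unitInterval ≃o unitInterval) :
    AA K Q e f ⊆ AA K Q e (rep f φ) := by
  rintro z ⟨hz, h⟩
  exact ⟨hz, fun k hk => hQ k f z φ (h k hk)⟩

theorem t_LGC : S_LGC := by
  intro μs μ hμ t ht T h
  rw [ae_iff, ← nonpos_iff_eq_zero]
  apply ENNReal.le_of_forall_pos_le_add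
  intro ε hε _
  obtain ⟨c, K, Q, hc, hK, hQ, hinv, hT, h1⟩ := h ε (by exact_mod_cast hε)
  have h1 : ∀ ε' : ℝ, 0 < ε' → ∀ᶠ i in atTop,
      (μs i : Measure Curve) {γ : Curve | ¬ Good t ε' c (AA K Q ε' γ.path)} ≤ ε := h1
  have hT0 : ∀ f, AA K Q 0 f ⊆ T f := by
    rintro f z ⟨hz, hh⟩
    exact hT f z hz (fun k => hh k (by positivity))
  have hopen : ∀ ε' : ℝ, IsOpen {p : Curve | ¬ Good t ε' c (AA K Q ε' p.path)} := by
    intro ε'
    have h2 := closed_curve (isClosed_good_AA (t := t) (δ := ε') (c := c) (e := ε') hQ hK)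
      (fun f φ hf => Good.mono hf (AA_rep hinv ε' f φ))
    exact h2.isOpen_compl
  have h2 : ∀ ε' : ℝ, 0 < ε' →
      (μ : Measure Curve) {p : Curve | ¬ Good t ε' c (AA K Q ε' p.path)} ≤ ε := by
    intro ε' hε'
    refine (ProbabilityMeasure.le_liminf_measure_open_of_tendsto hμ (hopen ε')).trans ?_
    exact liminf_le_of_frequently_le (h1 ε' hε').frequently
  set Bd : ℕ → Set Curve := fun n =>
    {p : Curve | ¬ Good t (1 / ((n : ℝ) + 1)) c (AA K Q (1 / ((n : ℝ) + 1)) p.path)} with hBd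
  have hmono : Monotone Bd := by
    intro n n' hnn p hp hG
    apply hp
    have h3 := hG.anti (Nat.one_div_le_one_div (α := ℝ) hnn)
    exact h3.mono (AA_mono (Nat.one_div_le_one_div hnn) p.path)
  have h3 : {p : Curve | ¬ ENNReal.ofReal t ≤ dimH (T p.path)} ⊆ ⋃ n : ℕ, Bd n := by
    intro p hp
    by_contra hcon
    simp only [hBd, Set.mem_iUnion, Set.mem_ofPred_eq, not_exists, not_not] at hcon
    apply hp
    have h4 : ∀ δ' : ℝ, 0 < δ' → Good t δ' c (AA K Q 0 p.path) := by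
      intro δ' hδ'
      apply good_zero hQ hK
      intro n
      obtain ⟨m, hm⟩ := exists_nat_one_div_lt hδ'
      have h5 := hcon (max n m)
      have h6 : (1 : ℝ) / (((max n m : ℕ) : ℝ) + 1) ≤ 1 / ((n : ℝ) + 1) :=
        Nat.one_div_le_one_div (le_max_left _ _)
      have h7 : (1 : ℝ) / (((max n m : ℕ) : ℝ) + 1) ≤ 1 / ((m : ℝ) + 1) :=
        Nat.one_div_le_one_div (le_max_right _ _)
      exact (h5.mono (AA_mono h6 p.path)).anti (h7.trans hm.le)
    exact (le_dimH_of_good ht hc (isCompact_AA hQ hK p.path) h4).trans (dimH_mono (hT0 p.path))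
  refine le_trans (measure_mono h3) ?_
  rw [zero_add, hmono.measure_iUnion]
  exact iSup_le fun n => h2 _ (by positivity)

end Run7.h561
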