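import Pool.Agent.Run7.h561.TP.P_DISC

/-! # DISC: the probability -/

set_option autoImplicit false

namespace Run7.h561

open H974 H12S Finset H984P H984N SURG H342P
open Pool.Agent.W822.PD

/-- The bad event of the slit. -/
def BadS (κ ζ : ℝ) (n w : ℕ) (x0 : ℤ) (F : Finset Edg) : Prop :=
  ∃ z : Vtx, (0 ≤ z.2 ∧ z.2 ≤ n) ∧ TipE x0 w (↑F : Set Edg) z ∧
    ∃ (s : ℤ) (c : Vtx), (s : ℝ) ≤ z.2 - κ * n ∧ c ∈ Cu (↑F : Set Edg) z ∧
      ((sd (x0, s) c : ℤ) : ℝ) ≤ ζ * n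

theorem rich_one {t : ℝ} {M B a m0 : ℕ} {p c0 E0 η ζ κ : ℝ} {n w m1 M' : ℕ}
    {G : ℕ → Finset Edg → Prop} (ht1 : t < 4 / 3) (ha : 1 ≤ a) (hm0 : 1 ≤ m0) (hc0 : 0 ≤ c0)
    (hE0 : 0 ≤ E0) (hη : 0 < η) (hζ : 0 < ζ) (hB : 1 ≤ B) (hn : 1 ≤ n) (hM1 : M ≤ M')
    (hM2 : 12 ^ B * (2 / η) ≤ (M' : ℝ)) (hM3 : 12 ^ B * (1 / ζ) ≤ (M' : ℝ))
    (hκ : κ ≤ 8 * a * η)
    (hG : ∀ m, m0 ≤ m → Gad t M B a m p c0 E0 (G m)) {F : Finset Edg} (hF : F ⊆ RE 0 n 0 n)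
    (hw : 1 ≤ w) (hw1 : 2 * w ≤ m1) {v x y : Vtx} (hv : v ∈ Plain.box n)
    (hx : x ∈ Cu (↑F : Set Edg) v) (hy : y ∈ Cu (↑F : Set Edg) v)
    (hxy : x.1 + 2 * m1 ≤ y.1)
    (hbad : ∀ j ∈ Finset.Icc (1 : ℤ) ((n : ℤ) / w), (w : ℤ) ≤ w * j → w * j ≤ n - w →
      ¬ BadL a m0 η n w G (w * j) F ∧ ¬ BadS κ ζ n w (w * j) F) :
    RichO t (c0 * η ^ (4 / 3 : ℝ)) E0 M' B n v (↑F : Set Edg) := by
  have hbox : ∀ c ∈ Cu (↑F : Set Edg) v, c ∈ Plain.box n := by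
    intro c hc
    rw [mem_box] at hv ⊢
    exact reach_mem (A := {v : Vtx | inR 0 n 0 n v}) (fun e he => mem_RE.1 (hF (by exact_mod_cast he)))
      hc hv
  have hxb := mem_box.1 (hbox x hx)
  have hyb := mem_box.1 (hbox y hy)
  have hw' : (1 : ℤ) ≤ w := by exact_mod_cast hw
  have hw1' : 2 * (w : ℤ) ≤ m1 := by exact_mod_cast hw1
  set q : ℤ := x.1 / w with hq
  have k1 := Int.emod_add_mul_ediv x.1 w
  have k2 := Int.emod_nonneg x.1 (show (w : ℤ) ≠ 0 by omega)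
  have k3 := Int.emod_lt_of_pos x.1 (show (0 : ℤ) < w by omega)
  rw [← hq] at k1
  have q0 : 0 ≤ q := Int.ediv_nonneg hxb.1.1 (by omega)
  have e1 : (w : ℤ) * (q + 2) = w * q + 2 * w := by ring
  have wq0 : 0 ≤ (w : ℤ) * q := mul_nonneg (by omega) q0
  have hj : q + 2 ∈ Finset.Icc (1 : ℤ) ((n : ℤ) / w) := by
    rw [Finset.mem_Icc]
    refine ⟨by omega, ?_⟩
    rw [Int.le_ediv_iff_mul_le (by omega), mul_comm, e1]
    omega
  obtain ⟨z, z1, z2, z3⟩ := tip_ex hF (w := w) (x0 := w * (q + 2)) hv hx hy (by rw [e1]; omega)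
    (by rw [e1]; omega)
  obtain ⟨hnb, hns⟩ := hbad (q + 2) hj (by rw [e1]; omega) (by rw [e1]; omega)
  have hz := mem_box.1 z2
  obtain ⟨m, hm, hηm, h400, hgood⟩ : ∃ m : ℕ, m0 ≤ m ∧ η * n ≤ m ∧ 400 * (a * m) ≤ w ∧
      GoodAt a m (w * (q + 2)) (G m) F z := by
    by_contra hcon
    exact hnb ⟨z, hz.2, z3, hcon⟩
  have hwn : w ≤ n := by omega
  refine RichO_congr z1 (rich_tip (hG m hm) (κ := κ) ht1 hc0 hE0 hη hζ hB hn hM1 hM2 hM3 ha
    (by omega) hηm ?_ z3 h400 hwn hgood ?_)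
  · have h1 : 8 * (a : ℝ) * (η * n) ≤ 8 * a * m := mul_le_mul_of_nonneg_left hηm (by positivity)
    have h2 : κ * n ≤ 8 * a * η * n := mul_le_mul_of_nonneg_right hκ (Nat.cast_nonneg n)
    linarith
  · intro s c hs hc
    by_contra hcon
    rw [not_lt] at hcon
    exact hns ⟨z, hz.2, z3, s, c, hs, hc, hcon⟩

/-- **DISC** -/
theorem t_DISC (gad : S_GAD) (tip : S_TIP) (slit : S_SLIT) : S_DISC := by
  intro t ht ht1 ε hε
  obtain ⟨δ0, n9, hδ0, hbig⟩ := big_ex (half_pos hε)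
  obtain ⟨δ, hδ, hδ1, hδ2⟩ : ∃ δ : ℝ, 0 < δ ∧ δ ≤ 1 ∧ δ ≤ δ0 :=
    ⟨min δ0 1, lt_min hδ0 one_pos, min_le_right _ _, min_le_left _ _⟩
  obtain ⟨M, B, a0, d, -, hB, hd, hgad⟩ := gad t ht ht1
  obtain ⟨a1, htip⟩ := tip (ε * δ / 384) (δ / 16) (by positivity) (by positivity)
  set a : ℕ := 2 * d * (a0 + a1 + 1) with ha
  have haa : a0 + a1 + 1 ≤ a := by
    rw [ha]
    exact Nat.le_mul_of_pos_left _ (by omega)
  obtain ⟨p, c0, E0, m0, hp, hc0, hE0, hm0⟩ := hgad a (by omega) ⟨2 * (a0 + a1 + 1), by rw [ha]; ring⟩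
    ⟨d * (a0 + a1 + 1), by rw [ha]; ring⟩
  obtain ⟨η, n0, hη, hn0⟩ := htip a (by omega) ⟨d * (a0 + a1 + 1), by rw [ha]; ring⟩ p (m0 + 1) hp
  choose! G hG using hm0
  have ha1 : (1 : ℝ) ≤ a := by
    have : 1 ≤ a := by omega
    exact_mod_cast this
  obtain ⟨ζ, n2, hζ, hslit⟩ := slit (ε * δ / 384) (δ / 16) (8 * a * η) (by positivity)
    (by positivity) (by positivity)
  obtain ⟨n1, hn1⟩ := exists_nat_gt (64 / δ)
  obtain ⟨M1, hM1⟩ := exists_nat_gt (12 ^ B * (2 / η))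
  obtain ⟨M2, hM2⟩ := exists_nat_gt (12 ^ B * (1 / ζ))
  refine ⟨M + M1 + M2 + 1, B, c0 * η ^ (4 / 3 : ℝ), E0, n0 + n1 + n2 + n9 + 1, by omega, hB,
    by positivity, hE0, ?_⟩
  intro n hn
  have hMa : 12 ^ B * (2 / η) ≤ ((M + M1 + M2 + 1 : ℕ) : ℝ) := by
    refine hM1.le.trans ?_
    have : M1 ≤ M + M1 + M2 + 1 := by omega
    exact_mod_cast this
  have hMb : 12 ^ B * (1 / ζ) ≤ ((M + M1 + M2 + 1 : ℕ) : ℝ) := by
    refine hM2.le.trans ?_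
    have : M2 ≤ M + M1 + M2 + 1 := by omega
    exact_mod_cast this
  have hnn0 : n0 ≤ n := by omega
  have hnn2 : n2 ≤ n := by omega
  have hnn1 : (n1 : ℝ) ≤ n := by
    have : n1 ≤ n := by omega
    exact_mod_cast this
  have hδn : 64 < δ * n := by
    rw [div_lt_iff₀ hδ] at hn1
    nlinarith
  obtain ⟨m1, hm1⟩ : ∃ m1 : ℕ, m1 = ⌊δ * n / 4⌋₊ := ⟨_, rfl⟩
  have m1a : (m1 : ℝ) ≤ δ * n / 4 := by rw [hm1]; exact Nat.floor_le (by positivity)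
  have m1b : δ * n / 4 < m1 + 1 := by rw [hm1]; exact Nat.lt_floor_add_one _
  set w : ℕ := m1 / 2 with hw
  have hw2 : m1 ≤ 2 * w + 1 := by omega
  have hw2' : (m1 : ℝ) ≤ 2 * w + 1 := by exact_mod_cast hw2
  have hδw : δ / 16 * n ≤ w := by linarith
  have hw1 : 1 ≤ w := by
    have : (4 : ℝ) < w := by linarith
    have h2 : (4 : ℕ) < w := by exact_mod_cast this
    omega
  have hnwR : (n : ℝ) ≤ 16 / δ * w := by
    rw [div_mul_eq_mul_div, le_div_iff₀ hδ]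
    linarith
  set S : Finset Edg := RE 0 n 0 n with hS
  -- lines
  set J : Finset ℤ := (Finset.Icc (1 : ℤ) ((n : ℤ) / w)).filter
    (fun j => (w : ℤ) ≤ w * j ∧ w * j ≤ n - w) with hJ
  have hJc : (J.card : ℝ) ≤ 16 / δ := by
    have h1 : J.card ≤ (Finset.Icc (1 : ℤ) ((n : ℤ) / w)).card := Finset.card_filter_le _ _
    rw [Int.card_Icc, add_sub_cancel_right] at h1
    have h2 : (((n : ℤ) / w).toNat : ℝ) ≤ (n : ℝ) / w := by
      rw [← Int.natCast_div, Int.toNat_natCast]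
      exact Nat.cast_div_le
    have h3 : (J.card : ℝ) ≤ (((n : ℤ) / w).toNat : ℝ) := by exact_mod_cast h1
    refine (h3.trans h2).trans ?_
    rw [div_le_iff₀ (by positivity)]
    exact hnwR
  set Bd : ℤ → Finset Edg → Prop := fun j F => BadL a (m0 + 1) η n w G (w * j) F ∨
    BadS (8 * a * η) ζ n w (w * j) F with hBd
  have hbad1 : ∀ j ∈ J, PQ (1 / 2) S (Bd j) ≤ ε * δ / 192 := by
    intro j hj
    rw [hJ, Finset.mem_filter] at hj
    have h1 := hn0 n hnn0 G (fun m hm => (hG m (by omega)).toGLc) (w * j) w hδw hj.2.1 hj.2.2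
    have h2 := hslit n hnn2 (w * j) w hδw hj.2.1 hj.2.2
    have h3 := Pr_or_le ok_half S (BadL a (m0 + 1) η n w G (w * j))
      (BadS (8 * a * η) ζ n w (w * j))
    have h4 : PQ (1 / 2) S (BadL a (m0 + 1) η n w G (w * j)) ≤ ε * δ / 384 := h1
    have h5 : PQ (1 / 2) S (BadS (8 * a * η) ζ n w (w * j)) ≤ ε * δ / 384 := h2
    have h6 : PQ (1 / 2) S (Bd j) ≤ PQ (1 / 2) S (BadL a (m0 + 1) η n w G (w * j)) +
      PQ (1 / 2) S (BadS (8 * a * η) ζ n w (w * j)) := h3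
    linarith
  have hbad2 : ∀ j ∈ J, PQ (1 / 2) S (fun F => Bd j (tps.mp F)) ≤ ε * δ / 192 := by
    intro j hj
    have h1 := LSym.pr tps (1 / 2) S (Bd j)
    have h2 : tps.mp S = S := by rw [hS, tps_RE]
    rw [h2] at h1
    unfold PQ
    rw [← h1]
    exact hbad1 j hj
  -- union bound
  have hall : PQ (1 / 2) S (fun F => ∃ v, Plain.Largest n F v ∧
      ¬ RichO t (c0 * η ^ (4 / 3 : ℝ)) E0 (M + M1 + M2 + 1) B n v (↑F : Set Edg)) ≤
      PQ (1 / 2) S (fun F => (¬ ∀ v, Plain.Largest n F v → ∃ x ∈ Plain.cluster F v,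
        ∃ y ∈ Plain.cluster F v, (δ0 * n) ^ 2 ≤ (Plain.sqDist x y : ℝ)) ∨
        ((∃ j ∈ J, Bd j F) ∨ ∃ j ∈ J, Bd j (tps.mp F))) := by
    refine Pr_mono ok_half fun F hF hbadF => ?_
    by_contra hcon
    push Not at hcon
    obtain ⟨hlar, hb1, hb2⟩ := hcon
    obtain ⟨v, hv, hnr⟩ := hbadF
    apply hnr
    have hvb : v ∈ Plain.box n := hv.1
    obtain ⟨x, hx, y, hy, h9⟩ := hlar v hv
    rw [Plain.mem_cluster] at hx hy
    have h9' : (δ * n) ^ 2 ≤ (Plain.sqDist x y : ℝ) := by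
      refine le_trans (pow_le_pow_left₀ (by positivity) ?_ 2) h9
      exact mul_le_mul_of_nonneg_right hδ2 (Nat.cast_nonneg n)
    have h10 : 2 * (m1 : ℤ) ≤ |x.1 - y.1| ∨ 2 * (m1 : ℤ) ≤ |x.2 - y.2| := by
      by_contra h11
      push Not at h11
      have k1 : (x.1 - y.1) ^ 2 ≤ (2 * (m1 : ℤ)) ^ 2 := by
        rw [← sq_abs (x.1 - y.1)]
        exact pow_le_pow_left₀ (abs_nonneg _) h11.1.le 2
      have k2 : (x.2 - y.2) ^ 2 ≤ (2 * (m1 : ℤ)) ^ 2 := by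
        rw [← sq_abs (x.2 - y.2)]
        exact pow_le_pow_left₀ (abs_nonneg _) h11.2.le 2
      have k3 : ((Plain.sqDist x y : ℤ) : ℝ) ≤ (8 * (m1 : ℤ) ^ 2 : ℤ) := by
        unfold Plain.sqDist
        have : (x.1 - y.1) ^ 2 + (x.2 - y.2) ^ 2 ≤ 8 * (m1 : ℤ) ^ 2 := by linarith
        exact_mod_cast this
      push_cast at k3
      have k4 : (m1 : ℝ) ^ 2 ≤ (δ * n / 4) ^ 2 := pow_le_pow_left₀ (by positivity) m1a 2
      nlinarith
    have main : ∀ (F : Finset Edg) (v x y : Vtx), F ⊆ RE 0 n 0 n → v ∈ Plain.box n →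
        Reach (↑F : Set Edg) v x → Reach (↑F : Set Edg) v y → 2 * (m1 : ℤ) ≤ |x.1 - y.1| →
        (∀ j ∈ J, ¬ Bd j F) →
        RichO t (c0 * η ^ (4 / 3 : ℝ)) E0 (M + M1 + M2 + 1) B n v (↑F : Set Edg) := by
      intro F v x y hF hv hx hy hd hb
      have hb' : ∀ j ∈ Finset.Icc (1 : ℤ) ((n : ℤ) / w), (w : ℤ) ≤ w * j → w * j ≤ n - w →
          ¬ BadL a (m0 + 1) η n w G (w * j) F ∧ ¬ BadS (8 * a * η) ζ n w (w * j) F := by
        intro j j1 j2 j3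
        exact not_or.1 (hb j (by rw [hJ, Finset.mem_filter]; exact ⟨j1, j2, j3⟩))
      rw [le_abs'] at hd
      rcases hd with hd | hd
      · exact rich_one ht1 (by omega) (by omega) hc0.le hE0.le hη hζ hB (by omega) (by omega) hMa
          hMb le_rfl (fun m hm => hG m (by omega)) hF (by omega) (m1 := m1) (by omega) hv hx hy
          (by omega) hb'
      · exact rich_one ht1 (by omega) (by omega) hc0.le hE0.le hη hζ hB (by omega) (by omega) hMa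
          hMb le_rfl (fun m hm => hG m (by omega)) hF (by omega) (m1 := m1) (by omega) hv hy hx
          (by omega) hb'
    rcases h10 with h10 | h10
    · exact main F v x y hF hvb hx hy h10 hb1
    · have hF' : tps.mp F ⊆ RE 0 n 0 n := by
        have := LSym.mp_mono tps hF
        rwa [tps_RE] at this
      have r1 : ∀ {c : Vtx}, Reach (↑F : Set Edg) v c →
          Reach (↑(tps.mp F) : Set Edg) (v.2, v.1) (c.2, c.1) := by
        intro c hc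
        rw [LSym.coe_mp]
        exact tps.reach hc
      exact RichO_tps (main (tps.mp F) (v.2, v.1) (x.2, x.1) (y.2, y.1) hF'
        (by rw [mem_box] at hvb ⊢; exact ⟨hvb.2, hvb.1⟩) (r1 hx) (r1 hy) h10 hb2)
  have h1 := Pr_or_le ok_half S (fun F => ¬ ∀ v, Plain.Largest n F v → ∃ x ∈ Plain.cluster F v,
        ∃ y ∈ Plain.cluster F v, (δ0 * n) ^ 2 ≤ (Plain.sqDist x y : ℝ))
    (fun F => (∃ j ∈ J, Bd j F) ∨ ∃ j ∈ J, Bd j (tps.mp F))
  have h2 := Pr_or_le ok_half S (fun F => ∃ j ∈ J, Bd j F) (fun F => ∃ j ∈ J, Bd j (tps.mp F))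
  have h3 := Pr_exists_le ok_half S J (fun j => Bd j)
  have h4 := Pr_exists_le ok_half S J (fun j F => Bd j (tps.mp F))
  have hsum : (J.card : ℝ) * (ε * δ / 192) ≤ ε / 4 := by
    calc (J.card : ℝ) * (ε * δ / 192) ≤ (16 / δ) * (ε * δ / 192) :=
          mul_le_mul_of_nonneg_right hJc (by positivity)
      _ = ε / 12 := by field_simp; ring
      _ ≤ ε / 4 := by linarith
  have h5 : ∑ j ∈ J, Pr (fun _ => (1 / 2 : ℝ)) S (Bd j) ≤ ε / 4 := by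
    refine (Finset.sum_le_sum hbad1).trans ?_
    rw [Finset.sum_const, nsmul_eq_mul]
    exact hsum
  have h6 : ∑ j ∈ J, Pr (fun _ => (1 / 2 : ℝ)) S (fun F => Bd j (tps.mp F)) ≤ ε / 4 := by
    refine (Finset.sum_le_sum hbad2).trans ?_
    rw [Finset.sum_const, nsmul_eq_mul]
    exact hsum
  have h7 := hbig n (by omega)
  unfold PQ at hall h7
  unfold PQ
  linarith

end Run7.h561
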