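import Pool.Agent.Run7.h561.TP.StmB
import Pool.Agent.Y989.FR.T_GEO

/-! # GEOB: the limit points lie on the outer boundary -/

set_option autoImplicit false

namespace Run7.h561

open Set Filter Topology Metric MeasureTheory H342L
open Pool.Agent.Y989.FR Pool.Agent.Y989.FR.GEO Pool.Agent.W424.OD

/-- The points outside of a ball which contains `K` are in the unbounded component. -/
theorem unb_of_far {K : Set ℂ} {R : ℝ} (hK : ∀ x ∈ K, ‖x‖ ≤ R) {u : ℂ} (hu : R < ‖u‖)
    (hR : 0 ≤ R) : u ∈ unb K := by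
  have hu0 : 0 < ‖u‖ := lt_of_le_of_lt hR hu
  set ray : Set ℂ := (fun s : ℝ => (s : ℂ) * u) '' Set.Ici 1 with hray
  have h1 : IsPreconnected ray := by
    refine isPreconnected_Ici.image _ ?_
    fun_prop
  have hnorm : ∀ s : ℝ, 1 ≤ s → ‖(s : ℂ) * u‖ = s * ‖u‖ := by
    intro s hs
    rw [norm_mul, Complex.norm_real, Real.norm_eq_abs, abs_of_nonneg (by linarith)]
  have h2 : ray ⊆ Kᶜ := by
    rintro _ ⟨s, hs, rfl⟩ hx
    have h3 := hK _ hx
    simp only at h3
    rw [hnorm s hs] at h3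
    have hs' : (1 : ℝ) ≤ s := hs
    nlinarith
  have hmem : u ∈ ray := ⟨1, Set.self_mem_Ici, by simp⟩
  have h3 : ray ⊆ connectedComponentIn Kᶜ u := h1.subset_connectedComponentIn hmem h2
  refine ⟨h2 hmem, fun hb => ?_⟩
  obtain ⟨C, hC⟩ := isBounded_iff_forall_norm_le.1 (hb.subset h3)
  have h4 := hC (((max 1 ((C + 1) / ‖u‖) : ℝ) : ℂ) * u) ⟨_, Set.mem_Ici.2 (le_max_left _ _), rfl⟩
  rw [hnorm _ (le_max_left _ _)] at h4
  have h5 : (C + 1) / ‖u‖ * ‖u‖ ≤ max 1 ((C + 1) / ‖u‖) * ‖u‖ :=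
    mul_le_mul_of_nonneg_right (le_max_right _ _) hu0.le
  rw [div_mul_cancel₀ _ hu0.ne'] at h5
  linarith

/-- As `Pool.Agent.Y989.FR.GEO.step`, with the position of the last point. -/
theorem stepB {M κ R : ℝ} {B : ℕ} {N : ℕ → ℕ} {f : C(unitInterval, ℂ)} {z : ℂ} (hM : 0 < M)
    (hκ : 0 < κ) (hQ : ∀ k : ℕ, (f, z) ∈ Qc M κ R (1 / ((k : ℝ) + 1)) B (N k)) {η : ℝ}
    (hη : 0 < η) (hηκ : η ≤ κ / 4) :
    ∃ u v : ℂ, κ - η ≤ dist u z ∧ dist v z ≤ 2 * η ∧ v ∈ (range f)ᶜ ∧
      connectedComponentIn (range f)ᶜ v = connectedComponentIn (range f)ᶜ u := by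
  have hηB : 0 < η ^ B := pow_pos hη B
  have hmη : 0 < η ^ B / (2 * M) := by positivity
  obtain ⟨k, hk⟩ := exists_nat_one_div_lt (lt_min (lt_min (half_pos hηB) hmη) (lt_min hη
    (half_pos hκ)))
  set e : ℝ := 1 / ((k : ℝ) + 1) with he
  have he1 : e < η ^ B / 2 := hk.trans_le ((min_le_left _ _).trans (min_le_left _ _))
  have he2 : e < η ^ B / (2 * M) := hk.trans_le ((min_le_left _ _).trans (min_le_right _ _))
  have he3 : e < η := hk.trans_le ((min_le_right _ _).trans (min_le_left _ _))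
  have he4 : e < κ / 2 := hk.trans_le ((min_le_right _ _).trans (min_le_right _ _))
  have hQk := hQ k
  rw [← he] at hQk
  generalize N k = n at hQk
  obtain ⟨-, -, x, hxR, hx0, hxN, hxs, hxd⟩ := hQk
  replace hx0 : dist (x 0) z ≤ e := hx0
  replace hxN : κ ≤ dist (x (Fin.last n)) z + e := hxN
  replace hxd : ∀ i s, dist (x i) z ^ B ≤ M * dist (x i) (f s) + e := hxd
  -- the chain with natural indices
  let X : ℕ → ℂ := fun i => x ⟨min i n, by omega⟩
  have hX0 : X 0 = x 0 := congrArg x (Fin.ext (Nat.zero_min n))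
  have hXN : X n = x (Fin.last n) := congrArg x (Fin.ext (min_self n))
  have hXs : ∀ i, i < n → dist (X i) (X (i + 1)) ≤ e := by
    intro i hi
    have h1 := hxs ⟨i, hi⟩
    have e1 : X i = x (Fin.castSucc ⟨i, hi⟩) := congrArg x (Fin.ext (min_eq_left hi.le))
    have e2 : X (i + 1) = x (Fin.succ ⟨i, hi⟩) := congrArg x (Fin.ext (min_eq_left hi))
    rw [e1, e2]
    exact h1
  have hXd : ∀ i s, dist (X i) z ^ B ≤ M * dist (X i) (f s) + e := fun i s => hxd _ s
  -- points away from `z`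
  have away : ∀ (i : ℕ) (ρ : ℝ), 0 < ρ → η ≤ ρ → ρ ≤ dist (X i) z →
      ball (X i) (ρ ^ B / (2 * M)) ⊆ (range f)ᶜ := by
    intro i ρ hρ hηρ hi
    apply GEO.ball_sub
    rintro _ ⟨s, rfl⟩
    have h1 := hXd i s
    have h2 : ρ ^ B ≤ dist (X i) z ^ B := pow_le_pow_left₀ hρ.le hi B
    have h3 : η ^ B ≤ ρ ^ B := pow_le_pow_left₀ hη.le hηρ B
    rw [div_le_iff₀ (by positivity)]
    linarith
  have hP0 : dist (X 0) z < η := by
    rw [hX0]
    exact hx0.trans_lt he3
  have hPN : ¬ dist (X n) z < η := by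
    rw [hXN]
    intro h
    linarith
  obtain ⟨j, hj, hPj, hPi⟩ := last_index (P := fun i => dist (X i) z < η) hP0 hPN
  have hcomp : ∀ i, j < i → i ≤ n →
      connectedComponentIn (range f)ᶜ (X (j + 1)) = connectedComponentIn (range f)ᶜ (X i) := by
    intro i hi
    induction i, hi using Nat.le_induction with
    | base => intro _; rfl
    | succ i hi ih =>
      intro hin
      rw [ih (by omega)]
      refine comp_eq hmη (away i η hη le_rfl (not_lt.1 (hPi i hi (by omega)))) ?_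
      exact (hXs i (by omega)).trans_lt he2
  have hjmem : X (j + 1) ∈ (range f)ᶜ :=
    away (j + 1) η hη le_rfl (not_lt.1 (hPi (j + 1) (by omega) (by omega))) (mem_ball_self hmη)
  refine ⟨X n, X (j + 1), ?_, ?_, hjmem, hcomp n hj le_rfl⟩
  · rw [hXN]
    linarith
  · have h1 := dist_triangle (X (j + 1)) (X j) z
    have h2 := hXs j hj
    rw [dist_comm] at h2
    linarith

theorem t_GEOB : S_GEOB := by
  intro M κ R B N f z hM hκ _ hf hQ
  set K : Set ℂ := range f with hK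
  have hKc : IsCompact K := isCompact_range f.continuous
  have hz : z ∈ K := by
    rw [← hKc.isClosed.closure_eq, Metric.mem_closure_iff]
    intro ε hε
    obtain ⟨k, hk⟩ := exists_nat_one_div_lt hε
    obtain ⟨-, ⟨s, hs⟩, -⟩ := hQ k
    refine ⟨f s, mem_range_self s, ?_⟩
    rw [dist_comm]
    exact hs.trans_lt hk
  have hK2 : ∀ x ∈ K, ‖x‖ ≤ 2 := by
    rintro _ ⟨s, rfl⟩
    exact hf s
  have hcl : z ∈ closure (unb K) := by
    rw [Metric.mem_closure_iff]
    intro ε hε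
    obtain ⟨u, v, hu1, hv1, hv2, huv⟩ := stepB hM (by linarith) hQ
      (lt_min (by linarith : (0 : ℝ) < κ / 4) (by positivity : (0 : ℝ) < ε / 4))
      (min_le_left _ _)
    have h3 : min (κ / 4) (ε / 4) ≤ ε / 4 := min_le_right _ _
    have h4 : min (κ / 4) (ε / 4) ≤ κ / 4 := min_le_left _ _
    have h5 : u ∈ unb K := by
      refine unb_of_far hK2 ?_ (by norm_num)
      have h6 : dist u z ≤ ‖u‖ + ‖z‖ := by
        rw [dist_eq_norm]
        exact norm_sub_le _ _
      have h7 := hK2 z hz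
      linarith
    refine ⟨v, ⟨hv2, ?_⟩, ?_⟩
    · rw [huv]
      exact h5.2
    · rw [dist_comm]
      linarith
  refine ⟨hcl, fun h => ?_⟩
  exact (interior_subset h).1 hz

end Run7.h561
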