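import Pool.Agent.Run7.h561.TP.Stm

/-! # Tools: sup distance, paths, restrictions -/

set_option autoImplicit false

namespace Run7.h561

open H974 H12S Finset H984P H984N

/-! ### Sup distance -/

theorem sd_le {u v : Vtx} {k : ℤ} :
    sd u v ≤ k ↔ (u.1 - v.1 ≤ k ∧ v.1 - u.1 ≤ k) ∧ (u.2 - v.2 ≤ k ∧ v.2 - u.2 ≤ k) := by
  unfold sd
  rw [max_le_iff, abs_le, abs_le]
  constructor <;> rintro ⟨⟨h1, h2⟩, h3, h4⟩ <;> refine ⟨⟨?_, ?_⟩, ?_, ?_⟩ <;> omega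

theorem le_sd {u v : Vtx} {k : ℤ} :
    k ≤ sd u v ↔ (k ≤ u.1 - v.1 ∨ k ≤ v.1 - u.1) ∨ (k ≤ u.2 - v.2 ∨ k ≤ v.2 - u.2) := by
  unfold sd
  rw [le_max_iff, le_abs', le_abs']
  constructor
  · rintro ((h | h) | h | h)
    · left; right; omega
    · left; left; omega
    · right; right; omega
    · right; left; omega
  · rintro ((h | h) | h | h)
    · left; right; omega
    · left; left; omega
    · right; right; omega
    · right; left; omega

theorem sd_lt {u v : Vtx} {k : ℤ} :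
    sd u v < k ↔ (u.1 - v.1 < k ∧ v.1 - u.1 < k) ∧ (u.2 - v.2 < k ∧ v.2 - u.2 < k) := by
  rw [← not_le, le_sd]
  constructor
  · intro h
    refine ⟨⟨?_, ?_⟩, ?_, ?_⟩ <;> (by_contra h1; exact h (by omega))
  · intro h h1; omega

theorem lt_sd {u v : Vtx} {k : ℤ} :
    k < sd u v ↔ (k < u.1 - v.1 ∨ k < v.1 - u.1) ∨ (k < u.2 - v.2 ∨ k < v.2 - u.2) := by
  rw [← not_le, sd_le]
  constructor
  · intro h; by_contra h1; exact h (by omega)
  · intro h h1; omega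

theorem sd_nonneg (u v : Vtx) : 0 ≤ sd u v := le_max_of_le_left (abs_nonneg _)

theorem sd_comm (u v : Vtx) : sd u v = sd v u := by
  unfold sd
  rw [abs_sub_comm u.1, abs_sub_comm u.2]

theorem sd_tri (u v w : Vtx) : sd u w ≤ sd u v + sd v w := by
  have h1 := sd_le.1 (le_refl (sd u v))
  have h2 := sd_le.1 (le_refl (sd v w))
  rw [sd_le]
  omega

theorem mem_ctr {z : Vtx} {a : ℕ} {v : Vtx} : v ∈ ctr z a ↔ sd v z ≤ a := by
  unfold ctr
  rw [Finset.mem_product, Finset.mem_Icc, Finset.mem_Icc, sd_le]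
  constructor <;> intro h <;> refine ⟨⟨?_, ?_⟩, ?_, ?_⟩ <;> omega

theorem inR_iff {c : ℤ × ℤ} {k : ℕ} {v : Vtx} :
    inR (c.1 - k) (c.1 + k) (c.2 - k) (c.2 + k) v ↔ sd v c ≤ k := by
  unfold inR
  rw [sd_le]
  constructor <;> intro h <;> refine ⟨⟨?_, ?_⟩, ?_, ?_⟩ <;> omega

theorem mem_bdB {c : ℤ × ℤ} {k : ℕ} {v : Vtx} : v ∈ bdB c k ↔ sd v c = k := by
  unfold bdB sd
  rw [Set.mem_setOf_eq]
  constructor
  · rintro ⟨h1, h2, h3 | h3⟩
    · rw [h3]; exact max_eq_left h2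
    · rw [h3]; exact max_eq_right h1
  · intro h
    have h1 : |v.1 - c.1| ≤ k := by rw [← h]; exact le_max_left _ _
    have h2 : |v.2 - c.2| ≤ k := by rw [← h]; exact le_max_right _ _
    refine ⟨h1, h2, ?_⟩
    rcases max_choice |v.1 - c.1| |v.2 - c.2| with h3 | h3
    · left; rw [← h, h3]
    · right; rw [← h, h3]

theorem far_iff {c : ℤ × ℤ} {R : ℕ} {y : Vtx} : BSfar c R y ↔ (R : ℤ) ≤ sd y c := by
  unfold BSfar
  rw [le_sd]
  constructor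
  · rintro (h | h | h | h)
    · left; right; omega
    · left; left; omega
    · right; right; omega
    · right; left; omega
  · rintro ((h | h) | h | h)
    · right; left; omega
    · left; omega
    · right; right; right; omega
    · right; right; left; omega

/-! ### Edges -/

/-- The ends of an edge differ by one in one coordinate. -/
theorem src_tgt (e : Edg) : ((tgt e).1 = (src e).1 + 1 ∧ (tgt e).2 = (src e).2) ∨
    ((tgt e).1 = (src e).1 ∧ (tgt e).2 = (src e).2 + 1) := by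
  obtain ⟨x, y, _ | _⟩ := e
  · right; simp
  · left; simp

theorem mem_RE {a b c d : ℤ} {e : Edg} :
    e ∈ RE a b c d ↔ inR a b c d (src e) ∧ inR a b c d (tgt e) := by
  obtain ⟨x, y, _ | _⟩ := e
  · simp only [mem_RE_false, inR, src_mk, tgt_false]
    constructor <;> intro h <;> omega
  · simp only [mem_RE_true, inR, src_mk, tgt_true]
    constructor <;> intro h <;> omega

theorem mem_blk {c : ℤ × ℤ} {k : ℕ} {e : Edg} :
    e ∈ blk c k ↔ sd (src e) c ≤ k ∧ sd (tgt e) c ≤ k := by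
  unfold blk
  rw [mem_RE, inR_iff, inR_iff]

theorem boxE_eq (n : ℕ) : boxE n = blk (0, 0) n := by
  unfold boxE blk
  congr 1 <;> simp

theorem mem_boxE {n : ℕ} {e : Edg} :
    e ∈ boxE n ↔ sd (src e) (0, 0) ≤ n ∧ sd (tgt e) (0, 0) ≤ n := by
  rw [boxE_eq, mem_blk]

theorem blk_mono {c : ℤ × ℤ} {k l : ℕ} (h : k ≤ l) : blk c k ⊆ blk c l := by
  intro e he
  rw [mem_blk] at he ⊢
  have : (k : ℤ) ≤ l := by exact_mod_cast h
  omega

/-- The two ends of an edge are at sup distance at most one. -/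
theorem sd_ends (e : Edg) : sd (src e) (tgt e) ≤ 1 := by
  rw [sd_le]
  have := src_tgt e
  omega

theorem Adj.ends {G : Set Edg} {u v : Vtx} (h : Adj G u v) :
    ∃ e ∈ G, (src e = u ∧ tgt e = v) ∨ (src e = v ∧ tgt e = u) := h

theorem adj_step {G : Set Edg} {u v : Vtx} (h : Adj G u v) :
    (v.1 = u.1 + 1 ∧ v.2 = u.2) ∨ (v.1 = u.1 - 1 ∧ v.2 = u.2) ∨ (v.1 = u.1 ∧ v.2 = u.2 + 1) ∨
      (v.1 = u.1 ∧ v.2 = u.2 - 1) := by
  obtain ⟨e, -, ⟨rfl, rfl⟩ | ⟨rfl, rfl⟩⟩ := h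
  · have := src_tgt e
    omega
  · have := src_tgt e
    omega

theorem adj_sd {G : Set Edg} {u v : Vtx} (h : Adj G u v) : sd u v ≤ 1 := by
  rw [sd_le]
  have := adj_step h
  omega

theorem adj_sd' {G : Set Edg} {u v : Vtx} (h : Adj G u v) (c : Vtx) :
    sd v c ≤ sd u c + 1 ∧ sd u c ≤ sd v c + 1 := by
  have h1 := adj_sd h
  have h2 := sd_tri v u c
  have h3 := sd_tri u v c
  rw [sd_comm v u] at h2
  omega

/-! ### Paths -/

theorem reach_inv {G : Set Edg} {P : Vtx → Prop} (hP : ∀ x y, P x → Adj G x y → P y) {u v : Vtx}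
    (h : Reach G u v) (hu : P u) : P v := by
  induction h with
  | refl => exact hu
  | tail _ h2 ih => exact hP _ _ ih h2

/-- First visit of `A`. -/
theorem first_hit {G : Set Edg} (A : Set Vtx) {u v : Vtx} (h : Reach G u v) (hu : u ∉ A)
    (hv : v ∈ A) : ∃ w' w, w ∈ A ∧ w' ∉ A ∧ Adj G w' w ∧
      Reach {e | e ∈ G ∧ src e ∉ A ∧ tgt e ∉ A} u w' ∧ Reach G w v := by
  have key : ∀ x, Reach G u x → (∃ w' w, w ∈ A ∧ w' ∉ A ∧ Adj G w' w ∧
      Reach {e | e ∈ G ∧ src e ∉ A ∧ tgt e ∉ A} u w' ∧ Reach G w x) ∨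
      (x ∉ A ∧ Reach {e | e ∈ G ∧ src e ∉ A ∧ tgt e ∉ A} u x) := by
    intro x hx
    induction hx with
    | refl => exact Or.inr ⟨hu, Reach.refl _ _⟩
    | @tail y z _ h2 ih =>
      rcases ih with ⟨w', w, a1, a2, a3, a4, a5⟩ | ⟨a1, a2⟩
      · exact Or.inl ⟨w', w, a1, a2, a3, a4, a5.trans (Adj.reach h2)⟩
      · by_cases hz : z ∈ A
        · exact Or.inl ⟨y, z, hz, a1, h2, a2, Reach.refl _ _⟩
        · right
          refine ⟨hz, a2.trans (Adj.reach ?_)⟩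
          obtain ⟨e, he, ⟨rfl, rfl⟩ | ⟨rfl, rfl⟩⟩ := h2
          · exact ⟨e, ⟨he, a1, hz⟩, Or.inl ⟨rfl, rfl⟩⟩
          · exact ⟨e, ⟨he, hz, a1⟩, Or.inr ⟨rfl, rfl⟩⟩
  rcases key v h with h1 | h1
  · exact h1
  · exact absurd hv h1.1

/-- Last visit of `A`. -/
theorem last_hit {G : Set Edg} (A : Set Vtx) {u v : Vtx} (h : Reach G u v) (hu : u ∈ A)
    (hv : v ∉ A) : ∃ w w', w ∈ A ∧ w' ∉ A ∧ Adj G w w' ∧
      Reach {e | e ∈ G ∧ src e ∉ A ∧ tgt e ∉ A} w' v ∧ Reach G u w := by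
  obtain ⟨w', w, a1, a2, a3, a4, a5⟩ := first_hit A h.symm hv hu
  exact ⟨w, w', a1, a2, a3.symm, a4.symm, a5.symm⟩

/-- Edges with an end in the complement of a set, followed from the last visit. -/
theorem last_hit' {G : Set Edg} (A : Set Vtx) {u v : Vtx} (h : Reach G u v) (hu : u ∈ A)
    (hv : v ∉ A) : ∃ w, w ∈ A ∧ Reach {e | e ∈ G ∧ ¬ (src e ∈ A ∧ tgt e ∈ A)} w v ∧
      Reach G u w := by
  obtain ⟨w, w', a1, a2, a3, a4, a5⟩ := last_hit A h hu hv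
  refine ⟨w, a1, Reach.trans (Adj.reach ?_) (a4.mono ?_), a5⟩
  · obtain ⟨e, he, ⟨rfl, rfl⟩ | ⟨rfl, rfl⟩⟩ := a3
    · exact ⟨e, ⟨he, fun h => a2 h.2⟩, Or.inl ⟨rfl, rfl⟩⟩
    · exact ⟨e, ⟨he, fun h => a2 h.1⟩, Or.inr ⟨rfl, rfl⟩⟩
  · rintro e ⟨b1, b2, b3⟩
    exact ⟨b1, fun h => b2 h.1⟩

theorem first_hit' {G : Set Edg} (A : Set Vtx) {u v : Vtx} (h : Reach G u v) (hu : u ∉ A)
    (hv : v ∈ A) : ∃ w, w ∈ A ∧ Reach {e | e ∈ G ∧ ¬ (src e ∈ A ∧ tgt e ∈ A)} u w ∧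
      Reach G w v := by
  obtain ⟨w, a1, a2, a3⟩ := last_hit' A h.symm hv hu
  exact ⟨w, a1, a2.symm, a3.symm⟩

/-- The first vertex at level `≥ k`: the path before stays below. -/
theorem first_level {G : Set Edg} (c : Vtx) (k : ℤ) {u v : Vtx} (h : Reach G u v)
    (hu : sd u c ≤ k) (hv : k ≤ sd v c) : ∃ w, sd w c = k ∧
      Reach {e | e ∈ G ∧ sd (src e) c ≤ k ∧ sd (tgt e) c ≤ k} u w ∧ Reach G w v := by
  by_cases h1 : sd u c = k
  · exact ⟨u, h1, Reach.refl _ _, h⟩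
  have hu' : u ∉ {x : Vtx | k ≤ sd x c} := by
    simp only [Set.mem_setOf_eq, not_le]; omega
  obtain ⟨w', w, a1, a2, a3, a4, a5⟩ := first_hit {x : Vtx | k ≤ sd x c} h hu' hv
  simp only [Set.mem_setOf_eq, not_le] at a1 a2 a4
  have h3 := adj_sd' a3 c
  refine ⟨w, by omega, ?_, a5⟩
  refine Reach.trans (a4.mono ?_) (Adj.reach ?_)
  · rintro e ⟨b1, b2, b3⟩
    exact ⟨b1, b2.le, b3.le⟩
  · obtain ⟨e, he, ⟨rfl, rfl⟩ | ⟨rfl, rfl⟩⟩ := a3
    · exact ⟨e, ⟨he, by omega, by omega⟩, Or.inl ⟨rfl, rfl⟩⟩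
    · exact ⟨e, ⟨he, by omega, by omega⟩, Or.inr ⟨rfl, rfl⟩⟩

/-- The last vertex at level `≤ k`: the path after it uses edges with an end above. -/
theorem last_level {G : Set Edg} (c : Vtx) (k : ℤ) {u v : Vtx} (h : Reach G u v)
    (hu : sd u c ≤ k) (hv : k ≤ sd v c) : ∃ w, sd w c = k ∧
      Reach {e | e ∈ G ∧ ¬ (sd (src e) c ≤ k ∧ sd (tgt e) c ≤ k)} w v ∧ Reach G u w := by
  by_cases h1 : sd v c = k
  · exact ⟨v, h1, Reach.refl _ _, h⟩
  have hv' : v ∉ {x : Vtx | sd x c ≤ k} := by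
    simp only [Set.mem_setOf_eq, not_le]; omega
  obtain ⟨w, w', a1, a2, a3, a4, a5⟩ := last_hit {x : Vtx | sd x c ≤ k} h hu hv'
  simp only [Set.mem_setOf_eq, not_le] at a1 a2 a4
  have h3 := adj_sd' a3 c
  refine ⟨w, by omega, ?_, a5⟩
  refine Reach.trans (Adj.reach ?_) (a4.mono ?_)
  · obtain ⟨e, he, ⟨rfl, rfl⟩ | ⟨rfl, rfl⟩⟩ := a3
    · exact ⟨e, ⟨he, by omega⟩, Or.inl ⟨rfl, rfl⟩⟩
    · exact ⟨e, ⟨he, by omega⟩, Or.inr ⟨rfl, rfl⟩⟩
  · rintro e ⟨b1, b2, b3⟩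
    exact ⟨b1, by omega⟩

/-- Crossing of an annulus: a path from distance `≤ d` to distance `≥ k` contains a path of edges in
the box of radius `k` which are not in the box of radius `d`. -/
theorem cross_ann {G : Set Edg} (c : Vtx) {d k : ℤ} (hdk : d ≤ k) {u v : Vtx} (h : Reach G u v)
    (hu : sd u c ≤ d) (hv : k ≤ sd v c) : ∃ w w', sd w c = d ∧ sd w' c = k ∧
      Reach {e | e ∈ G ∧ (sd (src e) c ≤ k ∧ sd (tgt e) c ≤ k) ∧
        ¬ (sd (src e) c ≤ d ∧ sd (tgt e) c ≤ d)} w w' ∧ Reach G u w ∧ Reach G w' v := by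
  obtain ⟨w', a1, a2, a3⟩ := first_level c k h (by omega) hv
  obtain ⟨w, b1, b2, b3⟩ := last_level c d a2 hu (by omega)
  refine ⟨w, w', b1, a1, b2.mono ?_, b3.mono ?_, a3⟩
  · rintro e ⟨⟨h1, h2⟩, h3⟩
    exact ⟨h1, h2, h3⟩
  · rintro e ⟨h1, h2⟩
    exact h1

/-- Vertices reached by edges with both ends in `A`. -/
theorem reach_mem {G : Set Edg} {A : Set Vtx} (hG : ∀ e ∈ G, src e ∈ A ∧ tgt e ∈ A) {u v : Vtx}
    (h : Reach G u v) (hu : u ∈ A) : v ∈ A := by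
  refine reach_inv (P := fun x => x ∈ A) ?_ h hu
  rintro x y - ⟨e, he, ⟨rfl, rfl⟩ | ⟨rfl, rfl⟩⟩
  · exact (hG e he).2
  · exact (hG e he).1

/-- Either `u = v` or the first edge of the path is in `G`. -/
theorem reach_cases {G : Set Edg} {u v : Vtx} (h : Reach G u v) :
    u = v ∨ ∃ w, Adj G u w ∧ Reach G w v := by
  rcases Relation.ReflTransGen.cases_head h with h1 | ⟨w, h1, h2⟩
  · exact Or.inl h1
  · exact Or.inr ⟨w, h1, h2⟩

/-- Reaching a vertex: all the vertices of the path are reached. Restriction of the edges to those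
with both ends reached. -/
theorem reach_restrict {G : Set Edg} {u v : Vtx} (h : Reach G u v) :
    Reach {e | e ∈ G ∧ Reach G u (src e) ∧ Reach G u (tgt e)} u v := by
  induction h with
  | refl => exact Reach.refl _ _
  | @tail y z h1 h2 ih =>
    refine ih.trans (Adj.reach ?_)
    have h3 : Reach G u z := Reach.trans h1 (Adj.reach h2)
    obtain ⟨e, he, ⟨rfl, rfl⟩ | ⟨rfl, rfl⟩⟩ := h2
    · exact ⟨e, ⟨he, h1, h3⟩, Or.inl ⟨rfl, rfl⟩⟩
    · exact ⟨e, ⟨he, h3, h1⟩, Or.inr ⟨rfl, rfl⟩⟩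

/-- Strengthening the edge set along the path by an invariant. -/
theorem reach_restrict' {G : Set Edg} {P : Vtx → Prop} {u v : Vtx} (h : Reach G u v)
    (hP : ∀ x, Reach G u x → P x) :
    Reach {e | e ∈ G ∧ P (src e) ∧ P (tgt e)} u v := by
  refine (reach_restrict h).mono ?_
  rintro e ⟨h1, h2, h3⟩
  exact ⟨h1, hP _ h2, hP _ h3⟩

theorem crs_iff {c1 c2 : ℤ} {r R : ℕ} {F : Set Edg} :
    Crs c1 c2 r R F ↔ ∃ x y : Vtx, sd x (c1, c2) ≤ r ∧ (R : ℤ) ≤ sd y (c1, c2) ∧ Reach F x y := by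
  unfold Crs
  constructor
  · rintro ⟨x, y, h1, h2, h3⟩
    exact ⟨x, y, (inR_iff (c := (c1, c2))).1 h1, (far_iff (c := (c1, c2))).1 h2, h3⟩
  · rintro ⟨x, y, h1, h2, h3⟩
    exact ⟨x, y, (inR_iff (c := (c1, c2))).2 h1, (far_iff (c := (c1, c2))).2 h2, h3⟩

/-- No crossing of a closed cell: the cluster of a far vertex does not meet the inner square. -/
theorem bsd_avoid {q : ℤ × ℤ} {k : ℕ} {F : Finset Edg} (h : BSD q k F) {x y : Vtx}
    (hx : sd x q ≤ k) (hy : (3 * k : ℤ) ≤ sd y q) : ¬ Reach (↑F : Set Edg) x y := by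
  intro h1
  exact h (crs_iff.2 ⟨x, y, hx, by push_cast; exact hy, h1⟩)

/-- Monotonicity of `Cu`. -/
theorem Cu_mono {F G : Set Edg} (h : F ⊆ G) (u : Vtx) : Cu F u ⊆ Cu G u := fun _ hx =>
  Reach.mono h hx

theorem mem_Cu_of_adj {F : Set Edg} {u x y : Vtx} (h : x ∈ Cu F u) (h1 : Adj F x y) :
    y ∈ Cu F u := Reach.trans h (Adj.reach h1)

theorem Cu_eq_of_mem {F : Set Edg} {u x : Vtx} (h : x ∈ Cu F u) : Cu F x = Cu F u := by
  ext y
  exact ⟨fun h1 => Reach.trans h h1, fun h1 => Reach.trans (Reach.symm h) h1⟩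

end Run7.h561
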