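import Pool.Agent.Run7.h561.TP.StmB
import Pool.Agent.Run7.h561.TP.Tools
import Pool.Agent.Run7.h561.TP.P_LGC
import Pool.Agent.Run7.h561.TP.P_GEOB
import Pool.Agent.W822.PD.LL
import Pool.Agent.H342R3.Lim.CPT
import Pool.Agent.H342R3.Lim.TOPA

/-! # LIMB: the lower bound for the limits, from the discrete lower bound -/

set_option autoImplicit false

namespace Run7.h561

open H974 H12S Finset H389NS H984P H984N H342P H342L H342T
open MeasureTheory Filter Topology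
open Pool.Agent.H389R2.Dim Pool.Agent.W822.PD Pool.Agent.W424.OD
open Pool.Agent.Y989.FR (Qc S_QC S_CHN)
open scoped ENNReal NNReal

/-! ### The body of a cluster -/

theorem LB_cl_ends {F : Finset Plain.Edge} {v : ℤ × ℤ} {e : Plain.Edge}
    (he : e ∈ Plain.clusterEdges F v) :
    Plain.fst e ∈ Plain.cluster F v ∧ Plain.snd e ∈ Plain.cluster F v := by
  refine ⟨he.2, ?_⟩
  have h := he.2
  rw [Plain.mem_cluster] at h ⊢
  refine Relation.ReflTransGen.tail h ⟨e, ?_, Or.inl ⟨rfl, ?_⟩⟩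
  · exact_mod_cast he.1
  · rw [Plain.snd_eq]

theorem LB_seg_compl {n : ℕ} (hn : 0 < n) {F : Finset Plain.Edge} {v : ℤ × ℤ} {g : Plain.Edge}
    (h1 : Plain.fst g ∉ Plain.cluster F v) (h2 : Plain.snd g ∉ Plain.cluster F v) :
    seg n g ⊆ (body n F v)ᶜ := by
  obtain ⟨x, y, t⟩ := g
  intro z hz hb
  have key : ∀ a b : ℤ, (a, b) ∈ Plain.cluster F v → (a, b) ≠ Plain.fst (x, y, t) ∧
      (a, b) ≠ Plain.snd (x, y, t) := by
    intro a b hab
    exact ⟨fun h => h1 (h ▸ hab), fun h => h2 (h ▸ hab)⟩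
  have cast1 : ∀ {r : ℝ} {a b : ℤ}, r = a → r = b → a = b := by
    intro r a b h1 h2
    have : (a : ℝ) = b := h1.symm.trans h2
    exact_mod_cast this
  have cast2 : ∀ {r : ℝ} {a b : ℤ}, r = a → (b : ℝ) ≤ r → r ≤ b + 1 → b ≤ a ∧ a ≤ b + 1 := by
    intro r a b h1 h2 h3
    subst h1
    exact ⟨by exact_mod_cast h2, by exact_mod_cast h3⟩
  have cast3 : ∀ {r : ℝ} {a b : ℤ}, (a : ℝ) ≤ r → r ≤ a + 1 → (b : ℝ) ≤ r → r ≤ b + 1 →
      b ≤ a + 1 ∧ a ≤ b + 1 := by
    intro r a b h1 h2 h3 h4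
    have h5 : (b : ℝ) ≤ a + 1 := h3.trans h2
    have h6 : (a : ℝ) ≤ b + 1 := h1.trans h4
    exact ⟨by exact_mod_cast h5, by exact_mod_cast h6⟩
  rcases TOPA_body hn hb with ⟨⟨a, b⟩, hw, hw1, hw2⟩ | ⟨⟨a, b, s⟩, he, hh⟩
  · obtain ⟨k1, k2⟩ := key a b hw
    rcases TOPA_seg hn _ hz with ⟨ht, g1, g2, g3⟩ | ⟨ht, g1, g2, g3⟩
    · simp only at ht g1 g2 g3 hw1 hw2
      subst ht
      have e1 := cast1 hw2 g1
      have e2 := cast2 hw1 g2 g3
      simp only [Plain.fst, Plain.snd, if_true, ne_eq, Prod.mk.injEq, not_and] at k1 k2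
      by_cases h : a = x
      · exact k1 h e1
      · exact k2 (by omega) e1
    · simp only at ht g1 g2 g3 hw1 hw2
      subst ht
      have e1 := cast1 hw1 g1
      have e2 := cast2 hw2 g2 g3
      simp only [Plain.fst, Plain.snd, Bool.false_eq_true, if_false, ne_eq, Prod.mk.injEq,
        not_and] at k1 k2
      by_cases h : b = y
      · exact k1 e1 h
      · exact k2 e1 (by omega)
  · obtain ⟨c1, c2⟩ := LB_cl_ends he
    rcases hh with ⟨hs, p1, p2, p3⟩ | ⟨hs, p1, p2, p3⟩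
    · simp only at hs p1 p2 p3
      subst hs
      simp only [Plain.fst, Plain.snd, if_true] at c1 c2
      obtain ⟨k1, k2⟩ := key _ _ c1
      obtain ⟨k3, k4⟩ := key _ _ c2
      rcases TOPA_seg hn _ hz with ⟨ht, g1, g2, g3⟩ | ⟨ht, g1, g2, g3⟩
      · simp only at ht g1 g2 g3
        subst ht
        have e1 := cast1 p1 g1
        have e2 := cast3 p2 p3 g2 g3
        simp only [Plain.fst, Plain.snd, if_true, ne_eq, Prod.mk.injEq, not_and] at k1 k2 k3 k4
        omega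
      · simp only at ht g1 g2 g3
        subst ht
        have e1 := cast2 g1 p2 p3
        have e2 := cast2 p1 g2 g3
        simp only [Plain.fst, Plain.snd, Bool.false_eq_true, if_false, ne_eq, Prod.mk.injEq,
          not_and] at k1 k2 k3 k4
        omega
    · simp only at hs p1 p2 p3
      subst hs
      simp only [Plain.fst, Plain.snd, Bool.false_eq_true, if_false] at c1 c2
      obtain ⟨k1, k2⟩ := key _ _ c1
      obtain ⟨k3, k4⟩ := key _ _ c2
      rcases TOPA_seg hn _ hz with ⟨ht, g1, g2, g3⟩ | ⟨ht, g1, g2, g3⟩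
      · simp only at ht g1 g2 g3
        subst ht
        have e1 := cast2 g1 p2 p3
        have e2 := cast2 p1 g2 g3
        simp only [Plain.fst, Plain.snd, if_true, ne_eq, Prod.mk.injEq, not_and] at k1 k2 k3 k4
        omega
      · simp only at ht g1 g2 g3
        subst ht
        have e1 := cast1 p1 g1
        have e2 := cast3 p2 p3 g2 g3
        simp only [Plain.fst, Plain.snd, Bool.false_eq_true, if_false, ne_eq, Prod.mk.injEq,
          not_and] at k1 k2 k3 k4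
        omega

/-- Distances of scaled lattice points. -/
theorem LB_pt_le {n : ℕ} (hn : 0 < n) (v w : Vtx) :
    dist (pt n v) (pt n w) ≤ 2 * (((sd v w : ℤ) : ℝ) / n) := by
  have hn' : (0:ℝ) < n := by exact_mod_cast hn
  rw [sd_castR, dist_eq_norm]
  have e1 : |(pt n v - pt n w).re| = |((v.1 : ℝ) - w.1)| / n := by
    rw [Complex.sub_re]
    simp only [pt]
    rw [← sub_div, abs_div, Nat.abs_cast]
  have e2 : |(pt n v - pt n w).im| = |((v.2 : ℝ) - w.2)| / n := by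
    rw [Complex.sub_im]
    simp only [pt]
    rw [← sub_div, abs_div, Nat.abs_cast]
  refine (Complex.norm_le_abs_re_add_abs_im _).trans ?_
  rw [e1, e2]
  have h1 : |((v.1 : ℝ) - w.1)| / n ≤ max |((v.1 : ℝ) - w.1)| |((v.2 : ℝ) - w.2)| / n :=
    div_le_div_of_nonneg_right (le_max_left _ _) hn'.le
  have h2 : |((v.2 : ℝ) - w.2)| / n ≤ max |((v.1 : ℝ) - w.1)| |((v.2 : ℝ) - w.2)| / n :=
    div_le_div_of_nonneg_right (le_max_right _ _) hn'.le
  linarith

theorem LB_le_pt {n : ℕ} (hn : 0 < n) (v w : Vtx) :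
    ((sd v w : ℤ) : ℝ) / n ≤ dist (pt n v) (pt n w) := by
  have := pt_dist hn v w
  rwa [inv_mul_eq_div] at this

theorem LB_sd_ends (e : Edg) : sd (src e) (tgt e) ≤ 1 := by
  obtain ⟨x, y, _ | _⟩ := e
  · unfold sd; simp
  · unfold sd; simp

theorem LB_pt_edge {n : ℕ} (hn : 0 < n) (e : Edg) :
    dist (pt n (src e)) (pt n (tgt e)) ≤ 2 / n := by
  have hn' : (0:ℝ) < n := by exact_mod_cast hn
  refine (LB_pt_le hn _ _).trans ?_
  have h1 : ((sd (src e) (tgt e) : ℤ) : ℝ) ≤ 1 := by exact_mod_cast LB_sd_ends e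
  rw [← mul_div_assoc]
  exact div_le_div_of_nonneg_right (by linarith) hn'.le

/-- Every point of the body is close to a vertex of the cluster. -/
theorem LB_near {n : ℕ} (hn : 0 < n) {F : Finset Plain.Edge} {v : ℤ × ℤ} {z : ℂ}
    (hz : z ∈ body n F v) : ∃ c ∈ Cu (↑F : Set Edg) v, dist z (pt n c) ≤ 2 / n := by
  have hn' : (0:ℝ) < n := by exact_mod_cast hn
  unfold body at hz
  rcases hz with hz | hz
  · obtain ⟨w, hw, hz⟩ := Set.mem_iUnion₂.1 hz
    rw [Set.mem_singleton_iff] at hz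
    refine ⟨w, ?_, ?_⟩
    · rw [Plain.mem_cluster] at hw
      exact hw
    · rw [hz, dist_self]
      positivity
  · obtain ⟨e, he, hz⟩ := Set.mem_iUnion₂.1 hz
    refine ⟨Plain.fst e, ?_, ?_⟩
    · have := he.2
      rw [Plain.mem_cluster] at this
      exact this
    · have h1 : z ∈ Metric.closedBall (pt n (Plain.fst e)) (2 / n) := by
        refine (convex_closedBall _ _).segment_subset ?_ ?_ hz
        · rw [Metric.mem_closedBall, dist_self]
          positivity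
        · rw [Metric.mem_closedBall, dist_comm, Plain.snd_eq]
          exact LB_pt_edge hn e
      exact Metric.mem_closedBall.1 h1


/-! ### Lattice paths which avoid the cluster -/

/-- The points of a lattice path which keeps away from the cluster. -/
def LB_E (M B n : ℕ) (C : Set Vtx) (w : Vtx) : Set Edg :=
  {e | Clr M B n C w (src e) ∧ Clr M B n C w (tgt e)}

/-- The same, without the vertex `w`. -/
def LB_E' (M B n : ℕ) (C : Set Vtx) (w : Vtx) : Set Edg :=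
  {e | (Clr M B n C w (src e) ∧ src e ≠ w) ∧ Clr M B n C w (tgt e) ∧ tgt e ≠ w}

/-- The last part of the path does not visit `w`. -/
theorem LB_last {M B n : ℕ} {C : Set Vtx} {w x y : Vtx} (hyw : y ≠ w)
    (h : Reach (LB_E M B n C w) x y) :
    (Reach (LB_E' M B n C w) x y ∧ x ≠ w) ∨
      ∃ x', sd x' w ≤ 1 ∧ Reach (LB_E' M B n C w) x' y := by
  induction h using Relation.ReflTransGen.head_induction_on with
  | refl => exact Or.inl ⟨Relation.ReflTransGen.refl, hyw⟩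
  | @head a c hs _ ih =>
    rcases ih with ⟨h1, h2⟩ | h1
    · by_cases haw : a = w
      · right
        refine ⟨c, ?_, h1⟩
        obtain ⟨g, -, ⟨h3, h4⟩ | ⟨h3, h4⟩⟩ := hs
        · have := LB_sd_ends g
          rw [← h4, ← haw, ← h3, sd_comm]
          exact this
        · have := LB_sd_ends g
          rw [← h3, ← haw, ← h4]
          exact this
      · left
        refine ⟨Relation.ReflTransGen.head ?_ h1, haw⟩
        obtain ⟨g, ⟨hg1, hg2⟩, ⟨h3, h4⟩ | ⟨h3, h4⟩⟩ := hs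
        · refine ⟨g, ⟨⟨hg1, ?_⟩, hg2, ?_⟩, Or.inl ⟨h3, h4⟩⟩
          · rw [h3]; exact haw
          · rw [h4]; exact h2
        · refine ⟨g, ⟨⟨hg1, ?_⟩, hg2, ?_⟩, Or.inr ⟨h3, h4⟩⟩
          · rw [h3]; exact h2
          · rw [h4]; exact haw
    · exact Or.inr h1

theorem LB_start {M B n : ℕ} {C : Set Vtx} {w x y : Vtx} (hxy : x ≠ y)
    (h : Reach (LB_E' M B n C w) x y) : Clr M B n C w x ∧ x ≠ w := by
  rcases Relation.ReflTransGen.cases_head h with h | ⟨c, ⟨g, ⟨h1, h2⟩, h4⟩, -⟩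
  · exact absurd h hxy
  · rcases h4 with ⟨h6, h7⟩ | ⟨h6, h7⟩
    · rw [← h6]; exact h1
    · rw [← h7]; exact h2

theorem LB_notin {M B n : ℕ} {C : Set Vtx} {w x : Vtx} (hx : Clr M B n C w x) (hxw : x ≠ w) :
    x ∉ C := by
  intro hc
  have h1 := hx.2 x hc
  have h2 : sd x x = 0 := by unfold sd; simp
  rw [h2, mul_zero] at h1
  have h3 : 0 < sd x w := by
    rcases lt_or_eq_of_le (sd_nonneg x w) with h | h
    · exact h
    · exfalso
      have h5 := (sd_le (k := 0)).1 h.symm.le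
      exact hxw (Prod.ext (by omega) (by omega))
  have h4 : 0 < sd x w ^ B := pow_pos h3 B
  omega

/-- The scaled path stays in one component of the complement. -/
theorem LB_comp {n : ℕ} (hn : 0 < n) {F : Finset Plain.Edge} {v : ℤ × ℤ} {M B : ℕ} {w x y : Vtx}
    (h : Reach (LB_E' M B n (Cu (↑F : Set Edg) v) w) x y) :
    connectedComponentIn (body n F v)ᶜ (pt n x) = connectedComponentIn (body n F v)ᶜ (pt n y) := by
  induction h with
  | refl => rfl
  | tail _ hs ih =>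
    rw [ih]
    obtain ⟨g, ⟨⟨h1, h2⟩, h3, h4⟩, h5⟩ := hs
    have hsub : seg n g ⊆ (body n F v)ᶜ := by
      refine LB_seg_compl hn ?_ ?_
      · rw [Plain.mem_cluster]
        exact LB_notin h1 h2
      · rw [Plain.mem_cluster, Plain.snd_eq]
        exact LB_notin h3 h4
    have hconn : IsPreconnected (seg n g) := (convex_segment _ _).isPreconnected
    have m1 : pt n (src g) ∈ seg n g := left_mem_segment ℝ _ _
    have m2 : pt n (tgt g) ∈ seg n g := by
      have := right_mem_segment ℝ (pt n (Plain.fst g)) (pt n (Plain.snd g))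
      rw [Plain.snd_eq] at this
      unfold seg
      rw [Plain.snd_eq]
      exact this
    have hc : connectedComponentIn (body n F v)ᶜ (pt n (src g)) =
        connectedComponentIn (body n F v)ᶜ (pt n (tgt g)) :=
      connectedComponentIn_eq (hconn.subset_connectedComponentIn m1 hsub m2)
    rcases h5 with ⟨h6, h7⟩ | ⟨h6, h7⟩
    · rw [← h6, ← h7]; exact hc
    · rw [← h6, ← h7]; exact hc.symm

theorem LB_body_norm {n : ℕ} (hn : 0 < n) {F : Finset Plain.Edge} (hF : F ⊆ Plain.edges n)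
    {v : ℤ × ℤ} (hv : v ∈ Plain.box n) {z : ℂ} (hz : z ∈ body n F v) : ‖z‖ ≤ 2 := by
  obtain ⟨⟨h1, h2⟩, h3, h4⟩ := CPT_body_square hn hF hv hz
  refine (Complex.norm_le_abs_re_add_abs_im z).trans ?_
  rw [abs_of_nonneg h1, abs_of_nonneg h3]
  linarith

/-- The first vertex is in the unbounded component. -/
theorem LB_out {n : ℕ} (hn : 0 < n) {F : Finset Plain.Edge} (hF : F ⊆ Plain.edges n)
    {v : ℤ × ℤ} (hv : v ∈ Plain.box n) {M B : ℕ} {w x y : Vtx}
    (hw : w ∈ Cu (↑F : Set Edg) v) (hx : sd x w ≤ 2) (hy : (10 * n : ℤ) ≤ sd y w)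
    (h : Reach (LB_E' M B n (Cu (↑F : Set Edg) v) w) x y) : pt n x ∈ outside n F v := by
  have hn' : (0:ℝ) < n := by exact_mod_cast hn
  have hbw : pt n w ∈ body n F v := by
    left
    refine Set.mem_biUnion (x := w) ?_ (Set.mem_singleton _)
    rw [Plain.mem_cluster]
    exact hw
  have hyo : pt n y ∈ unb (body n F v) := by
    refine unb_of_far (R := 2) (fun z hz => LB_body_norm hn hF hv hz) ?_ (by norm_num)
    have h1 := LB_le_pt hn y w
    have h2 : (10:ℝ) ≤ ((sd y w : ℤ) : ℝ) / n := by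
      rw [le_div_iff₀ hn']
      exact_mod_cast hy
    have h3 := LB_body_norm hn hF hv hbw
    have h4 : dist (pt n y) (pt n w) ≤ ‖pt n y‖ + ‖pt n w‖ := by
      rw [dist_eq_norm]
      exact norm_sub_le _ _
    linarith
  have hxy : x ≠ y := by
    rintro rfl
    omega
  have hxs := LB_start hxy h
  have hxb : pt n x ∈ (body n F v)ᶜ := by
    have h1 := hyo.1
    have h2 := LB_comp hn h
    by_contra hcon
    rw [connectedComponentIn_eq_empty hcon] at h2
    have h3 := mem_connectedComponentIn h1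
    rw [← h2] at h3
    exact h3
  refine ⟨hxb, ?_⟩
  rw [LB_comp hn h]
  exact hyo.2

/-- The outer boundary passes close to `w`. -/
theorem LB_visit {n : ℕ} (hn : 0 < n) {F : Finset Plain.Edge} {v : ℤ × ℤ} {w x : Vtx}
    (hw : w ∈ Cu (↑F : Set Edg) v) (hx : sd x w ≤ 2) (h : pt n x ∈ outside n F v) :
    ∃ z ∈ outerBoundary n F v, dist z (pt n w) ≤ 4 / n := by
  have hn' : (0:ℝ) < n := by exact_mod_cast hn
  have hbw : pt n w ∈ body n F v := by
    left
    refine Set.mem_biUnion (x := w) ?_ (Set.mem_singleton _)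
    rw [Plain.mem_cluster]
    exact hw
  have hconn : IsPreconnected (segment ℝ (pt n x) (pt n w)) := (convex_segment _ _).isPreconnected
  have h1 : (segment ℝ (pt n x) (pt n w) ∩ frontier (outside n F v)).Nonempty := by
    by_contra hcon
    have hno : ∀ z ∈ segment ℝ (pt n x) (pt n w), z ∉ frontier (outside n F v) :=
      fun z h1 h2 => hcon ⟨z, h1, h2⟩
    have h2 := hconn (interior (outside n F v)) (closure (outside n F v))ᶜ isOpen_interior
      isClosed_closure.isOpen_compl ?_ ?_ ?_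
    · obtain ⟨z, -, hz1, hz2⟩ := h2
      exact hz2 (interior_subset_closure hz1)
    · intro z hz
      by_contra hcon2
      rw [Set.mem_union, not_or, Set.mem_compl_iff, not_not] at hcon2
      exact hno z hz ⟨hcon2.2, hcon2.1⟩
    · refine ⟨pt n x, left_mem_segment ℝ _ _, ?_⟩
      by_contra hcon2
      exact hno _ (left_mem_segment ℝ _ _) ⟨subset_closure h, hcon2⟩
    · refine ⟨pt n w, right_mem_segment ℝ _ _, fun hcon2 => ?_⟩
      refine hno _ (right_mem_segment ℝ _ _) ⟨hcon2, fun hcon3 => ?_⟩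
      exact (interior_subset hcon3).1 hbw
  obtain ⟨z, hz1, hz2⟩ := h1
  refine ⟨z, hz2, ?_⟩
  have h3 : z ∈ Metric.closedBall (pt n w) (4 / n) := by
    refine (convex_closedBall _ _).segment_subset ?_ ?_ hz1
    · rw [Metric.mem_closedBall]
      refine (LB_pt_le hn x w).trans ?_
      have h4 : ((sd x w : ℤ) : ℝ) ≤ 2 := by exact_mod_cast hx
      rw [← mul_div_assoc]
      exact div_le_div_of_nonneg_right (by linarith) hn'.le
    · rw [Metric.mem_closedBall, dist_self]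
      positivity
  exact Metric.mem_closedBall.1 h3

/-- The vertices of the path keep away from the body. -/
theorem LB_away {n : ℕ} (hn : 0 < n) {F : Finset Plain.Edge} {v : ℤ × ℤ} {M B : ℕ} (hB : 1 ≤ B)
    {w x : Vtx} (hx : Clr M B n (Cu (↑F : Set Edg) v) w x) {z : ℂ} (hz : z ∈ body n F v) :
    dist (pt n x) (pt n w) ^ B ≤ 2 ^ B * M * dist (pt n x) z + 2 ^ B * M * (2 / n) := by
  have hn' : (0:ℝ) < n := by exact_mod_cast hn
  obtain ⟨c, hc, hzc⟩ := LB_near hn hz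
  have h1 := hx.2 c hc
  have h1' : (((sd x w : ℤ) : ℝ)) ^ B ≤ (M : ℝ) * (n : ℝ) ^ (B - 1) * ((sd x c : ℤ) : ℝ) := by
    exact_mod_cast h1
  have h2 : dist (pt n x) (pt n w) ^ B ≤ (2 * (((sd x w : ℤ) : ℝ) / n)) ^ B :=
    pow_le_pow_left₀ dist_nonneg (LB_pt_le hn _ _) B
  have h3 : ((sd x c : ℤ) : ℝ) / n ≤ dist (pt n x) z + 2 / n := by
    have h4 := LB_le_pt hn x c
    have h5 := dist_triangle (pt n x) z (pt n c)
    linarith
  obtain ⟨b, rfl⟩ : ∃ b, B = b + 1 := ⟨B - 1, by omega⟩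
  simp only [Nat.add_sub_cancel] at h1'
  have h4 : (2 * (((sd x w : ℤ) : ℝ) / n)) ^ (b + 1) =
      2 ^ (b + 1) * ((sd x w : ℤ) : ℝ) ^ (b + 1) / (n : ℝ) ^ (b + 1) := by
    rw [mul_pow, div_pow]; ring
  have h5 : 2 ^ (b + 1) * ((sd x w : ℤ) : ℝ) ^ (b + 1) / (n : ℝ) ^ (b + 1) ≤
      2 ^ (b + 1) * ((M : ℝ) * (n : ℝ) ^ b * ((sd x c : ℤ) : ℝ)) / (n : ℝ) ^ (b + 1) :=
    div_le_div_of_nonneg_right (mul_le_mul_of_nonneg_left h1' (by positivity)) (by positivity)
  have h6 : 2 ^ (b + 1) * ((M : ℝ) * (n : ℝ) ^ b * ((sd x c : ℤ) : ℝ)) / (n : ℝ) ^ (b + 1) =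
      2 ^ (b + 1) * M * (((sd x c : ℤ) : ℝ) / n) := by
    rw [pow_succ (n : ℝ) b]
    field_simp
  calc dist (pt n x) (pt n w) ^ (b + 1) ≤ _ := h2
    _ = _ := h4
    _ ≤ _ := h5
    _ = _ := h6
    _ ≤ 2 ^ (b + 1) * M * (dist (pt n x) z + 2 / n) := mul_le_mul_of_nonneg_left h3 (by positivity)
    _ = _ := by ring

/-- The points of the thick path. -/
def LB_S (M B n : ℕ) (C : Set Vtx) (w : Vtx) : Set ℂ := {z | ∃ x, Clr M B n C w x ∧ z = pt n x}

theorem LB_chain {n : ℕ} (hn : 0 < n) {e : ℝ} (he : 2 / n ≤ e) {M B : ℕ} {C : Set Vtx}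
    {w x y : Vtx} (h : Reach (LB_E' M B n C w) x y) :
    Relation.ReflTransGen (fun a b => b ∈ LB_S M B n C w ∧ dist a b ≤ e) (pt n x) (pt n y) := by
  induction h with
  | refl => exact Relation.ReflTransGen.refl
  | tail _ hs ih =>
    obtain ⟨g, ⟨⟨h1, h2⟩, h3, h4⟩, h5⟩ := hs
    rcases h5 with ⟨h6, h7⟩ | ⟨h6, h7⟩
    · refine ih.tail ⟨⟨tgt g, h3, by rw [h7]⟩, ?_⟩
      rw [← h6, ← h7]
      exact (LB_pt_edge hn g).trans he
    · refine ih.tail ⟨⟨src g, h1, by rw [h6]⟩, ?_⟩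
      rw [← h6, ← h7, dist_comm]
      exact (LB_pt_edge hn g).trans he

theorem LB_mem {n : ℕ} (hn : 0 < n) {F : Finset Plain.Edge} (hF : F ⊆ Plain.edges n)
    {v : ℤ × ℤ} (hv : v ∈ Plain.box n) {M B : ℕ} (hB : 1 ≤ B) {w : Vtx}
    (hw : w ∈ Cu (↑F : Set Edg) v) (h : ∃ x y : Vtx, sd x w ≤ 2 ∧ (10 * n : ℤ) ≤ sd y w ∧
      Reach {e | Clr M B n (Cu (↑F : Set Edg) v) w (src e) ∧
        Clr M B n (Cu (↑F : Set Edg) v) w (tgt e)} x y)
    {f : C(unitInterval, ℂ)} (hf : Set.range f = outerBoundary n F v) {e : ℝ} (he : 4 / n ≤ e)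
    (he2 : 2 ^ B * M * (2 / n) ≤ e) {N : ℕ}
    (hN : ∀ (S : Set ℂ) (a b : ℂ), (∀ x ∈ S, ‖x‖ ≤ 26) →
      a ∈ S → Relation.ReflTransGen (fun x y => y ∈ S ∧ dist x y ≤ e) a b →
      ∃ x : Fin (N + 1) → ℂ, (∀ i, x i ∈ S) ∧ x 0 = a ∧ x (Fin.last N) = b ∧
      ∀ i : Fin N, dist (x i.castSucc) (x i.succ) ≤ e) :
    (f, pt n w) ∈ Qc (2 ^ B * M) 9 26 e B N := by
  have hn' : (0:ℝ) < n := by exact_mod_cast hn
  obtain ⟨x0, y, hx0, hy, hr0⟩ := h
  have hyw : y ≠ w := by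
    rintro rfl
    have : sd y y = 0 := by unfold sd; simp
    omega
  obtain ⟨x, hx, hr⟩ : ∃ x, sd x w ≤ 2 ∧ Reach (LB_E' M B n (Cu (↑F : Set Edg) v) w) x y := by
    rcases LB_last hyw hr0 with ⟨h1, -⟩ | ⟨x, h1, h2⟩
    · exact ⟨x0, hx0, h1⟩
    · exact ⟨x, by omega, h2⟩
  have hxy : x ≠ y := by
    rintro rfl
    omega
  have hxo := LB_out hn hF hv hw hx hy hr
  have hbw : pt n w ∈ body n F v := by
    left
    refine Set.mem_biUnion (x := w) ?_ (Set.mem_singleton _)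
    rw [Plain.mem_cluster]
    exact hw
  have hw2 := LB_body_norm hn hF hv hbw
  have hfb : ∀ s, f s ∈ body n F v := fun s =>
    CPT_frontier_sub n F v (hf ▸ Set.mem_range_self s)
  have hbd : ∀ z ∈ LB_S M B n (Cu (↑F : Set Edg) v) w, ‖z‖ ≤ 26 := by
    rintro z ⟨u, hu, rfl⟩
    have h1 := LB_pt_le hn u w
    have h2 : ((sd u w : ℤ) : ℝ) / n ≤ 12 := by
      rw [div_le_iff₀ hn']
      exact_mod_cast hu.1
    have h3 : ‖pt n u‖ ≤ ‖pt n w‖ + dist (pt n u) (pt n w) := by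
      rw [dist_eq_norm]
      have := norm_add_le (pt n w) (pt n u - pt n w)
      rwa [add_sub_cancel] at this
    linarith
  have h24 : (2:ℝ) / n ≤ 4 / n := div_le_div_of_nonneg_right (by norm_num) hn'.le
  obtain ⟨X, h1, h2, h3, h4⟩ := hN (LB_S M B n (Cu (↑F : Set Edg) v) w) (pt n x) (pt n y) hbd
    ⟨x, (LB_start hxy hr).1, rfl⟩ (LB_chain hn (h24.trans he) hr)
  refine ⟨?_, ?_, X, fun i => hbd _ (h1 i), ?_, ?_, h4, ?_⟩
  · show ‖pt n w‖ ≤ 26
    linarith
  · obtain ⟨z, hz1, hz2⟩ := LB_visit hn hw hx hxo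
    rw [← hf] at hz1
    obtain ⟨s, hs⟩ := hz1
    refine ⟨s, ?_⟩
    show dist (f s) (pt n w) ≤ e
    rw [hs]
    exact hz2.trans he
  · show dist (X 0) (pt n w) ≤ e
    rw [h2]
    refine le_trans ((LB_pt_le hn x w).trans ?_) he
    have h5 : ((sd x w : ℤ) : ℝ) ≤ 2 := by exact_mod_cast hx
    rw [← mul_div_assoc]
    exact div_le_div_of_nonneg_right (by linarith) hn'.le
  · show 9 ≤ dist (X (Fin.last N)) (pt n w) + e
    rw [h3]
    have h5 := LB_le_pt hn y w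
    have h6 : (10:ℝ) ≤ ((sd y w : ℤ) : ℝ) / n := by
      rw [le_div_iff₀ hn']
      exact_mod_cast hy
    have h7 : (0:ℝ) ≤ 4 / n := by positivity
    linarith
  · intro i s
    show dist (X i) (pt n w) ^ B ≤ 2 ^ B * M * dist (X i) (f s) + e
    obtain ⟨u, hu, hz⟩ := h1 i
    rw [hz]
    have := LB_away hn hB hu (hfb s)
    linarith

/-- Many vertices with small energy make a set good. -/
theorem LB_good {n : ℕ} (hn : 0 < n) {t c0 E0 ε' : ℝ}
    (ht : 0 < t) (hc0 : 0 < c0) (hE0 : 0 < E0) (hε' : 1 / (n : ℝ) ≤ ε') {V : Finset Vtx}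
    (hcard : c0 * (n : ℝ) ^ (4 / 3 : ℝ) ≤ (V.card : ℝ))
    (hEn : EnV t V ≤ E0 * (n : ℝ) ^ (8 / 3 - t)) {T : Set ℂ} (hT : ∀ w ∈ V, pt n w ∈ T) :
    Good t ε' (2 ^ (-t) / (E0 / c0 ^ 2)) T := by
  classical
  have hn' : (0:ℝ) < n := by exact_mod_cast hn
  have hcpos : (0 : ℝ) < (V.card : ℝ) := lt_of_lt_of_le (by positivity) hcard
  have hne : V.Nonempty := by
    rw [← Finset.card_pos]; exact_mod_cast hcpos
  have hε0 : 0 < ε' := lt_of_lt_of_le (by positivity) hε'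
  refine good_of_energy hε0 ht.le (by positivity) (V.image (pt n)) (hne.image _) ?_ ?_
  · intro z hz
    rw [Finset.mem_coe, Finset.mem_image] at hz
    obtain ⟨w, hw, rfl⟩ := hz
    exact hT w hw
  · rw [Finset.sum_image (fun a _ b _ hab => pt_inj hn hab),
      Finset.card_image_of_injective _ (pt_inj hn)]
    have e1 : ∀ v ∈ V, ∑ y ∈ V.image (pt n), (max (dist (pt n v) y) ε') ^ (-t) ≤
        ∑ w ∈ V, ((n:ℝ)⁻¹) ^ (-t) * ((max (sd v w) 1 : ℤ) : ℝ) ^ (-t) := by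
      intro v _
      rw [Finset.sum_image (fun a _ b _ hab => pt_inj hn hab)]
      refine Finset.sum_le_sum fun w _ => ?_
      have hm : (1 : ℝ) ≤ ((max (sd v w) 1 : ℤ) : ℝ) := by
        exact_mod_cast le_max_right (sd v w) 1
      rw [← Real.mul_rpow (by positivity) (by linarith)]
      refine Real.rpow_le_rpow_of_nonpos (by positivity) ?_ (by linarith)
      have h6 := pt_dist hn v w
      rcases max_cases (sd v w) 1 with h | h
      · rw [h.1]; exact h6.trans (le_max_left _ _)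
      · rw [h.1]; push_cast; rw [mul_one]
        refine le_trans ?_ (le_max_right _ _)
        rwa [one_div] at hε'
    refine (Finset.sum_le_sum e1).trans ?_
    have e2 : ∑ v ∈ V, ∑ w ∈ V, ((n:ℝ)⁻¹) ^ (-t) * ((max (sd v w) 1 : ℤ) : ℝ) ^ (-t)
        = ((n:ℝ)⁻¹) ^ (-t) * EnV t V := by
      unfold EnV
      rw [Finset.mul_sum]
      refine Finset.sum_congr rfl fun v _ => ?_
      rw [Finset.mul_sum]
    rw [e2]
    have e3 : (c0 * (n : ℝ) ^ (4/3 : ℝ)) ^ 2 ≤ (V.card : ℝ) ^ 2 :=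
      pow_le_pow_left₀ (by positivity) hcard 2
    have e4 : (c0 * (n : ℝ) ^ (4/3 : ℝ)) ^ 2 = c0 ^ 2 * (n : ℝ) ^ (8/3 : ℝ) := by
      rw [mul_pow, ← Real.rpow_natCast ((n : ℝ) ^ (4/3 : ℝ)) 2, ← Real.rpow_mul hn'.le]
      norm_num
    rw [e4] at e3
    have e5 : ((n:ℝ)⁻¹) ^ (-t) = (n:ℝ) ^ t := by
      rw [Real.inv_rpow hn'.le, Real.rpow_neg hn'.le, inv_inv]
    rw [e5]
    calc (n:ℝ) ^ t * EnV t V ≤ (n:ℝ) ^ t * (E0 * (n : ℝ) ^ (8/3 - t)) :=
          mul_le_mul_of_nonneg_left hEn (by positivity)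
      _ = E0 / c0 ^ 2 * (c0 ^ 2 * (n : ℝ) ^ (8/3 : ℝ)) := by
          have : (n:ℝ) ^ t * (n : ℝ) ^ (8/3 - t) = (n : ℝ) ^ (8/3 : ℝ) := by
            rw [← Real.rpow_add hn']
            congr 1
            ring
          rw [← this]
          field_simp
      _ ≤ E0 / c0 ^ 2 * (V.card : ℝ) ^ 2 := mul_le_mul_of_nonneg_left e3 (by positivity)

theorem LB_inv {M' κ R e : ℝ} {B N : ℕ} {f : C(unitInterval, ℂ)} {z : ℂ}
    (φ : unitInterval ≃o unitInterval) (h : (f, z) ∈ Qc M' κ R e B N) :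
    (rep f φ, z) ∈ Qc M' κ R e B N := by
  obtain ⟨h1, ⟨s, hs⟩, x, h2, h3, h4, h5, h6⟩ := h
  refine ⟨h1, ⟨φ.symm s, ?_⟩, x, h2, h3, h4, h5, ?_⟩
  · show dist (rep f φ (φ.symm s)) z ≤ e
    rw [rep_apply, OrderIso.apply_symm_apply]
    exact hs
  · intro i s
    exact h6 i (φ s)

theorem t_LIMB : S_LIMB := by
  intro hD hLG hG hQC hCH sel γ ⟨hsel, htr⟩ k hk μ hμ t ht ht1
  refine hLG _ μ hμ t ht (fun f => oB (Set.range f)) ?_
  intro ε hε
  obtain ⟨δ, hδ, hδε⟩ : ∃ δ : ℝ, 0 < δ ∧ ENNReal.ofReal δ ≤ ε := by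
    rcases eq_or_ne ε ∞ with h | h
    · exact ⟨1, one_pos, by rw [h]; exact le_top⟩
    · exact ⟨ε.toReal, ENNReal.toReal_pos hε.ne' h, by rw [ENNReal.ofReal_toReal h]⟩
  obtain ⟨M, B, lam, E, n0, hM, hB, hlam, hE, hn0⟩ := hD t ht ht1 δ hδ
  choose NN hNN using fun j : ℕ => hCH 26 (1 / ((j : ℝ) + 1)) (by positivity)
  have hM' : (0:ℝ) < 2 ^ B * M := by
    have : (0:ℝ) < M := by exact_mod_cast hM
    positivity
  set Q : ℕ → Set (C(unitInterval, ℂ) × ℂ) := fun j =>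
    Qc (2 ^ B * M) 9 26 (1 / ((j : ℝ) + 1)) B (NN j) ∩ {p | ∀ s, ‖p.1 s‖ ≤ 2} with hQ
  have hQcl : ∀ j, IsClosed (Q j) := by
    intro j
    refine (hQC _ _ _ _ _ _).inter ?_
    have h1 : {p : C(unitInterval, ℂ) × ℂ | ∀ s, ‖p.1 s‖ ≤ 2} =
        ⋂ s : unitInterval, {p : C(unitInterval, ℂ) × ℂ | ‖p.1 s‖ ≤ 2} := by
      ext p; simp
    rw [h1]
    refine isClosed_iInter fun s => isClosed_le ?_ continuous_const
    fun_prop
  have hinv : ∀ j f z (φ : unitInterval ≃o unitInterval), (f, z) ∈ Q j → (rep f φ, z) ∈ Q j := by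
    rintro j f z φ ⟨h1, h2⟩
    exact ⟨LB_inv φ h1, fun s => h2 (φ s)⟩
  have hKc : IsCompact (Metric.closedBall (0:ℂ) 3) := isCompact_closedBall _ _
  refine ⟨2 ^ (-t) / (E / lam ^ 2), Metric.closedBall (0:ℂ) 3, Q, by positivity, hKc, hQcl, hinv,
    ?_, ?_⟩
  · intro f z _ hz
    exact hG (2 ^ B * M) 9 26 B NN f z hM' (by norm_num) hB (hz 0).2 fun j => (hz j).1
  · intro ε' hε'
    obtain ⟨n1, hn1⟩ := exists_nat_gt (4 / ε')
    obtain ⟨n2, hn2⟩ := exists_nat_gt (2 ^ B * M * 2 / ε')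
    have hev : ∀ᶠ i in atTop, max (max n0 n1) (max n2 1) ≤ k i := tendsto_atTop.mp hk _
    filter_upwards [hev] with i hi
    rw [max_le_iff, max_le_iff, max_le_iff] at hi
    obtain ⟨⟨hi0, hi1⟩, hi2, hi3⟩ := hi
    have hopen : IsOpen {p : Curve |
        ¬ Good t ε' (2 ^ (-t) / (E / lam ^ 2)) (Pool.Agent.Y989.FR.LG.AA
          (Metric.closedBall (0:ℂ) 3) Q ε' p.path)} := by
      have h2 := closed_curve (Pool.Agent.Y989.FR.LG.isClosed_good_AA (t := t) (δ := ε')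
        (c := 2 ^ (-t) / (E / lam ^ 2)) (e := ε') hQcl hKc)
        (fun f φ hf => Good.mono hf (AA_rep hinv ε' f φ))
      exact h2.isOpen_compl
    change (lawOf (k i) (γ (k i)) : Measure Curve) {p : Curve |
        ¬ Good t ε' (2 ^ (-t) / (E / lam ^ 2)) (Pool.Agent.Y989.FR.LG.AA
          (Metric.closedBall (0:ℂ) 3) Q ε' p.path)} ≤ ε
    rw [lawOf_apply _ _ hopen.measurableSet]
    refine le_trans (ENNReal.ofReal_le_ofReal ?_) hδε
    have hkpos : (0:ℝ) < k i := by exact_mod_cast hi3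
    have hk1 : (n1 : ℝ) ≤ k i := by exact_mod_cast hi1
    have hk2 : (n2 : ℝ) ≤ k i := by exact_mod_cast hi2
    have h4 : 4 / (k i : ℝ) ≤ ε' := by
      rw [div_le_iff₀ hkpos]
      rw [div_lt_iff₀ hε'] at hn1
      nlinarith
    have h5 : 2 ^ B * M * (2 / (k i : ℝ)) ≤ ε' := by
      rw [← mul_div_assoc, div_le_iff₀ hkpos]
      rw [div_lt_iff₀ hε'] at hn2
      nlinarith
    refine le_trans (Plain.prob_le_of_pr ?_) (hn0 (k i) hi0)
    intro F hF hbad
    have hL := hsel _ _ hi3 hF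
    refine ⟨sel (k i) F, hL, fun hcon => hbad ?_⟩
    obtain ⟨V, hcard, hEn, hV⟩ := hcon
    refine LB_good hi3 ht hlam hE ?_ hcard hEn ?_
    · refine le_trans ?_ h4
      exact div_le_div_of_nonneg_right (by norm_num) hkpos.le
    · intro w hw
      obtain ⟨hw1, hw2⟩ := hV w hw
      have hbw : pt (k i) w ∈ body (k i) F (sel (k i) F) := by
        left
        refine Set.mem_biUnion (x := w) ?_ (Set.mem_singleton _)
        rw [Plain.mem_cluster]
        exact hw1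
      refine ⟨?_, ?_⟩
      · rw [Metric.mem_closedBall, dist_zero_right]
        have := LB_body_norm hi3 hF hL.1 hbw
        linarith
      · intro j hj
        refine ⟨LB_mem hi3 hF hL.1 hB hw1 hw2 (htr _ _ hi3 hF) (h4.trans hj) (h5.trans hj)
          (hNN j), fun s => ?_⟩
        refine LB_body_norm hi3 hF hL.1 (CPT_frontier_sub _ _ _ ?_)
        exact htr _ _ hi3 hF ▸ Set.mem_range_self s

end Run7.h561
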