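import Pool.Agent.Run7.h561.TP.P_NL

/-! # Piece PN: the probabilities of the exceptional cases of DEC -/

set_option autoImplicit false

namespace Run7.h561

open H974 H12S Finset H984P H984N

/-- Union bound. -/
theorem pr_ex_le {ι : Type*} (S : Finset Edg) (U : Finset ι) (A : ι → Finset Edg → Prop) :
    PQ (1 / 2) S (fun F => ∃ u ∈ U, A u F) ≤ ∑ u ∈ U, PQ (1 / 2) S (A u) := by
  classical
  induction U using Finset.induction_on with
  | empty =>
    rw [Finset.sum_empty]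
    refine le_of_eq (MK_false _ S (fun F _ => by simp))
  | insert u U hu ih =>
    rw [Finset.sum_insert hu]
    refine le_trans (le_of_eq (Pr_congr ?_)) ((Pr_or_le okhalf S (A u)
      (fun F => ∃ u ∈ U, A u F)).trans (add_le_add_right ih _))
    intro F _
    rw [Finset.exists_mem_insert]

theorem XO_congr {c : ℤ × ℤ} {ρ : ℕ} {Far : Set Vtx} {F F' : Set Edg} {u : Vtx}
    (h : ∀ u' : Vtx, u' = u → Co c ρ F' u' = Co c ρ F u') (H : XO c ρ Far F u) :
    XO c ρ Far F' u := by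
  unfold XO Rp XA at *
  rw [h u rfl]
  exact H

theorem bd_ctr {c : ℤ × ℤ} {ρ : ℕ} {u : Vtx} (h : u ∈ bdB c ρ) : u ∈ ctr c ρ :=
  mem_ctr.2 (mem_bdB.1 h).le

theorem ex_XO_le (S : Finset Edg) (c : ℤ × ℤ) (ρ : ℕ) (Far : Set Vtx) :
    PQ (1 / 2) S (fun F => ∃ u, XO c ρ Far (↑F : Set Edg) u) ≤ fX S c ρ Far := by
  refine le_trans (Pr_mono okhalf ?_) (pr_ex_le S (ctr c ρ) (fun u F => XO c ρ Far (↑F : Set Edg) u))
  rintro F _ ⟨u, hu⟩
  exact ⟨u, bd_ctr hu.2.1, hu⟩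

theorem fX_nonneg (S : Finset Edg) (c : ℤ × ℤ) (ρ : ℕ) (Far : Set Vtx) : 0 ≤ fX S c ρ Far :=
  Finset.sum_nonneg (fun _ _ => Pr_nonneg okhalf _ _)

theorem pn_one (hK : S_KXS) {C s : ℝ} (hC : ∀ (c1 c2 : ℤ) (k K : ℕ) (S : Finset Edg), 1 ≤ k →
    k ≤ K → PQ (1 / 2) S (fun F => Crs c1 c2 k K (↑F : Set Edg)) ≤ C * ((k : ℝ) / K) ^ s)
    (c : ℤ × ℤ) (ρ R : ℕ) (S : Finset Edg) (Far : Set Vtx) (h1 : 1 ≤ ρ) (h2 : ρ ≤ R) :
    PQ (1 / 2) S (fun F => ∃ u, XO c ρ Far (↑F : Set Edg) u ∧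
      Crs c.1 c.2 ρ R (↑(F \ KX c ρ S u F) : Set Edg)) ≤
      C * ((ρ : ℝ) / R) ^ s * fX S c ρ Far := by
  refine (Pr_mono okhalf (B := fun F => ∃ u ∈ ctr c ρ, (XO c ρ Far (↑F : Set Edg) u ∧
      Crs c.1 c.2 ρ R (↑(F \ KX c ρ S u F) : Set Edg))) ?_).trans ?_
  · rintro F _ ⟨u, hu, h3⟩
    exact ⟨u, bd_ctr hu.2.1, hu, h3⟩
  refine (pr_ex_le S (ctr c ρ) (fun u F => XO c ρ Far (↑F : Set Edg) u ∧
      Crs c.1 c.2 ρ R (↑(F \ KX c ρ S u F) : Set Edg))).trans ?_
  unfold fX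
  rw [Finset.mul_sum]
  refine Finset.sum_le_sum (fun u _ => ?_)
  have h3 := (hK c ρ ρ S u le_rfl).1
  have h4 := markov_le okhalf h3.1 (A := fun F => XO c ρ Far (↑F : Set Edg) u)
    (B := fun G : Finset Edg => Crs c.1 c.2 ρ R (↑G : Set Edg))
    (fun F F' hF hF' hFF hA => XO_congr (fun u' hu' => by
      rw [hu']; exact h3.2 F F' hF hF' hFF) hA)
    (fun F G hFG hB => BS_crs_mono (by exact_mod_cast hFG) hB)
  refine h4.trans ?_
  rw [mul_comm]
  exact mul_le_mul_of_nonneg_right (hC c.1 c.2 ρ R S h1 h2) (Pr_nonneg okhalf _ _)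

theorem t_PN (hCRS : S_CRS) (hNL : S_NL) (hK : S_KXS) : S_PN := by
  obtain ⟨C1, s, hC1, hs, hC⟩ := hCRS
  obtain ⟨C0, hC0, hN⟩ := hNL
  refine ⟨C1 * 8 ^ s + 4 * C0, s, by positivity, hs, ?_⟩
  intro a Λ m c S Far ha hΛ hm hS
  have ham : 1 ≤ a * m := Nat.mul_pos (by omega) hm
  have ha' : (0 : ℝ) < a := by exact_mod_cast (by omega : 0 < a)
  have hm' : (0 : ℝ) < m := by exact_mod_cast hm
  have hΛ' : (0 : ℝ) < Λ := by exact_mod_cast (by omega : 0 < Λ)
  constructor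
  · have hle : 512 * (a * m) ≤ 64 * (Λ * (a * m)) := by
      have : 16 * (a * m) ≤ Λ * (a * m) := Nat.mul_le_mul_right _ hΛ
      omega
    have h1 := pn_one hK hC c (512 * (a * m)) (64 * (Λ * (a * m))) S Far (by omega) hle
    refine h1.trans ?_
    refine mul_le_mul_of_nonneg_right ?_ (fX_nonneg _ _ _ _)
    have e1 : (((512 * (a * m) : ℕ) : ℝ) / ((64 * (Λ * (a * m)) : ℕ) : ℝ)) = 8 / Λ := by
      push_cast
      field_simp
      norm_num
    rw [e1, Real.div_rpow (by norm_num) hΛ'.le, div_eq_mul_inv, ← Real.rpow_neg hΛ'.le, ← mul_assoc]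
    refine mul_le_mul_of_nonneg_right ?_ (Real.rpow_nonneg hΛ'.le _)
    linarith
  · set ρ : ℕ := 192 * (Λ * (a * m)) with hρ
    set hh : ℕ → ℤ := fun j => c.2 - 16 * (a * m * (j : ℕ)) with hhh
    have hsub : ∀ j ∈ Finset.Icc 17 (4 * Λ + 1),
        blk (c.1, hh j) (8 * (16 * (a * m))) ⊆ blk c ρ := by
      intro j hj
      rw [Finset.mem_Icc] at hj
      intro e he
      rw [mem_blk, sd_le, sd_le] at he ⊢
      simp only [hhh] at he
      have h1 : a * m * j ≤ (4 * Λ + 1) * (a * m) := by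
        rw [mul_comm]; exact Nat.mul_le_mul_right _ hj.2
      have h2 : 16 * (a * m) ≤ Λ * (a * m) := Nat.mul_le_mul_right _ hΛ
      have h3 : (4 * Λ + 1) * (a * m) = 4 * (Λ * (a * m)) + a * m := by ring
      rw [h3] at h1
      have h4 : (a * m * j : ℤ) ≤ 4 * (Λ * (a * m)) + a * m := by exact_mod_cast h1
      have h5 : (16 * (a * m) : ℤ) ≤ Λ * (a * m) := by exact_mod_cast h2
      have h6 : (0 : ℤ) ≤ a * m * j := by positivity
      have h7 : (0 : ℤ) ≤ a * m := by positivity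
      rw [hρ]
      push_cast at he ⊢
      generalize (a : ℤ) * m * j = X at *
      generalize (Λ : ℤ) * (a * m) = Y at *
      generalize (a : ℤ) * m = Z at *
      omega
    have hind := Pr_indep (p := fun _ : Edg => (1 / 2 : ℝ)) (U := S) (S := blk c ρ)
      (T := S \ blk c ρ) hS Finset.sdiff_subset Finset.disjoint_sdiff
      (A := fun F => ∃ j ∈ Finset.Icc 17 (4 * Λ + 1),
        NLn c.1 (hh j) (16 * (a * m)) (16 * m) (↑F : Set Edg))
      (B := fun F => ∃ u, XO c ρ Far (↑F : Set Edg) u)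
      (by
        intro F _
        have key : ∀ j ∈ Finset.Icc 17 (4 * Λ + 1),
            (NLn c.1 (hh j) (16 * (a * m)) (16 * m) (↑F : Set Edg) ↔
            NLn c.1 (hh j) (16 * (a * m)) (16 * m) (↑(F ∩ blk c ρ) : Set Edg)) := by
          intro j hj
          rw [nl_local, nl_local (F := F ∩ blk c ρ), Finset.inter_assoc,
            Finset.inter_eq_right.2 (hsub j hj)]
        constructor
        · rintro ⟨j, hj, h⟩; exact ⟨j, hj, (key j hj).1 h⟩
        · rintro ⟨j, hj, h⟩; exact ⟨j, hj, (key j hj).2 h⟩)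
      (by
        intro F hF
        have e1 : (↑(F ∩ (S \ blk c ρ)) : Set Edg) \ ↑(blk c ρ) = (↑F : Set Edg) \ ↑(blk c ρ) := by
          ext e
          simp only [Finset.coe_inter, Finset.coe_sdiff, Set.mem_sdiff, Set.mem_inter_iff,
            Finset.mem_coe]
          constructor
          · rintro ⟨⟨b1, b2, b3⟩, -⟩; exact ⟨b1, b3⟩
          · rintro ⟨b1, b2⟩; exact ⟨⟨b1, hF b1, b2⟩, b2⟩
        have e2 : ∀ u, Co c ρ (↑(F ∩ (S \ blk c ρ)) : Set Edg) u = Co c ρ (↑F : Set Edg) u := by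
          intro u
          unfold Co
          rw [e1]
        constructor
        · rintro ⟨u, hu⟩; exact ⟨u, XO_congr (fun u' _ => e2 u') hu⟩
        · rintro ⟨u, hu⟩; exact ⟨u, XO_congr (fun u' _ => (e2 u').symm) hu⟩)
    refine (le_of_eq hind).trans ?_
    have h1 : PQ (1 / 2) S (fun F => ∃ j ∈ Finset.Icc 17 (4 * Λ + 1),
        NLn c.1 (hh j) (16 * (a * m)) (16 * m) (↑F : Set Edg)) ≤ 4 * Λ * (C0 / a) := by
      refine (pr_ex_le S (Finset.Icc 17 (4 * Λ + 1)) (fun j F =>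
        NLn c.1 (hh j) (16 * (a * m)) (16 * m) (↑F : Set Edg))).trans ?_
      have h2 : ∀ j ∈ Finset.Icc 17 (4 * Λ + 1), PQ (1 / 2) S (fun F =>
          NLn c.1 (hh j) (16 * (a * m)) (16 * m) (↑F : Set Edg)) ≤ C0 / a := by
        intro j hj
        refine (hN c.1 (hh j) (16 * (a * m)) (16 * m) S (by omega)
          (Nat.mul_le_mul_left _ (Nat.le_mul_of_pos_left _ (by omega)))
          ((hsub j hj).trans hS)).trans (le_of_eq ?_)
        push_cast
        field_simp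
      refine (Finset.sum_le_sum h2).trans ?_
      rw [Finset.sum_const, Nat.card_Icc, nsmul_eq_mul]
      refine mul_le_mul_of_nonneg_right ?_ (by positivity)
      have : 4 * Λ + 1 + 1 - 17 ≤ 4 * Λ := by omega
      exact_mod_cast this
    have h2 := ex_XO_le S c ρ Far
    have h3 : (0 : ℝ) ≤ 4 * Λ * (C0 / a) := by positivity
    refine (mul_le_mul h1 h2 (Pr_nonneg okhalf _ _) h3).trans ?_
    refine mul_le_mul_of_nonneg_right ?_ (fX_nonneg _ _ _ _)
    have h4 : 4 * Λ * (C0 / a) = 4 * C0 * ((Λ : ℝ) / a) := by ring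
    rw [h4]
    refine mul_le_mul_of_nonneg_right ?_ (by positivity)
    have : (0 : ℝ) ≤ C1 * 8 ^ s := by positivity
    linarith

end Run7.h561
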