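import Pool.Agent.Run7.h561.TP.StmB
import Pool.Agent.Run7.h561.TP.P_PN

/-! # B_SLIT: the macroscopic clusters keep away from the slit below their tip -/

set_option autoImplicit false

namespace Run7.h561

open H974 H12S Finset H984P H984N

/-- A non trivial cluster stays in the box. -/
theorem Cu_box {n : ℕ} {F : Finset Edg} (hF : F ⊆ RE 0 n 0 n) {z : Vtx}
    (hz : inR 0 n 0 n z) {c : Vtx} (hc : c ∈ Cu (↑F : Set Edg) z) : inR 0 n 0 n c := by
  refine reach_inv (P := fun c => inR 0 n 0 n c) ?_ hc hz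
  rintro x y - ⟨e, he, ⟨rfl, rfl⟩ | ⟨rfl, rfl⟩⟩
  · exact (mem_RE.1 (hF (by exact_mod_cast he))).2
  · exact (mem_RE.1 (hF (by exact_mod_cast he))).1

/-- Deterministic part: either a crossing near the bottom or a near line event in a window. -/
theorem slit_det {n w k t : ℕ} {x0 : ℤ} {F : Finset Edg} (hF : F ⊆ RE 0 n 0 n) (hk : 1 ≤ k)
    (hkt : t ≤ k) (hkw : 9 * k ≤ w) (hwx : (w : ℤ) ≤ x0) (hxw : x0 ≤ n - w) {z c : Vtx} {s : ℤ}
    (hz : 0 ≤ z.2 ∧ z.2 ≤ n) (hT : TipE x0 w (↑F : Set Edg) z) (hc : c ∈ Cu (↑F : Set Edg) z)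
    (hs : s + 10 * k ≤ z.2) (hsc : sd (x0, s) c ≤ t) :
    Crs x0 0 (9 * k) w (↑F : Set Edg) ∨ ∃ i ∈ (Finset.range (n / k + 1)).filter
      (fun i => blk (x0, ((k * i : ℕ) : ℤ)) (8 * k) ⊆ RE 0 n 0 n),
      NLn x0 ((k * i : ℕ) : ℤ) k t (↑F : Set Edg) := by
  obtain ⟨hz1, hT2, y, hy1, hy2⟩ := hT
  have hzb : inR 0 n 0 n z := ⟨⟨by rw [hz1]; omega, by rw [hz1]; omega⟩, hz⟩
  have hcb := Cu_box hF hzb hc
  rw [sd_le] at hsc
  simp only at hsc
  have hcy : Reach (↑F : Set Edg) c y := Reach.trans (Reach.symm hc) hy1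
  by_cases h1 : c.2 < 9 * k
  · left
    refine crs_iff.2 ⟨c, y, ?_, ?_, hcy⟩
    · rw [sd_le]
      have := hcb.2.1
      push_cast
      omega
    · rw [le_sd]
      rw [le_abs'] at hy2
      omega
  · right
    push Not at h1
    have h0 : 0 ≤ c.2 := hcb.2.1
    obtain ⟨C, hC⟩ : ∃ C : ℕ, (C : ℤ) = c.2 := ⟨c.2.toNat, Int.toNat_of_nonneg h0⟩
    have hd1 := Nat.div_mul_le_self C k
    have hd2 := Nat.lt_div_mul_add (a := C) (b := k) (by omega)
    have e1 : k * (C / k) = C / k * k := Nat.mul_comm _ _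
    have hblk : blk (x0, ((k * (C / k) : ℕ) : ℤ)) (8 * k) ⊆ RE 0 n 0 n := by
      intro e he
      rw [mem_blk, sd_le, sd_le] at he
      rw [mem_RE]
      unfold inR
      simp only at he
      rw [e1] at he
      omega
    refine ⟨C / k, ?_, ?_⟩
    · rw [Finset.mem_filter, Finset.mem_range]
      refine ⟨?_, hblk⟩
      have hCn : C ≤ n := by have := hcb.2.2; omega
      have := Nat.div_le_div_right (c := k) hCn
      omega
    · rw [e1]
      refine ⟨c, ?_, ?_, ?_, ?_⟩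
      · rw [abs_le]; omega
      · rw [abs_le]; omega
      · have hcs : sd c (x0, ((C / k * k : ℕ) : ℤ)) ≤ ((8 * k : ℕ) : ℤ) := by
          rw [sd_le]; simp only; omega
        have hys : (((8 * k : ℕ) : ℤ)) ≤ sd y (x0, ((C / k * k : ℕ) : ℤ)) := by
          rw [le_sd]
          rw [le_abs'] at hy2
          simp only
          omega
        obtain ⟨v, a1, a2, -⟩ := first_level (x0, ((C / k * k : ℕ) : ℤ)) ((8 * k : ℕ) : ℤ) hcy
          hcs hys
        refine ⟨v, mem_bdB.2 a1, a2.mono ?_⟩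
        rintro e ⟨b1, b2⟩
        exact ⟨b1, by rw [Finset.mem_coe, mem_blk]; exact b2⟩
      · intro s' hs' hr
        rw [abs_le] at hs'
        refine hT2 s' (by omega) ?_
        exact Reach.trans hc (hr.mono Set.inter_subset_left)

/-- **SLIT** -/
theorem t_SLIT (hNL : S_NL) (hCRS : S_CRS) : S_SLIT := by
  intro ε δ κ hε hδ hκ
  obtain ⟨C1, hC1, nl⟩ := hNL
  obtain ⟨C2, s, hC2, hs, crs⟩ := hCRS
  -- the scale
  obtain ⟨ρ, hρ0, hρ1⟩ : ∃ ρ : ℝ, 0 < ρ ∧ C2 * ρ ^ s ≤ ε / 2 := by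
    refine ⟨(ε / (2 * C2)) ^ (1 / s), by positivity, ?_⟩
    rw [← Real.rpow_mul (by positivity), one_div_mul_cancel hs.ne', Real.rpow_one]
    apply le_of_eq
    field_simp
  set ϑ : ℝ := min (min 1 ρ * δ / 9) (min (κ / 20) 1) with hϑ
  have hϑ0 : 0 < ϑ := by positivity
  have hϑ1 : 9 * ϑ ≤ min 1 ρ * δ := by
    have : ϑ ≤ min 1 ρ * δ / 9 := min_le_left _ _
    linarith
  have hϑδ : 9 * ϑ ≤ δ := hϑ1.trans (by
    calc min 1 ρ * δ ≤ 1 * δ := mul_le_mul_of_nonneg_right (min_le_left _ _) hδ.le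
      _ = δ := one_mul _)
  have hϑρ : 9 * ϑ ≤ ρ * δ := hϑ1.trans
    (mul_le_mul_of_nonneg_right (min_le_right _ _) hδ.le)
  have hϑκ : 20 * ϑ ≤ κ := by
    have : ϑ ≤ κ / 20 := (min_le_right _ _).trans (min_le_left _ _)
    linarith
  have hϑ2 : ϑ ≤ 1 := (min_le_right _ _).trans (min_le_right _ _)
  set ζ : ℝ := min (ϑ / 4) (ε * ϑ ^ 2 / (32 * C1)) with hζ
  have hζ0 : 0 < ζ := by positivity
  have hζ1 : 4 * ζ ≤ ϑ := by
    have : ζ ≤ ϑ / 4 := min_le_left _ _
    linarith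
  have hζ2 : 32 * C1 * ζ ≤ ε * ϑ ^ 2 := by
    have : ζ ≤ ε * ϑ ^ 2 / (32 * C1) := min_le_right _ _
    rw [le_div_iff₀ (by positivity)] at this
    linarith
  refine ⟨ζ, ⌈2 / ζ⌉₊ + 1, hζ0, ?_⟩
  intro n hn x0 w hw hwx hxw
  have hn1 : 2 / ζ ≤ n := by
    refine (Nat.le_ceil _).trans ?_
    exact_mod_cast (Nat.le_succ _).trans hn
  have hn0 : (0 : ℝ) < n := lt_of_lt_of_le (by positivity) hn1
  have hnζ : 2 ≤ ζ * n := by
    rw [div_le_iff₀ hζ0] at hn1
    linarith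
  set k : ℕ := ⌊ϑ * n⌋₊ with hk
  set t : ℕ := ⌊ζ * n⌋₊ + 1 with ht
  have hk1 : (k : ℝ) ≤ ϑ * n := Nat.floor_le (by positivity)
  have hk2 : ϑ * n < k + 1 := Nat.lt_floor_add_one _
  have hζϑ : 4 * (ζ * n) ≤ ϑ * n := by
    have := mul_le_mul_of_nonneg_right hζ1 hn0.le
    linarith
  have hk3 : ϑ * n / 2 ≤ k := by linarith
  have hk4 : 1 ≤ k := by
    have : (1 : ℝ) ≤ k := by linarith
    exact_mod_cast this
  have ht1 : (t : ℝ) ≤ 2 * (ζ * n) := by
    have := Nat.floor_le (show 0 ≤ ζ * n by positivity)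
    rw [ht]; push_cast; linarith
  have ht2 : ζ * n ≤ t := by
    rw [ht]; push_cast; exact (Nat.lt_floor_add_one _).le
  have htk : t ≤ k := by
    have : (t : ℝ) ≤ k := by linarith
    exact_mod_cast this
  have ht0 : 1 ≤ t := by omega
  have hkw : 9 * k ≤ w := by
    have h1 : (9 : ℝ) * k ≤ w := by
      have := mul_le_mul_of_nonneg_right hϑδ hn0.le
      linarith
    exact_mod_cast h1
  have hkn : k ≤ n := by
    have : (k : ℝ) ≤ n := by
      have := mul_le_mul_of_nonneg_right hϑ2 hn0.le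
      linarith
    exact_mod_cast this
  have hw0 : (0 : ℝ) < w := lt_of_lt_of_le (by positivity) hw
  -- inclusion
  set I := (Finset.range (n / k + 1)).filter
      (fun i => blk (x0, ((k * i : ℕ) : ℤ)) (8 * k) ⊆ RE 0 n 0 n) with hI
  refine (Pr_mono okhalf (B := fun F => Crs x0 0 (9 * k) w (↑F : Set Edg) ∨
    ∃ i ∈ I, NLn x0 ((k * i : ℕ) : ℤ) k t (↑F : Set Edg)) ?_).trans ?_
  · rintro F hF ⟨z, hz, hT, s', c, h1, h2, h3⟩
    refine slit_det hF hk4 htk hkw hwx hxw hz hT h2 (s := s') ?_ ?_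
    · have h4 : (s' : ℝ) + 10 * k ≤ z.2 := by
        have := mul_le_mul_of_nonneg_right hϑκ hn0.le
        linarith
      exact_mod_cast h4
    · have h4 : ((sd (x0, s') c : ℤ) : ℝ) ≤ t := h3.trans ht2
      exact_mod_cast h4
  · refine (Pr_or_le okhalf _ _ _).trans ?_
    have p1 : PQ (1 / 2) (RE 0 n 0 n) (fun F => Crs x0 0 (9 * k) w (↑F : Set Edg)) ≤ ε / 2 := by
      refine (crs x0 0 (9 * k) w (RE 0 n 0 n) (by omega) hkw).trans (le_trans ?_ hρ1)
      apply mul_le_mul_of_nonneg_left _ hC2.le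
      apply Real.rpow_le_rpow (by positivity) _ hs.le
      rw [div_le_iff₀ hw0]
      push_cast
      calc (9 : ℝ) * k ≤ 9 * (ϑ * n) := by linarith
        _ = (9 * ϑ) * n := by ring
        _ ≤ (ρ * δ) * n := mul_le_mul_of_nonneg_right hϑρ hn0.le
        _ = ρ * (δ * n) := by ring
        _ ≤ ρ * w := mul_le_mul_of_nonneg_left hw hρ0.le
    have p2 : PQ (1 / 2) (RE 0 n 0 n) (fun F => ∃ i ∈ I,
        NLn x0 ((k * i : ℕ) : ℤ) k t (↑F : Set Edg)) ≤ ε / 2 := by
      refine (pr_ex_le _ _ _).trans ?_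
      refine (Finset.sum_le_card_nsmul I _ (C1 * ((t : ℝ) / k)) ?_).trans ?_
      · intro i hi
        exact nl x0 _ k t _ ht0 htk (Finset.mem_filter.1 hi).2
      · rw [nsmul_eq_mul]
        have hcard : (I.card : ℝ) ≤ 2 * n / k := by
          have h1 : I.card ≤ n / k + 1 := by
            refine (Finset.card_filter_le _ _).trans (le_of_eq (Finset.card_range _))
          have h2 : ((n / k : ℕ) : ℝ) ≤ (n : ℝ) / k := Nat.cast_div_le
          have hk0 : (0 : ℝ) < k := by exact_mod_cast hk4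
          have h3 : (1 : ℝ) ≤ (n : ℝ) / k := by
            rw [le_div_iff₀ hk0, one_mul]; exact_mod_cast hkn
          have h4 : (I.card : ℝ) ≤ ((n / k : ℕ) : ℝ) + 1 := by exact_mod_cast h1
          have h5 : 2 * (n : ℝ) / k = (n : ℝ) / k + (n : ℝ) / k := by ring
          linarith
        have hk0 : (0 : ℝ) < k := by exact_mod_cast hk4
        calc (I.card : ℝ) * (C1 * ((t : ℝ) / k)) ≤ 2 * n / k * (C1 * ((t : ℝ) / k)) :=
              mul_le_mul_of_nonneg_right hcard (by positivity)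
          _ ≤ 2 * n / k * (C1 * (2 * (ζ * n) / k)) := by
              apply mul_le_mul_of_nonneg_left _ (by positivity)
              apply mul_le_mul_of_nonneg_left _ hC1.le
              exact div_le_div_of_nonneg_right ht1 hk0.le
          _ = 4 * C1 * ζ * n ^ 2 / (k : ℝ) ^ 2 := by field_simp; norm_num
          _ ≤ 4 * C1 * ζ * n ^ 2 / (ϑ * n / 2) ^ 2 := by
              apply div_le_div_of_nonneg_left (by positivity) (by positivity)
              exact pow_le_pow_left₀ (by positivity) hk3 2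
          _ = 16 * C1 * ζ / ϑ ^ 2 := by field_simp; norm_num
          _ ≤ ε / 2 := by
              rw [div_le_div_iff₀ (by positivity) (by norm_num)]
              linarith
    linarith

end Run7.h561
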