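import Pool.Agent.Run7.h561.TP.P_UPO2

/-!
Piece B_UPO, part 3: covering, boundary part, conclusion.
-/

set_option autoImplicit false

namespace Run7.h561

open H974 H12S Finset H389NS H984P H984N H342P H342L H342T
open MeasureTheory Filter Topology
open Pool.Agent.H389R2.Dim Pool.Agent.W822.PD Pool.Agent.W424.OD Pool.Agent.W978.PDUL
open Pool.Agent.W462.DPL
open scoped ENNReal NNReal

namespace UPO

/-! ### The limit -/

/-- all `ζ` -/
def EvU (z : ℂ) (r ρ : ℝ) : Set Curve := ⋃ j : ℕ, EvO z r ρ (1 / ((j : ℝ) + 1))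

theorem EvU_open (z : ℂ) (r ρ : ℝ) : IsOpen (EvU z r ρ) :=
  isOpen_iUnion fun _ => EvO_open _ _ _ _

theorem EvU_le {μ : ProbabilityMeasure Curve} {μs : ℕ → ProbabilityMeasure Curve}
    (hμ : Tendsto μs atTop (𝓝 μ)) {z : ℂ} {r ρ : ℝ} {b : ℝ≥0∞}
    (h : ∀ ζ : ℝ, 0 < ζ → ∀ᶠ i in atTop, (μs i : Measure Curve) (EvO z r ρ ζ) ≤ b) :
    (μ : Measure Curve) (EvU z r ρ) ≤ b := by
  have hmono : Monotone (fun j : ℕ => EvO z r ρ (1 / ((j : ℝ) + 1))) := by
    intro i j hij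
    apply EvO_anti
    have : (i : ℝ) ≤ j := by exact_mod_cast hij
    gcongr
  unfold EvU
  rw [hmono.measure_iUnion]
  refine iSup_le fun j => ?_
  refine (ProbabilityMeasure.le_liminf_measure_open_of_tendsto hμ (EvO_open _ _ _ _)).trans ?_
  exact liminf_le_of_frequently_le (h _ (by positivity)).frequently

/-! ### Covering -/

/-- the limit of the covering sums -/
theorem lim0 (M : ℝ) (C d t : ℝ) (hd : 0 < d) (ht : 4 / 3 < t) (m0 : ℕ) (hm0 : 1 ≤ m0) :
    Tendsto (fun m : ℕ => (2 * M * ((m + m0 : ℕ) : ℝ)) ^ 2 * ((4 / ((m + m0 : ℕ) : ℝ)) ^ t *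
      (C * ((2 / ((m + m0 : ℕ) : ℝ)) / d) ^ (2 / 3 : ℝ)))) atTop (𝓝 0) := by
  have h1 : Tendsto (fun m : ℕ => ((m + m0 : ℕ) : ℝ)) atTop atTop :=
    tendsto_natCast_atTop_atTop.comp (tendsto_add_atTop_nat m0)
  have h2 : Tendsto (fun x : ℝ => x ^ (-(t - 4 / 3))) atTop (𝓝 0) :=
    tendsto_rpow_neg_atTop (by linarith)
  have h3 := (h2.comp h1).const_mul ((2 * M) ^ 2 * (4 ^ t * (C * (2 / d) ^ (2 / 3 : ℝ))))
  rw [mul_zero] at h3
  refine h3.congr ?_
  intro m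
  have hpos : (0 : ℝ) < ((m + m0 : ℕ) : ℝ) := by
    have : 0 < m + m0 := by omega
    exact_mod_cast this
  set x : ℝ := ((m + m0 : ℕ) : ℝ) with hx
  simp only [Function.comp]
  rw [← hx]
  have e1 : (4 / x) ^ t = 4 ^ t * x ^ (-t) := by
    rw [Real.div_rpow (by norm_num) hpos.le, Real.rpow_neg hpos.le]
    ring
  have e2 : ((2 / x) / d) ^ (2 / 3 : ℝ) = (2 / d) ^ (2 / 3 : ℝ) * x ^ (-(2 / 3) : ℝ) := by
    have : (2 / x) / d = (2 / d) / x := by
      field_simp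
    rw [this, Real.div_rpow (by positivity) hpos.le, Real.rpow_neg hpos.le]
    ring
  have e3 : x ^ (-(t - 4 / 3)) = x ^ (2 : ℝ) * (x ^ (-t) * x ^ (-(2 / 3) : ℝ)) := by
    rw [← Real.rpow_add hpos, ← Real.rpow_add hpos]
    congr 1
    ring
  rw [e1, e2, e3, Real.rpow_two]
  ring

open Classical in
/-- the event which belongs to a covering set -/
noncomputable def HO (D : Set ℂ) (d N : ℝ) (a b : ℤ) : Set Curve :=
  if h : (H934F.t10_sq N a b ∩ H934F.t10_A D d).Nonempty then EvU h.some (2 / N) (d / 2) else ∅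

theorem HO_open (D : Set ℂ) (d N : ℝ) (a b : ℤ) : IsOpen (HO D d N a b) := by
  unfold HO
  split_ifs
  · exact EvU_open _ _ _
  · exact isOpen_empty

/-- the part of the outer boundary of a non-degenerate curve -/
def SO (D : Set ℂ) (d : ℝ) (p : Curve) : Set ℂ :=
  {z | (∃ s t, d < dist (p.path s) (p.path t)) ∧ z ∈ oB (Set.range p.path) ∧
    z ∈ H934F.t10_A D d}

theorem HO_of {D : Set ℂ} {d N : ℝ} {a b : ℤ} {p : Curve}
    (h : (SO D d p ∩ H934F.t10_U D d N a b).Nonempty) : p ∈ HO D d N a b := by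
  obtain ⟨w, ⟨⟨s, t, hst⟩, hw1, _⟩, hw2⟩ := h
  unfold H934F.t10_U at hw2
  unfold HO
  split_ifs at hw2 ⊢ with h
  · rw [Metric.mem_ball] at hw2
    refine Set.mem_iUnion.2 (EvO_of hw1 hw2 ?_)
    by_contra hcon
    push Not at hcon
    have h1 := hcon s
    have h2 := hcon t
    have h3 := dist_triangle_right (p.path s) (p.path t) h.some
    linarith
  · exact absurd hw2 (Set.notMem_empty _)

/-- one scale -/
theorem one_scaleO {D : Set ℂ} {M : ℕ} (hM : ∀ z ∈ D, |z.re| < M ∧ |z.im| < M) {C d : ℝ}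
    (hC : 0 < C) (hd : 0 < d) {μ : ProbabilityMeasure Curve}
    (hp : ∀ (z : ℂ) (r : ℝ), 0 < r → r ≤ d → Metric.ball z d ⊆ D →
      (μ : Measure Curve) (EvU z r (d / 2)) ≤
          ENNReal.ofReal (C * (r / d) ^ (2 / 3 : ℝ))) {t : ℝ} (ht : 4 / 3 < t) :
    ∀ᵐ p ∂(μ : Measure Curve), dimH (SO D d p) ≤ ENNReal.ofReal t := by
  obtain ⟨m1, hm1⟩ := exists_nat_gt (4 / d)
  set m0 : ℕ := m1 + 1 with hm0
  have hN : ∀ m : ℕ, (0 : ℝ) < ((m + m0 : ℕ) : ℝ) := by
    intro m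
    have : 0 < m + m0 := by omega
    exact_mod_cast this
  have hNd : ∀ m : ℕ, 2 / ((m + m0 : ℕ) : ℝ) ≤ d / 2 := by
    intro m
    rw [div_le_iff₀ (hN m)]
    rw [div_lt_iff₀ hd] at hm1
    have : (m1 : ℝ) ≤ ((m + m0 : ℕ) : ℝ) := by
      have : m1 ≤ m + m0 := by omega
      exact_mod_cast this
    nlinarith
  have hsub : H934F.t10_A D d ⊆ D := fun z hz => hz (Metric.mem_ball_self hd)
  refine upperG (μs := fun _ => μ) (by linarith) tendsto_const_nhds (fun p => SO D d p)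
    (ι := fun m => Fin (2 * M * (m + m0)) × Fin (2 * M * (m + m0)))
    (fun m i => H934F.t10_U D d ((m + m0 : ℕ) : ℝ) ((i.1 : ℕ) - (M * (m + m0) : ℕ) : ℤ)
      ((i.2 : ℕ) - (M * (m + m0) : ℕ) : ℤ))
    (fun m i => HO D d ((m + m0 : ℕ) : ℝ) ((i.1 : ℕ) - (M * (m + m0) : ℕ) : ℤ)
      ((i.2 : ℕ) - (M * (m + m0) : ℕ) : ℤ))
    (fun m i => HO_open _ _ _ _ _) (fun m i p h => HO_of h)
    (fun m => ENNReal.ofReal (4 / ((m + m0 : ℕ) : ℝ))) ?_
    (fun m i => H934F.t10_U_ediam _ _ _ _ _)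
    ?_ (fun m _ => ENNReal.ofReal (C * ((2 / ((m + m0 : ℕ) : ℝ)) / d) ^ (2 / 3 : ℝ))) ?_ ?_
  · -- the radii tend to zero
    have h1 : Tendsto (fun m : ℕ => ((m + m0 : ℕ) : ℝ)) atTop atTop :=
      tendsto_natCast_atTop_atTop.comp (tendsto_add_atTop_nat m0)
    have h2 : Tendsto (fun m : ℕ => 4 / ((m + m0 : ℕ) : ℝ)) atTop (𝓝 0) :=
      h1.const_div_atTop 4
    have h3 := ENNReal.tendsto_ofReal h2
    rwa [ENNReal.ofReal_zero] at h3
  · -- covering
    rintro m p z ⟨_, _, hz⟩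
    obtain ⟨h1, h2⟩ := hM z (hsub hz)
    have hb : ∀ y : ℝ, |y| < M → -((M * (m + m0) : ℕ) : ℤ) ≤ ⌊((m + m0 : ℕ) : ℝ) * y⌋ ∧
        ⌊((m + m0 : ℕ) : ℝ) * y⌋ < ((M * (m + m0) : ℕ) : ℤ) := by
      intro y hy
      rw [abs_lt] at hy
      have hn := hN m
      constructor
      · rw [Int.le_floor]
        push_cast at hn ⊢
        nlinarith
      · rw [Int.floor_lt]
        push_cast at hn ⊢
        nlinarith
    obtain ⟨h3, h4⟩ := hb _ h1
    obtain ⟨h5, h6⟩ := hb _ h2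
    refine Set.mem_iUnion.mpr ⟨(⟨(⌊((m + m0 : ℕ) : ℝ) * z.re⌋ + (M * (m + m0) : ℕ)).toNat, ?_⟩,
      ⟨(⌊((m + m0 : ℕ) : ℝ) * z.im⌋ + (M * (m + m0) : ℕ)).toNat, ?_⟩), ?_⟩
    · rw [Int.toNat_lt (by omega)]
      have : ((2 * M * (m + m0) : ℕ) : ℤ) = 2 * ((M * (m + m0) : ℕ) : ℤ) := by
        push_cast; ring
      omega
    · rw [Int.toNat_lt (by omega)]
      have : ((2 * M * (m + m0) : ℕ) : ℤ) = 2 * ((M * (m + m0) : ℕ) : ℤ) := by
        push_cast; ring
      omega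
    · have hcov := H934F.t10_U_cover (N := ((m + m0 : ℕ) : ℝ)) (hN m) hz
      simp only
      rw [Int.toNat_of_nonneg (by omega), Int.toNat_of_nonneg (by omega)]
      rw [add_sub_cancel_right, add_sub_cancel_right]
      exact hcov
  · -- probabilities
    intro m i
    refine (Eventually.of_forall fun _ => ?_).frequently
    unfold HO
    split_ifs with h
    · exact hp h.some (2 / ((m + m0 : ℕ) : ℝ)) (div_pos two_pos (hN m))
        ((hNd m).trans (by linarith)) h.some_mem.2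
    · rw [measure_empty]
      exact zero_le
  · -- the sums tend to zero
    have hl := ENNReal.tendsto_ofReal (lim0 M C d t hd ht m0 (by omega))
    rw [ENNReal.ofReal_zero] at hl
    refine tendsto_of_tendsto_of_tendsto_of_le_of_le tendsto_const_nhds hl
      (fun m => zero_le) (fun m => ?_)
    have hn := hN m
    have ht0 : 0 ≤ t := by linarith
    have h4 : 0 ≤ (4 : ℝ) / ((m + m0 : ℕ) : ℝ) := by positivity
    calc ∑ i : Fin (2 * M * (m + m0)) × Fin (2 * M * (m + m0)),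
          Metric.ediam (H934F.t10_U D d ((m + m0 : ℕ) : ℝ) ((i.1 : ℕ) - (M * (m + m0) : ℕ) : ℤ)
            ((i.2 : ℕ) - (M * (m + m0) : ℕ) : ℤ)) ^ t *
            ENNReal.ofReal (C * ((2 / ((m + m0 : ℕ) : ℝ)) / d) ^ (2 / 3 : ℝ))
        ≤ ∑ _i : Fin (2 * M * (m + m0)) × Fin (2 * M * (m + m0)),
          ENNReal.ofReal ((4 / ((m + m0 : ℕ) : ℝ)) ^ t *
            (C * ((2 / ((m + m0 : ℕ) : ℝ)) / d) ^ (2 / 3 : ℝ))) := by
          refine Finset.sum_le_sum fun i _ => ?_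
          have e5 : ENNReal.ofReal ((4 / ((m + m0 : ℕ) : ℝ)) ^ t *
              (C * ((2 / ((m + m0 : ℕ) : ℝ)) / d) ^ (2 / 3 : ℝ))) =
              ENNReal.ofReal (4 / ((m + m0 : ℕ) : ℝ)) ^ t *
                ENNReal.ofReal (C * ((2 / ((m + m0 : ℕ) : ℝ)) / d) ^ (2 / 3 : ℝ)) := by
            rw [ENNReal.ofReal_mul (by positivity), ENNReal.ofReal_rpow_of_nonneg h4 ht0]
          rw [e5]
          gcongr
          exact H934F.t10_U_ediam _ _ _ _ _
      _ ≤ ENNReal.ofReal ((2 * M * ((m + m0 : ℕ) : ℝ)) ^ 2 * ((4 / ((m + m0 : ℕ) : ℝ)) ^ t *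
            (C * ((2 / ((m + m0 : ℕ) : ℝ)) / d) ^ (2 / 3 : ℝ)))) := by
          have e : (2 * (M : ℝ) * ((m + m0 : ℕ) : ℝ)) ^ 2 =
              ((2 * M * (m + m0) * (2 * M * (m + m0)) : ℕ) : ℝ) := by
            push_cast
            ring
          rw [Finset.sum_const, Finset.card_univ, Fintype.card_prod, Fintype.card_fin,
            nsmul_eq_mul, e, ENNReal.ofReal_mul (Nat.cast_nonneg _), ENNReal.ofReal_natCast]

/-! ### The boundary part -/

theorem dimH_line {f : ℝ → ℂ} (hf : Isometry f) : dimH (Set.range f) ≤ 1 := by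
  have h := hf.lipschitz.dimH_range_le
  have h2 := Real.dimH_univ
  rwa [h2] at h

theorem dimH_bd : dimH (Sqc \ Sq) ≤ 1 := by
  have i1 : ∀ a : ℝ, Isometry (fun y : ℝ => (⟨a, y⟩ : ℂ)) := by
    intro a
    refine Isometry.of_dist_eq fun x y => ?_
    rw [Complex.dist_eq_re_im, Real.dist_eq]
    simp only [sub_self]
    rw [zero_pow (by norm_num), zero_add, Real.sqrt_sq_eq_abs]
  have i2 : ∀ a : ℝ, Isometry (fun x : ℝ => (⟨x, a⟩ : ℂ)) := by
    intro a
    refine Isometry.of_dist_eq fun x y => ?_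
    rw [Complex.dist_eq_re_im, Real.dist_eq]
    simp only [sub_self]
    rw [zero_pow (by norm_num), add_zero, Real.sqrt_sq_eq_abs]
  have hsub : Sqc \ Sq ⊆ ((Set.range (fun y : ℝ => (⟨0, y⟩ : ℂ)) ∪
      Set.range (fun y : ℝ => (⟨1, y⟩ : ℂ))) ∪ (Set.range (fun x : ℝ => (⟨x, 0⟩ : ℂ)) ∪
      Set.range (fun x : ℝ => (⟨x, 1⟩ : ℂ)))) := by
    rintro z ⟨hz1, hz2⟩
    simp only [Sqc, Set.mem_ofPred_eq] at hz1
    simp only [Sq, Set.mem_ofPred_eq, not_and_or, not_lt] at hz2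
    obtain ⟨h1, h2, h3, h4⟩ := hz1
    rcases hz2 with h | h | h | h
    · exact Or.inl (Or.inl ⟨z.im, Complex.ext (le_antisymm h1 h) rfl⟩)
    · exact Or.inl (Or.inr ⟨z.im, Complex.ext (le_antisymm h h2) rfl⟩)
    · exact Or.inr (Or.inl ⟨z.re, Complex.ext rfl (le_antisymm h3 h)⟩)
    · exact Or.inr (Or.inr ⟨z.re, Complex.ext rfl (le_antisymm h h4)⟩)
  refine (dimH_mono hsub).trans ?_
  rw [dimH_union, dimH_union, dimH_union]
  exact max_le (max_le (dimH_line (i1 0)) (dimH_line (i1 1)))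
    (max_le (dimH_line (i2 0)) (dimH_line (i2 1)))

theorem range_subO {sel : (n : ℕ) → Finset Plain.Edge → ℤ × ℤ}
    {γ : (n : ℕ) → Finset Plain.Edge → Curve} (hG : Gam sel γ)
    {k : ℕ → ℕ} (hk : Tendsto k atTop atTop)
    {μ : ProbabilityMeasure Curve} (hμ : Tendsto (fun i => lawOf (k i) (γ (k i))) atTop (𝓝 μ)) :
    ∀ᵐ c : Curve ∂(μ : Measure Curve), Set.range c.path ⊆ Sqc := by
  have hcl : IsClosed Sqc := by
    have e : Sqc = csq := by
      ext z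
      simp only [Sqc, csq, Set.mem_ofPred_eq]
      tauto
    rw [e]
    exact isClosed_csq
  have hopen : IsOpen {c : Curve | ∃ s : unitInterval, c.path s ∈ Sqcᶜ} :=
    Pool.Agent.W597.PDBL.isOpen_hit hcl.isOpen_compl
  have h0 : (μ : Measure Curve) {c : Curve | ∃ s : unitInterval, c.path s ∈ Sqcᶜ} = 0 := by
    apply le_antisymm _ bot_le
    refine (ProbabilityMeasure.le_liminf_measure_open_of_tendsto hμ hopen).trans ?_
    refine liminf_le_of_frequently_le (Eventually.frequently ?_)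
    have hev : ∀ᶠ i in atTop, 1 ≤ k i := tendsto_atTop.mp hk _
    filter_upwards [hev] with i hi
    rw [lawOf_apply _ _ hopen.measurableSet]
    have : Plain.prob (k i) (fun F => γ (k i) F ∈ {c : Curve | ∃ s : unitInterval,
        c.path s ∈ Sqcᶜ}) ≤ Plain.prob (k i) (fun _ => ¬ True) := by
      apply prob_mono
      rintro F hF ⟨s, hs⟩
      have h1 : (γ (k i) F).path s ∈ outerBoundary (k i) F (sel (k i) F) := by
        rw [← hG.2 _ F hi hF]
        exact ⟨s, rfl⟩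
      obtain ⟨⟨h2, h3⟩, h4, h5⟩ := CPT_body_square hi hF (hG.1 _ F hi hF).1
        (CPT_frontier_sub _ _ _ h1)
      exact absurd ⟨h2, h3, h4, h5⟩ hs
    rw [Plain.prob_not, prob_true, sub_self] at this
    rw [ENNReal.ofReal_of_nonpos this]
    exact le_rfl
  filter_upwards [compl_mem_ae_iff.mpr h0] with c hc
  rintro _ ⟨s, rfl⟩
  by_contra hcon
  exact hc ⟨s, hcon⟩

end UPO

open UPO in
/-- UPO: the outer boundary of the limits has dimension at most `4/3`. -/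
theorem t_UPO : S_UPO := by
  intro hU sel γ hG k hk μ hμ hnd
  obtain ⟨C, hC, hP⟩ := prob_leO hU hG
  set dn : ℕ → ℝ := fun n => 1 / ((n : ℝ) + 1) with hdn
  have hdn0 : ∀ n, 0 < dn n := fun n => by positivity
  have h1 : ∀ n j : ℕ, ∀ᵐ p ∂(μ : Measure Curve),
      dimH (SO Sq (dn n) p) ≤ ENNReal.ofReal (4 / 3 + 1 / ((j : ℝ) + 1)) := by
    intro n j
    have hj : 0 < 1 / ((j : ℝ) + 1) := by positivity
    refine one_scaleO Sq_bdd hC (hdn0 n) ?_ (by linarith)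
    intro z r hr hrd hb
    refine EvU_le hμ ?_
    intro ζ hζ
    obtain ⟨n0, hn0⟩ := exists_nat_gt (1 / r)
    obtain ⟨n1, hn1⟩ := exists_nat_gt (8 / ζ)
    have hev : ∀ᶠ i in atTop, max (max n0 n1) 1 ≤ k i := tendsto_atTop.mp hk _
    filter_upwards [hev] with i hi
    rw [max_le_iff, max_le_iff] at hi
    have hki : 0 < k i := hi.2
    have hki' : (0:ℝ) < k i := by exact_mod_cast hki
    have h6 : (n0 : ℝ) ≤ k i := by exact_mod_cast hi.1.1
    have h7 : (n1 : ℝ) ≤ k i := by exact_mod_cast hi.1.2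
    refine hP z r (dn n) ζ (k i) hr hrd hb hki ?_ ?_
    · rw [div_lt_iff₀ hr] at hn0
      rw [div_le_iff₀ hki']
      nlinarith
    · rw [div_lt_iff₀ hζ] at hn1
      rw [div_le_iff₀ hki']
      nlinarith
  have h2 : ∀ᵐ p ∂(μ : Measure Curve), ∀ n j : ℕ,
      dimH (SO Sq (dn n) p) ≤ ENNReal.ofReal (4 / 3 + 1 / ((j : ℝ) + 1)) := by
    rw [ae_all_iff]
    intro n
    rw [ae_all_iff]
    intro j
    exact h1 n j
  filter_upwards [h2, hnd, range_subO hG hk hμ] with p hp hpnd hpsq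
  obtain ⟨s, t, hst⟩ := hpnd
  have hst' : 0 < dist (p.path s) (p.path t) := dist_pos.2 hst
  have hcl : IsClosed (Set.range p.path) := (isCompact_range p.path.continuous).isClosed
  have hsub : oB (Set.range p.path) ⊆ (⋃ n : ℕ, SO Sq (dn n) p) ∪ (Sqc \ Sq) := by
    intro z hz
    by_cases hzD : z ∈ Sq
    · left
      obtain ⟨ε, hε, hb⟩ := Metric.isOpen_iff.mp Sq_open z hzD
      obtain ⟨n, hn⟩ := exists_nat_one_div_lt (lt_min hε hst')
      rw [lt_min_iff] at hn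
      exact Set.mem_iUnion.mpr ⟨n, ⟨s, t, hn.2⟩, hz,
        (Metric.ball_subset_ball hn.1.le).trans hb⟩
    · exact Or.inr ⟨hpsq (oB_sub hcl hz), hzD⟩
  refine (dimH_mono hsub).trans ?_
  rw [dimH_union, dimH_iUnion]
  have h43 : ENNReal.ofReal (4 / 3 + 0) = 4 / 3 := by
    rw [add_zero, ENNReal.ofReal_div_of_pos (by norm_num)]
    norm_num
  refine max_le (iSup_le fun n => ?_) (dimH_bd.trans ?_)
  · have hlim : Tendsto (fun j : ℕ => ENNReal.ofReal (4 / 3 + 1 / ((j : ℝ) + 1))) atTop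
        (𝓝 (ENNReal.ofReal (4 / 3 + 0))) :=
      ENNReal.tendsto_ofReal (tendsto_const_nhds.add tendsto_one_div_add_atTop_nhds_zero_nat)
    rw [h43] at hlim
    exact ge_of_tendsto' hlim (fun j => hp n j)
  · rw [← h43, ← ENNReal.ofReal_one]
    exact ENNReal.ofReal_le_ofReal (by norm_num)

end Run7.h561
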