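import Pool.Agent.Run7.h561.TP.P_ONE
import Pool.Agent.W424.OD.Cnt
import Pool.Agent.H342R2.Per.Big

/-! # FINA: accessible vertices of the largest cluster -/

set_option autoImplicit false

namespace Run7.h561

open H974 H12S Finset H984P H984N SURG H342P

theorem reach_avoid {C : Set (ℤ × ℤ)} {p q : ℤ × ℤ}
    (h : Reach {e | src e ∉ C ∧ tgt e ∉ C} p q) :
    (Pool.Agent.W424.OD.avoidGraph C).Reachable p q := by
  rw [SimpleGraph.reachable_iff_reflTransGen]
  refine Relation.ReflTransGen.mono ?_ _ _ h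
  rintro x y ⟨e, ⟨h1, h2⟩, h3⟩
  unfold Pool.Agent.W424.OD.avoidGraph
  rw [SimpleGraph.fromRel_adj]
  have hne : src e ≠ tgt e := by rw [← Plain.fst_eq, ← Plain.snd_eq]; exact Plain.fst_ne_snd e
  rcases h3 with ⟨rfl, rfl⟩ | ⟨rfl, rfl⟩
  · exact ⟨hne, Or.inl ⟨⟨e, Plain.fst_eq e, Plain.snd_eq e⟩, h1, h2⟩⟩
  · exact ⟨hne.symm, Or.inr ⟨⟨e, Plain.fst_eq e, Plain.snd_eq e⟩, h1, h2⟩⟩

theorem cluster_eq (F : Finset Edg) (v : Vtx) : Plain.cluster F v = Cu (↑F : Set Edg) v := by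
  ext w
  exact Plain.mem_cluster F v w

theorem mem_box {n : ℕ} {v : Vtx} : v ∈ Plain.box n ↔ (0 ≤ v.1 ∧ v.1 ≤ n) ∧ (0 ≤ v.2 ∧ v.2 ≤ n) := by
  unfold Plain.box
  rw [Finset.mem_product]
  simp only [Finset.mem_Icc]

/-- The points of the paths of the gadget are off the cluster. -/
theorem cln_off {M B k m : ℕ} (hm : 1 ≤ m) {v x : Vtx} {C : Set Vtx}
    (h : ∀ c ∈ C, Cln M B k m v c x) : x ∉ C := by
  intro hx
  have h0 : sd x x = 0 := by unfold sd; simp
  rcases h x hx with h1 | h1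
  · unfold Pool.Agent.Y989.FR.Awy at h1
    rw [h0, mul_zero] at h1
    have := pow_nonneg (sd_nonneg x v) B
    omega
  · rw [h0] at h1
    omega

/-- An open vertex is near an accessible vertex. -/
theorem acc_near {n : ℕ} {F : Finset Edg} {v w x q : Vtx} (hbox : ∀ c ∈ Cu (↑F : Set Edg) v, c ∈ Plain.box n)
    (hw : w ∈ Cu (↑F : Set Edg) v) (hx : sd x w ≤ 2) (hxC : x ∉ Cu (↑F : Set Edg) v)
    (hq : q ∉ Plain.box n)
    (hp : Reach {e | src e ∉ Cu (↑F : Set Edg) v ∧ tgt e ∉ Cu (↑F : Set Edg) v} x q) :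
    ∃ w' ∈ Pool.Agent.W424.OD.accessible n F v, sd w w' ≤ 2 := by
  classical
  have h1 : Reach {e | sd (src e) w ≤ 2 ∧ sd (tgt e) w ≤ 2} x w :=
    ball_path w 2 hx (by unfold sd; simp) fun y hy => hy
  obtain ⟨p, w', a1, a2, a3, a4, -⟩ := first_hit (Cu (↑F : Set Edg) v) h1 hxC hw
  have a5 : sd w' w ≤ 2 := by
    obtain ⟨e, ⟨he1, he2⟩, ⟨rfl, rfl⟩ | ⟨rfl, rfl⟩⟩ := a3
    · exact he2
    · exact he1
  refine ⟨w', ?_, by rw [sd_comm]; exact a5⟩
  unfold Pool.Agent.W424.OD.accessible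
  rw [Finset.mem_filter]
  refine ⟨hbox _ a1, ?_⟩
  unfold Pool.Agent.W424.OD.Accessible
  rw [cluster_eq]
  obtain ⟨e, -, he⟩ := a3
  refine ⟨a1, e, p, q, ?_, a2, hq, ?_⟩
  · rw [Plain.fst_eq, Plain.snd_eq]
    exact he.symm
  · apply reach_avoid
    refine Reach.trans (Reach.symm (a4.mono ?_)) hp
    rintro e ⟨-, h2, h3⟩
    exact ⟨h2, h3⟩

/-- The deterministic part: a good tip gives many accessible vertices. -/
theorem acc_count {t : ℝ} {M B a m : ℕ} {p c0 E0 : ℝ} {G : Finset Edg → Prop}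
    (hG : Gad t M B a m p c0 E0 G) {n : ℕ} {F : Finset Edg} (hF : F ⊆ RE 0 n 0 n) {x0 : ℤ} {w : ℕ}
    {z : Vtx} (ha : 1 ≤ a) (hm : 1 ≤ m) (hz0 : z ∈ Plain.box n) (hz : TipE x0 w (↑F : Set Edg) z)
    (hw : 400 * (a * m) ≤ w) (hgood : GoodAt a m x0 G F z) :
    c0 * (m : ℝ) ^ (4 / 3 : ℝ) ≤ 25 * ((Pool.Agent.W424.OD.accessible n F z).card : ℝ) := by
  classical
  obtain ⟨hz1, hz2, y, hy1, hy2⟩ := hz
  obtain ⟨h, hh, hG0, x, hx1, hx2⟩ := hgood
  set U : ℕ := a * m with hU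
  have eU : ((a : ℤ) * m) = (U : ℤ) := by rw [hU]; push_cast; ring
  have hU1 : (1 : ℤ) ≤ U := by exact_mod_cast Nat.mul_pos ha hm
  set C : Set Vtx := Cu (↑F : Set Edg) z with hC
  have hbox : ∀ c ∈ C, c ∈ Plain.box n := by
    intro c hc
    rw [mem_box]
    rw [mem_box] at hz0
    have := reach_mem (A := {v : Vtx | inR 0 n 0 n v}) (fun e he => mem_RE.1 (hF (by exact_mod_cast he)))
      hc hz0
    exact this
  set F0 : Finset Edg := (trl (-x0) (-h)).mp F with hF0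
  have hsh : ∀ {a b : Vtx}, Reach (↑F : Set Edg) a b →
      Reach (↑F0 : Set Edg) (a.1 - x0, a.2 - h) (b.1 - x0, b.2 - h) := fun {a b} h1 => by
    have := (BS_reach_trl (-x0) (-h) (F := F) (u := a) (v := b)).2 h1
    simpa [sub_eq_add_neg] using this
  have hush : ∀ {a b : Vtx}, Reach (↑F0 : Set Edg) a b →
      Reach (↑F : Set Edg) (a.1 + x0, a.2 + h) (b.1 + x0, b.2 + h) := fun {a b} h1 => by
    apply (BS_reach_trl (-x0) (-h) (F := F) (u := (a.1 + x0, a.2 + h)) (v := (b.1 + x0, b.2 + h))).1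
    simpa using h1
  set u0 : Vtx := (z.1 - x0, z.2 - h) with hu0
  obtain ⟨V, hV1, hV2, -, hV3⟩ := hG.det F0 u0 hG0
    ⟨(x.1 - x0, x.2 - h), by
      rw [mem_ctr, sd_le] at hx1 ⊢
      simp only [tr] at hx1 ⊢
      omega, hsh hx2⟩
    ⟨(y.1 - x0, y.2 - h), by
      rw [far_iff, le_sd]
      rw [le_abs] at hy2
      have hw' : ((400 * (a * m) : ℕ) : ℤ) ≤ w := by exact_mod_cast hw
      have e1 : ((400 * (a * m) : ℕ) : ℤ) = 400 * U := by rw [hU]; push_cast; ring
      rw [e1] at hw'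
      simp only
      push_cast
      rw [eU]
      omega, hsh hy1⟩
  have hCeq : ∀ c : Vtx, c ∈ Cu (↑F0 : Set Edg) u0 ↔ (c.1 + x0, c.2 + h) ∈ C := by
    intro c
    constructor
    · intro hc
      have h1 := hush hc
      have h2 : Reach (↑F : Set Edg) z (c.1 + x0, c.2 + h) := by simpa [hu0] using h1
      exact h2
    · intro hc
      have h1 := hsh hc
      have h2 : Reach (↑F0 : Set Edg) u0 c := by simpa [hu0] using h1
      exact h2
  -- every vertex of `V` is near an accessible vertex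
  have key : ∀ v ∈ V, ∃ w' ∈ Pool.Agent.W424.OD.accessible n F z, sd (v.1 + x0, v.2 + h) w' ≤ 2 := by
    intro v hv
    obtain ⟨k1, x', k2, k3⟩ := hV3 v hv
    rw [mem_bdB] at k2
    have k4 : Reach {e | src e ∉ Cu (↑F0 : Set Edg) u0 ∧ tgt e ∉ Cu (↑F0 : Set Edg) u0} x' (s0 a m) := by
      refine k3.mono ?_
      rintro e ⟨h1, h2⟩
      exact ⟨cln_off hm h1, cln_off hm h2⟩
    have k5 : Reach {e | src e ∉ C ∧ tgt e ∉ C} (x'.1 + x0, x'.2 + h)
        ((s0 a m).1 + x0, (s0 a m).2 + h) := by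
      refine reach_trans_set (P := fun c => c ∉ Cu (↑F0 : Set Edg) u0) (Q := fun c => c ∉ C)
        (x0, h) ?_ k4
      intro c hc hc2
      exact hc ((hCeq c).2 hc2)
    have hx'C : (x'.1 + x0, x'.2 + h) ∉ C := by
      rcases reach_cases k5 with h1 | ⟨w', ⟨e, ⟨h1, h2⟩, h3⟩, -⟩
      · rw [h1]
        intro h2
        have := hz2 ((s0 a m).2 + h) (by simp only [s0, eU]; rw [eU] at hh; omega)
        apply this
        simpa [s0] using h2
      · rcases h3 with ⟨h3, -⟩ | ⟨-, h3⟩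
        · rw [← h3]; exact h1
        · rw [← h3]; exact h2
    have k6 : Reach {e | src e ∉ C ∧ tgt e ∉ C} ((s0 a m).1 + x0, (s0 a m).2 + h)
        (x0, min (-(136 * U : ℤ) + h) (-1)) := by
      have e1 : ((s0 a m).1 + x0, (s0 a m).2 + h) = (x0, -(136 * U : ℤ) + h) := by
        simp only [s0, eU, zero_add]
      rw [e1]
      refine vseg (P := fun c => c ∉ C) fun s s1 s2 => ?_
      have l2 := le_max_iff.1 s2
      refine hz2 s ?_
      rw [eU] at hh
      rcases l2 with l2 | l2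
      · omega
      · have := min_le_left (-(136 * U : ℤ) + h) (-1)
        omega
    refine acc_near (x := (x'.1 + x0, x'.2 + h)) (q := (x0, min (-(136 * U : ℤ) + h) (-1)))
      hbox ((hCeq v).1 k1) ?_ hx'C ?_ (k5.trans k6)
    · have := sd_le.1 k2.le
      rw [sd_le]
      simp only
      push_cast at this
      omega
    · rw [mem_box]
      simp only
      rintro ⟨-, h1, -⟩
      have := min_le_right (-(136 * U : ℤ) + h) (-1)
      omega
  -- counting
  set Acc' := Pool.Agent.W424.OD.accessible n F z with hAcc'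
  have h25 : ∀ w : Vtx, (ctr w 2).card = 25 := by
    intro w
    unfold ctr
    rw [Finset.card_product, Int.card_Icc, Int.card_Icc]
    have e1 : (w.1 + (2 : ℕ) + 1 - (w.1 - (2 : ℕ))).toNat = 5 := by
      rw [show w.1 + (2 : ℕ) + 1 - (w.1 - (2 : ℕ)) = 5 by push_cast; ring]; rfl
    have e2 : (w.2 + (2 : ℕ) + 1 - (w.2 - (2 : ℕ))).toNat = 5 := by
      rw [show w.2 + (2 : ℕ) + 1 - (w.2 - (2 : ℕ)) = 5 by push_cast; ring]; rfl
    rw [e1, e2]
  have hsub : V.image (fun v : Vtx => (v.1 + x0, v.2 + h)) ⊆ Acc'.biUnion (fun w => ctr w 2) := by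
    intro u hu
    rw [Finset.mem_image] at hu
    obtain ⟨v, hv, rfl⟩ := hu
    obtain ⟨w', h1, h2⟩ := key v hv
    rw [Finset.mem_biUnion]
    exact ⟨w', h1, mem_ctr.2 h2⟩
  have hcard : V.card ≤ 25 * Acc'.card := by
    have h1 := Finset.card_le_card hsub
    rw [Finset.card_image_of_injective] at h1
    · refine h1.trans (Finset.card_biUnion_le.trans ?_)
      simp only [h25, Finset.sum_const, smul_eq_mul]
      rw [mul_comm]
    · intro v1 v2 h12
      simp only [Prod.mk.injEq] at h12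
      ext
      · omega
      · omega
  refine hV2.trans ?_
  exact_mod_cast hcard

/-- The lowest vertex of the cluster on the line. -/
theorem tip_ex {n : ℕ} {F : Finset Edg} (hF : F ⊆ RE 0 n 0 n) {v a b : Vtx} {x0 : ℤ} {w : ℕ}
    (hv : v ∈ Plain.box n) (ha : a ∈ Cu (↑F : Set Edg) v) (hb : b ∈ Cu (↑F : Set Edg) v)
    (h1 : a.1 ≤ x0) (h2 : x0 + w ≤ b.1) :
    ∃ z ∈ Cu (↑F : Set Edg) v, z ∈ Plain.box n ∧ TipE x0 w (↑F : Set Edg) z := by
  classical
  have hbox : ∀ c ∈ Cu (↑F : Set Edg) v, c ∈ Plain.box n := by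
    intro c hc
    rw [mem_box]
    rw [mem_box] at hv
    exact reach_mem (A := {v : Vtx | inR 0 n 0 n v}) (fun e he => mem_RE.1 (hF (by exact_mod_cast he)))
      hc hv
  -- the cluster meets the line
  have hab : Reach (↑F : Set Edg) a b := Reach.trans (Reach.symm ha) hb
  obtain ⟨s, hs⟩ : ∃ s : ℤ, (x0, s) ∈ Cu (↑F : Set Edg) v := by
    by_cases h3 : a.1 = x0
    · refine ⟨a.2, ?_⟩
      rw [← h3]
      exact ha
    · have hu' : a ∉ {x : Vtx | x0 ≤ x.1} := by simp only [Set.mem_setOf_eq]; omega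
      obtain ⟨w', w'', a1, a2, a3, a4, a5⟩ := first_hit {x : Vtx | x0 ≤ x.1} hab hu'
        (by simp only [Set.mem_setOf_eq]; omega)
      simp only [Set.mem_setOf_eq, not_le] at a1 a2
      have a6 := adj_step a3
      refine ⟨w''.2, ?_⟩
      have : (x0, w''.2) = w'' := by
        ext
        · simp only; omega
        · rfl
      rw [this]
      exact Reach.trans hb (Reach.symm a5)
  set Q : Finset ℤ := (Finset.Icc (0 : ℤ) n).filter (fun s => (x0, s) ∈ Cu (↑F : Set Edg) v) with hQ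
  have hQne : Q.Nonempty := by
    refine ⟨s, Finset.mem_filter.2 ⟨?_, hs⟩⟩
    have := mem_box.1 (hbox _ hs)
    rw [Finset.mem_Icc]
    exact this.2
  set s1 : ℤ := Q.min' hQne with hs1
  have hs1Q := Finset.min'_mem Q hQne
  rw [← hs1, hQ, Finset.mem_filter] at hs1Q
  refine ⟨(x0, s1), hs1Q.2, hbox _ hs1Q.2, rfl, ?_, b, ?_, ?_⟩
  · intro s' hs' hc
    rw [Cu_eq_of_mem hs1Q.2] at hc
    have h4 : s' ∈ Q := by
      rw [hQ, Finset.mem_filter]
      refine ⟨?_, hc⟩
      have := mem_box.1 (hbox _ hc)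
      rw [Finset.mem_Icc]
      exact this.2
    have := Finset.min'_le Q s' h4
    simp only at hs'
    omega
  · rw [Cu_eq_of_mem hs1Q.2]; exact hb
  · rw [le_abs]; left; omega

/-- The accessible vertices only depend on the cluster. -/
theorem acc_eq {n : ℕ} {F : Finset Edg} {v z : Vtx} (h : z ∈ Cu (↑F : Set Edg) v) :
    Pool.Agent.W424.OD.accessible n F z = Pool.Agent.W424.OD.accessible n F v := by
  classical
  have h1 : Plain.cluster F z = Plain.cluster F v := by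
    rw [cluster_eq, cluster_eq, Cu_eq_of_mem h]
  unfold Pool.Agent.W424.OD.accessible Pool.Agent.W424.OD.Accessible
  rw [h1]

/-- Transposition. -/
theorem acc_tps {n : ℕ} {F : Finset Edg} (v : Vtx) :
    (Pool.Agent.W424.OD.accessible n (tps.mp F) (v.2, v.1)).card ≤
      (Pool.Agent.W424.OD.accessible n F v).card := by
  classical
  have hcl : ∀ (F : Finset Edg) (a b : Vtx), Reach (↑(tps.mp F) : Set Edg) (a.2, a.1) (b.2, b.1) ↔
      Reach (↑F : Set Edg) a b := by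
    intro F a b
    rw [LSym.coe_mp]
    exact tps.reach_iff (u := a) (v := b)
  refine Finset.card_le_card_of_injOn (fun w => (w.2, w.1)) ?_ ?_
  · intro w hw
    simp only [Pool.Agent.W424.OD.accessible, Finset.coe_filter, Set.mem_setOf_eq] at hw ⊢
    obtain ⟨h1, h2, e, p, q, h3, h4, h5, h6⟩ := hw
    refine ⟨?_, ?_, tps.φ.symm e, (p.2, p.1), (q.2, q.1), ?_, ?_, ?_, ?_⟩
    · rw [mem_box] at h1 ⊢; exact ⟨h1.2, h1.1⟩
    · rw [Plain.mem_cluster] at h2 ⊢
      exact (hcl F v (w.2, w.1)).1 h2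
    · obtain ⟨e1, e2, eb⟩ := e
      simp only [Plain.fst_eq, Plain.snd_eq] at h3 ⊢
      cases eb
      · simp only [tps_φs, Bool.not_false, src_mk, tgt_true, tgt_false] at h3 ⊢
        rcases h3 with ⟨h7, h8⟩ | ⟨h7, h8⟩
        · left; rw [← h7, ← h8]; exact ⟨rfl, rfl⟩
        · right; rw [← h7, ← h8]; exact ⟨rfl, rfl⟩
      · simp only [tps_φs, Bool.not_true, src_mk, tgt_true, tgt_false] at h3 ⊢
        rcases h3 with ⟨h7, h8⟩ | ⟨h7, h8⟩
        · left; rw [← h7, ← h8]; exact ⟨rfl, rfl⟩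
        · right; rw [← h7, ← h8]; exact ⟨rfl, rfl⟩
    · rw [Plain.mem_cluster] at h4 ⊢
      intro h7
      exact h4 ((hcl F v (p.2, p.1)).2 h7)
    · rw [mem_box] at h5 ⊢
      intro h7; exact h5 ⟨h7.2, h7.1⟩
    · have h7 := Pool.Agent.W424.OD.avoid_reach h6
      apply reach_avoid
      have h8 := tps.reach h7
      have h9 : (p.2, p.1) = tps.ψ p := rfl
      have h10 : (q.2, q.1) = tps.ψ q := rfl
      rw [h9, h10]
      refine Reach.mono ?_ h8
      rintro _ ⟨g, ⟨g1, g2⟩, rfl⟩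
      have key : ∀ c : Vtx, ¬ Reach (↑(tps.mp F) : Set Edg) (v.2, v.1) c →
          tps.ψ c ∉ Plain.cluster F v := by
        intro c hc h11
        rw [Plain.mem_cluster] at h11
        exact hc ((hcl F v (c.2, c.1)).2 h11)
      rcases tps.compat g with ⟨c1, c2⟩ | ⟨c1, c2⟩
      · refine ⟨?_, ?_⟩
        · rw [c1]; exact key _ g1
        · rw [c2]; exact key _ g2
      · refine ⟨?_, ?_⟩
        · rw [c1]; exact key _ g2
        · rw [c2]; exact key _ g1
  · intro a _ b _ h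
    simp only [Prod.mk.injEq] at h
    ext
    · exact h.2
    · exact h.1

end Run7.h561
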