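import Pool.Agent.Run7.h561.TP.Tools

/-! # KXS: the explored edges form stopping sets -/

set_option autoImplicit false

namespace Run7.h561

open H974 H12S Finset H984P H984N

theorem mem_KX {c : ℤ × ℤ} {ρ : ℕ} {S : Finset Edg} {u : Vtx} {F : Finset Edg} {e : Edg} :
    e ∈ KX c ρ S u F ↔ e ∈ S ∧ e ∉ blk c ρ ∧
      (src e ∈ Co c ρ (↑F : Set Edg) u ∨ tgt e ∈ Co c ρ (↑F : Set Edg) u) := by
  unfold KX
  simp only [Finset.mem_filter]

theorem mem_KO {c : ℤ × ℤ} {ρ ρ' : ℕ} {S : Finset Edg} {u : Vtx} {F : Finset Edg} {e : Edg} :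
    e ∈ KO c ρ ρ' S u F ↔ e ∈ S ∧ (e ∉ blk c ρ' ∨ (e ∉ blk c ρ ∧
      (src e ∈ Co c ρ (↑F : Set Edg) u ∨ tgt e ∈ Co c ρ (↑F : Set Edg) u))) := by
  unfold KO
  simp only [Finset.mem_filter]

/-- The cluster is determined by the edges which touch it. -/
theorem Co_eq {c : ℤ × ℤ} {ρ : ℕ} {S : Finset Edg} {u : Vtx} {F F' : Finset Edg} (hF : F ⊆ S)
    (hF' : F' ⊆ S) (K : Finset Edg)
    (hK : ∀ e ∈ S, e ∉ blk c ρ → (src e ∈ Co c ρ (↑F : Set Edg) u ∨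
      tgt e ∈ Co c ρ (↑F : Set Edg) u) → e ∈ K)
    (h : F ∩ K = F' ∩ K) : Co c ρ (↑F' : Set Edg) u = Co c ρ (↑F : Set Edg) u := by
  have h1 : ∀ e ∈ K, (e ∈ F ↔ e ∈ F') := by
    intro e he
    have := Finset.ext_iff.1 h e
    simp only [Finset.mem_inter, he, and_true] at this
    exact this
  ext x
  constructor
  · intro hx
    refine reach_inv (P := fun x => x ∈ Co c ρ (↑F : Set Edg) u) ?_ hx (Reach.refl _ _)
    rintro y z hy ⟨e, ⟨he1, he2⟩, he3⟩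
    have he2' : e ∉ blk c ρ := fun h => he2 (by exact_mod_cast h)
    have heF' : e ∈ F' := by exact_mod_cast he1
    have : e ∈ K := by
      apply hK e (hF' heF') he2'
      rcases he3 with ⟨a1, _⟩ | ⟨_, a1⟩
      · left; rw [a1]; exact hy
      · right; rw [a1]; exact hy
    have heF : e ∈ F := (h1 e this).2 heF'
    exact Reach.trans hy (Adj.reach ⟨e, ⟨by exact_mod_cast heF, he2⟩, he3⟩)
  · intro hx
    have h3 := reach_restrict hx
    refine Reach.mono ?_ h3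
    rintro e ⟨⟨he1, he2⟩, a1, a2⟩
    have he2' : e ∉ blk c ρ := fun h => he2 (by exact_mod_cast h)
    have heF : e ∈ F := by exact_mod_cast he1
    have : e ∈ K := hK e (hF heF) he2' (Or.inl a1)
    exact ⟨by exact_mod_cast (h1 e this).1 heF, he2⟩

/-- **KXS** -/
theorem t_KXS : S_KXS := by
  intro c ρ ρ' S u hρ
  have a1 : ∀ F F', F ⊆ S → F' ⊆ S → F ∩ KX c ρ S u F = F' ∩ KX c ρ S u F →
      Co c ρ (↑F' : Set Edg) u = Co c ρ (↑F : Set Edg) u := by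
    intro F F' hF hF' h
    exact Co_eq hF hF' _ (fun e h1 h2 h3 => mem_KX.2 ⟨h1, h2, h3⟩) h
  have a2 : ∀ F F', F ⊆ S → F' ⊆ S → F ∩ KO c ρ ρ' S u F = F' ∩ KO c ρ ρ' S u F →
      Co c ρ (↑F' : Set Edg) u = Co c ρ (↑F : Set Edg) u := by
    intro F F' hF hF' h
    exact Co_eq hF hF' _ (fun e h1 h2 h3 => mem_KO.2 ⟨h1, Or.inr ⟨h2, h3⟩⟩) h
  refine ⟨⟨?_, a1⟩, ?_, ?_⟩
  · intro F F' hF hF' h
    ext e
    rw [mem_KX, mem_KX, a1 F F' hF hF' h]
  · intro F F' hF hF' h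
    ext e
    rw [mem_KO, mem_KO, a2 F F' hF hF' h]
  · intro F F' hF hF' h
    refine ⟨a2 F F' hF hF' h, ?_⟩
    intro e he
    have := Finset.ext_iff.1 h e
    simp only [Finset.mem_inter] at this
    constructor
    · intro h1
      exact (this.1 ⟨h1, mem_KO.2 ⟨hF h1, Or.inl he⟩⟩).1
    · intro h1
      exact (this.2 ⟨h1, mem_KO.2 ⟨hF' h1, Or.inl he⟩⟩).1

end Run7.h561
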