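import Pool.Agent.Run7.h561.TP.Chain
import Pool.Agent.Run7.h561.TP.P_KXS

/-! # SDET: the cluster in a painted window -/

set_option autoImplicit false

namespace Run7.h561

open H974 H12S Finset H984P H984N

/-- The vertices of the outside cluster are outside of the open block. -/
theorem Co_far {c : ℤ × ℤ} {ρ : ℕ} {F : Set Edg} {u x : Vtx} (hu : u ∈ bdB c ρ)
    (hx : x ∈ Co c ρ F u) : (ρ : ℤ) ≤ sd x c := by
  rcases reach_cases (Reach.symm hx) with h | ⟨w, ⟨e, ⟨h1, h2⟩, h3⟩, -⟩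
  · rw [h]; exact (mem_bdB.1 hu).ge
  · by_contra h4
    push Not at h4
    apply h2
    have h5 : e ∈ blk c ρ := by
      rw [mem_blk]
      have h6 := sd_ends e
      have h7 := sd_tri (src e) (tgt e) c
      have h8 := sd_tri (tgt e) (src e) c
      rw [sd_comm (tgt e) (src e)] at h8
      rcases h3 with ⟨rfl, rfl⟩ | ⟨rfl, rfl⟩ <;> omega
    exact_mod_cast h5

theorem Co_sub {c : ℤ × ℤ} {ρ : ℕ} {F : Set Edg} {u : Vtx} : Co c ρ F u ⊆ Cu F u :=
  Cu_mono Set.diff_subset u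

theorem Co_symm {c : ℤ × ℤ} {ρ : ℕ} {F : Set Edg} {u x : Vtx} (h : x ∈ Co c ρ F u) :
    Co c ρ F x = Co c ρ F u := Cu_eq_of_mem h

/-- An open edge from the outside cluster to a vertex not in it lies in the block. -/
theorem exit_edge {c : ℤ × ℤ} {ρ : ℕ} {F : Finset Edg} {u y z : Vtx}
    (hy : y ∈ Co c ρ (↑F : Set Edg) u) (hz : z ∉ Co c ρ (↑F : Set Edg) u) {e : Edg} (he : e ∈ F)
    (h : (src e = y ∧ tgt e = z) ∨ (src e = z ∧ tgt e = y)) : e ∈ blk c ρ := by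
  by_contra h1
  exact hz (Reach.trans hy (Adj.reach ⟨e, ⟨by exact_mod_cast he, by exact_mod_cast h1⟩, h⟩))

/-- Excursions: a vertex of the cluster which is not in the outside cluster is reached from the
boundary of the block by edges which lie in the block or do not touch the outside cluster. -/
theorem excursion {c : ℤ × ℤ} {ρ : ℕ} {F : Finset Edg} {u w : Vtx} (hu : u ∈ bdB c ρ)
    (hw : w ∈ Cu (↑F : Set Edg) u) (hw' : w ∉ Co c ρ (↑F : Set Edg) u) :
    ∃ y ∈ Co c ρ (↑F : Set Edg) u, sd y c = ρ ∧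
      Reach {e | e ∈ F ∧ (e ∈ blk c ρ ∨ (src e ∉ Co c ρ (↑F : Set Edg) u ∧
        tgt e ∉ Co c ρ (↑F : Set Edg) u))} y w := by
  obtain ⟨y, y', a1, a2, a3, a4, -⟩ := last_hit (Co c ρ (↑F : Set Edg) u) hw (Reach.refl _ _) hw'
  obtain ⟨e, he, h3⟩ := a3
  have he' : e ∈ F := by exact_mod_cast he
  have hb := exit_edge a1 a2 he' h3
  have h4 := Co_far hu a1
  refine ⟨y, a1, ?_, ?_⟩
  · rw [mem_blk] at hb
    rcases h3 with ⟨rfl, rfl⟩ | ⟨rfl, rfl⟩ <;> omega
  · refine Reach.trans (Adj.reach ⟨e, ⟨he', Or.inl hb⟩, h3⟩) (a4.mono ?_)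
    rintro e ⟨h5, h6, h7⟩
    exact ⟨by exact_mod_cast h5, Or.inr ⟨h6, h7⟩⟩

namespace SDET

/-- Excursions stay in the window. -/
theorem exc {c : ℤ × ℤ} {ρ ρ1 ρ' : ℕ} {S F : Finset Edg} {u w : Vtx} (hF : F ⊆ S)
    (hρ : ρ ≤ ρ1) (hρ' : ρ1 ≤ ρ') (hu : u ∈ bdB c ρ)
    (hc : ¬ Crs c.1 c.2 ρ1 ρ' (↑(F \ KO c ρ ρ' S u F) : Set Edg))
    (hw : w ∈ Cu (↑F : Set Edg) u) (hw' : w ∉ Co c ρ (↑F : Set Edg) u) :
    sd w c < ρ' ∧ ∃ y ∈ Co c ρ (↑F : Set Edg) u, sd y c = ρ ∧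
      Reach (↑(F \ KO c ρ ρ' S u F) : Set Edg) y w := by
  obtain ⟨y, y1, y2, y3⟩ := excursion hu hw hw'
  have r1 : (ρ : ℤ) ≤ ρ1 := by exact_mod_cast hρ
  have r2 : (ρ1 : ℤ) ≤ ρ' := by exact_mod_cast hρ'
  have key : ∀ x, Reach {e | e ∈ F ∧ (e ∈ blk c ρ ∨ (src e ∉ Co c ρ (↑F : Set Edg) u ∧
        tgt e ∉ Co c ρ (↑F : Set Edg) u))} y x → sd x c < ρ' := by
    intro x hx
    by_contra h
    push Not at h
    obtain ⟨x1, b1, b2, -⟩ := first_level c ρ' hx (by omega) h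
    apply hc
    refine crs_iff.2 ⟨y, x1, by simp only [Prod.mk.eta]; omega, by simp only [Prod.mk.eta]; omega,
      b2.mono ?_⟩
    rintro e ⟨⟨d1, d2⟩, d3, d4⟩
    rw [Finset.coe_sdiff]
    refine ⟨by exact_mod_cast d1, ?_⟩
    rw [Finset.mem_coe, mem_KO]
    rintro ⟨-, h | ⟨h1, h2⟩⟩
    · exact h (mem_blk.2 ⟨d3, d4⟩)
    · rcases d2 with d2 | d2
      · exact h1 d2
      · rcases h2 with h2 | h2
        · exact d2.1 h2
        · exact d2.2 h2
  refine ⟨key w y3, y, y1, y2, ?_⟩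
  refine (reach_restrict' (P := fun x => sd x c < ρ') y3 key).mono ?_
  rintro e ⟨⟨d1, d2⟩, d3, d4⟩
  rw [Finset.coe_sdiff]
  refine ⟨by exact_mod_cast d1, ?_⟩
  rw [Finset.mem_coe, mem_KO]
  rintro ⟨-, h | ⟨h1, h2⟩⟩
  · exact h (mem_blk.2 ⟨d3.le, d4.le⟩)
  · rcases d2 with d2 | d2
    · exact h1 d2
    · rcases h2 with h2 | h2
      · exact d2.1 h2
      · exact d2.2 h2

/-- The index set of the open cells. -/
def IP (a : ℕ) (q : ℤ × ℤ) : Prop :=
  ((-(224 * a : ℤ) ≤ q.1 ∧ q.1 ≤ 224 * a) ∧ (-(224 * a : ℤ) ≤ q.2 ∧ q.2 ≤ 224 * a)) ∧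
    ((160 * (a : ℤ) ≤ max |q.1| |q.2| ∧ ¬ (q.2 < 0 ∧ |q.1| < 6)) ∨
      (q.1 = -(64 * a : ℤ) ∧ -(121 * (a / 2 : ℕ) : ℤ) + 1 ≤ q.2))

theorem mem_OP {a m : ℕ} {q : ℤ × ℤ} (h : IP a q) : cell m q ∈ OP a m := by
  unfold OP
  rw [Finset.mem_image]
  refine ⟨q, ?_, rfl⟩
  simp only [Finset.mem_filter, Finset.mem_product, Finset.mem_Icc]
  exact h

theorem ring_of {a : ℕ} (ha : 24 ≤ a) {q : ℤ × ℤ}
    (h : (-(224 * a : ℤ) ≤ q.1 ∧ q.1 ≤ 224 * a) ∧ (-(224 * a : ℤ) ≤ q.2 ∧ q.2 ≤ 224 * a))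
    (h1 : (160 * (a : ℤ) ≤ q.1 ∨ q.1 ≤ -(160 * a : ℤ)) ∨ 160 * (a : ℤ) ≤ q.2 ∨
      (q.2 ≤ -(160 * a : ℤ) ∧ (6 ≤ q.1 ∨ q.1 ≤ -6))) : IP a q := by
  refine ⟨h, Or.inl ⟨?_, ?_⟩⟩
  · rw [le_max_iff, le_abs', le_abs']
    omega
  · rintro ⟨h2, h3⟩
    rw [abs_lt] at h3
    omega

end SDET

/-- **SDET** -/
theorem t_SDET (cz : S_CZ) : S_SDET := by
  intro a Λ m c S u G F Far ha hev hΛ hm hF hFar hXA hOff hI hP
  obtain ⟨hu, ⟨yf, hyf, hyf2⟩, hslit⟩ := hXA
  obtain ⟨hop, ⟨hcp, hcr⟩, -⟩ := hP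
  set U : ℕ := a * m with hU
  set C : Set Vtx := Co c (512 * U) (↑F : Set Edg) u with hC
  have hUm : 24 * (m : ℤ) ≤ U := by
    rw [hU]; push_cast
    exact mul_le_mul_of_nonneg_right (by exact_mod_cast ha) (by positivity)
  have hΛU : 16 * (U : ℤ) ≤ ((Λ * U : ℕ) : ℤ) := by
    push_cast
    exact mul_le_mul_of_nonneg_right (by exact_mod_cast hΛ) (by positivity)
  have hm' : (1 : ℤ) ≤ m := by exact_mod_cast hm
  have hexc := fun (w : Vtx) (hw : w ∈ Cu (↑F : Set Edg) u) (hw' : w ∉ C) =>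
    SDET.exc (ρ1 := 64 * (Λ * U)) hF (by zify; omega) (by omega) hu hcr hw hw'
  have hCu : C ⊆ Cu (↑F : Set Edg) u := Co_sub
  -- (3)
  have c3 : ∀ x ∈ Cu (↑F : Set Edg) u, BSfar c (192 * (Λ * U)) x → x ∈ C := by
    intro x hx hx2
    by_contra h
    have h1 := (hexc x hx h).1
    rw [far_iff] at hx2
    omega
  -- (1)
  have c1 : ∀ s : ℤ, (c.1, s) ∈ Cu (↑F : Set Edg) u → c.2 - 120 * (a * m) ≤ s := by
    intro s hs
    by_contra hs2
    push Not at hs2
    have e1 : ((a : ℤ) * m) = (U : ℤ) := by rw [hU]; push_cast; ring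
    have hsC : (c.1, s) ∉ C := hslit s (by rw [e1] at hs2; omega)
    obtain ⟨h1, y, y1, y2, y3⟩ := hexc _ hs hsC
    rw [sd_lt] at h1
    simp only at h1
    set j : ℤ := (c.2 - s) / (2 * m) with hj
    have k1 := Int.emod_add_mul_ediv (c.2 - s) (2 * m)
    have k2 := Int.emod_nonneg (c.2 - s) (show (2 * m : ℤ) ≠ 0 by omega)
    have k3 := Int.emod_lt_of_pos (c.2 - s) (show (0 : ℤ) < 2 * m by omega)
    rw [← hj] at k1
    have e2 : (2 * m : ℤ) * j = 2 * (m * j) := by ring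
    rw [e2] at k1
    have j1 : (60 * a : ℤ) ≤ j := by
      have : (m : ℤ) * (60 * a) < m * (j + 1) := by
        have : (m : ℤ) * (60 * a) = 60 * ((a : ℤ) * m) := by ring
        rw [this]
        have : (m : ℤ) * (j + 1) = m * j + m := by ring
        rw [this]
        omega
      have := lt_of_mul this
      omega
    have j2 : j ≤ 96 * a * Λ := by
      have : (m : ℤ) * j < m * (96 * a * Λ + 1) := by
        have : (m : ℤ) * (96 * a * Λ + 1) = 96 * ((Λ * U : ℕ) : ℤ) + m := by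
          rw [hU]; push_cast; ring
        rw [this]
        omega
      have := lt_of_mul this
      omega
    have hq : ((0 : ℤ), -(2 * (m * j) : ℤ)) ∈ CP a m Λ := by
      unfold CP
      rw [Finset.mem_image]
      exact ⟨j, Finset.mem_Icc.2 ⟨j1, j2⟩, rfl⟩
    have hb := hcp _ hq
    have hyo := hOff y y1 (mem_bdB.2 y2)
    have n1 : (60 : ℤ) * U ≤ m * j := by
      have : (m : ℤ) * (60 * a) ≤ m * j := mul_le_mul_of_nonneg_left j1 (by omega)
      have e3 : (m : ℤ) * (60 * a) = 60 * U := by rw [← e1]; ring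
      omega
    refine bsd_avoid hb (x := (c.1, s)) (y := y) ?_ ?_ (Reach.symm y3)
    · rw [sd_le]; simp only [tr]; push_cast; omega
    · rw [le_sd]; simp only [tr]; push_cast
      by_contra h5
      push Not at h5
      apply hyo
      rw [abs_le]
      omega
  -- open cells
  have hcell : ∀ q, SDET.IP a q → ∃ z, Cz (tr c (cell m q)) m (↑F : Set Edg) z := by
    intro q hq
    exact cz _ _ F hm (hop _ (SDET.mem_OP hq))
  obtain ⟨b, hb⟩ := hev
  have hab : (a : ℤ) = b + b := by exact_mod_cast hb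
  have ha2 : ((a / 2 : ℕ) : ℤ) = b := by rw [hb]; omega
  have ha' : (24 : ℤ) ≤ a := by exact_mod_cast ha
  -- the arm meets the ring
  obtain ⟨x, x1, x2, y, y1, hxy⟩ := hI
  rw [mem_bdB] at x2 y1
  have hG2 : Gd c m (↑F : Set Edg) u (0, 200 * a) := by
    obtain ⟨w, w1, w2, w3⟩ := first_level c (384 * (U : ℤ)) (Reach.symm hxy)
      (by push_cast at y1; omega) (by push_cast at x2; omega)
    have w4 : Reach (↑F : Set Edg) w x := w3.mono (by rintro e ⟨h1, -⟩; exact_mod_cast h1)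
    have w5 : Off m c w := by
      rcases reach_cases (Reach.symm w2) with h | ⟨w', ⟨e, ⟨h1, -⟩, h2⟩, -⟩
      · exfalso; rw [h] at w1; push_cast at y1; omega
      · obtain ⟨-, -, -, -, o1, o2⟩ := h1
        rcases h2 with ⟨rfl, rfl⟩ | ⟨rfl, rfl⟩
        · exact o1
        · exact o2
    obtain ⟨i, i1, i2⟩ := cell_ex hm (w.1 - c.1)
    obtain ⟨j, j1, j2⟩ := cell_ex hm (w.2 - c.2)
    have w6 := sd_le.1 w1.le
    have w7 := le_sd.1 w1.ge
    have e1 : ∀ k : ℤ, (m : ℤ) * (k * a) = k * U := by intro k; rw [hU]; push_cast; ring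
    have e2 : ∀ k l : ℤ, (m : ℤ) * (k + l) = m * k + m * l := fun k l => by ring
    have up : ∀ k l r : ℤ, (m : ℤ) * k < r * U + l * m → k < r * a + l := by
      intro k l r h
      apply lt_of_mul (m := m)
      rw [e2, e1]
      linarith [mul_comm (m : ℤ) l]
    have dn : ∀ k l r : ℤ, r * U + l * m < (m : ℤ) * k → r * a + l < k := by
      intro k l r h
      apply lt_of_mul (m := m)
      rw [e2, e1]
      linarith [mul_comm (m : ℤ) l]
    have hi1 : i < 224 * a + 0 := up i 0 224 (by omega)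
    have hi2 : -224 * a + 0 < i := dn i 0 (-224) (by omega)
    have hj1 : j < 224 * a + 0 := up j 0 224 (by omega)
    have hj2 : -224 * a + 0 < j := dn j 0 (-224) (by omega)
    have hbig : (160 * (a : ℤ) ≤ i ∨ i ≤ -(160 * a : ℤ)) ∨ (160 * (a : ℤ) ≤ j ∨
        j ≤ -(160 * a : ℤ)) := by
      rcases w7 with (h | h) | h | h
      · have := dn i 0 160 (by omega); omega
      · have := up i 0 (-160) (by omega); omega
      · have := dn j 0 160 (by omega); omega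
      · have := up j 0 (-160) (by omega); omega
    -- off the gap
    have hgap : ¬ (j < 0 ∧ -6 < i ∧ i < 6) := by
      rintro ⟨g1, g2, g3⟩
      apply w5
      have g4 : (m : ℤ) * j ≤ m * (-1) := mul_le_mul_of_nonneg_left (by omega) (by omega)
      have g5 : (m : ℤ) * i ≤ m * 5 := mul_le_mul_of_nonneg_left (by omega) (by omega)
      have g6 : (m : ℤ) * (-5) ≤ m * i := mul_le_mul_of_nonneg_left (by omega) (by omega)
      rw [abs_le]
      omega
    have hbd : (-(224 * a : ℤ) ≤ i ∧ i ≤ 224 * a) ∧ (-(224 * a : ℤ) ≤ j ∧ j ≤ 224 * a) := by omega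
    have hIP : SDET.IP a (i, j) := SDET.ring_of ha hbd (by simp only; omega)
    have hG0 : Gd c m (↑F : Set Edg) u (i, j) := by
      refine Gd_of_meet (hcell _ hIP) (x := w) (y := x) ?_ ?_ w4 ?_
      · rw [sd_le]; simp only [tr, cell]; omega
      · have h1 := sd_tri x (tr c (cell m (i, j))) c
        have h2 : sd (tr c (cell m (i, j))) c ≤ 384 * U + m := by
          have h3 := sd_tri (tr c (cell m (i, j))) w c
          have h4 : sd (tr c (cell m (i, j))) w ≤ m := by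
            rw [sd_le]; simp only [tr, cell]; omega
          omega
        push_cast at x2
        omega
      · exact Reach.trans (hCu x1) (Reach.symm w4)
    -- case A
    have caseA : ∀ i j : ℤ, (160 * (a : ℤ) ≤ i ∨ i ≤ -(160 * a : ℤ)) →
        ((-(224 * a : ℤ) ≤ i ∧ i ≤ 224 * a) ∧ (-(224 * a : ℤ) ≤ j ∧ j ≤ 224 * a)) →
        Gd c m (↑F : Set Edg) u (i, j) → Gd c m (↑F : Set Edg) u (0, 200 * a) := by
      intro i j hi hij hG
      have s1 : Gd c m (↑F : Set Edg) u (i, 200 * a) := by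
        refine Gd_ver hG fun k k1 k2 => hcell _ (SDET.ring_of ha ?_ (Or.inl hi))
        refine ⟨hij.1, ?_, ?_⟩
        · simp only; have := min_le_iff.1 k1; omega
        · simp only; have := le_max_iff.1 k2; omega
      refine Gd_hor s1 fun k k1 k2 => hcell _ (SDET.ring_of ha ?_ (Or.inr (Or.inl ?_)))
      · have := min_le_iff.1 k1
        have := le_max_iff.1 k2
        refine ⟨⟨?_, ?_⟩, ?_, ?_⟩ <;> simp only <;> omega
      · simp only; omega
    rcases hbig with h | h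
    · exact caseA i j h hbd hG0
    · by_cases hi : 160 * (a : ℤ) ≤ i ∨ i ≤ -(160 * a : ℤ)
      · exact caseA i j hi hbd hG0
      rcases h with h | h
      · have s1 : Gd c m (↑F : Set Edg) u (0, j) := by
          refine Gd_hor hG0 fun k k1 k2 => hcell _ (SDET.ring_of ha ?_ (Or.inr (Or.inl h)))
          have := min_le_iff.1 k1
          have := le_max_iff.1 k2
          refine ⟨⟨?_, ?_⟩, ?_, ?_⟩ <;> simp only <;> omega
        refine Gd_ver s1 fun k k1 k2 => hcell _ (SDET.ring_of ha ?_ (Or.inr (Or.inl ?_)))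
        · have := min_le_iff.1 k1
          have := le_max_iff.1 k2
          refine ⟨⟨?_, ?_⟩, ?_, ?_⟩ <;> simp only <;> omega
        · have := min_le_iff.1 k1
          simp only; omega
      · rcases lt_or_ge i 0 with hi0 | hi0
        · have s1 : Gd c m (↑F : Set Edg) u (-(200 * a), j) := by
            refine Gd_hor hG0 fun k k1 k2 => hcell _ (SDET.ring_of ha ?_
              (Or.inr (Or.inr ⟨h, Or.inr ?_⟩)))
            · have := min_le_iff.1 k1
              have := le_max_iff.1 k2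
              refine ⟨⟨?_, ?_⟩, ?_, ?_⟩ <;> simp only <;> omega
            · have := le_max_iff.1 k2
              simp only; omega
          exact caseA _ j (by omega) (by omega) s1
        · have s1 : Gd c m (↑F : Set Edg) u (200 * a, j) := by
            refine Gd_hor hG0 fun k k1 k2 => hcell _ (SDET.ring_of ha ?_
              (Or.inr (Or.inr ⟨h, Or.inl ?_⟩)))
            · have := min_le_iff.1 k1
              have := le_max_iff.1 k2
              refine ⟨⟨?_, ?_⟩, ?_, ?_⟩ <;> simp only <;> omega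
            · have := min_le_iff.1 k1
              simp only; omega
          exact caseA _ j (by omega) (by omega) s1
  -- (2)
  have e1 : ((a : ℤ) * m) = (U : ℤ) := by rw [hU]; push_cast; ring
  have c2 : ∃ s : ℤ, s ≤ c.2 + 512 * (a * m) ∧ (c.1, s) ∈ Cu (↑F : Set Edg) u := by
    obtain ⟨z, z1, z2⟩ := hG2
    obtain ⟨s, s1, s2, s3⟩ := z1.line
    have e3 : (m : ℤ) * (200 * a) = 200 * U := by rw [← e1]; ring
    simp only [tr, cell, mul_zero, add_zero] at s1 s2 s3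
    refine ⟨s, by rw [e3] at s2; rw [e1]; omega, Reach.trans z2 (Reach.symm s3)⟩
  -- (4)
  have hG3 : Gd c m (↑F : Set Edg) u (-(64 * a), 200 * a) := by
    refine Gd_hor hG2 fun k k1 k2 => hcell _ (SDET.ring_of ha ?_ (Or.inr (Or.inl ?_)))
    · have := min_le_iff.1 k1
      have := le_max_iff.1 k2
      refine ⟨⟨?_, ?_⟩, ?_, ?_⟩ <;> simp only <;> omega
    · simp only; omega
  have hG4 : Gd c m (↑F : Set Edg) u (-(64 * a), -(121 * b) + 1) := by
    refine Gd_ver hG3 fun k k1 k2 => hcell _ ⟨?_, Or.inr ⟨rfl, ?_⟩⟩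
    · have := min_le_iff.1 k1
      have := le_max_iff.1 k2
      refine ⟨⟨?_, ?_⟩, ?_, ?_⟩ <;> simp only <;> omega
    · have := min_le_iff.1 k1
      rw [ha2]
      simp only; omega
  have c4 : ∃ x ∈ ctr (tr c (q1 a m)) m, x ∈ Cu (↑F : Set Edg) u := by
    obtain ⟨z, z1, z2⟩ := hG4
    obtain ⟨x, x1, y, y1, h1, h2⟩ := z1.nbr (tr c (q1 a m)) (by
      right; right; right
      simp only [tr, cell, q1]
      ext
      · simp only; rw [hab]; ring
      · simp only; rw [hab]; ring)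
    exact ⟨x, x1, Reach.trans z2 (Reach.symm h2)⟩
  refine ⟨c1, c2, c3, c4, ?_⟩
  -- (5)
  intro u' hu' ⟨y, hy1, hy2⟩
  by_contra hcon
  apply hcr
  have hy3 := far_iff.1 (hFar y hy1)
  rw [mem_bdB] at hu'
  obtain ⟨w, w1, w2, -⟩ := first_level c ((192 * (Λ * U) : ℕ) : ℤ) hy2
    (by rw [hu']; push_cast at hΛU ⊢; omega) hy3
  refine crs_iff.2 ⟨u', w, by simp only [Prod.mk.eta]; rw [hu']; push_cast at hΛU ⊢; omega,
    by simp only [Prod.mk.eta]; omega, ?_⟩
  have w3 := reach_restrict w2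
  refine w3.mono ?_
  rintro e ⟨⟨⟨d1, d2⟩, d3, d4⟩, d5, d6⟩
  rw [Finset.coe_sdiff]
  refine ⟨d1, ?_⟩
  have t1 : ∀ v, Reach {e | e ∈ (↑F : Set Edg) \ ↑(blk c (512 * U)) ∧
      sd (src e) c ≤ ((192 * (Λ * U) : ℕ) : ℤ) ∧ sd (tgt e) c ≤ ((192 * (Λ * U) : ℕ) : ℤ)} u' v →
      v ∉ C := by
    intro v hv hvC
    apply hcon
    have : Reach ((↑F : Set Edg) \ ↑(blk c (512 * U))) u' v := hv.mono (by rintro e ⟨h, -⟩; exact h)
    exact Reach.trans hvC this.symm
  rw [Finset.mem_coe, mem_KO]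
  rintro ⟨-, h | ⟨-, h | h⟩⟩
  · exact h (mem_blk.2 ⟨d3, d4⟩)
  · exact t1 _ d5 h
  · exact t1 _ d6 h

end Run7.h561
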