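import Pool.Agent.Run7.h561.TP.P_MIX
import Pool.Agent.Run7.h561.TP.P_SDET

/-! # SURG: painting costs a constant factor -/

set_option autoImplicit false

namespace Run7.h561

open H974 H12S Finset H984P H984N

theorem harris_dec {S : Finset Edg} {A B : Finset Edg → Prop}
    (hA : ∀ F G : Finset Edg, F ⊆ G → A G → A F) (hB : ∀ F G : Finset Edg, F ⊆ G → B G → B F) :
    PQ (1 / 2) S A * PQ (1 / 2) S B ≤ PQ (1 / 2) S (fun F => A F ∧ B F) := by
  have h := sh_decr ok_half (S := S) (f := fun F => ind (A F)) (g := fun F => ind (B F))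
    (fun F G h1 _ => ind_mono (hA F G h1)) (fun F G h1 _ => ind_mono (hB F G h1))
  refine h.trans (le_of_eq ?_)
  exact Ex_congr fun F _ => (ind_and _ _).symm

namespace SURG

theorem crs_local {c : ℤ × ℤ} {r R : ℕ} (hr : r ≤ R) {F T : Finset Edg}
    (hT : ∀ e, e ∈ blk c R → e ∉ blk c r → e ∈ T) (h : Crs c.1 c.2 r R (↑F : Set Edg)) :
    Crs c.1 c.2 r R (↑(F ∩ T) : Set Edg) := by
  obtain ⟨x, y, h1, h2, h3⟩ := crs_iff.1 h
  obtain ⟨w, w', a1, a2, a3, -, -⟩ := cross_ann c (d := r) (k := R) (by exact_mod_cast hr) h3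
    h1 h2
  refine crs_iff.2 ⟨w, w', a1.le, a2.ge, a3.mono ?_⟩
  rintro e ⟨b1, b2, b3⟩
  rw [Finset.coe_inter]
  refine ⟨b1, ?_⟩
  exact_mod_cast hT e (mem_blk.2 b2) (fun h => b3 (mem_blk.1 h))

theorem bsd_local' {q : ℤ × ℤ} {k : ℕ} {F T : Finset Edg}
    (hT : ∀ e, e ∈ blk q (3 * k) → e ∈ T) : BSD q k F ↔ BSD q k (F ∩ T) := by
  constructor
  · intro h h1
    exact h (BS_crs_mono (by rw [Finset.coe_inter]; exact Set.inter_subset_left) h1)
  · intro h h1
    exact h (crs_local (by omega) (fun e h2 _ => hT e h2) h1)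

theorem bsu_local' {q : ℤ × ℤ} {k : ℕ} {F T : Finset Edg}
    (hT : ∀ e, e ∈ blk q (3 * k) → e ∈ T) : BSU q k F ↔ BSU q k (F ∩ T) := by
  rw [BSU_local q k F, BSU_local q k (F ∩ T), Finset.inter_assoc,
    Finset.inter_eq_right.2 (show blk q (3 * k) ⊆ T from hT)]

theorem bsd_dec {q : ℤ × ℤ} {k : ℕ} {F G : Finset Edg} (h : F ⊆ G) (hG : BSD q k G) :
    BSD q k F := fun h1 => hG (BS_crs_mono (by exact_mod_cast h) h1)

/-- The translate of a set of edges. -/
theorem mp_trl_mem (c : ℤ × ℤ) (T : Finset Edg) (e : Edg) :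
    e ∈ (trl c.1 c.2).mp T ↔ (e.1 - c.1, e.2.1 - c.2, e.2.2) ∈ T := by
  rw [LSym.mem_mp]
  rfl

theorem src_shift (c : ℤ × ℤ) (e : Edg) : src (e.1 - c.1, e.2.1 - c.2, e.2.2) =
    ((src e).1 - c.1, (src e).2 - c.2) := by
  obtain ⟨x, y, b⟩ := e; rfl

theorem tgt_shift (c : ℤ × ℤ) (e : Edg) : tgt (e.1 - c.1, e.2.1 - c.2, e.2.2) =
    ((tgt e).1 - c.1, (tgt e).2 - c.2) := by
  obtain ⟨x, y, _ | _⟩ := e
  · simp; ring
  · simp; ring

theorem trl_cancel (c : ℤ × ℤ) (T : Finset Edg) :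
    (trl (-c.1) (-c.2)).mp ((trl c.1 c.2).mp T) = T := trl_trl c.1 c.2 T

theorem trl_cancel' (c : ℤ × ℤ) (T : Finset Edg) :
    (trl c.1 c.2).mp ((trl (-c.1) (-c.2)).mp T) = T := by
  have := trl_trl (-c.1) (-c.2) T
  simpa using this

/-- The edges of the gadget. -/
theorem TG_box {a m : ℕ} (ha : 24 ≤ a) {e : Edg} (he : e ∈ TG a m) :
    (-(138 * (a * m) : ℤ) ≤ (src e).1 ∧ (src e).1 ≤ a * m) ∧
    (-(138 * (a * m) : ℤ) ≤ (src e).2 ∧ (src e).2 ≤ -(118 * (a * m) : ℤ)) ∧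
    (-(138 * (a * m) : ℤ) ≤ (tgt e).1 ∧ (tgt e).1 ≤ a * m) ∧
    (-(138 * (a * m) : ℤ) ≤ (tgt e).2 ∧ (tgt e).2 ≤ -(118 * (a * m) : ℤ)) := by
  have h1 : 24 * (m : ℤ) ≤ a * m := mul_le_mul_of_nonneg_right (by exact_mod_cast ha) (by positivity)
  have hm : (0 : ℤ) ≤ m := by positivity
  unfold TG at he
  rw [Finset.mem_union, mem_blk, mem_RE] at he
  rcases he with ⟨h2, h3⟩ | ⟨h2, h3⟩
  · rw [sd_le] at h2 h3
    simp only [v0] at h2 h3
    push_cast at h2 h3
    omega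
  · unfold inR at h2 h3
    omega

end SURG

open SURG in
/-- **SURG** -/
theorem t_SURG (mx : S_MIX) (pbx : S_PBX) (kxs : S_KXS) : S_SURG := by
  obtain ⟨κ, κ0, κ1, hκ⟩ := pbx
  intro a Λ p ha hev hΛ hp
  set N1 : ℕ := ((Finset.Icc (-(224 * a : ℤ)) (224 * a) ×ˢ
    Finset.Icc (-(224 * a : ℤ)) (224 * a))).card with hN1
  set N2 : ℕ := (Finset.Icc (60 * a : ℤ) (96 * a * Λ)).card with hN2
  refine ⟨κ ^ N1 * (κ ^ N2 * κ) * p, by positivity, ?_⟩
  intro m c S u G hm hS hG A hA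
  set U : ℕ := a * m with hU
  have hUm : 24 * (m : ℤ) ≤ U := by
    rw [hU]; push_cast
    exact mul_le_mul_of_nonneg_right (by exact_mod_cast ha) (by positivity)
  have hΛU : 16 * (U : ℤ) ≤ ((Λ * U : ℕ) : ℤ) := by
    push_cast
    exact mul_le_mul_of_nonneg_right (by exact_mod_cast hΛ) (by positivity)
  have hm' : (1 : ℤ) ≤ m := by exact_mod_cast hm
  have eU : ((a : ℤ) * m) = (U : ℤ) := by rw [hU]; push_cast; ring
  obtain ⟨b, hb⟩ := hev
  have hab : (a : ℤ) = b + b := by exact_mod_cast hb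
  have ha2 : ((a / 2 : ℕ) : ℤ) = b := by rw [hb]; omega
  have hbm : (b : ℤ) * m + b * m = U := by rw [← eU, hab]; ring
  -- the cells
  have hOPc : ∀ q ∈ OP a m, (|q.1| ≤ 448 * U ∧ |q.2| ≤ 448 * U) ∧
      ((320 * (U : ℤ) ≤ max |q.1| |q.2| ∧ ((-(12 * m : ℤ) < q.1 ∧ q.1 < 12 * m) → 0 ≤ q.2)) ∨
        (q.1 = -(128 * U : ℤ) ∧ -(121 * U : ℤ) + 2 * m ≤ q.2)) := by
    intro q hq
    unfold OP at hq
    simp only [Finset.mem_image, Finset.mem_filter, Finset.mem_product, Finset.mem_Icc] at hq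
    obtain ⟨⟨i, j⟩, ⟨⟨⟨i1, i2⟩, j1, j2⟩, h3⟩, rfl⟩ := hq
    simp only at i1 i2 j1 j2 h3
    simp only [cell]
    have k1 : -(224 * U : ℤ) ≤ m * i := by
      have := mul_le_mul_of_nonneg_left i1 (show (0 : ℤ) ≤ m by omega)
      have e : (m : ℤ) * -(224 * a) = -(224 * U) := by rw [← eU]; ring
      omega
    have k2 : m * i ≤ 224 * (U : ℤ) := by
      have := mul_le_mul_of_nonneg_left i2 (show (0 : ℤ) ≤ m by omega)
      have e : (m : ℤ) * (224 * a) = (224 * U) := by rw [← eU]; ring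
      omega
    have k3 : -(224 * U : ℤ) ≤ m * j := by
      have := mul_le_mul_of_nonneg_left j1 (show (0 : ℤ) ≤ m by omega)
      have e : (m : ℤ) * -(224 * a) = -(224 * U) := by rw [← eU]; ring
      omega
    have k4 : m * j ≤ 224 * (U : ℤ) := by
      have := mul_le_mul_of_nonneg_left j2 (show (0 : ℤ) ≤ m by omega)
      have e : (m : ℤ) * (224 * a) = (224 * U) := by rw [← eU]; ring
      omega
    refine ⟨⟨by rw [abs_le]; omega, by rw [abs_le]; omega⟩, ?_⟩
    rcases h3 with ⟨h3, h4⟩ | ⟨h3, h4⟩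
    · left
      constructor
      · rw [le_max_iff, le_abs', le_abs'] at h3 ⊢
        have e : (m : ℤ) * (160 * a) = (160 * U) := by rw [← eU]; ring
        have e' : (m : ℤ) * -(160 * a) = -(160 * U) := by rw [← eU]; ring
        rcases h3 with (h | h) | h | h
        · have := mul_le_mul_of_nonneg_left h (show (0 : ℤ) ≤ m by omega)
          left; left; omega
        · have := mul_le_mul_of_nonneg_left h (show (0 : ℤ) ≤ m by omega)
          left; right; omega
        · have := mul_le_mul_of_nonneg_left h (show (0 : ℤ) ≤ m by omega)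
          right; left; omega
        · have := mul_le_mul_of_nonneg_left h (show (0 : ℤ) ≤ m by omega)
          right; right; omega
      · rintro ⟨h5, h6⟩
        by_contra h7
        push Not at h7
        apply h4
        have j3 : j < 0 := by
          by_contra h8
          push Not at h8
          have := mul_nonneg (show (0 : ℤ) ≤ m by omega) h8
          omega
        have i3 : i < 6 := by
          apply lt_of_mul (m := m); omega
        have i4 : -6 < i := by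
          apply lt_of_mul (m := m); omega
        refine ⟨j3, ?_⟩
        rw [abs_lt]; exact ⟨i4, i3⟩
    · right
      rw [ha2] at h4
      have := mul_le_mul_of_nonneg_left h4 (show (0 : ℤ) ≤ m by omega)
      have e : (m : ℤ) * (-(121 * b) + 1) = -(121 * (b * m)) + m := by ring
      have e2 : (m : ℤ) * (-(64 * a)) = -(64 * U) := by rw [← eU]; ring
      rw [h3, e2]
      constructor
      · ring
      · omega
  have hCPc : ∀ q ∈ CP a m Λ, q.1 = 0 ∧ -(192 * (Λ * U : ℕ) : ℤ) ≤ q.2 ∧ q.2 ≤ -(120 * U : ℤ) := by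
    intro q hq
    unfold CP at hq
    simp only [Finset.mem_image, Finset.mem_Icc] at hq
    obtain ⟨j, ⟨j1, j2⟩, rfl⟩ := hq
    have k1 := mul_le_mul_of_nonneg_left j1 (show (0 : ℤ) ≤ m by omega)
    have k2 := mul_le_mul_of_nonneg_left j2 (show (0 : ℤ) ≤ m by omega)
    have e1 : (m : ℤ) * (60 * a) = 60 * U := by rw [← eU]; ring
    have e2 : (m : ℤ) * (96 * a * Λ) = 96 * ((Λ * U : ℕ) : ℤ) := by push_cast; rw [← eU]; ring
    refine ⟨rfl, ?_, ?_⟩ <;> simp only <;> omega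
  set T1 : Finset Edg := (OP a m).biUnion (fun q => blk (tr c q) (3 * m)) with hT1
  set T2 : Finset Edg := (CP a m Λ).biUnion (fun q => blk (tr c q) (6 * m)) ∪
    (blk c (192 * (Λ * U)) \ blk c (64 * (Λ * U))) with hT2
  set T3 : Finset Edg := (trl c.1 c.2).mp (TG a m) with hT3
  -- ranges
  have m1 : ∀ e, e ∈ T1 ↔ ∃ q ∈ OP a m, sd (src e) (tr c q) ≤ ((3 * m : ℕ) : ℤ) ∧
      sd (tgt e) (tr c q) ≤ ((3 * m : ℕ) : ℤ) := by
    intro e
    rw [hT1, Finset.mem_biUnion]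
    simp only [mem_blk]
  have m2 : ∀ e, e ∈ T2 ↔ (∃ q ∈ CP a m Λ, sd (src e) (tr c q) ≤ ((6 * m : ℕ) : ℤ) ∧
      sd (tgt e) (tr c q) ≤ ((6 * m : ℕ) : ℤ)) ∨ (e ∈ blk c (192 * (Λ * U)) ∧
      e ∉ blk c (64 * (Λ * U))) := by
    intro e
    rw [hT2, Finset.mem_union, Finset.mem_biUnion, Finset.mem_sdiff]
    simp only [mem_blk]
  have m3 : ∀ e, e ∈ T3 → (-(138 * U : ℤ) ≤ (src e).1 - c.1 ∧ (src e).1 - c.1 ≤ U) ∧
    (-(138 * U : ℤ) ≤ (src e).2 - c.2 ∧ (src e).2 - c.2 ≤ -(118 * U : ℤ)) ∧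
    (-(138 * U : ℤ) ≤ (tgt e).1 - c.1 ∧ (tgt e).1 - c.1 ≤ U) ∧
    (-(138 * U : ℤ) ≤ (tgt e).2 - c.2 ∧ (tgt e).2 - c.2 ≤ -(118 * U : ℤ)) := by
    intro e he
    rw [hT3, mp_trl_mem] at he
    have := TG_box ha he
    rw [src_shift, tgt_shift] at this
    simp only [eU] at this
    exact this
  have r1 : ∀ e ∈ T1, e ∈ blk c (512 * U) := by
    intro e he
    obtain ⟨q, q1, q2, q3⟩ := (m1 e).1 he
    obtain ⟨⟨q4, q5⟩, -⟩ := hOPc q q1
    rw [abs_le] at q4 q5
    rw [mem_blk, sd_le, sd_le]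
    rw [sd_le] at q2 q3
    simp only [tr] at q2 q3
    push_cast at q2 q3 ⊢
    omega
  have r3 : ∀ e ∈ T3, e ∈ blk c (256 * U) := by
    intro e he
    have := m3 e he
    rw [mem_blk, sd_le, sd_le]
    push_cast
    omega
  have bm := fun {k l : ℕ} (h : k ≤ l) => blk_mono (c := c) h
  have s1 : T1 ⊆ S := fun e he => hS (bm (by zify; omega) (r1 e he))
  have s3 : T3 ⊆ S := fun e he => hS (bm (by zify; omega) (r3 e he))
  have s2 : T2 ⊆ S := by
    intro e he
    apply hS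
    rcases (m2 e).1 he with ⟨q, q1, q2, q3⟩ | ⟨h1, -⟩
    · obtain ⟨q4, q5, q6⟩ := hCPc q q1
      rw [mem_blk, sd_le, sd_le]
      rw [sd_le] at q2 q3
      simp only [tr] at q2 q3
      push_cast at q2 q3 q5 ⊢
      omega
    · exact bm (by omega) h1
  have d12 : Disjoint T1 T2 := by
    rw [Finset.disjoint_left]
    intro e h1 h2
    obtain ⟨q, q1, q2, q3⟩ := (m1 e).1 h1
    obtain ⟨⟨q4, q5⟩, q6⟩ := hOPc q q1
    rcases (m2 e).1 h2 with ⟨t, t1, t2, t3⟩ | ⟨-, h3⟩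
    · obtain ⟨t4, t5, t6⟩ := hCPc t t1
      rw [abs_le] at q4 q5
      rw [sd_le] at q2 q3 t2 t3
      simp only [tr] at q2 q3 t2 t3
      push_cast at q2 q3 t2 t3 t5
      rcases q6 with ⟨-, q6⟩ | q6
      · by_cases hq : -(12 * m : ℤ) < q.1 ∧ q.1 < 12 * m
        · have := q6 hq
          omega
        · omega
      · omega
    · exact h3 (bm (by zify; omega) (r1 e h1))
  have dK : ∀ F, F ⊆ S → Disjoint (KO c (512 * U) (192 * (Λ * U)) S u F) T1 ∧
      Disjoint (KO c (512 * U) (192 * (Λ * U)) S u F) T3 := by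
    intro F _
    have k1 : ∀ e ∈ KO c (512 * U) (192 * (Λ * U)) S u F, e ∉ blk c (512 * U) := by
      intro e he h
      rw [mem_KO] at he
      rcases he.2 with h1 | h1
      · exact h1 (bm (by zify; omega) h)
      · exact h1.1 h
    constructor
    · rw [Finset.disjoint_left]
      intro e h1 h2
      exact k1 e h1 (r1 e h2)
    · rw [Finset.disjoint_left]
      intro e h1 h2
      exact k1 e h1 (bm (by omega) (r3 e h2))
  set O : Finset Edg → Prop := fun F => ∀ q ∈ OP a m, BSU (tr c q) m F with hO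
  set D : Finset Edg → Prop := fun F => (∀ q ∈ CP a m Λ, BSD (tr c q) (2 * m) F) ∧
    ¬ Crs c.1 c.2 (64 * (Λ * U)) (192 * (Λ * U)) (↑F : Set Edg) with hD
  set M : Finset Edg → Prop := fun F => G ((trl (-c.1) (-c.2)).mp F) with hM
  set NN : Finset Edg → Prop := fun F => A F ∧ I4 a m Λ c S u F with hNN
  have lO : ∀ F, O F ↔ O (F ∩ T1) := by
    intro F
    simp only [hO]
    refine forall₂_congr fun q hq => bsu_local' fun e he => ?_
    rw [m1]
    exact ⟨q, hq, mem_blk.1 he⟩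
  have lD : ∀ F, D F ↔ D (F ∩ T2) := by
    intro F
    simp only [hD]
    refine and_congr ?_ ?_
    · refine forall₂_congr fun q hq => bsd_local' fun e he => ?_
      rw [m2]
      left
      refine ⟨q, hq, ?_⟩
      have := mem_blk.1 he
      rw [show 3 * (2 * m) = 6 * m by ring] at this
      exact this
    · constructor
      · intro h h1
        exact h (BS_crs_mono (by rw [Finset.coe_inter]; exact Set.inter_subset_left) h1)
      · intro h h1
        refine h (crs_local (by omega) (fun e h2 h3 => ?_) h1)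
        rw [m2]
        exact Or.inr ⟨h2, h3⟩
  have lM : ∀ F, M F ↔ M (F ∩ T3) := by
    intro F
    simp only [hM]
    rw [LSym.mp_inter, hT3, trl_cancel]
    exact hG.loc _
  have iM : ∀ F F', M F → F ⊆ F' → F' \ F ⊆ T1 → M F' := by
    intro F F' h1 h2 h3
    simp only [hM] at h1 ⊢
    rw [hG.loc] at h1 ⊢
    refine hG.inc _ _ h1 (Finset.inter_subset_inter (LSym.mp_mono _ h2) (Finset.Subset.refl _)) ?_
    intro e he
    rw [Finset.mem_sdiff, Finset.mem_inter, Finset.mem_inter] at he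
    obtain ⟨⟨e1, e2⟩, e3⟩ := he
    have e4 : e ∉ (trl (-c.1) (-c.2)).mp F := fun h => e3 ⟨h, e2⟩
    have e5 : e ∈ (trl (-c.1) (-c.2)).mp (F' \ F) := by
      rw [LSym.mp_sdiff, Finset.mem_sdiff]; exact ⟨e1, e4⟩
    have e6 : e ∈ (trl (-c.1) (-c.2)).mp T1 := LSym.mp_mono _ h3 e5
    rw [show (trl (-c.1) (-c.2)).mp T1 = (trl (-c.1, -c.2).1 (-c.1, -c.2).2).mp T1 from rfl,
      mp_trl_mem, m1] at e6
    obtain ⟨q, q1, q2, q3⟩ := e6
    rw [src_shift, sd_le] at q2
    rw [tgt_shift, sd_le] at q3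
    simp only [tr] at q2 q3
    push_cast at q2 q3
    have q4 := TG_box ha e2
    simp only [eU] at q4
    obtain ⟨-, q5⟩ := hOPc q q1
    unfold TI
    rw [mem_RE]
    unfold inR
    rw [eU]
    rcases q5 with ⟨q5, -⟩ | q5
    · exfalso
      rw [le_max_iff, le_abs', le_abs'] at q5
      omega
    · omega
  have dM : ∀ F F', M F → F' ⊆ F → F \ F' ⊆ T2 → M F' := by
    intro F F' h1 h2 h3
    simp only [hM] at h1 ⊢
    rw [hG.loc] at h1 ⊢
    refine hG.dec _ _ h1 (Finset.inter_subset_inter (LSym.mp_mono _ h2) (Finset.Subset.refl _)) ?_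
    intro e he
    rw [Finset.mem_sdiff, Finset.mem_inter, Finset.mem_inter] at he
    obtain ⟨⟨e1, e2⟩, e3⟩ := he
    have e4 : e ∉ (trl (-c.1) (-c.2)).mp F' := fun h => e3 ⟨h, e2⟩
    have e5 : e ∈ (trl (-c.1) (-c.2)).mp (F \ F') := by
      rw [LSym.mp_sdiff, Finset.mem_sdiff]; exact ⟨e1, e4⟩
    have e6 : e ∈ (trl (-c.1) (-c.2)).mp T2 := LSym.mp_mono _ h3 e5
    rw [show (trl (-c.1) (-c.2)).mp T2 = (trl (-c.1, -c.2).1 (-c.1, -c.2).2).mp T2 from rfl,
      mp_trl_mem, m2] at e6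
    have q4 := TG_box ha e2
    simp only [eU] at q4
    unfold TD
    rw [mem_RE]
    unfold inR
    rw [eU]
    rcases e6 with ⟨q, q1, q2, q3⟩ | ⟨-, h⟩
    · obtain ⟨q5, q6, q7⟩ := hCPc q q1
      rw [src_shift, sd_le] at q2
      rw [tgt_shift, sd_le] at q3
      simp only [tr] at q2 q3
      push_cast at q2 q3 q6
      omega
    · exfalso
      apply h
      rw [mem_blk, src_shift, tgt_shift, sd_le, sd_le]
      simp only
      push_cast at hΛU ⊢
      omega
  have hN : ∀ F F', F ⊆ S → F' ⊆ S → F ∩ KO c (512 * U) (192 * (Λ * U)) S u F =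
      F' ∩ KO c (512 * U) (192 * (Λ * U)) S u F →
      F \ (T2 ∪ T3) ⊆ F' \ (T2 ∪ T3) → NN F → NN F' := by
    rintro F F' hF hF' h1 h2 ⟨h3, h4⟩
    have kx := (kxs c (512 * U) (192 * (Λ * U)) S u (by zify; omega)).2
    have k1 := (kx.2 F F' hF hF' h1).1
    have k2 := kx.1 F F' hF hF' h1
    refine ⟨hA F F' hF hF' h1 h3, ?_⟩
    obtain ⟨x, x1, x2, y, y1, h5⟩ := h4
    refine ⟨x, by rw [k1]; exact x1, x2, y, y1, h5.mono ?_⟩
    rintro e ⟨e1, e2, e3, e4, e5, e6⟩
    refine ⟨?_, by rw [k2]; exact e2, e3, e4, e5, e6⟩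
    have e7 : e ∉ T2 ∪ T3 := by
      rw [Finset.mem_union]
      rintro (h | h)
      · rcases (m2 e).1 h with ⟨q, q1, q2, -⟩ | ⟨-, h6⟩
        · obtain ⟨q5, q6, q7⟩ := hCPc q q1
          rw [sd_le] at q2
          simp only [tr] at q2
          push_cast at q2 q6
          apply e5
          rw [abs_le]
          omega
        · exact h6 e3
      · exact e4 (r3 e h)
    exact (Finset.mem_sdiff.1 (h2 (Finset.mem_sdiff.2 ⟨e1, e7⟩))).1
  have main := mx S (KO c (512 * U) (192 * (Λ * U)) S u)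
    (kxs c (512 * U) (192 * (Λ * U)) S u (by zify; omega)).2.1
    (fun F _ e he => (mem_KO.1 he).1)
    T1 T2 T3 s1 s2 s3 d12 dK NN O D M lO
    (fun F F' h h1 q hq => BSU_mono h (h1 q hq)) lD
    (fun F F' h h1 => ⟨fun q hq => bsd_dec h (h1.1 q hq),
      fun h2 => h1.2 (BS_crs_mono (by exact_mod_cast h) h2)⟩) lM iM dM hN
  -- probabilities
  have pO : κ ^ N1 ≤ PQ (1 / 2) S O := by
    have h1 := (hκ m ((OP a m).image (tr c)) S hm).1 (by
      intro q hq
      rw [Finset.mem_image] at hq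
      obtain ⟨q', hq', rfl⟩ := hq
      intro e he
      apply s1
      rw [m1]
      exact ⟨q', hq', mem_blk.1 he⟩)
    have h2 : ((OP a m).image (tr c)).card ≤ N1 := by
      refine Finset.card_image_le.trans ?_
      unfold OP
      refine Finset.card_image_le.trans (Finset.card_le_card (Finset.filter_subset _ _))
    refine (pow_le_pow_of_le_one κ0.le κ1 h2).trans (h1.trans (le_of_eq ?_))
    apply Pr_congr
    intro F _
    simp only [Finset.forall_mem_image, hO]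
  have pD : κ ^ N2 * κ ≤ PQ (1 / 2) S D := by
    have h1 := (hκ (2 * m) ((CP a m Λ).image (tr c)) S (by omega)).2
    have h2 := (hκ (64 * (Λ * U)) {c} S (by zify; omega)).2
    have h3 : ((CP a m Λ).image (tr c)).card ≤ N2 := by
      refine Finset.card_image_le.trans ?_
      unfold CP
      exact Finset.card_image_le
    have h4 := (pow_le_pow_of_le_one κ0.le κ1 h3).trans h1
    rw [Finset.card_singleton, pow_one] at h2
    have h5 := harris_dec (S := S) (A := fun F => ∀ q ∈ (CP a m Λ).image (tr c), BSD q (2 * m) F)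
      (B := fun F => ∀ q ∈ ({c} : Finset (ℤ × ℤ)), BSD q (64 * (Λ * U)) F)
      (fun F F' h h1 q hq => bsd_dec h (h1 q hq)) (fun F F' h h1 q hq => bsd_dec h (h1 q hq))
    refine (mul_le_mul h4 h2 κ0.le (Pr_nonneg ok_half _ _)).trans (h5.trans (le_of_eq ?_))
    apply Pr_congr
    intro F _
    simp only [Finset.forall_mem_image, hD, Finset.mem_singleton, forall_eq, BSD]
    rw [show 3 * (64 * (Λ * U)) = 192 * (Λ * U) by ring]
  have pM : p ≤ PQ (1 / 2) S M := by
    have h1 := hG.prob ((trl (-c.1) (-c.2)).mp S) (by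
      have := LSym.mp_mono (trl (-c.1) (-c.2)) s3
      rwa [hT3, trl_cancel] at this)
    refine h1.trans (le_of_eq ?_)
    simp only [hM]
    exact LSym.pr _ _ _ _
  have nn : 0 ≤ PQ (1 / 2) S NN := Pr_nonneg ok_half _ _
  have q1 : κ ^ N1 * (κ ^ N2 * κ) * p ≤ PQ (1 / 2) S O * PQ (1 / 2) S D * PQ (1 / 2) S M := by
    have := mul_le_mul pO pD (by positivity) (Pr_nonneg ok_half _ _)
    exact mul_le_mul this pM hp.le (mul_nonneg (Pr_nonneg ok_half _ _) (Pr_nonneg ok_half _ _))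
  calc κ ^ N1 * (κ ^ N2 * κ) * p * PQ (1 / 2) S NN
      = PQ (1 / 2) S NN * (κ ^ N1 * (κ ^ N2 * κ) * p) := by ring
    _ ≤ PQ (1 / 2) S NN * (PQ (1 / 2) S O * PQ (1 / 2) S D * PQ (1 / 2) S M) :=
        mul_le_mul_of_nonneg_left q1 nn
    _ ≤ _ := main
    _ = _ := by
        apply Pr_congr
        intro F _
        rfl

end Run7.h561
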