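import Pool.Agent.Run7.h561.TP.Tools

/-! # CZ: hubs of open cells -/

set_option autoImplicit false

namespace Run7.h561

open H974 H12S Finset H984P H984N

namespace CZ

theorem reach_RE {F : Set Edg} {a b c d : ℤ} {u v : Vtx} (h : Reach (F ∩ ↑(RE a b c d)) u v)
    (hu : inR a b c d u) : inR a b c d v := by
  refine reach_mem (A := {x | inR a b c d x}) ?_ h hu
  rintro e ⟨-, he⟩
  exact mem_RE.1 he

/-- A vertical path meets a height. -/
theorem level2 {F : Set Edg} {a b c d : ℤ} {u v : Vtx} (h : Reach (F ∩ ↑(RE a b c d)) u v)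
    (hu : inR a b c d u) (s : ℤ) (h1 : u.2 ≤ s) (h2 : s ≤ v.2) :
    ∃ x, a ≤ x ∧ x ≤ b ∧ Reach F u (x, s) := by
  by_cases h3 : u.2 = s
  · refine ⟨u.1, hu.1.1, hu.1.2, ?_⟩
    rw [← h3]
    exact Reach.refl _ _
  have hu' : u ∉ {x : Vtx | s ≤ x.2} := by simp only [Set.mem_setOf_eq]; omega
  obtain ⟨w', w, a1, a2, a3, a4, a5⟩ := first_hit {x : Vtx | s ≤ x.2} h hu' h2
  simp only [Set.mem_setOf_eq, not_le] at a1 a2
  have a6 := adj_step a3
  have a7 : Reach (F ∩ ↑(RE a b c d)) u w := by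
    refine Reach.trans (a4.mono ?_) (Adj.reach a3)
    rintro e ⟨b1, -⟩; exact b1
  have a8 := reach_RE a7 hu
  refine ⟨w.1, a8.1.1, a8.1.2, ?_⟩
  have : w = (w.1, s) := by
    ext
    · rfl
    · simp only; omega
  rw [← this]
  exact a7.mono Set.inter_subset_left

theorem level1 {F : Set Edg} {a b c d : ℤ} {u v : Vtx} (h : Reach (F ∩ ↑(RE a b c d)) u v)
    (hu : inR a b c d u) (s : ℤ) (h1 : u.1 ≤ s) (h2 : s ≤ v.1) :
    ∃ y, c ≤ y ∧ y ≤ d ∧ Reach F u (s, y) := by
  by_cases h3 : u.1 = s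
  · refine ⟨u.2, hu.2.1, hu.2.2, ?_⟩
    rw [← h3]
    exact Reach.refl _ _
  have hu' : u ∉ {x : Vtx | s ≤ x.1} := by simp only [Set.mem_setOf_eq]; omega
  obtain ⟨w', w, a1, a2, a3, a4, a5⟩ := first_hit {x : Vtx | s ≤ x.1} h hu' h2
  simp only [Set.mem_setOf_eq, not_le] at a1 a2
  have a6 := adj_step a3
  have a7 : Reach (F ∩ ↑(RE a b c d)) u w := by
    refine Reach.trans (a4.mono ?_) (Adj.reach a3)
    rintro e ⟨b1, -⟩; exact b1
  have a8 := reach_RE a7 hu
  refine ⟨w.2, a8.2.1, a8.2.2, ?_⟩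
  have : w = (s, w.2) := by
    ext
    · simp only; omega
    · rfl
  rw [← this]
  exact a7.mono Set.inter_subset_left

/-- The statement at the origin. -/
theorem cz0 {k : ℕ} (hk : 1 ≤ k) {F : Finset Edg} (h : Circ k (3 * k) F) :
    ∃ z, Cz (0, 0) k (↑F : Set Edg) z := by
  set K : ℤ := (k : ℤ) with hK
  have hk' : (1 : ℤ) ≤ K := by omega
  obtain ⟨⟨⟨t, t', ht, ht', hT⟩, ⟨b, b', hb, hb', hB⟩⟩, ⟨r, r', hr, hr', hR⟩,
    ⟨l, l', hl, hl', hL⟩⟩ := h
  have sub : ∀ {a b c d a' b' c' d' : ℤ}, a' ≤ a → b ≤ b' → c' ≤ c → d ≤ d' →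
      (↑(RE a b c d) : Set Edg) ⊆ ↑(RE a' b' c' d') := fun h1 h2 h3 h4 => by
    exact_mod_cast RE_subset h1 h2 h3 h4
  have hT' := hT.mono (Set.inter_subset_inter_right (↑F)
    (by exact_mod_cast LRE_subset_RE : (↑(LRE (-(3 * K)) (3 * K) K (3 * K)) : Set Edg) ⊆ _))
  have hB' := hB.mono (Set.inter_subset_inter_right (↑F)
    (by exact_mod_cast LRE_subset_RE : (↑(LRE (-(3 * K)) (3 * K) (-(3 * K)) (-K)) : Set Edg) ⊆ _))
  have hR' := hR.mono (Set.inter_subset_inter_right (↑F)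
    (by exact_mod_cast TBE_subset_RE : (↑(TBE K (3 * K) (-(3 * K)) (3 * K)) : Set Edg) ⊆ _))
  have hL' := hL.mono (Set.inter_subset_inter_right (↑F)
    (by exact_mod_cast TBE_subset_RE : (↑(TBE (-(3 * K)) (-K) (-(3 * K)) (3 * K)) : Set Edg) ⊆ _))
  have mTR : Reach (↑F ∩ ↑(RE (-(3 * K)) (3 * K) (-(3 * K)) (3 * K))) (-(3 * K), t) (r, -(3 * K)) :=
    cross_meet (by omega) (by omega) le_rfl (by omega) (by omega) le_rfl hT'
      (by simp only; omega) le_rfl hR' (by simp only; omega) le_rfl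
  have mBR : Reach (↑F ∩ ↑(RE (-(3 * K)) (3 * K) (-(3 * K)) (3 * K))) (-(3 * K), b) (r, -(3 * K)) :=
    cross_meet (by omega) (by omega) le_rfl le_rfl (by omega) (by omega) hB'
      (by simp only; omega) le_rfl hR' le_rfl (by simp only; omega)
  have mTL : Reach (↑F ∩ ↑(RE (-(3 * K)) (3 * K) (-(3 * K)) (3 * K))) (-(3 * K), t) (l, -(3 * K)) :=
    cross_meet le_rfl (by omega) (by omega) (by omega) (by omega) le_rfl hT' le_rfl
      (by simp only; omega) hL' (by simp only; omega) le_rfl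
  have pT : Reach (↑F : Set Edg) (-(3 * K), t) (r, -(3 * K)) := mTR.mono Set.inter_subset_left
  have pB : Reach (↑F : Set Edg) (-(3 * K), b) (r, -(3 * K)) := mBR.mono Set.inter_subset_left
  have pL : Reach (↑F : Set Edg) (l, -(3 * K)) (r, -(3 * K)) :=
    (mTL.mono Set.inter_subset_left).symm.trans pT
  refine ⟨(r, -(3 * K)), ⟨?_, ?_, ?_⟩⟩
  · intro x hx y hy hxy
    rw [mem_ctr, sd_le] at hx
    simp only at hx
    obtain ⟨w, k1, k2, k3⟩ := H974.first_exit (a := -(3 * K)) (b := (3 * K)) (c := -(3 * K))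
      (d := (3 * K)) (u := x) (by unfold inR; omega) hxy
      (by unfold BSfar at hy; push_cast at hy; omega)
    have hz : Reach (↑F ∩ ↑(RE (-(3 * K)) (3 * K) (-(3 * K)) (3 * K))) x (r, -(3 * K)) := by
      rcases k2 with hv | hv | hv | hv
      · have m : Reach (↑F ∩ ↑(RE (-(3 * K)) (3 * K) (-(3 * K)) (3 * K))) w (l, -(3 * K)) :=
          cross_meet le_rfl (by omega) (by omega) le_rfl (by omega) le_rfl k3.symm hv.le
            (show -K ≤ x.1 by omega) hL' le_rfl le_rfl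
        exact k3.trans (m.trans (mTL.symm.trans mTR))
      · exact cross_meet (by omega) (by omega) le_rfl le_rfl (by omega) le_rfl k3 (by omega) hv.ge
          hR' le_rfl le_rfl
      · have m : Reach (↑F ∩ ↑(RE (-(3 * K)) (3 * K) (-(3 * K)) (3 * K))) (-(3 * K), b) w :=
          cross_meet le_rfl (by omega) le_rfl le_rfl (by omega) (by omega) hB' le_rfl le_rfl
            k3.symm hv.le (show -K ≤ x.2 by omega)
        exact k3.trans (m.symm.trans mBR)
      · have m : Reach (↑F ∩ ↑(RE (-(3 * K)) (3 * K) (-(3 * K)) (3 * K))) (-(3 * K), t) x :=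
          cross_meet le_rfl (by omega) le_rfl (by omega) (by omega) le_rfl hT' le_rfl le_rfl k3
            (by omega) hv.ge
        exact m.symm.trans mTR
    exact hz.mono Set.inter_subset_left
  · rintro q' (rfl | rfl | rfl | rfl)
    · obtain ⟨x, x1, x2, x3⟩ := level2 hR' (by unfold inR; omega) 0 (by simp only; omega)
        (by simp only; omega)
      refine ⟨(x, 0), ?_, (r, -(3 * K)), ?_, x3.symm, x3.symm⟩
      · rw [mem_ctr, sd_le]; simp only; omega
      · unfold BSfar; push_cast; omega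
    · obtain ⟨x, x1, x2, x3⟩ := level2 hL' (by unfold inR; omega) 0 (by simp only; omega)
        (by simp only; omega)
      refine ⟨(x, 0), ?_, (l, -(3 * K)), ?_, x3.symm, x3.symm.trans pL⟩
      · rw [mem_ctr, sd_le]; simp only; omega
      · unfold BSfar; push_cast; omega
    · obtain ⟨y, y1, y2, y3⟩ := level1 hT' (by unfold inR; omega) 0 (by simp only; omega)
        (by simp only; omega)
      refine ⟨(0, y), ?_, (-(3 * K), t), ?_, y3.symm, y3.symm.trans pT⟩
      · rw [mem_ctr, sd_le]; simp only; omega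
      · unfold BSfar; push_cast; omega
    · obtain ⟨y, y1, y2, y3⟩ := level1 hB' (by unfold inR; omega) 0 (by simp only; omega)
        (by simp only; omega)
      refine ⟨(0, y), ?_, (-(3 * K), b), ?_, y3.symm, y3.symm.trans pB⟩
      · rw [mem_ctr, sd_le]; simp only; omega
      · unfold BSfar; push_cast; omega
  · obtain ⟨y, y1, y2, y3⟩ := level1 hT' (by unfold inR; omega) 0 (by simp only; omega)
      (by simp only; omega)
    refine ⟨y, by simp only; omega, by simp only; omega, y3.symm.trans pT⟩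

end CZ

/-- **CZ** -/
theorem t_CZ : S_CZ := by
  intro q k F hk h
  unfold BSU at h
  have h' : Circ k (3 * k) ((trl (-q.1) (-q.2)).mp F) := by exact_mod_cast h
  obtain ⟨z, hz⟩ := CZ.cz0 hk h'
  -- translation of paths
  have tr1 : ∀ x y : Vtx, Reach (↑F : Set Edg) x y →
      Reach (↑((trl (-q.1) (-q.2)).mp F) : Set Edg) (x.1 - q.1, x.2 - q.2) (y.1 - q.1, y.2 - q.2) := by
    intro x y hxy
    have := (BS_reach_trl (-q.1) (-q.2) (F := F) (u := x) (v := y)).2 hxy
    simpa [sub_eq_add_neg] using this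
  have tr2 : ∀ x y : Vtx, Reach (↑((trl (-q.1) (-q.2)).mp F) : Set Edg) x y →
      Reach (↑F : Set Edg) (x.1 + q.1, x.2 + q.2) (y.1 + q.1, y.2 + q.2) := by
    intro x y hxy
    apply (BS_reach_trl (-q.1) (-q.2) (F := F) (u := (x.1 + q.1, x.2 + q.2))
      (v := (y.1 + q.1, y.2 + q.2))).1
    simpa using hxy
  refine ⟨(z.1 + q.1, z.2 + q.2), ⟨?_, ?_, ?_⟩⟩
  · intro x hx y hy hxy
    have h1 := hz.hub (x.1 - q.1, x.2 - q.2) (by
      rw [mem_ctr, sd_le] at hx ⊢; simp only; omega) (y.1 - q.1, y.2 - q.2) (by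
      rw [far_iff, le_sd] at hy ⊢; simp only; omega) (tr1 x y hxy)
    have h2 := tr2 _ _ h1
    simpa using h2
  · rintro q' hq'
    obtain ⟨x, x1, y, y1, h1, h2⟩ := hz.nbr (q'.1 - q.1, q'.2 - q.2) (by
      rcases hq' with rfl | rfl | rfl | rfl
      · left; simp
      · right; left; simp
      · right; right; left; simp
      · right; right; right; simp)
    refine ⟨(x.1 + q.1, x.2 + q.2), ?_, (y.1 + q.1, y.2 + q.2), ?_, tr2 _ _ h1, tr2 _ _ h2⟩
    · rw [mem_ctr, sd_le] at x1 ⊢; simp only at x1 ⊢; omega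
    · rw [far_iff, le_sd] at y1 ⊢; simp only at y1 ⊢; omega
  · obtain ⟨s, s1, s2, s3⟩ := hz.line
    simp only at s1 s2
    refine ⟨s + q.2, by omega, by omega, ?_⟩
    have := tr2 _ _ s3
    simpa using this

/-- Neighbouring open cells have connected hubs. -/
theorem cz_nbr {q q' : ℤ × ℤ} {k : ℕ} {F : Set Edg} {z z' : Vtx} (h : Cz q k F z)
    (h' : Cz q' k F z') (hq : q' = (q.1 + 2 * k, q.2) ∨ q' = (q.1 - 2 * k, q.2) ∨
      q' = (q.1, q.2 + 2 * k) ∨ q' = (q.1, q.2 - 2 * k)) : Reach F z z' := by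
  obtain ⟨x, x1, y, y1, h1, h2⟩ := h.nbr q' hq
  exact h2.symm.trans (h'.hub x x1 y y1 h1)

end Run7.h561
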