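import Pool.Agent.Run7.h561.TP.Chain

/-! # GCON: the open cells of the gadget connect the arms -/

set_option autoImplicit false

namespace Run7.h561

open H974 H12S Finset H984P H984N

theorem reach_shift {v : Vtx} {F : Finset Edg} {x y : Vtx}
    (h : Reach (↑((trl (-v.1) (-v.2)).mp F) : Set Edg) x y) :
    Reach (↑F : Set Edg) (x.1 + v.1, x.2 + v.2) (y.1 + v.1, y.2 + v.2) := by
  apply (BS_reach_trl (-v.1) (-v.2) (F := F) (u := (x.1 + v.1, x.2 + v.2))
    (v := (y.1 + v.1, y.2 + v.2))).1
  simpa using h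

theorem reach_unshift {v : Vtx} {F : Finset Edg} {x y : Vtx} (h : Reach (↑F : Set Edg) x y) :
    Reach (↑((trl (-v.1) (-v.2)).mp F) : Set Edg) (x.1 - v.1, x.2 - v.2) (y.1 - v.1, y.2 - v.2) := by
  have := (BS_reach_trl (-v.1) (-v.2) (F := F) (u := x) (v := y)).2 h
  simpa [sub_eq_add_neg] using this

/-- Cl2 gives an arm from `v` to distance `5 U`. -/
theorem arm_of_Cl2 {a m ρ' : ℕ} {T : Finset (ℤ × ℤ)} {F : Finset Edg} (hm : 1 ≤ m) (ha : 1 ≤ a)
    (h : Cl2 a m ρ' T F) : ∃ y : Vtx, sd y (0, 0) = 5 * (a * m : ℕ) ∧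
      (∀ q ∈ T, (38 * m : ℤ) ≤ sd y (cell m q)) ∧ Reach (↑F : Set Edg) (0, 0) y := by
  obtain ⟨u1, h1, h2, y, h3, h4⟩ := h
  rw [mem_bdB] at h2 h3
  have hU : 1 ≤ a * m := Nat.mul_pos ha hm
  refine ⟨y, by rw [h3]; push_cast; ring, ?_, ?_⟩
  · rcases reach_cases (Reach.symm h4) with h5 | ⟨w, ⟨e, ⟨-, -, -, -, h6⟩, h7⟩, -⟩
    · exfalso
      rw [h5, h2] at h3
      push_cast at h3
      have : (1 : ℤ) ≤ (a : ℤ) * m := by exact_mod_cast hU
      omega
    · intro q hq
      exact h6 y (by rcases h7 with ⟨h7, -⟩ | ⟨-, h7⟩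
                     · exact Or.inl h7.symm
                     · exact Or.inr h7.symm) q hq
  · refine Reach.trans (Reach.mono Set.inter_subset_left h1) (Reach.mono ?_ h4)
    rintro e ⟨h5, -⟩
    exact_mod_cast h5

/-- **GCON** -/
theorem t_GCON (cz : S_CZ) : S_GCON := by
  intro M B L a m T e F u hL ha hev hdv hm hAdm hFam hx hy v hv hCl
  set U : ℕ := a * m with hU
  have ha' : (100 : ℤ) ≤ a := by exact_mod_cast ha
  have hm' : (4 : ℤ) ≤ m := by exact_mod_cast hm
  have eU : ((a : ℤ) * m) = (U : ℤ) := by rw [hU]; push_cast; ring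
  have hUm : 100 * (m : ℤ) ≤ U := by
    rw [← eU]; exact mul_le_mul_of_nonneg_right ha' (by positivity)
  obtain ⟨b, hb⟩ := hev
  have hab : (a : ℤ) = b + b := by exact_mod_cast hb
  have hbm : (m : ℤ) * b + m * b = U := by rw [← eU, hab]; ring
  obtain ⟨yu, hy1, hy2⟩ := hy
  obtain ⟨xu, hx1, hx2⟩ := hx
  -- coordinates of the classes
  have up : ∀ k l r : ℤ, 2 * ((m : ℤ) * k) < r * U + l * m → 2 * k < r * a + l := by
    intro k l r h
    apply lt_of_mul (m := m)
    have e1 : (m : ℤ) * (r * a + l) = r * U + l * m := by rw [← eU]; ring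
    have e2 : (m : ℤ) * (2 * k) = 2 * (m * k) := by ring
    rw [e1, e2]; exact h
  have dn : ∀ k l r : ℤ, r * U + l * m < 2 * ((m : ℤ) * k) → r * a + l < 2 * k := by
    intro k l r h
    apply lt_of_mul (m := m)
    have e1 : (m : ℤ) * (r * a + l) = r * U + l * m := by rw [← eU]; ring
    have e2 : (m : ℤ) * (2 * k) = 2 * (m * k) := by ring
    rw [e1, e2]; exact h
  have hTc : ∀ q ∈ T, (-(5 * a + 2 : ℤ) < 2 * q.1 ∧ 2 * q.1 < 5 * a + 2) ∧
      (-(5 * a + 2 : ℤ) < 2 * q.2 ∧ 2 * q.2 < 5 * a + 2) := by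
    intro q hq
    have h1 := hAdm.hi q hq
    rw [sd_le] at h1
    simp only [cell, eU] at h1
    refine ⟨⟨?_, ?_⟩, ?_, ?_⟩
    · have := dn q.1 (-2) (-5) (by omega); omega
    · have := up q.1 2 5 (by omega); omega
    · have := dn q.2 (-2) (-5) (by omega); omega
    · have := up q.2 2 5 (by omega); omega
  have heT := hTc e hAdm.mem
  have he2 : 2 * e.2 < -5 * a + 2 := by
    have h1 := hAdm.bot
    simp only [cell, eU] at h1
    exact up e.2 2 (-5) (by omega)
  -- the open cells
  have hcell : ∀ q : ℤ × ℤ, (-(4 * a : ℤ) ≤ q.1 ∧ q.1 ≤ 4 * a) → (-(4 * a : ℤ) ≤ q.2 ∧ q.2 ≤ 4 * a) →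
      5 * (a : ℤ) - 3 ≤ 2 * max |q.1| |q.2| → 2 * max |q.1| |q.2| ≤ 7 * (a : ℤ) →
      (∀ q' ∈ T, 6 ≤ sd q q') → (6 ≤ |q.1 - e.1| ∨ e.2 + 6 ≤ q.2) → -4 * (a : ℤ) + 6 ≤ q.2 →
      ∃ z, Cz (tr (v0 a m) (cell m q)) m (↑F : Set Edg) z := by
    intro q h1 h2 h3 h4 h5 h6 h7
    apply cz _ _ F (by omega)
    apply hFam
    unfold Fam
    simp only [Finset.mem_filter, Finset.mem_product, Finset.mem_Icc]
    refine ⟨⟨h1, h2⟩, h3, h4, ?_⟩
    intro q' hq'
    rw [Finset.mem_union] at hq'
    rcases hq' with hq' | hq'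
    · exact h5 q' hq'
    · unfold Cor at hq'
      simp only [Finset.mem_union, Finset.mem_image, Finset.mem_Icc] at hq'
      rw [le_sd]
      rcases hq' with ⟨j, ⟨j1, j2⟩, rfl⟩ | ⟨i, ⟨i1, i2⟩, rfl⟩
      · rcases h6 with h6 | h6
        · rw [le_abs] at h6
          left
          simp only
          omega
        · right; left
          simp only
          omega
      · right; left
        simp only
        omega
  -- cells at the level `7 b`
  have hring : ∀ q : ℤ × ℤ, max |q.1| |q.2| = 7 * (b : ℤ) → (6 ≤ |q.1 - e.1| ∨ e.2 + 6 ≤ q.2) →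
      ∃ z, Cz (tr (v0 a m) (cell m q)) m (↑F : Set Edg) z := by
    intro q h1 h2
    have h3 : |q.1| ≤ 7 * (b : ℤ) := by rw [← h1]; exact le_max_left _ _
    have h4 : |q.2| ≤ 7 * (b : ℤ) := by rw [← h1]; exact le_max_right _ _
    have h5 : 7 * (b : ℤ) ≤ |q.1| ∨ 7 * (b : ℤ) ≤ |q.2| := by
      rw [← le_max_iff, h1]
    rw [abs_le] at h3 h4
    rw [le_abs', le_abs'] at h5
    refine hcell q (by omega) (by omega) (by rw [h1]; omega) (by rw [h1]; omega) ?_ h2 (by omega)
    intro q' hq'
    have := hTc q' hq'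
    rw [le_sd]
    omega
  -- the cell `(0, 7 b)`
  have hb0 : |(7 * b : ℤ)| = 7 * b := abs_of_nonneg (by positivity)
  have mx1 : ∀ k : ℤ, -(7 * b : ℤ) ≤ k → k ≤ 7 * b → max |k| |(7 * b : ℤ)| = 7 * b := by
    intro k k1 k2
    rw [hb0]
    exact max_eq_right (abs_le.2 ⟨k1, k2⟩)
  have mx2 : ∀ k : ℤ, -(7 * b : ℤ) ≤ k → k ≤ 7 * b → max |k| |(-(7 * b) : ℤ)| = 7 * b := by
    intro k k1 k2
    rw [abs_neg]
    exact mx1 k k1 k2
  have hG0 : Gd (v0 a m) m (↑F : Set Edg) u (0, 7 * b) := by
    have e1 : tr (v0 a m) (cell m (0, 7 * b)) = q1 a m := by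
      unfold tr v0 cell q1
      ext
      · simp
      · simp only [eU]; linarith
    refine Gd_of_meet (hring _ ?_ (Or.inr ?_)) (x := xu) (y := yu) ?_ ?_ ?_ hx2
    · exact mx1 0 (by omega) (by omega)
    · simp only; omega
    · rw [e1]; exact mem_ctr.1 hx1
    · rw [e1]
      rw [far_iff] at hy1
      have h1 := sd_tri yu (q1 a m) (0, 0)
      have h2 : sd (q1 a m) (0, 0) ≤ 128 * U := by
        rw [sd_le]; simp only [q1, eU]; omega
      push_cast at hy1
      omega
    · exact Reach.trans (Reach.symm hx2) hy2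
  -- to the corners
  have hTop : ∀ i : ℤ, -(7 * b : ℤ) ≤ i → i ≤ 7 * b → Gd (v0 a m) m (↑F : Set Edg) u (i, 7 * b) := by
    intro i i1 i2
    refine Gd_hor hG0 fun k k1 k2 => hring _ ?_ (Or.inr (by simp only; omega))
    have := min_le_iff.1 k1
    have := le_max_iff.1 k2
    exact mx1 k (by omega) (by omega)
  have hRight : ∀ j : ℤ, -(7 * b : ℤ) ≤ j → j ≤ 7 * b →
      Gd (v0 a m) m (↑F : Set Edg) u (7 * b, j) := by
    intro j j1 j2
    refine Gd_ver (hTop (7 * b) (by omega) le_rfl) fun k k1 k2 => hring _ ?_ (Or.inl ?_)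
    · have := min_le_iff.1 k1
      have := le_max_iff.1 k2
      simp only
      rw [max_comm]
      exact mx1 k (by omega) (by omega)
    · simp only; rw [le_abs]; omega
  have hLeft : ∀ j : ℤ, -(7 * b : ℤ) ≤ j → j ≤ 7 * b →
      Gd (v0 a m) m (↑F : Set Edg) u (-(7 * b), j) := by
    intro j j1 j2
    refine Gd_ver (hTop (-(7 * b)) le_rfl (by omega)) fun k k1 k2 => hring _ ?_ (Or.inl ?_)
    · have := min_le_iff.1 k1
      have := le_max_iff.1 k2
      simp only
      rw [max_comm]
      exact mx2 k (by omega) (by omega)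
    · simp only; rw [le_abs]; omega
  -- the end of the arm
  obtain ⟨y, y1, y2, y3⟩ := arm_of_Cl2 (by omega) (by omega) hCl.1.2
  have y4 : Reach (↑F : Set Edg) v (y.1 + v.1, y.2 + v.2) := by
    have := reach_shift y3
    simpa using this
  have hv' := mem_ctr.1 hv
  have hv2 : sd v (v0 a m) ≤ (m / 2 : ℕ) := hv'
  have hm2 : 2 * ((m / 2 : ℕ) : ℤ) ≤ m := by omega
  rw [sd_le] at hv2
  simp only [v0, eU] at hv2
  obtain ⟨i, i1, i2⟩ := cell_ex (by omega : 1 ≤ m) (y.1 + v.1 + 128 * U)
  obtain ⟨j, j1, j2⟩ := cell_ex (by omega : 1 ≤ m) (y.2 + v.2 + 128 * U)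
  have z1 := sd_le.1 y1.le
  have z2 := le_sd.1 y1.ge
  simp only at z1 z2
  have bi1 : 2 * i < 5 * a + 2 := up i 2 5 (by omega)
  have bi2 : -5 * a + -2 < 2 * i := dn i (-2) (-5) (by omega)
  have bj1 : 2 * j < 5 * a + 2 := up j 2 5 (by omega)
  have bj2 : -5 * a + -2 < 2 * j := dn j (-2) (-5) (by omega)
  have hside : (5 * (a : ℤ) - 2 < 2 * i ∨ 2 * i < -5 * a + 2) ∨
      (5 * (a : ℤ) - 2 < 2 * j ∨ 2 * j < -5 * a + 2) := by
    rcases z2 with (h | h) | h | h
    · left; left; have := dn i (-2) 5 (by omega); omega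
    · left; right; have := up i 2 (-5) (by omega); omega
    · right; left; have := dn j (-2) 5 (by omega); omega
    · right; right; have := up j 2 (-5) (by omega); omega
  have hT18 : ∀ q' ∈ T, (18 ≤ i - q'.1 ∨ 18 ≤ q'.1 - i) ∨ (18 ≤ j - q'.2 ∨ 18 ≤ q'.2 - j) := by
    intro q' hq'
    have h1 := le_sd.1 (y2 q' hq')
    simp only [cell] at h1
    have mm : ∀ k l : ℤ, 34 * (m : ℤ) < 2 * (m * k) - 2 * (m * l) → 18 ≤ k - l := by
      intro k l h
      have : (17 : ℤ) < k - l := by
        apply lt_of_mul (m := m)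
        have e1 : (m : ℤ) * (k - l) = m * k - m * l := by ring
        rw [e1]
        omega
      omega
    rcases h1 with (h | h) | h | h
    · left; left; exact mm _ _ (by omega)
    · left; right; exact mm _ _ (by omega)
    · right; left; exact mm _ _ (by omega)
    · right; right; exact mm _ _ (by omega)
  have he18 := hT18 e hAdm.mem
  -- the chain to the cell `(i, j)`
  have hGq : Gd (v0 a m) m (↑F : Set Edg) u (i, j) := by
    rcases hside with (h | h) | h | h
    · -- right
      refine Gd_hor (hRight j (by omega) (by omega)) fun k k1 k2 => ?_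
      have l1 := min_le_iff.1 k1
      have l2 := le_max_iff.1 k2
      refine hcell (k, j) (by simp only; omega) (by simp only; omega) ?_ ?_ ?_ ?_ ?_
      · simp only
        have : |k| ≤ max |k| |j| := le_max_left _ _
        rw [abs_of_nonneg (by omega)] at this
        rw [abs_of_nonneg (by omega : (0 : ℤ) ≤ k)]
        omega
      · simp only
        have : max |k| |j| ≤ 7 * b := by
          rw [max_le_iff, abs_le, abs_le]; omega
        omega
      · intro q' hq'
        have t1 := hT18 q' hq'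
        have t2 := hTc q' hq'
        rw [le_sd]; simp only; omega
      · simp only
        rw [le_abs]
        omega
      · simp only; omega
    · -- left
      refine Gd_hor (hLeft j (by omega) (by omega)) fun k k1 k2 => ?_
      have l1 := min_le_iff.1 k1
      have l2 := le_max_iff.1 k2
      refine hcell (k, j) (by simp only; omega) (by simp only; omega) ?_ ?_ ?_ ?_ ?_
      · simp only
        have : |k| ≤ max |k| |j| := le_max_left _ _
        rw [abs_of_nonpos (by omega)] at this
        rw [abs_of_nonpos (by omega : k ≤ 0)]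
        omega
      · simp only
        have : max |k| |j| ≤ 7 * b := by
          rw [max_le_iff, abs_le, abs_le]; omega
        omega
      · intro q' hq'
        have t1 := hT18 q' hq'
        have t2 := hTc q' hq'
        rw [le_sd]; simp only; omega
      · simp only
        rw [le_abs]
        omega
      · simp only; omega
    · -- top
      refine Gd_ver (hTop i (by omega) (by omega)) fun k k1 k2 => ?_
      have l1 := min_le_iff.1 k1
      have l2 := le_max_iff.1 k2
      refine hcell (i, k) (by simp only; omega) (by simp only; omega) ?_ ?_ ?_ ?_ ?_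
      · simp only
        have : |k| ≤ max |i| |k| := le_max_right _ _
        rw [abs_of_nonneg (by omega)] at this
        rw [abs_of_nonneg (by omega : (0 : ℤ) ≤ k)]
        omega
      · simp only
        have : max |i| |k| ≤ 7 * b := by
          rw [max_le_iff, abs_le, abs_le]; omega
        omega
      · intro q' hq'
        have t1 := hT18 q' hq'
        have t2 := hTc q' hq'
        rw [le_sd]; simp only; omega
      · simp only
        right
        omega
      · simp only; omega
    · -- bottom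
      have hie : 18 ≤ i - e.1 ∨ 18 ≤ e.1 - i := by omega
      have hB : Gd (v0 a m) m (↑F : Set Edg) u (i, -(7 * b)) := by
        rcases hie with hie | hie
        · refine Gd_hor (hRight (-(7 * b)) le_rfl (by omega)) fun k k1 k2 => hring _ ?_ (Or.inl ?_)
          · have := min_le_iff.1 k1
            have := le_max_iff.1 k2
            exact mx2 k (by omega) (by omega)
          · have := min_le_iff.1 k1
            simp only; rw [le_abs]; omega
        · refine Gd_hor (hLeft (-(7 * b)) le_rfl (by omega)) fun k k1 k2 => hring _ ?_ (Or.inl ?_)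
          · have := min_le_iff.1 k1
            have := le_max_iff.1 k2
            exact mx2 k (by omega) (by omega)
          · have := le_max_iff.1 k2
            simp only; rw [le_abs]; omega
      refine Gd_ver hB fun k k1 k2 => ?_
      have l1 := min_le_iff.1 k1
      have l2 := le_max_iff.1 k2
      refine hcell (i, k) (by simp only; omega) (by simp only; omega) ?_ ?_ ?_ ?_ ?_
      · simp only
        have : |k| ≤ max |i| |k| := le_max_right _ _
        rw [abs_of_nonpos (by omega)] at this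
        rw [abs_of_nonpos (by omega : k ≤ 0)]
        omega
      · simp only
        have : max |i| |k| ≤ 7 * b := by
          rw [max_le_iff, abs_le, abs_le]; omega
        omega
      · intro q' hq'
        have t1 := hT18 q' hq'
        have t2 := hTc q' hq'
        rw [le_sd]; simp only; omega
      · simp only
        rw [le_abs]
        omega
      · simp only; omega
  -- conclusion
  obtain ⟨z, hz1, hz2⟩ := hGq
  have h6 : Reach (↑F : Set Edg) (y.1 + v.1, y.2 + v.2) z := by
    refine hz1.hub _ ?_ v ?_ (Reach.symm y4)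
    · rw [mem_ctr, sd_le]
      simp only [tr, v0, cell, eU]
      omega
    · rw [far_iff, le_sd]
      simp only [tr, v0, cell, eU]
      push_cast
      omega
  exact Reach.trans hz2 (Reach.trans (Reach.symm h6) (Reach.symm y4))

end Run7.h561
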