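import Pool.Agent.Run7.h561.TP.Tools

/-! # Straight lattice paths and translations of paths -/

set_option autoImplicit false

namespace Run7.h561

open H974 H12S Finset H984P H984N

/-- Horizontal segment. -/
theorem hseg {P : Vtx → Prop} {y : ℤ} {x1 x2 : ℤ}
    (h : ∀ x, min x1 x2 ≤ x → x ≤ max x1 x2 → P (x, y)) :
    Reach {e | P (src e) ∧ P (tgt e)} (x1, y) (x2, y) := by
  have key : ∀ (a : ℤ) (n : ℕ), (∀ x, a ≤ x → x ≤ a + n → P (x, y)) →
      Reach {e | P (src e) ∧ P (tgt e)} (a, y) (a + n, y) := by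
    intro a n
    induction n with
    | zero => intro _; simpa using Reach.refl _ _
    | succ n ih =>
      intro hP
      refine Reach.trans (ih fun x h1 h2 => hP x h1 (by push_cast; omega)) (Adj.reach ?_)
      refine ⟨(a + n, y, true), ⟨?_, ?_⟩, Or.inl ⟨rfl, ?_⟩⟩
      · exact hP _ (by omega) (by push_cast; omega)
      · exact hP _ (by omega) (by push_cast; omega)
      · simp only [tgt_true, Prod.mk.injEq, and_true]; push_cast; ring
  rcases le_total x1 x2 with h1 | h1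
  · have := key x1 (x2 - x1).toNat (fun x h2 h3 => h x (by rw [min_eq_left h1]; exact h2)
      (by rw [max_eq_right h1]; rw [Int.toNat_of_nonneg (by omega)] at h3; omega))
    rwa [Int.toNat_of_nonneg (by omega), add_sub_cancel] at this
  · have := key x2 (x1 - x2).toNat (fun x h2 h3 => h x (by rw [min_eq_right h1]; exact h2)
      (by rw [max_eq_left h1]; rw [Int.toNat_of_nonneg (by omega)] at h3; omega))
    rw [Int.toNat_of_nonneg (by omega), add_sub_cancel] at this
    exact this.symm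

/-- Vertical segment. -/
theorem vseg {P : Vtx → Prop} {x : ℤ} {y1 y2 : ℤ}
    (h : ∀ y, min y1 y2 ≤ y → y ≤ max y1 y2 → P (x, y)) :
    Reach {e | P (src e) ∧ P (tgt e)} (x, y1) (x, y2) := by
  have key : ∀ (a : ℤ) (n : ℕ), (∀ y, a ≤ y → y ≤ a + n → P (x, y)) →
      Reach {e | P (src e) ∧ P (tgt e)} (x, a) (x, a + n) := by
    intro a n
    induction n with
    | zero => intro _; simpa using Reach.refl _ _
    | succ n ih =>
      intro hP
      refine Reach.trans (ih fun x h1 h2 => hP x h1 (by push_cast; omega)) (Adj.reach ?_)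
      refine ⟨(x, a + n, false), ⟨?_, ?_⟩, Or.inl ⟨rfl, ?_⟩⟩
      · exact hP (a + n) (by omega) (by push_cast; omega)
      · exact hP (a + n + 1) (by omega) (by push_cast; omega)
      · simp only [tgt_false, Prod.mk.injEq, true_and]; push_cast; ring
  rcases le_total y1 y2 with h1 | h1
  · have := key y1 (y2 - y1).toNat (fun x h2 h3 => h x (by rw [min_eq_left h1]; exact h2)
      (by rw [max_eq_right h1]; rw [Int.toNat_of_nonneg (by omega)] at h3; omega))
    rwa [Int.toNat_of_nonneg (by omega), add_sub_cancel] at this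
  · have := key y2 (y1 - y2).toNat (fun x h2 h3 => h x (by rw [min_eq_right h1]; exact h2)
      (by rw [max_eq_left h1]; rw [Int.toNat_of_nonneg (by omega)] at h3; omega))
    rw [Int.toNat_of_nonneg (by omega), add_sub_cancel] at this
    exact this.symm

/-- Path in a rectangle. -/
theorem rect_path {P : Vtx → Prop} {u v : Vtx}
    (h : ∀ x : Vtx, (min u.1 v.1 ≤ x.1 ∧ x.1 ≤ max u.1 v.1) → (min u.2 v.2 ≤ x.2 ∧
      x.2 ≤ max u.2 v.2) → P x) : Reach {e | P (src e) ∧ P (tgt e)} u v := by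
  obtain ⟨u1, u2⟩ := u
  obtain ⟨v1, v2⟩ := v
  refine Reach.trans (v := (v1, u2)) (hseg fun x h1 h2 => h (x, u2) ⟨h1, h2⟩ ?_)
    (vseg fun y h1 h2 => h (v1, y) ?_ ⟨h1, h2⟩)
  · exact ⟨min_le_left _ _, le_max_left _ _⟩
  · exact ⟨min_le_right _ _, le_max_right _ _⟩

/-- Path in a square. -/
theorem ball_path {P : Vtx → Prop} (c : Vtx) (r : ℤ) {u v : Vtx} (hu : sd u c ≤ r)
    (hv : sd v c ≤ r) (h : ∀ x, sd x c ≤ r → P x) : Reach {e | P (src e) ∧ P (tgt e)} u v := by
  rw [sd_le] at hu hv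
  refine rect_path fun x h1 h2 => h x ?_
  have a1 := min_le_iff.1 h1.1
  have a2 := le_max_iff.1 h1.2
  have a3 := min_le_iff.1 h2.1
  have a4 := le_max_iff.1 h2.2
  rw [sd_le]
  omega

/-- Translation of paths. -/
theorem reach_trans_set {P Q : Vtx → Prop} (v : Vtx) (h : ∀ x, P x → Q (x.1 + v.1, x.2 + v.2))
    {x y : Vtx} (h1 : Reach {e | P (src e) ∧ P (tgt e)} x y) :
    Reach {e | Q (src e) ∧ Q (tgt e)} (x.1 + v.1, x.2 + v.2) (y.1 + v.1, y.2 + v.2) := by
  have h2 := (trl v.1 v.2).reach h1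
  refine Reach.mono ?_ h2
  rintro _ ⟨e, ⟨e1, e2⟩, rfl⟩
  have k1 : src ((trl v.1 v.2).φ e) = ((src e).1 + v.1, (src e).2 + v.2) := by
    obtain ⟨x, y, b⟩ := e; rfl
  have k2 : tgt ((trl v.1 v.2).φ e) = ((tgt e).1 + v.1, (tgt e).2 + v.2) := by
    obtain ⟨x, y, _ | _⟩ := e
    · change tgt (x + v.1, y + v.2, false) = _
      simp only [tgt_false, Prod.mk.injEq, true_and]; ring
    · change tgt (x + v.1, y + v.2, true) = _
      simp only [tgt_true, Prod.mk.injEq, and_true]; ring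
  refine ⟨?_, ?_⟩
  · rw [k1]; exact h _ e1
  · rw [k2]; exact h _ e2

theorem cl_box {m : ℕ} {F : Set Edg} {x : Vtx} (h : x ∈ Pool.Agent.Y989.FR.cl m F) :
    sd x (0, 0) ≤ m := by
  refine reach_mem (A := {x | sd x (0, 0) ≤ m}) ?_ h ?_
  · rintro e ⟨-, he⟩
    exact mem_boxE.1 (by exact_mod_cast he)
  · simp only [Set.mem_setOf_eq]
    rw [sd_le]; simp

theorem mem_KV {R : ℕ} {F : Finset Edg} {e : Edg} : e ∈ KV R F ↔ e ∈ boxE R ∧
    (src e ∈ Pool.Agent.Y989.FR.cl R (↑F : Set Edg) ∨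
      tgt e ∈ Pool.Agent.Y989.FR.cl R (↑F : Set Edg)) := by
  unfold KV
  simp only [Finset.mem_filter]

/-- The clusters outside of the box: leaving the cluster of the origin of the box. -/
theorem leave_cl {R : ℕ} {F : Finset Edg} {x : Vtx} (h : Reach (↑F : Set Edg) x (0, 0))
    (hx : x ∉ Pool.Agent.Y989.FR.cl R (↑F : Set Edg)) :
    ∃ w : Vtx, (R : ℤ) < sd w (0, 0) ∧ Reach (↑(F \ KV R F) : Set Edg) x w := by
  obtain ⟨w', w, a1, a2, ⟨e, he, h3⟩, a4, -⟩ :=
    first_hit (Pool.Agent.Y989.FR.cl R (↑F : Set Edg)) h hx (Reach.refl _ _)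
  refine ⟨w', ?_, a4.mono ?_⟩
  · by_contra hc
    push Not at hc
    apply a2
    have hw := cl_box a1
    have he' : e ∈ boxE R := by
      rw [mem_boxE]
      rcases h3 with ⟨rfl, rfl⟩ | ⟨rfl, rfl⟩
      · exact ⟨hc, hw⟩
      · exact ⟨hw, hc⟩
    exact Reach.trans a1 (Adj.reach ⟨e, ⟨he, by exact_mod_cast he'⟩, h3.symm⟩)
  · rintro g ⟨g1, g2, g3⟩
    rw [Finset.coe_sdiff]
    refine ⟨g1, ?_⟩
    rw [Finset.mem_coe, mem_KV]
    rintro ⟨-, h4 | h4⟩
    · exact g2 h4
    · exact g3 h4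

end Run7.h561
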