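import Pool.Agent.Run7.h561.TP.Tools
import Pool.Agent.H12R2.Sep.Win2

/-! # Pieces PBX, CRS, NC -/

set_option autoImplicit false

namespace Run7.h561

open H974 H12S Finset H984P H984N

theorem okhalf : Ok (fun _ : Edg => (1 / 2 : ℝ)) := okq (by norm_num) (by norm_num)

theorem t_CRS : S_CRS := by
  obtain ⟨κ, hκ, hw⟩ := win_half
  obtain ⟨C, c, hC, hc, h⟩ := win_arm_of
    (fun {q κ n} h {m} hm hmn c1 c2 S => win_blk h hm hmn c1 c2 S) κ hκ
  refine ⟨C, c, hC, hc, fun c1 c2 k K S hk hkK => ?_⟩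
  exact (h (1 / 2) K (hw K) k K hk hkK le_rfl c1 c2 S).1

theorem t_PBX : S_PBX := by
  obtain ⟨κ, hκ, hw⟩ := win_half
  have hκ2 : κ ≤ 1 / 2 := (hw 0).kle
  refine ⟨κ ^ 4, by positivity, pow_le_one₀ hκ.le (by linarith), fun k Q S hk => ⟨?_, ?_⟩⟩
  · intro hQ
    have hI : ∀ Q' : Finset (ℤ × ℤ), IncrE S (fun F => ∀ q ∈ Q', BSU q k F) :=
      fun Q' F G hFG _ hF q hq => BSU_mono hFG (hF q hq)
    induction Q using Finset.induction_on with
    | empty =>
      rw [Finset.card_empty, pow_zero]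
      exact (Pr_true S (fun F _ => by simp)).ge
    | insert q Q hq ih =>
      have h1 := ih (fun q' hq' => hQ q' (Finset.mem_insert_of_mem hq'))
      have h2 : κ ^ 4 ≤ PQ (1 / 2) S (BSU q k) := by
        have h3 := (win_circ (hw (2 * k)) hk le_rfl q.1 q.2 S (by
          have := hQ q (Finset.mem_insert_self _ _)
          unfold blk at this
          push_cast at this
          exact this)).1
        exact h3
      have h4 := Pr_harris okhalf (S := S) (A := BSU q k) (B := fun F => ∀ q ∈ Q, BSU q k F)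
        (fun F G hFG _ hF => BSU_mono hFG hF) (hI Q)
      rw [Finset.card_insert_of_notMem hq, pow_succ']
      refine (mul_le_mul h2 h1 (by positivity) ((by positivity : (0:ℝ) ≤ κ ^ 4).trans h2)).trans
        (h4.trans (le_of_eq (Pr_congr ?_)))
      intro F _
      rw [Finset.forall_mem_insert]
  · have key : ∀ Q' : Finset (ℤ × ℤ), (κ ^ 4) ^ Q'.card ≤
        PQ (1 / 2) S (fun F => ¬ ∃ q ∈ Q', Crs q.1 q.2 k (3 * k) (↑F : Set Edg)) := by
      intro Q'
      induction Q' using Finset.induction_on with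
      | empty =>
        rw [Finset.card_empty, pow_zero]
        exact (Pr_true S (fun F _ => by simp)).ge
      | insert q Q hq ih =>
        have h2 : κ ^ 4 ≤ PQ (1 / 2) S (fun F => ¬ Crs q.1 q.2 k (3 * k) (↑F : Set Edg)) :=
          (win_blk (hw (2 * k)) hk le_rfl q.1 q.2 S).1
        have h4 := Pr_harris_dd okhalf (S := S) (A := fun F => Crs q.1 q.2 k (3 * k) (↑F : Set Edg))
          (B := fun F => ∃ q ∈ Q, Crs q.1 q.2 k (3 * k) (↑F : Set Edg))
          (fun F G hFG _ hF => BS_crs_mono (by exact_mod_cast hFG) hF)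
          (fun F G hFG _ ⟨q, hq, hF⟩ => ⟨q, hq, BS_crs_mono (by exact_mod_cast hFG) hF⟩)
        rw [← Pr_not, ← Pr_not] at h4
        rw [Finset.card_insert_of_notMem hq, pow_succ']
        refine (mul_le_mul h2 ih (by positivity) ((by positivity : (0:ℝ) ≤ κ ^ 4).trans h2)).trans
          (h4.trans (le_of_eq (Pr_congr ?_)))
        intro F _
        rw [Finset.exists_mem_insert, not_or]
    refine (key Q).trans (le_of_eq (Pr_congr ?_))
    intro F _
    unfold BSD
    push Not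
    rfl

theorem t_NC : S_NC := by
  obtain ⟨κ, hκ, hw⟩ := win_half
  have hκ2 : κ ≤ 1 / 2 := (hw 0).kle
  have hk4 : 0 < κ ^ 4 := by positivity
  refine ⟨2 / (1 - (1 - κ ^ 4)) ^ 2, by rw [sub_sub_cancel]; positivity, fun c k S hk => ?_⟩
  have h1 : PQ (1 / 2) S (fun F => ¬ Crs c.1 c.2 k (3 * k) (↑F : Set Edg)) ≥ κ ^ 4 :=
    (win_blk (hw (2 * k)) hk le_rfl c.1 c.2 S).1
  have h2 : Pr (fun _ : Edg => (1 / 2 : ℝ)) S (fun G : Finset Edg =>
      ∃ x ∈ ctr c k, RB src tgt {y | BSfar c (3 * k) y} (↑G : Set Edg) x) ≤ 1 - κ ^ 4 := by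
    unfold PQ at h1
    rw [Pr_not] at h1
    refine le_trans (Pr_mono okhalf ?_) (by linarith :
      Pr (fun _ => (1 / 2 : ℝ)) S (fun F => Crs c.1 c.2 k (3 * k) (↑F : Set Edg)) ≤ 1 - κ ^ 4)
    rintro F _ ⟨x, hx, y, hy, hr⟩
    refine crs_iff.2 ⟨x, y, mem_ctr.1 hx, far_iff.1 hy, hr⟩
  have h3 := NC_sq okhalf S src tgt (ctr c k) {y | BSfar c (3 * k) y} (lam := 1 - κ ^ 4)
    (by linarith) h2
  refine le_trans (Ex_mono okhalf ?_) h3
  intro F _
  have : ∀ n : ℕ, (n : ℝ) ≤ (n : ℝ) ^ 2 := by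
    intro n
    have : n ≤ n ^ 2 := Nat.le_self_pow (by norm_num) n
    exact_mod_cast this
  exact this _

end Run7.h561
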