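import Pool.Agent.Run7.h561.TP.Tools
import Pool.Agent.H934R2.Expl.Mom

/-! # Piece SM: second moment method (adapted from `Pool.Agent.Y989.FR.T_GOOD3`) -/

set_option autoImplicit false

namespace Run7.h561

open H974 H12S Finset H984P H984N

namespace SM

theorem oks : Ok (fun _ : Edg => (1 / 2 : ℝ)) := fun _ => ⟨by norm_num, by norm_num⟩

/-- one-dimensional sum -/
theorem t5_one {b : ℝ} (hb : 0 ≤ b) (hb1 : b < 1) : ∀ h : ℤ, 1 ≤ h → ∀ (k : ℤ) (J : Finset ℤ),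
    (∀ l ∈ J, |k - l| ≤ 2 * h) →
    ∑ l ∈ J, ((max |k - l| 1 : ℤ) : ℝ) ^ (-b) ≤ (1 + 4 / (1 - b)) * (h : ℝ) ^ (1 - b) := by
  intro h hh k J hJ
  have hb2 : 0 < 1 - b := by linarith
  have hh1 : (1:ℝ) ≤ h := by exact_mod_cast hh
  have hh0 : (0:ℝ) < h := by linarith
  have h1 := H934E.sum_dp hb hb1 (u := 2 * h) (k := k) (J := J) (by omega) hJ
  have hnn : ∀ l : ℤ, 0 ≤ ((max |k - l| 1 : ℤ) : ℝ) ^ (-b) := by
    intro l
    apply Real.rpow_nonneg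
    have : (0 : ℤ) ≤ max |k - l| 1 := le_trans zero_le_one (le_max_right _ _)
    exact_mod_cast this
  have h2 : ∑ l ∈ J.erase k, ((max |k - l| 1 : ℤ) : ℝ) ^ (-b) =
      ∑ l ∈ J.erase k, H934E.dp b k l := by
    apply Finset.sum_congr rfl
    intro l hl
    rw [Finset.mem_erase] at hl
    unfold H934E.dp
    have : (1 : ℤ) ≤ |k - l| := Int.one_le_abs (sub_ne_zero.mpr (fun e => hl.1 e.symm))
    rw [max_eq_left this]
    push_cast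
    rfl
  have h3 : ∑ l ∈ J, ((max |k - l| 1 : ℤ) : ℝ) ^ (-b) ≤
      1 + ∑ l ∈ J.erase k, ((max |k - l| 1 : ℤ) : ℝ) ^ (-b) := by
    by_cases hk : k ∈ J
    · rw [← Finset.add_sum_erase _ _ hk]
      simp
    · rw [Finset.erase_eq_of_notMem hk]
      linarith
  have h4 : (1:ℝ) ≤ (h : ℝ) ^ (1 - b) := Real.one_le_rpow hh1 hb2.le
  have h5 : (2 * (h : ℝ)) ^ (1 - b) ≤ 2 * (h : ℝ) ^ (1 - b) := by
    rw [Real.mul_rpow (by norm_num) hh0.le]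
    apply mul_le_mul_of_nonneg_right _ (Real.rpow_nonneg hh0.le _)
    calc (2:ℝ) ^ (1 - b) ≤ (2:ℝ) ^ (1:ℝ) :=
          Real.rpow_le_rpow_of_exponent_le (by norm_num) (by linarith)
      _ = 2 := Real.rpow_one _
  have h6 : 2 * ((((2 * h : ℤ) : ℝ)) ^ (1 - b) / (1 - b)) ≤ 4 / (1 - b) * (h : ℝ) ^ (1 - b) := by
    push_cast
    have : (2 * (h : ℝ)) ^ (1 - b) / (1 - b) ≤ 2 * (h : ℝ) ^ (1 - b) / (1 - b) :=
      div_le_div_of_nonneg_right h5 hb2.le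
    calc _ ≤ 2 * (2 * (h : ℝ) ^ (1 - b) / (1 - b)) := by linarith
      _ = _ := by ring
  rw [h2] at h3
  nlinarith

theorem t5_max_nonneg (a : ℤ) : (0:ℝ) ≤ ((max a 1 : ℤ) : ℝ) := by
  have : (0 : ℤ) ≤ max a 1 := le_trans zero_le_one (le_max_right _ _)
  exact_mod_cast this

theorem t5_max_pos (a : ℤ) : (0:ℝ) < ((max a 1 : ℤ) : ℝ) := by
  have : (0 : ℤ) < max a 1 := lt_of_lt_of_le zero_lt_one (le_max_right _ _)
  exact_mod_cast this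

/-- two-dimensional sum -/
theorem t5_two {a : ℝ} (ha : 0 ≤ a) (ha1 : a < 2) (c : Vtx) (m : ℕ) (hm : 1 ≤ m) (v : Vtx)
    (hv : v ∈ ctr c (m / 2)) :
    ∑ w ∈ ctr c (m / 2), ((max (sd v w) 1 : ℤ) : ℝ) ^ (-a) ≤
      (1 + 4 / (1 - a / 2)) ^ 2 * (m : ℝ) ^ (2 - a) := by
  have hh0 : (0:ℝ) < m := by exact_mod_cast hm
  unfold ctr at hv ⊢
  rw [Finset.mem_product, Finset.mem_Icc, Finset.mem_Icc] at hv
  have b0 : 0 ≤ a / 2 := by linarith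
  have b1 : a / 2 < 1 := by linarith
  have s1 := t5_one b0 b1 (m : ℤ) (by exact_mod_cast hm) v.1
    (Finset.Icc (c.1 - ((m / 2 : ℕ) : ℤ)) (c.1 + ((m / 2 : ℕ) : ℤ))) (by
    intro l hl
    rw [Finset.mem_Icc] at hl
    rw [abs_le]
    omega)
  have s2 := t5_one b0 b1 (m : ℤ) (by exact_mod_cast hm) v.2
    (Finset.Icc (c.2 - ((m / 2 : ℕ) : ℤ)) (c.2 + ((m / 2 : ℕ) : ℤ))) (by
    intro l hl
    rw [Finset.mem_Icc] at hl
    rw [abs_le]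
    omega)
  rw [Int.cast_natCast] at s1 s2
  have key : ∀ w : Vtx, ((max (sd v w) 1 : ℤ) : ℝ) ^ (-a) ≤
      ((max |v.1 - w.1| 1 : ℤ) : ℝ) ^ (-(a / 2)) * ((max |v.2 - w.2| 1 : ℤ) : ℝ) ^ (-(a / 2)) := by
    intro w
    have m1 : ((max |v.1 - w.1| 1 : ℤ) : ℝ) ≤ ((max (sd v w) 1 : ℤ) : ℝ) := by
      have : max |v.1 - w.1| 1 ≤ max (sd v w) 1 := max_le_max (le_max_left _ _) le_rfl
      exact_mod_cast this
    have m2 : ((max |v.2 - w.2| 1 : ℤ) : ℝ) ≤ ((max (sd v w) 1 : ℤ) : ℝ) := by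
      have : max |v.2 - w.2| 1 ≤ max (sd v w) 1 := max_le_max (le_max_right _ _) le_rfl
      exact_mod_cast this
    have e : ((max (sd v w) 1 : ℤ) : ℝ) ^ (-a) =
        ((max (sd v w) 1 : ℤ) : ℝ) ^ (-(a / 2)) * ((max (sd v w) 1 : ℤ) : ℝ) ^ (-(a / 2)) := by
      rw [← Real.rpow_add (t5_max_pos _)]
      congr 1
      ring
    rw [e]
    exact mul_le_mul
      (Real.rpow_le_rpow_of_nonpos (t5_max_pos _) m1 (by linarith))
      (Real.rpow_le_rpow_of_nonpos (t5_max_pos _) m2 (by linarith))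
      (Real.rpow_nonneg (t5_max_nonneg _) _) (Real.rpow_nonneg (t5_max_nonneg _) _)
  have h0 : 0 ≤ ∑ l ∈ Finset.Icc (c.2 - ((m / 2 : ℕ) : ℤ)) (c.2 + ((m / 2 : ℕ) : ℤ)),
      ((max |v.2 - l| 1 : ℤ) : ℝ) ^ (-(a / 2)) :=
    Finset.sum_nonneg (fun _ _ => Real.rpow_nonneg (t5_max_nonneg _) _)
  refine (Finset.sum_le_sum (fun w _ => key w)).trans ?_
  rw [Finset.sum_product]
  simp only
  rw [← Finset.sum_mul_sum]
  refine (mul_le_mul s1 s2 h0 (h0.trans s2) |>.trans (le_of_eq ?_))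
  calc ((1 + 4 / (1 - a / 2)) * (m : ℝ) ^ (1 - a / 2)) *
        ((1 + 4 / (1 - a / 2)) * (m : ℝ) ^ (1 - a / 2))
      = (1 + 4 / (1 - a / 2)) ^ 2 * ((m : ℝ) ^ (1 - a / 2) * (m : ℝ) ^ (1 - a / 2)) := by ring
    _ = _ := by
        rw [← Real.rpow_add hh0]
        congr 2
        ring

theorem t5_card (c : Vtx) (m : ℕ) : ((ctr c m).card : ℝ) = (2 * (m : ℝ) + 1) ^ 2 := by
  unfold ctr
  rw [Finset.card_product, Int.card_Icc, Int.card_Icc]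
  have h1 : c.1 + (m : ℤ) + 1 - (c.1 - m) = ((2 * m + 1 : ℕ) : ℤ) := by push_cast; ring
  have h2 : c.2 + (m : ℤ) + 1 - (c.2 - m) = ((2 * m + 1 : ℕ) : ℤ) := by push_cast; ring
  rw [h1, h2, Int.toNat_natCast]
  push_cast
  ring

/-- the energy -/
noncomputable def En (t : ℝ) (V : Finset Vtx) : ℝ :=
  ∑ v ∈ V, ∑ w ∈ V, ((max (sd v w) 1 : ℤ) : ℝ) ^ (-t)

theorem En_nonneg (t : ℝ) (V : Finset Vtx) : 0 ≤ En t V :=
  Finset.sum_nonneg (fun _ _ => Finset.sum_nonneg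
    (fun _ _ => Real.rpow_nonneg (t5_max_nonneg _) _))

theorem En_sq (V : Finset Vtx) : (V.card : ℝ) * (V.card : ℝ) = En 0 V := by
  unfold En
  simp only [neg_zero, Real.rpow_zero, Finset.sum_const, nsmul_eq_mul, mul_one]

open Classical in
theorem t5_N (D : Finset Vtx) (A : Vtx → Finset Edg → Prop) (F : Finset Edg) :
    (((D.filter (fun v => A v F)).card : ℕ) : ℝ) = ∑ v ∈ D, ind (A v F) := by
  rw [Finset.card_filter]
  push_cast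
  apply Finset.sum_congr rfl
  intro v _
  by_cases hv : A v F
  · rw [if_pos hv, ind_of hv]
  · rw [if_neg hv, ind_not_of hv]

open Classical in
theorem t5_En (t : ℝ) (D : Finset Vtx) (A : Vtx → Finset Edg → Prop) (F : Finset Edg) :
    En t (D.filter (fun v => A v F)) = ∑ v ∈ D, ∑ w ∈ D,
      ((max (sd v w) 1 : ℤ) : ℝ) ^ (-t) * ind (A v F ∧ A w F) := by
  unfold En
  rw [Finset.sum_filter]
  apply Finset.sum_congr rfl
  intro v _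
  by_cases hv : A v F
  · rw [if_pos hv, Finset.sum_filter]
    apply Finset.sum_congr rfl
    intro w _
    by_cases hw : A w F
    · rw [if_pos hw, ind_of ⟨hv, hw⟩, mul_one]
    · rw [if_neg hw, ind_not_of (fun h => hw h.2), mul_zero]
  · rw [if_neg hv]
    symm
    apply Finset.sum_eq_zero
    intro w _
    rw [ind_not_of (fun h => hv h.1), mul_zero]

open Classical in
/-- expectation of the energy -/
theorem t5_EE {C : ℝ} (hC : 0 < C) {t : ℝ} (ht : 0 ≤ t) (ht1 : t < 4 / 3) (c : Vtx) (m : ℕ)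
    (hm : 1 ≤ m) (S : Finset Edg) (A : Vtx → Finset Edg → Prop)
    (hT : ∀ v ∈ ctr c (m / 2), ∀ w ∈ ctr c (m / 2), PQ (1 / 2) S (fun F => A v F ∧ A w F) ≤
      C * ((max (sd v w) 1 : ℤ) : ℝ) ^ (-(2 / 3 : ℝ)) * (m : ℝ) ^ (-(2 / 3 : ℝ))) :
    Ex (fun _ => (1 / 2 : ℝ)) S (fun F => En t ((ctr c (m / 2)).filter (fun v => A v F))) ≤
      4 * C * (1 + 4 / (1 - (t + 2 / 3) / 2)) ^ 2 * (m : ℝ) ^ (8 / 3 - t) := by
  have hb : 0 < 1 - (t + 2 / 3) / 2 := by linarith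
  have hm0 : (0:ℝ) < m := by exact_mod_cast hm
  have hm1 : (1:ℝ) ≤ m := by exact_mod_cast hm
  have e1 : Ex (fun _ => (1 / 2 : ℝ)) S
      (fun F => En t ((ctr c (m / 2)).filter (fun v => A v F))) =
      ∑ v ∈ ctr c (m / 2), ∑ w ∈ ctr c (m / 2),
      ((max (sd v w) 1 : ℤ) : ℝ) ^ (-t) * PQ (1 / 2) S (fun F => A v F ∧ A w F) := by
    rw [Ex_congr (fun F _ => t5_En t (ctr c (m / 2)) A F), Ex_sum]
    apply Finset.sum_congr rfl
    intro v _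
    rw [Ex_sum]
    apply Finset.sum_congr rfl
    intro w _
    rw [Ex_mul_left]
    rfl
  rw [e1]
  have h2 : ∀ v ∈ ctr c (m / 2), ∑ w ∈ ctr c (m / 2),
      ((max (sd v w) 1 : ℤ) : ℝ) ^ (-t) * PQ (1 / 2) S (fun F => A v F ∧ A w F) ≤
      C * (m : ℝ) ^ (-(2 / 3) : ℝ) *
        ((1 + 4 / (1 - (t + 2 / 3) / 2)) ^ 2 * (m : ℝ) ^ (2 - (t + 2 / 3))) := by
    intro v hv
    have i1 := t5_two (a := t + 2 / 3) (by linarith) (by linarith) c m hm v hv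
    refine le_trans ?_ (mul_le_mul_of_nonneg_left i1
      (mul_nonneg hC.le (Real.rpow_nonneg hm0.le _)))
    rw [Finset.mul_sum]
    apply Finset.sum_le_sum
    intro w hw
    have i2 := hT v hv w hw
    have e2 : ((max (sd v w) 1 : ℤ) : ℝ) ^ (-(t + 2 / 3)) =
        ((max (sd v w) 1 : ℤ) : ℝ) ^ (-t) * ((max (sd v w) 1 : ℤ) : ℝ) ^ (-(2 / 3) : ℝ) := by
      rw [← Real.rpow_add (t5_max_pos _)]
      congr 1
      ring
    rw [e2]
    calc _ ≤ ((max (sd v w) 1 : ℤ) : ℝ) ^ (-t) *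
          (C * ((max (sd v w) 1 : ℤ) : ℝ) ^ (-(2 / 3) : ℝ) * (m : ℝ) ^ (-(2 / 3) : ℝ)) :=
          mul_le_mul_of_nonneg_left i2 (Real.rpow_nonneg (t5_max_nonneg _) _)
      _ = _ := by ring
  refine (Finset.sum_le_sum h2).trans ?_
  rw [Finset.sum_const, nsmul_eq_mul, t5_card]
  have e3 : (m : ℝ) ^ 2 * ((m : ℝ) ^ (-(2 / 3) : ℝ) * (m : ℝ) ^ (2 - (t + 2 / 3))) =
      (m : ℝ) ^ (8 / 3 - t) := by
    rw [← Real.rpow_add hm0, ← Real.rpow_natCast, ← Real.rpow_add hm0]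
    congr 1
    push_cast
    ring
  have hcast : (2 * ((m / 2 : ℕ) : ℝ) + 1) ≤ 2 * m := by
    have : 2 * (m / 2) + 1 ≤ 2 * m := by omega
    exact_mod_cast this
  have h4 : (2 * ((m / 2 : ℕ) : ℝ) + 1) ^ 2 ≤ 4 * (m : ℝ) ^ 2 := by
    have h5 : (0 : ℝ) ≤ 2 * ((m / 2 : ℕ) : ℝ) + 1 := by positivity
    nlinarith
  have h5 : 0 ≤ C * (m : ℝ) ^ (-(2 / 3) : ℝ) *
        ((1 + 4 / (1 - (t + 2 / 3) / 2)) ^ 2 * (m : ℝ) ^ (2 - (t + 2 / 3))) := by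
    have := Real.rpow_nonneg hm0.le (-(2 / 3) : ℝ)
    have := Real.rpow_nonneg hm0.le (2 - (t + 2 / 3))
    positivity
  calc (2 * ((m / 2 : ℕ) : ℝ) + 1) ^ 2 * (C * (m : ℝ) ^ (-(2 / 3) : ℝ) *
        ((1 + 4 / (1 - (t + 2 / 3) / 2)) ^ 2 * (m : ℝ) ^ (2 - (t + 2 / 3))))
      ≤ (4 * (m : ℝ) ^ 2) * (C * (m : ℝ) ^ (-(2 / 3) : ℝ) *
        ((1 + 4 / (1 - (t + 2 / 3) / 2)) ^ 2 * (m : ℝ) ^ (2 - (t + 2 / 3)))) :=
        mul_le_mul_of_nonneg_right h4 h5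
    _ = 4 * C * (1 + 4 / (1 - (t + 2 / 3) / 2)) ^ 2 *
        ((m : ℝ) ^ 2 * ((m : ℝ) ^ (-(2 / 3) : ℝ) * (m : ℝ) ^ (2 - (t + 2 / 3)))) := by ring
    _ = _ := by rw [e3]

open Classical in
/-- Second moment method, abstract form. -/
theorem main {t c' C : ℝ} (ht : 0 < t) (ht1 : t < 4 / 3) (hc' : 0 < c') (hC : 0 < C) :
    ∃ c0 E0 p : ℝ, 0 < c0 ∧ 0 < E0 ∧ 0 < p ∧ ∀ (c : Vtx) (m : ℕ) (S : Finset Edg)
      (A : Vtx → Finset Edg → Prop) (O : Finset Edg → Prop), 1 ≤ m →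
      (∀ v ∈ ctr c (m / 2), c' * (m : ℝ) ^ (-(2 / 3 : ℝ)) ≤ PQ (1 / 2) S (fun F => A v F ∧ O F)) →
      (∀ v ∈ ctr c (m / 2), ∀ w ∈ ctr c (m / 2), PQ (1 / 2) S (fun F => A v F ∧ A w F) ≤
        C * ((max (sd v w) 1 : ℤ) : ℝ) ^ (-(2 / 3 : ℝ)) * (m : ℝ) ^ (-(2 / 3 : ℝ))) →
      p ≤ PQ (1 / 2) S (fun F => O F ∧
        c0 * (m : ℝ) ^ (4 / 3 : ℝ) ≤ (((ctr c (m / 2)).filter (fun v => A v F)).card : ℝ) ∧
        En t ((ctr c (m / 2)).filter (fun v => A v F)) ≤ E0 * (m : ℝ) ^ (8 / 3 - t)) := by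
  set C0 : ℝ := 4 * C * (1 + 4 / (1 - (0 + 2 / 3) / 2)) ^ 2 with hC0d
  have hC0 : 0 < C0 := by
    have : (0:ℝ) < 1 - (0 + 2 / 3) / 2 := by norm_num
    positivity
  set Ct : ℝ := 4 * C * (1 + 4 / (1 - (t + 2 / 3) / 2)) ^ 2 with hCtd
  have hCt : 0 < Ct := by
    have : (0:ℝ) < 1 - (t + 2 / 3) / 2 := by linarith
    positivity
  set p : ℝ := c' ^ 2 / (4 * C0) / 2 with hp
  have hp0 : 0 < p := by positivity
  refine ⟨c' / 2, Ct / p, p, by positivity, by positivity, hp0, ?_⟩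
  intro c m S A O hm hone htwo
  have hm0 : (0:ℝ) < m := by exact_mod_cast hm
  have hU : 0 < (m : ℝ) ^ (4 / 3 : ℝ) := Real.rpow_pos_of_pos hm0 _
  have hU2 : (m : ℝ) ^ (4 / 3 : ℝ) * (m : ℝ) ^ (4 / 3 : ℝ) = (m : ℝ) ^ (8 / 3 - (0:ℝ)) := by
    rw [← Real.rpow_add hm0]; norm_num
  set V : Finset Edg → Finset Vtx := fun F => (ctr c (m / 2)).filter (fun v => A v F) with hV
  set X : Finset Edg → ℝ := fun F => ((V F).card : ℝ) * ind (O F) with hX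
  have hX0 : ∀ F, 0 ≤ X F := fun F => mul_nonneg (Nat.cast_nonneg _) (ind_nonneg _)
  -- first moment
  have l1 : c' * (m : ℝ) ^ (4 / 3 : ℝ) ≤ H934E.EE S X := by
    have e1 : H934E.EE S X = ∑ v ∈ ctr c (m / 2), PQ (1 / 2) S (fun F => A v F ∧ O F) := by
      have e0 : ∀ F, F ⊆ S → X F = ∑ v ∈ ctr c (m / 2), ind (A v F ∧ O F) := by
        intro F _
        rw [hX]
        simp only
        rw [hV]
        simp only
        rw [t5_N, Finset.sum_mul]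
        apply Finset.sum_congr rfl
        intro v _
        rw [ind_and (A v F)]
      unfold H934E.EE
      rw [Ex_congr e0, Ex_sum]
      rfl
    rw [e1]
    refine le_trans ?_ (Finset.sum_le_sum hone)
    rw [Finset.sum_const, nsmul_eq_mul, t5_card]
    have e3 : (m : ℝ) ^ 2 * (m : ℝ) ^ (-(2 / 3 : ℝ)) = (m : ℝ) ^ (4 / 3 : ℝ) := by
      rw [← Real.rpow_natCast, ← Real.rpow_add hm0]
      congr 1
      norm_num
    rw [← e3]
    have hcast : (m : ℝ) ≤ 2 * ((m / 2 : ℕ) : ℝ) + 1 := by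
      have : m ≤ 2 * (m / 2) + 1 := by omega
      exact_mod_cast this
    have h4 : (m : ℝ) ^ 2 ≤ (2 * ((m / 2 : ℕ) : ℝ) + 1) ^ 2 := by
      apply pow_le_pow_left₀ hm0.le hcast
    have h5 : 0 ≤ c' * (m : ℝ) ^ (-(2 / 3 : ℝ)) := by
      have := Real.rpow_nonneg hm0.le (-(2 / 3 : ℝ))
      positivity
    calc c' * ((m : ℝ) ^ 2 * (m : ℝ) ^ (-(2 / 3 : ℝ))) =
        (m : ℝ) ^ 2 * (c' * (m : ℝ) ^ (-(2 / 3 : ℝ))) := by ring
      _ ≤ _ := mul_le_mul_of_nonneg_right h4 h5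
  -- second moment
  have l2 : H934E.EE S (fun F => X F * X F) ≤ C0 * (m : ℝ) ^ (8 / 3 - (0:ℝ)) := by
    refine le_trans ?_ (t5_EE hC le_rfl (by norm_num) c m hm S A htwo)
    unfold H934E.EE
    apply Ex_mono oks
    intro F _
    rw [← En_sq]
    have i1 : X F ≤ ((V F).card : ℝ) := by
      rw [hX]
      simp only
      exact mul_le_of_le_one_right (Nat.cast_nonneg _) (ind_le_one (O F))
    exact mul_le_mul i1 i1 (hX0 F) (Nat.cast_nonneg _)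
  have k := H934E.paley (S := S) (f := X) (fun F _ => hX0 F)
    (m := c' * (m : ℝ) ^ (4 / 3 : ℝ)) (V := C0 * (m : ℝ) ^ (8 / 3 - (0:ℝ)))
    (by positivity) (by positivity) l1 l2
  have e3 : (c' * (m : ℝ) ^ (4 / 3 : ℝ)) ^ 2 /
      (4 * (C0 * (m : ℝ) ^ (8 / 3 - (0:ℝ)))) = 2 * p := by
    rw [← hU2, hp]
    field_simp
  rw [e3] at k
  -- energy
  have hU3 : 0 < (m : ℝ) ^ (8 / 3 - t) := Real.rpow_pos_of_pos hm0 _
  have i2 := H934E.markov (S := S) (f := fun F => En t (V F)) (fun F _ => En_nonneg t _)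
    (t := Ct / p * (m : ℝ) ^ (8 / 3 - t)) (by positivity)
  have i3 : H934E.EE S (fun F => En t (V F)) / (Ct / p * (m : ℝ) ^ (8 / 3 - t)) ≤ p := by
    rw [div_le_iff₀ (by positivity)]
    refine (t5_EE hC ht.le ht1 c m hm S A htwo).trans (le_of_eq ?_)
    rw [← hCtd]
    field_simp
  have i4 : PQ (1 / 2) S (fun F => c' * (m : ℝ) ^ (4 / 3 : ℝ) / 2 ≤ X F) ≤
      PQ (1 / 2) S (fun F => O F ∧ c' / 2 * (m : ℝ) ^ (4 / 3 : ℝ) ≤ ((V F).card : ℝ) ∧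
        En t (V F) ≤ Ct / p * (m : ℝ) ^ (8 / 3 - t)) +
      PQ (1 / 2) S (fun F => Ct / p * (m : ℝ) ^ (8 / 3 - t) ≤ En t (V F)) := by
    refine le_trans ?_ (Pr_or_le oks S (fun F => O F ∧
      c' / 2 * (m : ℝ) ^ (4 / 3 : ℝ) ≤ ((V F).card : ℝ) ∧
        En t (V F) ≤ Ct / p * (m : ℝ) ^ (8 / 3 - t))
        (fun F => Ct / p * (m : ℝ) ^ (8 / 3 - t) ≤ En t (V F)))
    apply Pr_mono oks
    intro F _ hF
    by_cases h5 : En t (V F) ≤ Ct / p * (m : ℝ) ^ (8 / 3 - t)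
    · left
      have hpos : 0 < X F := lt_of_lt_of_le (by positivity) hF
      have hcr : O F := by
        by_contra hn
        rw [hX] at hpos
        simp only at hpos
        rw [ind_not_of hn, mul_zero] at hpos
        exact lt_irrefl _ hpos
      refine ⟨hcr, ?_, h5⟩
      rw [hX] at hF
      simp only at hF
      rw [ind_of hcr, mul_one] at hF
      refine le_trans (le_of_eq ?_) hF
      ring
    · exact Or.inr (le_of_not_ge h5)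
  have k' : 2 * p ≤ PQ (1 / 2) S (fun F => c' * (m : ℝ) ^ (4 / 3 : ℝ) / 2 ≤ X F) := k
  have i2' : PQ (1 / 2) S (fun F => Ct / p * (m : ℝ) ^ (8 / 3 - t) ≤ En t (V F)) ≤
      H934E.EE S (fun F => En t (V F)) / (Ct / p * (m : ℝ) ^ (8 / 3 - t)) := i2
  linarith

end SM

theorem t_SM : S_SM := by
  intro t M B L a c' C ht ht1 hc' hC
  obtain ⟨c0, E0, p, h1, h2, h3, h4⟩ := SM.main ht ht1 hc' hC
  refine ⟨c0, E0, p, 1, h1, h2, h3, ?_⟩
  intro m hm T e S hone htwo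
  have h5 := h4 (v0 a m) m S (fun v F => ClA M B L a m T e v F)
    (fun F => (∀ q ∈ Fam a T e, BSU (tr (v0 a m) (cell m q)) m F) ∧
      ∀ q ∈ T ∪ Cor a e, BSD (tr (v0 a m) (cell m q)) (2 * m) F) hm hone htwo
  refine h5.trans (le_of_eq (Pr_congr ?_))
  intro F _
  unfold GE VG SM.En
  constructor
  · rintro ⟨⟨a1, a2⟩, a3, a4⟩; exact ⟨a1, a2, a3, a4⟩
  · rintro ⟨a1, a2, a3, a4⟩; exact ⟨⟨a1, a2⟩, a3, a4⟩

end Run7.h561
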