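import Pool.Agent.Run7.h561.TP.Tools

/-! # Piece TW: two vertices -/

set_option autoImplicit false

namespace Run7.h561

open H974 H12S Finset H984P H984N
open Pool.Agent.Y989.FR (AE Clu A3v cl Awy)

/-! ### Translations -/

theorem src_trl (s t : ℤ) (e : Edg) : src ((trl s t).φ e) = ((src e).1 + s, (src e).2 + t) := by
  obtain ⟨x, y, _ | _⟩ := e <;> simp

theorem tgt_trl (s t : ℤ) (e : Edg) : tgt ((trl s t).φ e) = ((tgt e).1 + s, (tgt e).2 + t) := by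
  obtain ⟨x, y, _ | _⟩ := e <;> (simp; try ring)

theorem sd_trl (s t : ℤ) (u v : Vtx) : sd (u.1 + s, u.2 + t) (v.1 + s, v.2 + t) = sd u v := by
  unfold sd
  simp

theorem mem_AE {c : ℤ × ℤ} {d k : ℕ} {e : Edg} : e ∈ AE c d k ↔
    (sd (src e) c ≤ k ∧ sd (tgt e) c ≤ k) ∧ ¬ (sd (src e) c ≤ d ∧ sd (tgt e) c ≤ d) := by
  unfold Pool.Agent.Y989.FR.AE
  rw [Finset.mem_coe, Finset.mem_sdiff, mem_blk, mem_blk]

theorem AE_trl (s t : ℤ) (c : ℤ × ℤ) (d k : ℕ) (e : Edg) :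
    (trl s t).φ e ∈ AE (c.1 + s, c.2 + t) d k ↔ e ∈ AE c d k := by
  rw [mem_AE, mem_AE, src_trl, tgt_trl, sd_trl, sd_trl]

theorem image_AE (s t : ℤ) (c : ℤ × ℤ) (d k : ℕ) (F : Set Edg) :
    (trl s t).φ '' (F ∩ AE c d k) = (trl s t).φ '' F ∩ AE (c.1 + s, c.2 + t) d k := by
  ext e
  constructor
  · rintro ⟨e', ⟨h1, h2⟩, rfl⟩
    exact ⟨⟨e', h1, rfl⟩, (AE_trl s t c d k e').2 h2⟩
  · rintro ⟨⟨e', h1, rfl⟩, h2⟩
    exact ⟨e', ⟨h1, (AE_trl s t c d k e').1 h2⟩, rfl⟩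

theorem bdB_trl (s t : ℤ) {c : ℤ × ℤ} {d : ℕ} {u : Vtx} (h : u ∈ bdB c d) :
    ((u.1 + s, u.2 + t) : Vtx) ∈ bdB (c.1 + s, c.2 + t) d := by
  rw [mem_bdB] at h ⊢
  rw [sd_trl, h]

theorem clu_trl (s t : ℤ) (c : ℤ × ℤ) (d k : ℕ) (F : Set Edg) (u z : Vtx) :
    ((z.1 + s, z.2 + t) : Vtx) ∈ Clu (c.1 + s, c.2 + t) d k ((trl s t).φ '' F)
      (u.1 + s, u.2 + t) ↔ z ∈ Clu c d k F u := by
  unfold Pool.Agent.Y989.FR.Clu
  rw [Set.mem_setOf_eq, Set.mem_setOf_eq, ← image_AE]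
  exact (trl s t).reach_iff (u := u) (v := z)

theorem A3v_trl (s t : ℤ) {c : ℤ × ℤ} {d k : ℕ} {F : Set Edg} (h : A3v c d k F) :
    A3v (c.1 + s, c.2 + t) d k ((trl s t).φ '' F) := by
  obtain ⟨u, hu, ⟨w, hw, hw2⟩, x, hx, y, hy, hxy⟩ := h
  refine ⟨(u.1 + s, u.2 + t), bdB_trl s t hu, ⟨(w.1 + s, w.2 + t), bdB_trl s t hw,
    (clu_trl s t c d k F u w).2 hw2⟩, (x.1 + s, x.2 + t), bdB_trl s t hx, (y.1 + s, y.2 + t),
    bdB_trl s t hy, ?_⟩
  have h1 := (trl s t).reach hxy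
  refine Reach.mono ?_ h1
  rintro e' ⟨e, ⟨h2, h3, h4⟩, rfl⟩
  refine ⟨(AE_trl s t c d k e).2 h2, ?_, ?_⟩
  · rw [src_trl, clu_trl]; exact h3
  · rw [tgt_trl, clu_trl]; exact h4

theorem A3v_of_trl {v : Vtx} {d k : ℕ} {F : Finset Edg}
    (h : A3v (0, 0) d k (↑((trl (-v.1) (-v.2)).mp F) : Set Edg)) : A3v v d k (↑F : Set Edg) := by
  have h1 := A3v_trl v.1 v.2 h
  rw [← LSym.coe_mp] at h1
  have h2 := trl_trl (-v.1) (-v.2) F
  rw [neg_neg, neg_neg] at h2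
  rw [h2] at h1
  simpa using h1

/-! ### The event contains three arms -/

theorem cl_A3v {M B a m ρ ρ' : ℕ} {T : Finset (ℤ × ℤ)} {e : ℤ × ℤ} {F : Finset Edg}
    (ha : 24 ≤ a) (hm : 1 ≤ m) (hb : (cell m e).2 ≤ -(5 * (a * m) : ℤ) + m)
    (h1 : Cl1 M B a m ρ T e (↑F : Set Edg)) (h2 : Cl2 a m ρ' T F) {d j : ℕ} (hd : 2 ≤ d)
    (hdj : d ≤ j) (hj : j ≤ 2 * m) : A3v (0, 0) d j (↑F : Set Edg) := by
  obtain ⟨h3, x, hx, y, hy, hxy⟩ := h1
  obtain ⟨u, hu, hub, -⟩ := h2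
  have hU : 24 * m ≤ a * m := Nat.mul_le_mul_right _ ha
  have hU' : (24 * m : ℤ) ≤ (a * m : ℕ) := by exact_mod_cast hU
  have hdj' : (d : ℤ) ≤ j := by exact_mod_cast hdj
  have h00 : sd (0, 0) (0, 0) = 0 := by simp [sd]
  obtain ⟨w, w', a1, a2, a3, a4, a5⟩ := cross_ann (0, 0) hdj' (show Reach
    ((↑F : Set Edg) ∩ ↑(boxE (a * m))) (0, 0) u from hu) (by rw [h00]; omega)
    (by rw [mem_bdB.1 hub]; omega)
  have hsub : (↑F : Set Edg) ∩ AE (0, 0) d j ⊆ (↑F : Set Edg) ∩ ↑(boxE (a * m)) := by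
    rintro g ⟨g1, g2⟩
    refine ⟨g1, ?_⟩
    rw [mem_AE] at g2
    rw [Finset.mem_coe, mem_boxE]
    omega
  have hclu : ∀ z, z ∈ Clu (0, 0) d j (↑F : Set Edg) w → z ∈ cl (a * m) (↑F : Set Edg) := by
    intro z hz
    exact Reach.trans a4 (Reach.mono hsub hz)
  refine ⟨w, mem_bdB.2 a1, ⟨w', mem_bdB.2 a2, Reach.mono ?_ a3⟩, ?_⟩
  · rintro g ⟨g1, g2, g3⟩
    exact ⟨g1.1, mem_AE.2 ⟨g2, g3⟩⟩
  have hyd : (j : ℤ) ≤ sd y (0, 0) := by
    rw [sd_le] at hy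
    rw [le_sd]
    simp only
    push_cast at hU'
    omega
  obtain ⟨p, p', b1, b2, b3, -, -⟩ := cross_ann (0, 0) hdj' hxy
    (by rw [mem_bdB.1 hx]; exact_mod_cast hd) hyd
  refine ⟨p, mem_bdB.2 b1, p', mem_bdB.2 b2, Reach.mono ?_ b3⟩
  rintro g ⟨g1, g2, g3⟩
  have key : ∀ z, (z = src g ∨ z = tgt g) → z ∉ Clu (0, 0) d j (↑F : Set Edg) w := by
    intro z hz hzc
    have hz2 := hclu z hzc
    rcases g1 z hz with ⟨-, h4⟩ | ⟨q, hq, h4⟩
    · have h5 := h4 z hz2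
      unfold Pool.Agent.Y989.FR.Awy at h5
      have h6 : sd z z = 0 := by simp [sd]
      rw [h6, mul_zero] at h5
      exact absurd h5 (not_lt.2 (pow_nonneg (sd_nonneg _ _) _))
    · have h5 := h3 z hz2 q hq
      have : (1 : ℤ) ≤ m := by exact_mod_cast hm
      omega
  exact ⟨mem_AE.2 ⟨g2, g3⟩, key _ (Or.inl rfl), key _ (Or.inr rfl)⟩

theorem ClA_A3v {M B L a m : ℕ} {T : Finset (ℤ × ℤ)} {e : ℤ × ℤ} {v : Vtx} {F : Finset Edg}
    (ha : 24 ≤ a) (hm : 1 ≤ m) (hA : Adm a m (a * m / (2 * L ^ 2)) T e)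
    (h : ClA M B L a m T e v F) {d j : ℕ} (hd : 2 ≤ d) (hdj : d ≤ j) (hj : j ≤ 2 * m) :
    A3v v d j (↑F : Set Edg) :=
  A3v_of_trl (cl_A3v ha hm hA.bot h.1.1 h.1.2 hd hdj hj)

/-! ### Two points -/

theorem tw_loc {c : ℤ × ℤ} {d k : ℕ} {G G' : Set Edg} (h : G ∩ AE c d k = G' ∩ AE c d k) :
    A3v c d k G ↔ A3v c d k G' := by
  have h1 : ∀ u, Clu c d k G u = Clu c d k G' u := by
    intro u
    unfold Pool.Agent.Y989.FR.Clu
    rw [h]
  unfold Pool.Agent.Y989.FR.A3v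
  simp only [h1]

theorem tw_locF {c : ℤ × ℤ} {d k : ℕ} {T : Finset Edg} (hT : blk c k \ blk c d ⊆ T)
    (F : Finset Edg) :
    A3v c d k (↑F : Set Edg) ↔ A3v c d k (↑(F ∩ T) : Set Edg) := by
  apply tw_loc
  unfold Pool.Agent.Y989.FR.AE
  rw [Finset.coe_inter, Set.inter_assoc]
  congr 1
  symm
  exact Set.inter_eq_right.2 (Finset.coe_subset.2 hT)

theorem tw_disj {v w : ℤ × ℤ} {k r : ℕ} (hk : 2 * k < r) (h : sd v w = r) :
    Disjoint (blk v k) (blk w k) := by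
  rw [Finset.disjoint_left]
  intro e h1 h2
  rw [mem_blk] at h1 h2
  have h3 := sd_tri v (src e) w
  rw [sd_comm v (src e)] at h3
  omega

theorem tw_num {r n x : ℝ} (hr : 0 < r) (hn : 0 < n) (hx0 : 0 ≤ x) (hx : x ≤ 1000 / (r * n)) :
    x ^ (2 / 3 : ℝ) ≤ 1000 * (r ^ (-(2 / 3) : ℝ) * n ^ (-(2 / 3) : ℝ)) := by
  have h1 : x ^ (2 / 3 : ℝ) ≤ (1000 / (r * n)) ^ (2 / 3 : ℝ) :=
    Real.rpow_le_rpow hx0 hx (by norm_num)
  refine h1.trans ?_
  have h2 : (1000 / (r * n)) ^ (2 / 3 : ℝ) =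
      (1000 : ℝ) ^ (2 / 3 : ℝ) * (r ^ (-(2 / 3) : ℝ) * n ^ (-(2 / 3) : ℝ)) := by
    rw [Real.div_rpow (by norm_num) (by positivity), Real.mul_rpow hr.le hn.le,
      Real.rpow_neg hr.le, Real.rpow_neg hn.le]
    field_simp
  rw [h2]
  have h3 : (1000 : ℝ) ^ (2 / 3 : ℝ) ≤ 1000 := by
    calc (1000 : ℝ) ^ (2 / 3 : ℝ) ≤ (1000 : ℝ) ^ (1 : ℝ) :=
          Real.rpow_le_rpow_of_exponent_le (by norm_num) (by norm_num)
      _ = 1000 := Real.rpow_one _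
  have h4 : 0 ≤ r ^ (-(2 / 3) : ℝ) * n ^ (-(2 / 3) : ℝ) := by positivity
  exact mul_le_mul_of_nonneg_right h3 h4

theorem okt : Ok (fun _ : Edg => (1 / 2 : ℝ)) := fun _ => ⟨by norm_num, by norm_num⟩

theorem t_TW (hU3 : Pool.Agent.Y989.FR.S_U3) : S_TW := by
  obtain ⟨C, hC, hU⟩ := hU3
  intro M B L a hL ha hdiv
  refine ⟨1000 * (1 + C) ^ 3, 1, by positivity, ?_⟩
  intro m hm T e hA S hS v hv w hw
  have hv' := mem_ctr.1 hv
  have hw' := mem_ctr.1 hw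
  have hU0 : 24 * m ≤ a * m := Nat.mul_le_mul_right _ ha
  have hU' : (24 * m : ℤ) ≤ (a * m : ℕ) := by exact_mod_cast hU0
  have hblk : ∀ v, sd v (v0 a m) ≤ ((m / 2 : ℕ) : ℤ) → ∀ k : ℕ, k ≤ 2 * m → blk v k ⊆ S := by
    intro v hv k hk g hg
    apply hS
    unfold TG
    rw [Finset.mem_union]
    left
    rw [mem_blk] at hg ⊢
    have h1 := sd_tri (src g) v (v0 a m)
    have h2 := sd_tri (tgt g) v (v0 a m)
    push_cast at hv hU' ⊢
    omega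
  obtain ⟨r, hr⟩ : ∃ r : ℕ, sd v w = (r : ℤ) := ⟨(sd v w).toNat, (Int.toNat_of_nonneg (sd_nonneg _ _)).symm⟩
  have hrm : r ≤ m := by
    have h1 := sd_tri v (v0 a m) w
    rw [sd_comm (v0 a m) w] at h1
    omega
  have hm0 : (0 : ℝ) < m := by exact_mod_cast hm
  set R : ℝ := ((max (sd v w) 1 : ℤ) : ℝ) with hR
  have hR1 : (1 : ℝ) ≤ R := by
    rw [hR]
    exact_mod_cast le_max_right _ _
  have hR0 : (0 : ℝ) < R := by linarith
  have hC1 : C ≤ (1 + C) ^ 3 := by nlinarith [mul_pos hC hC, mul_pos (mul_pos hC hC) hC]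
  have hC3 : C ^ 3 ≤ (1 + C) ^ 3 := by
    apply pow_le_pow_left₀ hC.le
    linarith
  rw [mul_assoc]
  have hev : ∀ v' F, ClA M B L a m T e v' F → ∀ d j : ℕ, 2 ≤ d → d ≤ j → j ≤ 2 * m →
      A3v v' d j (↑F : Set Edg) := fun v' F hF d j h1 h2 h3 => ClA_A3v ha hm hA hF h1 h2 h3
  by_cases hr16 : r ≤ 16
  · -- one event
    have h1 := hU v 2 (2 * m) (by omega) (by omega) S (hblk v hv' _ le_rfl)
    have h2 : PQ (1 / 2) S (fun F => ClA M B L a m T e v F ∧ ClA M B L a m T e w F) ≤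
        PQ (1 / 2) S (fun F => A3v v 2 (2 * m) (↑F : Set Edg)) := by
      apply Pr_mono okt
      rintro F _ ⟨hF, -⟩
      exact hev v F hF 2 (2 * m) le_rfl (by omega) le_rfl
    have hR16 : R ≤ 16 := by
      rw [hR]
      have : max (sd v w) 1 ≤ 16 := by
        rw [hr]
        omega
      exact_mod_cast this
    have h3 := tw_num (x := ((2 : ℕ) : ℝ) / ((2 * m : ℕ) : ℝ)) hR0 hm0 (by positivity) (by
      push_cast
      rw [div_le_div_iff₀ (by positivity) (by positivity)]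
      have h5 : R * m ≤ 16 * m := by gcongr
      nlinarith)
    refine (h2.trans h1).trans ?_
    calc C * (((2 : ℕ) : ℝ) / ((2 * m : ℕ) : ℝ)) ^ (2 / 3 : ℝ)
        ≤ (1 + C) ^ 3 * (1000 * (R ^ (-(2 / 3) : ℝ) * (m : ℝ) ^ (-(2 / 3) : ℝ))) := by
          apply mul_le_mul hC1 h3 (by positivity) (by positivity)
      _ = _ := by ring
  · have hRr : R = r := by
      rw [hR, hr]
      have : max (r : ℤ) 1 = r := by omega
      rw [this]
      norm_num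
    have hr0 : (0 : ℝ) < r := by exact_mod_cast (by omega : 0 < r)
    obtain ⟨j, hj⟩ : ∃ j : ℕ, j = r / 3 := ⟨_, rfl⟩
    have hj2 : 2 ≤ j := by omega
    have hjr : 2 * j < r := by omega
    have hj0 : (0 : ℝ) < j := by exact_mod_cast (by omega : 0 < j)
    have hs1 : blk v j ⊆ S := hblk v hv' j (by omega)
    have hs2 : blk w j ⊆ S := hblk w hw' j (by omega)
    have hd12 : Disjoint (blk v j) (blk w j) := tw_disj hjr hr
    have h1 := hU v 2 j (by omega) hj2 S hs1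
    have h1' := hU w 2 j (by omega) hj2 S hs2
    have hA1 : ∀ F, F ⊆ S → (A3v v 2 j (↑F : Set Edg) ↔
        A3v v 2 j (↑(F ∩ blk v j) : Set Edg)) := fun F _ => tw_locF Finset.sdiff_subset F
    have hA2 : ∀ F, F ⊆ S → (A3v w 2 j (↑F : Set Edg) ↔
        A3v w 2 j (↑(F ∩ blk w j) : Set Edg)) := fun F _ => tw_locF Finset.sdiff_subset F
    -- three events
    have hs3 : blk v (2 * m) ⊆ S := hblk v hv' _ le_rfl
    have h3 := hU v (2 * r) (2 * m) (by omega) (by omega) S hs3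
    have hT3 : blk v (2 * m) \ blk v (2 * r) ⊆ S := Finset.sdiff_subset.trans hs3
    have sub1 : blk v j ⊆ blk v (2 * r) := blk_mono (by omega)
    have sub2 : blk w j ⊆ blk v (2 * r) := by
      intro g hg
      rw [mem_blk] at hg ⊢
      have h1 := sd_tri (src g) w v
      have h2 := sd_tri (tgt g) w v
      rw [sd_comm w v] at h1 h2
      push_cast
      omega
    have hd13 : Disjoint (blk v j) (blk v (2 * m) \ blk v (2 * r)) :=
      Finset.disjoint_of_subset_left sub1 Finset.disjoint_sdiff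
    have hd23 : Disjoint (blk w j) (blk v (2 * m) \ blk v (2 * r)) :=
      Finset.disjoint_of_subset_left sub2 Finset.disjoint_sdiff
    have hA3 : ∀ F, F ⊆ S → (A3v v (2 * r) (2 * m) (↑F : Set Edg) ↔
        A3v v (2 * r) (2 * m) (↑(F ∩ (blk v (2 * m) \ blk v (2 * r))) : Set Edg)) := fun F _ =>
      tw_locF (Finset.Subset.refl _) F
    have i2 := Pr_indep (p := fun _ => (1 / 2 : ℝ)) hs2 hT3 hd23
      (A := fun F => A3v w 2 j (↑F : Set Edg)) (B := fun F => A3v v (2 * r) (2 * m) (↑F : Set Edg))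
      hA2 hA3
    have hA23 : ∀ F, F ⊆ S →
        ((A3v w 2 j (↑F : Set Edg) ∧ A3v v (2 * r) (2 * m) (↑F : Set Edg)) ↔
        (A3v w 2 j (↑(F ∩ (blk w j ∪ (blk v (2 * m) \ blk v (2 * r)))) : Set Edg) ∧
          A3v v (2 * r) (2 * m)
            (↑(F ∩ (blk w j ∪ (blk v (2 * m) \ blk v (2 * r)))) : Set Edg))) := by
      intro F _
      exact and_congr
        (tw_locF (Finset.sdiff_subset.trans Finset.subset_union_left) F)
        (tw_locF Finset.subset_union_right F)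
    have i1 := Pr_indep (p := fun _ => (1 / 2 : ℝ)) hs1 (Finset.union_subset hs2 hT3)
      (Finset.disjoint_union_right.2 ⟨hd12, hd13⟩)
      (A := fun F => A3v v 2 j (↑F : Set Edg))
      (B := fun F => A3v w 2 j (↑F : Set Edg) ∧ A3v v (2 * r) (2 * m) (↑F : Set Edg))
      hA1 hA23
    have h2 : PQ (1 / 2) S (fun F => ClA M B L a m T e v F ∧ ClA M B L a m T e w F) ≤
        Pr (fun _ => (1 / 2 : ℝ)) S (fun F => A3v v 2 j (↑F : Set Edg) ∧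
          (A3v w 2 j (↑F : Set Edg) ∧ A3v v (2 * r) (2 * m) (↑F : Set Edg))) := by
      apply Pr_mono okt
      rintro F _ ⟨hF, hF'⟩
      exact ⟨hev v F hF 2 j le_rfl hj2 (by omega), hev w F hF' 2 j le_rfl hj2 (by omega),
        hev v F hF (2 * r) (2 * m) (by omega) (by omega) le_rfl⟩
    rw [i1, i2] at h2
    have hq0 : 0 ≤ (((2 * r : ℕ) : ℝ) / ((2 * m : ℕ) : ℝ)) ^ (2 / 3 : ℝ) := by positivity
    have hjr5 : (r : ℝ) ≤ 5 * j := by
      have : r ≤ 5 * j := by omega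
      exact_mod_cast this
    have h4 := tw_num (x := (((2 : ℕ) : ℝ) / j) * ((((2 : ℕ) : ℝ) / j) *
      (((2 * r : ℕ) : ℝ) / ((2 * m : ℕ) : ℝ)))) hr0 hm0 (by positivity) (by
        push_cast
        have e1 : (2 : ℝ) / j ≤ 10 / r := by
          rw [div_le_div_iff₀ hj0 hr0]; linarith
        have e2 : (2 * (r : ℝ)) / (2 * m) = r / m := by
          rw [mul_div_mul_left _ _ (by norm_num)]
        rw [e2]
        have e3 : (2 : ℝ) / j * (2 / j * (r / m)) ≤ 10 / r * (10 / r * (r / m)) := by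
          gcongr
        refine e3.trans ?_
        have e4 : (10 : ℝ) / r * (10 / r * (r / m)) = 100 / (r * m) := by
          field_simp
          norm_num
        rw [e4]
        gcongr
        norm_num)
    rw [Real.mul_rpow (by positivity) (by positivity),
      Real.mul_rpow (by positivity) (by positivity)] at h4
    refine h2.trans ?_
    have h5 : Pr (fun _ => (1 / 2 : ℝ)) S (fun F => A3v v 2 j (↑F : Set Edg)) *
        (Pr (fun _ => (1 / 2 : ℝ)) S (fun F => A3v w 2 j (↑F : Set Edg)) *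
        Pr (fun _ => (1 / 2 : ℝ)) S (fun F => A3v v (2 * r) (2 * m) (↑F : Set Edg))) ≤
        (C * (((2 : ℕ) : ℝ) / j) ^ (2 / 3 : ℝ)) * ((C * (((2 : ℕ) : ℝ) / j) ^ (2 / 3 : ℝ)) *
        (C * (((2 * r : ℕ) : ℝ) / ((2 * m : ℕ) : ℝ)) ^ (2 / 3 : ℝ))) := by
      refine mul_le_mul h1 (mul_le_mul h1' h3 (Pr_nonneg okt _ _) (by positivity))
        (mul_nonneg (Pr_nonneg okt _ _) (Pr_nonneg okt _ _)) (by positivity)
    refine h5.trans ?_
    rw [hRr]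
    calc (C * (((2 : ℕ) : ℝ) / j) ^ (2 / 3 : ℝ)) * ((C * (((2 : ℕ) : ℝ) / j) ^ (2 / 3 : ℝ)) *
        (C * (((2 * r : ℕ) : ℝ) / ((2 * m : ℕ) : ℝ)) ^ (2 / 3 : ℝ)))
        = C ^ 3 * ((((2 : ℕ) : ℝ) / j) ^ (2 / 3 : ℝ) * ((((2 : ℕ) : ℝ) / j) ^ (2 / 3 : ℝ) *
          (((2 * r : ℕ) : ℝ) / ((2 * m : ℕ) : ℝ)) ^ (2 / 3 : ℝ))) := by ring
      _ ≤ (1 + C) ^ 3 * (1000 * ((r : ℝ) ^ (-(2 / 3) : ℝ) * (m : ℝ) ^ (-(2 / 3) : ℝ))) := by
        apply mul_le_mul hC3 h4 (by positivity) (by positivity)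
      _ = _ := by ring

end Run7.h561
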