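import Pool.Agent.Run7.h561.TP.P_VFA
import Pool.Agent.Run7.h561.TP.P_PBX
import Pool.Agent.Run7.h561.TP.P_TW
import Pool.Agent.Run7.h561.TP.P_SM
import Pool.Agent.Run7.h561.TP.P_CZ
import Pool.Agent.Run7.h561.TP.P_GCON
import Pool.Agent.Run7.h561.TP.P_GPTH

/-! # Piece GAD: the gadget exists (assembly) -/

set_option autoImplicit false

namespace Run7.h561

open H974 H12S Finset H984P H984N

theorem mem_VG {M B L a m : ℕ} {T : Finset (ℤ × ℤ)} {e : ℤ × ℤ} {F : Finset Edg} {v : Vtx} :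
    v ∈ VG M B L a m T e F ↔ v ∈ ctr (v0 a m) (m / 2) ∧ ClA M B L a m T e v F := by
  unfold VG
  simp only [Finset.mem_filter]

/-- **GAD** -/
theorem t_GAD (one : S_ONE) (vfa : S_VFA) (tw : S_TW) (sm : S_SM) (gloc : S_GLOC)
    (gcon : S_GCON) (gpth : S_GPTH) : S_GAD := by
  intro t ht0 ht1
  obtain ⟨M, B, L, a0, hM, hB, hL, one⟩ := one
  have hL2 : 0 < L ^ 2 := by positivity
  refine ⟨M, B, max a0 100, 2 * L ^ 2, hM, hB, by omega, ?_⟩
  intro a ha hd hev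
  have ha0 : a0 ≤ a := le_trans (le_max_left _ _) ha
  have ha1 : 100 ≤ a := le_trans (le_max_right _ _) ha
  obtain ⟨c, m0, hc, one⟩ := one a ha0 hd
  obtain ⟨c', m1, hc', vfa⟩ := vfa M B L a c hL (by omega) hd hc
  obtain ⟨C, m2, hC, tw⟩ := tw M B L a hL (by omega) hd
  obtain ⟨c0, E0, p, m3, hc0, hE0, hp, sm⟩ := sm t M B L a c' C ht0 ht1 hc' hC
  refine ⟨p, c0, E0, m0 + m1 + m2 + m3 + 4, hp, hc0, hE0, ?_⟩
  intro m hm
  obtain ⟨T, e, hAdm, one⟩ := one m (by omega)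
  obtain ⟨g1, g2, g3⟩ := gloc t M B L a m c0 E0 T e (by omega) (by omega) (by omega) hAdm
  refine ⟨GE t M B L a m T e c0 E0, ⟨⟨g1, g2, g3, ?_⟩, ?_⟩⟩
  · intro S hS
    exact sm m (by omega) T e S (vfa m (by omega) T e hAdm one S hS)
      (fun v hv w hw => tw m (by omega) T e hAdm S hS v hv w hw)
  · rintro F u ⟨h1, h2, h3, h4⟩ hx hy
    refine ⟨VG M B L a m T e F, ?_, h3, h4, ?_⟩
    · intro v hv
      have h5 := mem_ctr.1 (mem_VG.1 hv).1
      rw [mem_ctr]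
      omega
    · intro v hv
      obtain ⟨h5, h6⟩ := mem_VG.1 hv
      have h7 := gcon M B L a m T e F u hL ha1 hev hd (by omega) hAdm h1 hx hy v h5 h6
      exact gpth M B L a m T e F u hL ha1 hev hd (by omega) hM hB hAdm h2 hy v h5 h6 h7

/-- The gadget exists, given the one-point lower bound and the three-arm bound. -/
theorem t_GAD' (one : S_ONE) (u3 : Pool.Agent.Y989.FR.S_U3) : S_GAD :=
  t_GAD one (t_VFA t_MIX t_PBX) (t_TW u3) t_SM t_GLOC (t_GCON t_CZ) t_GPTH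

end Run7.h561
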