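import Pool.Agent.Run7.h561.TP.P_TIP2

/-! # TIP, part 3: one scale -/

set_option autoImplicit false

namespace Run7.h561.TIP

open H974 H12S Finset H984P H984N Run7.h561 Run7.h561.FB

/-- The windows of size `m`. -/
noncomputable def Iw (a m n d : ℕ) : Finset ℕ :=
  (range (n / (64 * (a * m)) + 1)).filter
    (fun i => d ≤ 64 * (a * m) * i ∧ 64 * (a * m) * i + d ≤ n)

theorem mem_Iw {a m n d i : ℕ} (h : i ∈ Iw a m n d) :
    d ≤ 64 * (a * m) * i ∧ 64 * (a * m) * i + d ≤ n := (Finset.mem_filter.1 h).2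

theorem Iw_card (a m n d : ℕ) : ((Iw a m n d).card : ℝ) ≤ (n : ℝ) / (64 * ((a : ℝ) * m)) + 1 := by
  have h1 : (Iw a m n d).card ≤ n / (64 * (a * m)) + 1 := by
    unfold Iw
    refine (Finset.card_filter_le _ _).trans ?_
    rw [Finset.card_range]
  have h2 : ((n / (64 * (a * m)) : ℕ) : ℝ) ≤ (n : ℝ) / ((64 * (a * m) : ℕ) : ℝ) := Nat.cast_div_le
  have h3 : ((Iw a m n d).card : ℝ) ≤ ((n / (64 * (a * m)) + 1 : ℕ) : ℝ) := by exact_mod_cast h1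
  push_cast at h2 h3
  linarith

theorem blk_box {x0 h : ℤ} {d n : ℕ} (h1 : (d : ℤ) ≤ x0) (h2 : x0 + d ≤ n) (h3 : (d : ℤ) ≤ h)
    (h4 : h + d ≤ n) : blk (x0, h) d ⊆ RE 0 n 0 n := by
  intro e he
  rw [mem_blk, sd_le, sd_le] at he
  rw [mem_RE]
  unfold inR
  simp only at he
  omega

theorem near_line {Cc sc : ℝ} (hcrs : ∀ (c1 c2 : ℤ) (k K : ℕ) (S : Finset Edg), 1 ≤ k →
      k ≤ K → PQ (1 / 2) S (fun F => Crs c1 c2 k K (↑F : Set Edg)) ≤ Cc * ((k : ℝ) / K) ^ sc)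
    {x0 h : ℤ} {b w : ℕ} (S : Finset Edg) (hb : 1 ≤ b) (hbw : b ≤ w) :
    PQ (1 / 2) S (fun F => ∃ z : Vtx, |z.2 - h| ≤ b ∧ TipE x0 w (↑F : Set Edg) z) ≤
      Cc * ((b : ℝ) / w) ^ sc := by
  refine le_trans (Pr_mono okh fun F _ h1 => ?_) (hcrs x0 h b w S hb hbw)
  obtain ⟨z, z1, z2, -, y, y1, y2⟩ := h1
  refine crs_iff.2 ⟨z, y, ?_, ?_, y1⟩
  · rw [abs_le] at z1
    rw [sd_le]; simp only; omega
  · exact far_iff.1 (Fr_far (x0 := x0) (h := h) (w := w) le_rfl y y2)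

theorem one_scale (dec : S_DEC) {a Λ m n w b d : ℕ} {x0 : ℤ} {P : ℕ → Prop}
    {G : ℕ → Finset Edg → Prop} {Cp s Cc sc CF : ℝ}
    (ha : 24 ≤ a) (hev : Even a) (hΛ : 16 ≤ Λ) (hm : 1 ≤ m)
    (hb : 4 * d ≤ b) (hbw : b ≤ w) (hbig : 1000 * (Λ * (a * m)) ≤ d)
    (hx1 : (w : ℤ) ≤ x0) (hx2 : x0 ≤ n - w) (hCp : 0 < Cp)
    (hcrs : ∀ (c1 c2 : ℤ) (k K : ℕ) (S : Finset Edg), 1 ≤ k →
      k ≤ K → PQ (1 / 2) S (fun F => Crs c1 c2 k K (↑F : Set Edg)) ≤ Cc * ((k : ℝ) / K) ^ sc)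
    (hpn : ∀ (a Λ m : ℕ) (c : ℤ × ℤ) (S : Finset Edg)
      (Far : Set Vtx), 24 ≤ a → 16 ≤ Λ → 1 ≤ m → blk c (192 * (Λ * (a * m))) ⊆ S →
      PQ (1 / 2) S (fun F => ∃ u, XO c (512 * (a * m)) Far (↑F : Set Edg) u ∧
        Crs c.1 c.2 (512 * (a * m)) (64 * (Λ * (a * m)))
          (↑(F \ KX c (512 * (a * m)) S u F) : Set Edg)) ≤
          Cp * (Λ : ℝ) ^ (-s) * fX S c (512 * (a * m)) Far ∧
      PQ (1 / 2) S (fun F =>
        (∃ j ∈ Finset.Icc 17 (4 * Λ + 1),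
          NLn c.1 (c.2 - 16 * (a * m * (j : ℕ))) (16 * (a * m)) (16 * m) (↑F : Set Edg)) ∧
        ∃ u, XO c (192 * (Λ * (a * m))) Far (↑F : Set Edg) u) ≤
          Cp * ((Λ : ℝ) / a) * fX S c (192 * (Λ * (a * m))) Far)
    (hfb : ∀ (c : ℤ × ℤ) (ρ w : ℕ) (S : Finset Edg) (Far : Set Vtx),
      1 ≤ ρ → 3 * ρ ≤ w → blk c w ⊆ S → (∀ y ∈ Far, BSfar c w y) →
      fX S c ρ Far ≤ CF * ((ρ : ℝ) / w)) :
    PQ (1 / 2) (RE 0 n 0 n) (fun F => ∃ z : Vtx, (0 ≤ z.2 ∧ z.2 ≤ n) ∧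
      TipE x0 w (↑F : Set Edg) z ∧ ∀ m', P m' → ¬ GoodAt a m' x0 (G m') F z) ≤
    2 * (Cc * ((b : ℝ) / w) ^ sc) +
    ((n : ℝ) / (64 * ((a : ℝ) * m)) + 1) *
      (Cp * (Λ : ℝ) ^ (-s) * (CF * ((512 * (a * m) : ℕ) / d)) +
        Cp * ((Λ : ℝ) / a) * (CF * ((192 * (Λ * (a * m)) : ℕ) / d))) +
    ∑ i ∈ Iw a m n d, PQ (1 / 2) (RE 0 n 0 n) (fun F => ∃ u,
      AE a Λ P x0 w G m ((64 * (a * m) * i : ℕ) : ℤ) u F ∧
      I4 a m Λ (x0, ((64 * (a * m) * i : ℕ) : ℤ)) (RE 0 n 0 n) u F) := by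
  have hUm : 24 * m ≤ a * m := Nat.mul_le_mul_right _ ha
  have hLU : 16 * (a * m) ≤ Λ * (a * m) := Nat.mul_le_mul_right _ hΛ
  set S : Finset Edg := RE 0 n 0 n with hS
  set U : ℕ := a * m with hU
  -- the bad event
  have e1 : PQ (1 / 2) S (fun F => ∃ z : Vtx, (0 ≤ z.2 ∧ z.2 ≤ n) ∧
      TipE x0 w (↑F : Set Edg) z ∧ ∀ m', P m' → ¬ GoodAt a m' x0 (G m') F z) ≤
      (PQ (1 / 2) S (fun F => ∃ z : Vtx, |z.2 - 0| ≤ b ∧ TipE x0 w (↑F : Set Edg) z) +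
      PQ (1 / 2) S (fun F => ∃ z : Vtx, |z.2 - n| ≤ b ∧ TipE x0 w (↑F : Set Edg) z)) +
      PQ (1 / 2) S (fun F => ∃ i, i ∈ Iw a m n d ∧
        ((∃ u, AE a Λ P x0 w G m ((64 * U * i : ℕ) : ℤ) u F ∧
          I4 a m Λ (x0, ((64 * U * i : ℕ) : ℤ)) S u F) ∨
        (∃ u, XO (x0, ((64 * U * i : ℕ) : ℤ)) (512 * U) (Fr x0 w) (↑F : Set Edg) u ∧
          Crs x0 ((64 * U * i : ℕ) : ℤ) (512 * U) (64 * (Λ * U))
            (↑(F \ KX (x0, ((64 * U * i : ℕ) : ℤ)) (512 * U) S u F) : Set Edg)) ∨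
        ((∃ j ∈ Finset.Icc 17 (4 * Λ + 1),
          NLn x0 (((64 * U * i : ℕ) : ℤ) - 16 * (a * m * (j : ℕ))) (16 * U) (16 * m) (↑F)) ∧
        ∃ u, XO (x0, ((64 * U * i : ℕ) : ℤ)) (192 * (Λ * U)) (Fr x0 w) (↑F) u))) := by
    refine le_trans ?_ (add_le_add_left (Pr_or_le okh S _ _) _)
    refine le_trans ?_ (Pr_or_le okh S _ _)
    refine Pr_mono okh fun F hFS h => ?_
    obtain ⟨z, ⟨z1, z2⟩, hz, hP⟩ := h
    by_cases h1 : z.2 ≤ b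
    · left; left
      exact ⟨z, by rw [abs_le]; omega, hz⟩
    by_cases h2 : (n : ℤ) - b ≤ z.2
    · left; right
      exact ⟨z, by rw [abs_le]; omega, hz⟩
    right
    push Not at h1 h2
    obtain ⟨q, hq⟩ := Int.eq_ofNat_of_zero_le z1
    have h64 : 0 < 64 * U := by omega
    have k1 := Nat.mul_div_le q (64 * U)
    have k2 := Nat.lt_mul_div_succ q h64
    rw [Nat.mul_add, Nat.mul_one] at k2
    refine ⟨q / (64 * U), ?_, ?_⟩
    · unfold Iw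
      rw [Finset.mem_filter, Finset.mem_range]
      have k3 : q / (64 * U) ≤ n / (64 * U) := Nat.div_le_div_right (by omega)
      set p : ℕ := 64 * U * (q / (64 * U)) with hp
      refine ⟨Nat.lt_succ_of_le k3, ?_, ?_⟩
      · omega
      · omega
    · refine bad_cases dec ha hev hΛ hm hFS (show 192 * (Λ * U) ≤ w by omega) hP hz ?_ ?_
      · set p : ℕ := 64 * U * (q / (64 * U)) with hp
        rw [hq]
        exact_mod_cast k1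
      · set p : ℕ := 64 * U * (q / (64 * U)) with hp
        have : (((a : ℤ)) * m) = (U : ℤ) := by rw [hU]; push_cast; ring
        rw [this]
        omega
  have e2 := near_line hcrs (x0 := x0) (h := 0) (b := b) (w := w) S (by omega) hbw
  have e3 := near_line hcrs (x0 := x0) (h := n) (b := b) (w := w) S (by omega) hbw
  have e4 := pr_ex_le S (Iw a m n d) (fun i F => i ∈ Iw a m n d ∧
        ((∃ u, AE a Λ P x0 w G m ((64 * U * i : ℕ) : ℤ) u F ∧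
          I4 a m Λ (x0, ((64 * U * i : ℕ) : ℤ)) S u F) ∨
        (∃ u, XO (x0, ((64 * U * i : ℕ) : ℤ)) (512 * U) (Fr x0 w) (↑F : Set Edg) u ∧
          Crs x0 ((64 * U * i : ℕ) : ℤ) (512 * U) (64 * (Λ * U))
            (↑(F \ KX (x0, ((64 * U * i : ℕ) : ℤ)) (512 * U) S u F) : Set Edg)) ∨
        ((∃ j ∈ Finset.Icc 17 (4 * Λ + 1),
          NLn x0 (((64 * U * i : ℕ) : ℤ) - 16 * (a * m * (j : ℕ))) (16 * U) (16 * m) (↑F)) ∧
        ∃ u, XO (x0, ((64 * U * i : ℕ) : ℤ)) (192 * (Λ * U)) (Fr x0 w) (↑F) u)))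
    (fun i F h => h.1)
  set D : ℝ := Cp * (Λ : ℝ) ^ (-s) * (CF * ((512 * U : ℕ) / d)) +
        Cp * ((Λ : ℝ) / a) * (CF * ((192 * (Λ * U) : ℕ) / d)) with hD
  have e5 : ∀ i ∈ Iw a m n d, PQ (1 / 2) S (fun F => i ∈ Iw a m n d ∧
        ((∃ u, AE a Λ P x0 w G m ((64 * U * i : ℕ) : ℤ) u F ∧
          I4 a m Λ (x0, ((64 * U * i : ℕ) : ℤ)) S u F) ∨
        (∃ u, XO (x0, ((64 * U * i : ℕ) : ℤ)) (512 * U) (Fr x0 w) (↑F : Set Edg) u ∧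
          Crs x0 ((64 * U * i : ℕ) : ℤ) (512 * U) (64 * (Λ * U))
            (↑(F \ KX (x0, ((64 * U * i : ℕ) : ℤ)) (512 * U) S u F) : Set Edg)) ∨
        ((∃ j ∈ Finset.Icc 17 (4 * Λ + 1),
          NLn x0 (((64 * U * i : ℕ) : ℤ) - 16 * (a * m * (j : ℕ))) (16 * U) (16 * m) (↑F)) ∧
        ∃ u, XO (x0, ((64 * U * i : ℕ) : ℤ)) (192 * (Λ * U)) (Fr x0 w) (↑F) u))) ≤
      PQ (1 / 2) S (fun F => ∃ u, AE a Λ P x0 w G m ((64 * U * i : ℕ) : ℤ) u F ∧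
          I4 a m Λ (x0, ((64 * U * i : ℕ) : ℤ)) S u F) + D := by
    intro i hi
    obtain ⟨i1, i2⟩ := mem_Iw hi
    rw [← hU] at i1 i2
    have hdw : d ≤ w := by omega
    have hbx : blk (x0, ((64 * U * i : ℕ) : ℤ)) d ⊆ S := by
      set p : ℕ := 64 * U * i with hp
      exact blk_box (by omega) (by omega) (by exact_mod_cast i1) (by exact_mod_cast i2)
    obtain ⟨q1, q2⟩ := hpn a Λ m (x0, ((64 * U * i : ℕ) : ℤ)) S (Fr x0 w) ha hΛ hm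
      ((blk_mono (show 192 * (Λ * U) ≤ d by omega)).trans hbx)
    have q3 := hfb (x0, ((64 * U * i : ℕ) : ℤ)) (512 * U) d S (Fr x0 w) (by omega) (by omega) hbx
      (Fr_far hdw)
    have q4 := hfb (x0, ((64 * U * i : ℕ) : ℤ)) (192 * (Λ * U)) d S (Fr x0 w) (by omega)
      (by omega) hbx (Fr_far hdw)
    have hL0 : (0 : ℝ) ≤ Cp * (Λ : ℝ) ^ (-s) := by positivity
    have hL1 : (0 : ℝ) ≤ Cp * ((Λ : ℝ) / a) := by positivity
    refine (Pr_mono okh fun F _ h => h.2).trans ?_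
    refine (Pr_or_le okh S _ _).trans ?_
    refine add_le_add le_rfl ?_
    refine (Pr_or_le okh S _ _).trans ?_
    rw [hD]
    exact add_le_add (q1.trans (mul_le_mul_of_nonneg_left q3 hL0))
      (q2.trans (mul_le_mul_of_nonneg_left q4 hL1))
  have e6 := e4.trans (Finset.sum_le_sum e5)
  rw [Finset.sum_add_distrib, Finset.sum_const, nsmul_eq_mul] at e6
  have hD0 : 0 ≤ D := by
    have hCF : 0 ≤ CF := by
      by_contra hneg
      push Not at hneg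
      have h9 := hfb (0, 0) 1 3 (blk (0, 0) 3) ∅ le_rfl (by norm_num) (Finset.Subset.refl _)
        (by intro y hy; exact absurd hy (Set.notMem_empty y))
      have h10 := fX_nonneg (blk (0, 0) 3) (0, 0) 1 ∅
      have h11 : CF * (((1 : ℕ) : ℝ) / ((3 : ℕ) : ℝ)) < 0 := by
        apply mul_neg_of_neg_of_pos hneg; norm_num
      linarith
    rw [hD]; positivity
  have e7 := mul_le_mul_of_nonneg_right (Iw_card a m n d) hD0
  linarith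

end Run7.h561.TIP
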