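import Pool.Agent.Run7.h561.TP.P_CZ

/-! # Chains of open cells -/

set_option autoImplicit false

namespace Run7.h561

open H974 H12S Finset H984P H984N

/-- The cell `q` has a hub in the cluster of `u`. -/
def Gd (c : ℤ × ℤ) (m : ℕ) (F : Set Edg) (u : Vtx) (q : ℤ × ℤ) : Prop :=
  ∃ z, Cz (tr c (cell m q)) m F z ∧ z ∈ Cu F u

theorem Gd_step {c : ℤ × ℤ} {m : ℕ} {F : Set Edg} {u : Vtx} {q q' : ℤ × ℤ}
    (h : Gd c m F u q) (h' : ∃ z, Cz (tr c (cell m q')) m F z)
    (hq : (q'.1 = q.1 + 1 ∧ q'.2 = q.2) ∨ (q'.1 = q.1 - 1 ∧ q'.2 = q.2) ∨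
      (q'.1 = q.1 ∧ q'.2 = q.2 + 1) ∨ (q'.1 = q.1 ∧ q'.2 = q.2 - 1)) : Gd c m F u q' := by
  obtain ⟨z, h1, h2⟩ := h
  obtain ⟨z', h3⟩ := h'
  refine ⟨z', h3, Reach.trans h2 (cz_nbr h1 h3 ?_)⟩
  unfold tr cell
  rcases hq with ⟨e1, e2⟩ | ⟨e1, e2⟩ | ⟨e1, e2⟩ | ⟨e1, e2⟩
  · left; ext <;> simp only [e1, e2] <;> ring
  · right; left; ext <;> simp only [e1, e2] <;> ring
  · right; right; left; ext <;> simp only [e1, e2] <;> ring
  · right; right; right; ext <;> simp only [e1, e2] <;> ring

/-- Horizontal chain. -/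
theorem Gd_hor {c : ℤ × ℤ} {m : ℕ} {F : Set Edg} {u : Vtx} {i i' j : ℤ}
    (h : Gd c m F u (i, j))
    (hP : ∀ k, min i i' ≤ k → k ≤ max i i' → ∃ z, Cz (tr c (cell m (k, j))) m F z) :
    Gd c m F u (i', j) := by
  rcases le_total i i' with h1 | h1
  · have key : ∀ n : ℕ, i + n ≤ i' → Gd c m F u (i + n, j) := by
      intro n
      induction n with
      | zero => intro _; simpa using h
      | succ n ih =>
        intro hn
        push_cast at hn
        refine Gd_step (ih (by omega)) (hP _ ?_ ?_) (Or.inl ⟨?_, rfl⟩)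
        · rw [min_eq_left h1]; push_cast; omega
        · rw [max_eq_right h1]; push_cast; omega
        · push_cast; ring
    have := key (i' - i).toNat (by rw [Int.toNat_of_nonneg (by omega)]; omega)
    rwa [Int.toNat_of_nonneg (by omega), add_sub_cancel] at this
  · have key : ∀ n : ℕ, i' ≤ i - n → Gd c m F u (i - n, j) := by
      intro n
      induction n with
      | zero => intro _; simpa using h
      | succ n ih =>
        intro hn
        push_cast at hn
        refine Gd_step (ih (by omega)) (hP _ ?_ ?_) (Or.inr (Or.inl ⟨?_, rfl⟩))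
        · rw [min_eq_right h1]; push_cast; omega
        · rw [max_eq_left h1]; push_cast; omega
        · push_cast; ring
    have := key (i - i').toNat (by rw [Int.toNat_of_nonneg (by omega)]; omega)
    rwa [Int.toNat_of_nonneg (by omega), sub_sub_cancel] at this

/-- Vertical chain. -/
theorem Gd_ver {c : ℤ × ℤ} {m : ℕ} {F : Set Edg} {u : Vtx} {i j j' : ℤ}
    (h : Gd c m F u (i, j))
    (hP : ∀ k, min j j' ≤ k → k ≤ max j j' → ∃ z, Cz (tr c (cell m (i, k))) m F z) :
    Gd c m F u (i, j') := by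
  rcases le_total j j' with h1 | h1
  · have key : ∀ n : ℕ, j + n ≤ j' → Gd c m F u (i, j + n) := by
      intro n
      induction n with
      | zero => intro _; simpa using h
      | succ n ih =>
        intro hn
        push_cast at hn
        refine Gd_step (ih (by omega)) (hP _ ?_ ?_) (Or.inr (Or.inr (Or.inl ⟨rfl, ?_⟩)))
        · rw [min_eq_left h1]; push_cast; omega
        · rw [max_eq_right h1]; push_cast; omega
        · push_cast; ring
    have := key (j' - j).toNat (by rw [Int.toNat_of_nonneg (by omega)]; omega)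
    rwa [Int.toNat_of_nonneg (by omega), add_sub_cancel] at this
  · have key : ∀ n : ℕ, j' ≤ j - n → Gd c m F u (i, j - n) := by
      intro n
      induction n with
      | zero => intro _; simpa using h
      | succ n ih =>
        intro hn
        push_cast at hn
        refine Gd_step (ih (by omega)) (hP _ ?_ ?_) (Or.inr (Or.inr (Or.inr ⟨rfl, ?_⟩)))
        · rw [min_eq_right h1]; push_cast; omega
        · rw [max_eq_left h1]; push_cast; omega
        · push_cast; ring
    have := key (j - j').toNat (by rw [Int.toNat_of_nonneg (by omega)]; omega)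
    rwa [Int.toNat_of_nonneg (by omega), sub_sub_cancel] at this

/-- A path which meets the square of an open cell and goes far from it belongs to the cluster of the
hub. -/
theorem Gd_of_meet {c : ℤ × ℤ} {m : ℕ} {F : Set Edg} {u x y : Vtx} {q : ℤ × ℤ}
    (h : ∃ z, Cz (tr c (cell m q)) m F z) (hx : sd x (tr c (cell m q)) ≤ m)
    (hy : (3 * m : ℤ) ≤ sd y (tr c (cell m q))) (hxy : Reach F x y) (hu : x ∈ Cu F u) :
    Gd c m F u q := by
  obtain ⟨z, hz⟩ := h
  exact ⟨z, hz, Reach.trans hu (hz.hub x (mem_ctr.2 hx) y (far_iff.2 (by push_cast; exact hy)) hxy)⟩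

/-- The cell of an integer. -/
theorem cell_ex {m : ℕ} (hm : 1 ≤ m) (x : ℤ) : ∃ i : ℤ, -(m : ℤ) ≤ x - 2 * (m * i) ∧
    x - 2 * (m * i) ≤ m := by
  refine ⟨(x + m) / (2 * m), ?_⟩
  have h1 := Int.emod_add_mul_ediv (x + m) (2 * m)
  have h2 := Int.emod_nonneg (x + m) (show (2 * m : ℤ) ≠ 0 by omega)
  have h3 := Int.emod_lt_of_pos (x + m) (show (0 : ℤ) < 2 * m by omega)
  have e : (2 * m : ℤ) * ((x + m) / (2 * m)) = 2 * (m * ((x + m) / (2 * m))) := by ring
  rw [e] at h1
  omega

theorem lt_of_mul {m : ℕ} {i k : ℤ} (h : (m : ℤ) * i < m * k) : i < k :=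
  lt_of_mul_lt_mul_left h (by positivity)

end Run7.h561
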