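import Pool.Agent.Y989.FR.Stm
import Pool.Agent.H974R2.Count
import Pool.Agent.H12R2.Sep.Markov
import Pool.Agent.H12R2.Sep.WinHalf
import Pool.Agent.W801.AV.Stm2

/-!
# Project TP: the outer boundary of every macroscopic cluster has `n ^ (4/3)` vertices.  Definitions.

Conventions of the starting files: `Edg`, `Reach`, `RE`, `blk c k` (edges of the square of radius `k`
around `c`), `bdB c k` (its boundary vertices), `BSfar c k` (vertices at distance `≥ k` of `c`),
`Crs c.1 c.2 k K F` (an open path from the box of radius `k` to distance `K`), `BSU c k` (open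
circuit between radius `k` and `3 k`), `BSD c k` (no open crossing between radius `k` and `3 k`),
`ctr c k` (the vertices of the square of radius `k`), `sd` (sup distance), `PQ (1/2) S` (all subsets
of `S` equally likely), `cl m F` (cluster of `(0,0)` in `boxE m`), `Acc`, `TkA`, `Awy` (project FR).

Units.  `m` is the size of the cells, `a` a large even constant; `U = a m` is the unit of length.
Everything is relative to a centre `c` on the vertical line `x = c.1`, the slit is the part of the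
line below.
-/

set_option autoImplicit false

namespace Run7.h561

open H974 H12S Finset H984P H984N

/-- The cluster of `u`. -/
def Cu (F : Set Edg) (u : Vtx) : Set Vtx := {x | Reach F u x}

/-! ### Cells -/

/-- The vertex `z` lies on the circuit of the cell `q`: it is connected to all the crossings of the
annulus, to crossings of the annuli of the four neighbouring cells, and to the vertical line. -/
structure Cz (q : ℤ × ℤ) (k : ℕ) (F : Set Edg) (z : Vtx) : Prop where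
  hub : ∀ x ∈ ctr q k, ∀ y, BSfar q (3 * k) y → Reach F x y → Reach F x z
  nbr : ∀ q' : ℤ × ℤ, (q' = (q.1 + 2 * k, q.2) ∨ q' = (q.1 - 2 * k, q.2) ∨ q' = (q.1, q.2 + 2 * k) ∨
      q' = (q.1, q.2 - 2 * k)) →
    ∃ x ∈ ctr q' k, ∃ y, BSfar q' (3 * k) y ∧ Reach F x y ∧ Reach F x z
  line : ∃ s : ℤ, q.2 + k ≤ s ∧ s ≤ q.2 + 3 * k ∧ Reach F (q.1, s) z

/-! ### Near the line -/

/-- The cluster of `u` in the box of radius `8 k` around `(x0, h)` comes within `t` of the line at a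
height near `h`, reaches the boundary of the box and does not touch the line. -/
def NLn (x0 h : ℤ) (k t : ℕ) (F : Set Edg) : Prop :=
  ∃ u : Vtx, |u.1 - x0| ≤ t ∧ |u.2 - h| ≤ k ∧
    (∃ y ∈ bdB (x0, h) (8 * k), Reach (F ∩ ↑(blk (x0, h) (8 * k))) u y) ∧
    ∀ s : ℤ, |s - h| ≤ 8 * k → ¬ Reach (F ∩ ↑(blk (x0, h) (8 * k))) u (x0, s)

/-! ### The gadget -/

/-- Centre of the gadget. -/
def v0 (a m : ℕ) : Vtx := (-(128 * (a * m) : ℤ), -(128 * (a * m) : ℤ))

/-- The cell through which the gadget is connected. -/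
def q1 (a m : ℕ) : Vtx := (-(128 * (a * m) : ℤ), -(121 * (a * m) : ℤ))

/-- The end on the slit of the path out of the gadget. -/
def s0 (a m : ℕ) : Vtx := (0, -(136 * (a * m) : ℤ))

/-- The edges of the gadget. -/
noncomputable def TG (a m : ℕ) : Finset Edg :=
  blk (v0 a m) (9 * (a * m)) ∪
    RE (-(137 * (a * m) : ℤ)) (6 * m) (-(136 * (a * m) : ℤ) - 6 * m) (-(136 * (a * m) : ℤ) + 6 * m)

/-- Where the gadget is increasing. -/
noncomputable def TI (a m : ℕ) : Finset Edg :=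
  RE (-(128 * (a * m) : ℤ) - 3 * m) (-(128 * (a * m) : ℤ) + 3 * m) (-(121 * (a * m) : ℤ) - m) (1000 * (a * m))

/-- Where the gadget is decreasing. -/
noncomputable def TD (a m : ℕ) : Finset Edg :=
  RE (-(6 * m : ℤ)) (6 * m) (-(1000 * (a * m) : ℤ)) 0

/-- `x` keeps away from `c`, seen from `v`: polynomially near `v`, and by `m / 2` elsewhere. -/
def Cln (M B k m : ℕ) (v c x : Vtx) : Prop := Pool.Agent.Y989.FR.Awy M B k v c x ∨ (m : ℤ) ≤ 2 * sd x c

/-- The cluster `C` passes near `w`, and some path leads from distance `2` of `w` to the vertex `s`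
and keeps away from `C`. -/
def Open (M B k m : ℕ) (C : Set Vtx) (w s : Vtx) : Prop :=
  w ∈ C ∧ ∃ x ∈ bdB w 2, Reach {e | (∀ c ∈ C, Cln M B k m w c (src e)) ∧
    ∀ c ∈ C, Cln M B k m w c (tgt e)} x s

/-- Local events of the type of the gadget event, for the centre `(0, 0)`: they depend on the edges
`TG`, are increasing in the edges `TI` and decreasing in the edges `TD`. -/
structure GLc (a m : ℕ) (p : ℝ) (G : Finset Edg → Prop) : Prop where
  loc : ∀ F, G F ↔ G (F ∩ TG a m)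
  inc : ∀ F F', G F → F ⊆ F' → F' \ F ⊆ TI a m → G F'
  dec : ∀ F F', G F → F' ⊆ F → F \ F' ⊆ TD a m → G F'
  prob : ∀ S, TG a m ⊆ S → p ≤ PQ (1 / 2) S G

/-- The gadget event `G`, for the centre `(0, 0)`. -/
structure Gad (t : ℝ) (M B a m : ℕ) (p c0 E0 : ℝ) (G : Finset Edg → Prop) : Prop
    extends GLc a m p G where
  det : ∀ (F : Finset Edg) (u : Vtx), G F → (∃ x ∈ ctr (q1 a m) m, x ∈ Cu (↑F) u) →
    (∃ y, BSfar (0, 0) (200 * (a * m)) y ∧ y ∈ Cu (↑F) u) →
    ∃ V : Finset Vtx, V ⊆ ctr (v0 a m) m ∧ c0 * (m : ℝ) ^ (4 / 3 : ℝ) ≤ V.card ∧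
      ∑ v ∈ V, ∑ w ∈ V, ((max (sd v w) 1 : ℤ) : ℝ) ^ (-t) ≤ E0 * (m : ℝ) ^ (8 / 3 - t) ∧
      ∀ w ∈ V, Open M B (8 * (a * m)) m (Cu (↑F) u) w (s0 a m)

/-! ### The class of the thick path (for the vertex `(0, 0)`; `R = a m`) -/

/-- The cells of the thick path: the cell `q` is the square of radius `m` around `(2 m q.1, 2 m q.2)`. -/
def cell (m : ℕ) (q : ℤ × ℤ) : Vtx := (2 * (m * q.1), 2 * (m * q.2))

/-- The edges of the box of radius `R` with an end in the cluster of `(0, 0)` in this box. -/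
noncomputable def KV (R : ℕ) (F : Finset Edg) : Finset Edg := by
  classical exact (boxE R).filter (fun e => src e ∈ Pool.Agent.Y989.FR.cl R (↑F : Set Edg) ∨
    tgt e ∈ Pool.Agent.Y989.FR.cl R (↑F : Set Edg))

/-- Determined by the cluster `cl R F`: the cells `T` are away from the cluster, and a path which
keeps away from the cluster leads from distance `2` to the cell `e`, first in the box of radius `ρ`
or in the cells `T`. -/
def Cl1 (M B a m ρ : ℕ) (T : Finset (ℤ × ℤ)) (e : ℤ × ℤ) (F : Set Edg) : Prop :=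
  (∀ x ∈ Pool.Agent.Y989.FR.cl (a * m) F, ∀ q ∈ T, (40 * m : ℤ) ≤ sd x (cell m q)) ∧
  ∃ x ∈ bdB (0, 0) 2, ∃ y, sd y (cell m e) ≤ m ∧
    Reach {g | (∀ z, (z = src g ∨ z = tgt g) →
      ((sd z (0, 0) ≤ ρ ∧ ∀ c ∈ Pool.Agent.Y989.FR.cl (a * m) F,
        Pool.Agent.Y989.FR.Awy M B (8 * (a * m)) (0, 0) c z) ∨
      ∃ q ∈ T, sd z (cell m q) ≤ m))} x y

/-- The open arm outside of the box of radius `R`: it stays outside of the box of radius `ρ'` and
away from the cells `T`. -/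
def Cl2 (a m ρ' : ℕ) (T : Finset (ℤ × ℤ)) (F : Finset Edg) : Prop :=
  ∃ u ∈ Pool.Agent.Y989.FR.cl (a * m) (↑F : Set Edg), u ∈ bdB (0, 0) (a * m) ∧
    ∃ y ∈ bdB (0, 0) (5 * (a * m)), Reach {g | g ∈ F ∧ g ∉ KV (a * m) F ∧ g ∉ blk (0, 0) ρ' ∧
      g ∈ blk (0, 0) (5 * (a * m)) ∧
      ∀ z, (z = src g ∨ z = tgt g) → ∀ q ∈ T, (38 * m : ℤ) ≤ sd z (cell m q)} u y

/-- Admissible classes: the cells lie at distance between `ρ'` and `5 R` (roughly), `e` is a cell of
`T` at distance `5 R`, at the bottom. -/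
structure Adm (a m ρ : ℕ) (T : Finset (ℤ × ℤ)) (e : ℤ × ℤ) : Prop where
  mem : e ∈ T
  hi : ∀ q ∈ T, sd (cell m q) (0, 0) ≤ 5 * (a * m) + m
  lo : ∀ q ∈ T, (ρ : ℤ) ≤ 4 * sd (cell m q) (0, 0)
  bot : (cell m e).2 ≤ -(5 * (a * m) : ℤ) + m

/-! ### Windows at the tip -/

/-- The cluster of `u` outside of the block of radius `ρ`. -/
def Co (c : ℤ × ℤ) (ρ : ℕ) (F : Set Edg) (u : Vtx) : Set Vtx := Cu (F \ ↑(blk c ρ)) u

/-- The edges outside of the block of radius `ρ` with an end in the cluster `Co`. -/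
noncomputable def KX (c : ℤ × ℤ) (ρ : ℕ) (S : Finset Edg) (u : Vtx) (F : Finset Edg) :
    Finset Edg := by
  classical exact S.filter (fun e => e ∉ blk c ρ ∧ (src e ∈ Co c ρ (↑F) u ∨ tgt e ∈ Co c ρ (↑F) u))

/-- The explored edges: everything outside of the block of radius `ρ'`, and the edges outside of the
block of radius `ρ` with an end in the cluster `Co`. -/
noncomputable def KO (c : ℤ × ℤ) (ρ ρ' : ℕ) (S : Finset Edg) (u : Vtx) (F : Finset Edg) :
    Finset Edg := by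
  classical exact S.filter (fun e => e ∉ blk c ρ' ∨
    (e ∉ blk c ρ ∧ (src e ∈ Co c ρ (↑F) u ∨ tgt e ∈ Co c ρ (↑F) u)))

/-- Off the slit (of half width `16 m`). -/
def Off (m : ℕ) (c g : ℤ × ℤ) : Prop := ¬ (|g.1 - c.1| ≤ 16 * m ∧ g.2 ≤ c.2)

/-- The inward arm: an open path from the cluster `Co` (outside of the block of radius `512 a m`) to
the block of radius `256 a m`, of unexplored edges, off the slit. -/
def I4 (a m Λ : ℕ) (c : ℤ × ℤ) (S : Finset Edg) (u : Vtx) (F : Finset Edg) : Prop :=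
  ∃ x ∈ Co c (512 * (a * m)) (↑F) u, x ∈ bdB c (512 * (a * m)) ∧ ∃ y ∈ bdB c (256 * (a * m)),
    Reach {e | e ∈ F ∧ e ∉ KO c (512 * (a * m)) (192 * (Λ * (a * m))) S u F ∧ e ∈ blk c (64 * (Λ * (a * m))) ∧
      e ∉ blk c (256 * (a * m)) ∧ Off m c (src e) ∧ Off m c (tgt e)} x y

/-- The open cells: a ring with a gap at the slit, and a column which leads to the gadget. -/
noncomputable def OP (a m : ℕ) : Finset (ℤ × ℤ) := by
  classical exact ((Finset.Icc (-(224 * a : ℤ)) (224 * a) ×ˢ Finset.Icc (-(224 * a : ℤ)) (224 * a)).filter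
    (fun q => (160 * (a : ℤ) ≤ max |q.1| |q.2| ∧ ¬ (q.2 < 0 ∧ |q.1| < 6)) ∨
      (q.1 = -(64 * a : ℤ) ∧ -(121 * (a / 2 : ℕ) : ℤ) + 1 ≤ q.2))).image (cell m)

/-- The closed cells on the slit. -/
noncomputable def CP (a m Λ : ℕ) : Finset (ℤ × ℤ) :=
  (Finset.Icc (60 * a : ℤ) (96 * a * Λ)).image (fun j => ((0 : ℤ), -(2 * (m * j) : ℤ)))

/-- `u` is the first boundary vertex of its cluster. -/
def Rp (c : ℤ × ℤ) (ρ : ℕ) (F : Set Edg) (u : Vtx) : Prop :=
  ∀ u' ∈ bdB c ρ, u' ∈ Co c ρ F u → Encodable.encode u ≤ Encodable.encode u'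

/-- The cluster of `u` outside of the block reaches `Far` and does not touch the slit. -/
def XA (c : ℤ × ℤ) (ρ : ℕ) (Far : Set Vtx) (F : Set Edg) (u : Vtx) : Prop :=
  u ∈ bdB c ρ ∧ (∃ y ∈ Far, y ∈ Co c ρ F u) ∧ ∀ s : ℤ, s < c.2 → (c.1, s) ∉ Co c ρ F u

/-- Moreover `u` is the first boundary vertex of its cluster. -/
def XO (c : ℤ × ℤ) (ρ : ℕ) (Far : Set Vtx) (F : Set Edg) (u : Vtx) : Prop :=
  Rp c ρ F u ∧ XA c ρ Far F u

/-- Translation. -/
def tr (c q : ℤ × ℤ) : ℤ × ℤ := (c.1 + q.1, c.2 + q.2)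

/-- The painted window. -/
def Pnt (a m Λ : ℕ) (c : ℤ × ℤ) (S : Finset Edg) (u : Vtx) (G : Finset Edg → Prop) (F : Finset Edg) :
    Prop :=
  (∀ q ∈ OP a m, BSU (tr c q) m F) ∧
  ((∀ q ∈ CP a m Λ, BSD (tr c q) (2 * m) (F \ KO c (512 * (a * m)) (192 * (Λ * (a * m))) S u F)) ∧
    ¬ Crs c.1 c.2 (64 * (Λ * (a * m))) (192 * (Λ * (a * m)))
      (↑(F \ KO c (512 * (a * m)) (192 * (Λ * (a * m))) S u F) : Set Edg)) ∧
  G ((trl (-c.1) (-c.2)).mp F)

end Run7.h561
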