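import Pool.Agent.Run7.h561.TP.P_KXS

/-! # Piece DEC: decomposition of a cluster which comes near `c` and does not touch the slit -/

set_option autoImplicit false

namespace Run7.h561

open H974 H12S Finset H984P H984N

theorem Co_farD {c : ℤ × ℤ} {ρ : ℕ} {F : Set Edg} {u x : Vtx} (hu : (ρ : ℤ) ≤ sd u c)
    (hx : x ∈ Co c ρ F u) : (ρ : ℤ) ≤ sd x c := by
  refine reach_inv (P := fun x => (ρ : ℤ) ≤ sd x c) ?_ hx hu
  intro x y hx' hadj
  have h2 := adj_sd' hadj c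
  obtain ⟨e, ⟨he1, he2⟩, hcase⟩ := hadj
  rw [Finset.mem_coe, mem_blk] at he2
  rcases hcase with ⟨rfl, rfl⟩ | ⟨rfl, rfl⟩ <;> omega

theorem XO_ex {c : ℤ × ℤ} {ρ ρ' : ℕ} {Far : Set Vtx} {F : Set Edg} {u0 : Vtx} (hρ : ρ ≤ ρ')
    (hF : ∀ y ∈ Far, BSfar c ρ' y) (h : XA c ρ Far F u0) :
    ∃ u, XO c ρ' Far F u ∧ u ∈ Co c ρ F u0 := by
  classical
  obtain ⟨h1, ⟨y, h2, h3⟩, h4⟩ := h
  have hρ' : (ρ : ℤ) ≤ ρ' := by exact_mod_cast hρ
  have hsub : F \ ↑(blk c ρ') ⊆ F \ ↑(blk c ρ) := fun e he =>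
    ⟨he.1, fun h => he.2 (by exact_mod_cast blk_mono hρ (by exact_mod_cast h))⟩
  obtain ⟨w, a1, a2, a3⟩ := last_level c ρ' h3 (by have := mem_bdB.1 h1; omega)
    (far_iff.1 (hF y h2))
  have a4 : Reach (F \ ↑(blk c ρ')) w y := by
    refine Reach.mono ?_ a2
    rintro e ⟨b1, b2⟩
    exact ⟨b1.1, by rw [Finset.mem_coe, mem_blk]; exact b2⟩
  have hex : ∃ n, ∃ u' ∈ bdB c ρ', u' ∈ Co c ρ' F w ∧ Encodable.encode u' = n :=
    ⟨_, w, mem_bdB.2 a1, Reach.refl _ _, rfl⟩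
  obtain ⟨u, b1, b2, b3⟩ := Nat.find_spec hex
  have e1 : Co c ρ' F u = Co c ρ' F w := Cu_eq_of_mem b2
  refine ⟨u, ⟨?_, b1, ⟨y, h2, ?_⟩, ?_⟩, ?_⟩
  · intro u' c1 c2
    rw [e1] at c2
    rw [b3]
    exact Nat.find_min' hex ⟨u', c1, c2, rfl⟩
  · rw [e1]; exact a4
  · intro s hs hs'
    rw [e1] at hs'
    exact h4 s hs (Reach.trans a3 (Reach.mono hsub hs'))
  · exact Reach.trans a3 (Reach.mono hsub b2)

/-- A vertex which is not off the slit gives `NLn`. -/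
theorem nl_of {a Λ m : ℕ} {c : ℤ × ℤ} {F : Set Edg} {u0 g : Vtx} {Far : Set Vtx} (ha : 24 ≤ a)
    (hΛ : 16 ≤ Λ) (hm : 1 ≤ m) (hF : ∀ y ∈ Far, BSfar c (192 * (Λ * (a * m))) y)
    (h : XA c (128 * (a * m)) Far F u0) (hg : g ∈ Co c (128 * (a * m)) F u0) (hO : ¬ Off m c g)
    (h1 : (256 * (a * m) : ℤ) ≤ sd g c) (h2 : sd g c ≤ 64 * (Λ * (a * m))) :
    ∃ j ∈ Finset.Icc 17 (4 * Λ + 1),
      NLn c.1 (c.2 - 16 * (a * m * (j : ℕ))) (16 * (a * m)) (16 * m) F := by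
  obtain ⟨h3, ⟨y, h4, h5⟩, h6⟩ := h
  unfold Off at hO
  push Not at hO
  obtain ⟨o1, o2⟩ := hO
  have o1' := abs_le.1 o1
  have hU : 24 * m ≤ a * m := Nat.mul_le_mul_right _ ha
  have hUΛ : 16 * (a * m) ≤ Λ * (a * m) := Nat.mul_le_mul_right _ hΛ
  obtain ⟨U, hUe⟩ : ∃ U : ℕ, U = a * m := ⟨_, rfl⟩
  rw [← hUe] at hU hUΛ
  have hcast : (a * m : ℤ) = U := by rw [hUe]; push_cast; ring
  rw [hcast] at h1 h2
  have hU' : (24 * m : ℤ) ≤ U := by exact_mod_cast hU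
  have hUΛ' : (16 * U : ℤ) ≤ Λ * U := by exact_mod_cast hUΛ
  have hm' : (1 : ℤ) ≤ m := by exact_mod_cast hm
  -- the height
  rw [le_sd] at h1
  rw [sd_le] at h2
  have k1 : (256 * U : ℤ) ≤ c.2 - g.2 := by omega
  have k2 : c.2 - g.2 ≤ 64 * (Λ * U) := by omega
  -- the index
  obtain ⟨i, hi1, hi2⟩ : ∃ i : ℕ, (16 * (U * i) : ℤ) ≤ c.2 - g.2 ∧
      c.2 - g.2 < 16 * (U * i) + 16 * U := by
    refine ⟨((c.2 - g.2) / (16 * U)).toNat, ?_, ?_⟩
    all_goals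
      have p1 : 0 ≤ (c.2 - g.2) / (16 * U) := Int.ediv_nonneg (by omega) (by omega)
      have p2 := Int.emod_add_mul_ediv (c.2 - g.2) (16 * U)
      have p3 := Int.emod_nonneg (c.2 - g.2) (show (16 * U : ℤ) ≠ 0 by omega)
      have p4 := Int.emod_lt_of_pos (c.2 - g.2) (show (0 : ℤ) < 16 * U by omega)
      rw [Int.toNat_of_nonneg p1]
      have p5 : (16 * (U : ℤ)) * ((c.2 - g.2) / (16 * U)) =
        16 * (U * ((c.2 - g.2) / (16 * U))) := by ring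
      rw [p5] at p2
      omega
  have hi3 : 16 ≤ i := by
    by_contra hc
    push Not at hc
    have : (U * i : ℤ) ≤ U * 15 := by
      have : (i : ℤ) ≤ 15 := by omega
      nlinarith
    omega
  have hi4 : i ≤ 4 * Λ := by
    by_contra hc
    push Not at hc
    have : (U * (4 * Λ + 1) : ℤ) ≤ U * i := by
      have : (4 * Λ + 1 : ℤ) ≤ i := by exact_mod_cast hc
      exact mul_le_mul_of_nonneg_left this (by positivity)
    have e : (U * (4 * Λ + 1) : ℤ) = 4 * (Λ * U) + U := by ring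
    omega
  have hi4' : (U * i : ℤ) ≤ 4 * (Λ * U) := by
    have : (i : ℤ) ≤ 4 * Λ := by exact_mod_cast hi4
    calc (U * i : ℤ) ≤ U * (4 * Λ) := mul_le_mul_of_nonneg_left this (by positivity)
      _ = 4 * (Λ * U) := by ring
  have hi3' : (16 * U : ℤ) ≤ U * i := by
    have : (16 : ℤ) ≤ i := by exact_mod_cast hi3
    calc (16 * U : ℤ) = U * 16 := by ring
      _ ≤ U * i := mul_le_mul_of_nonneg_left this (by positivity)
  refine ⟨i + 1, Finset.mem_Icc.2 ⟨by omega, by omega⟩, ?_⟩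
  have hh : c.2 - 16 * ((a : ℤ) * m * ((i + 1 : ℕ) : ℤ)) = c.2 - 16 * (U * i) - 16 * U := by
    rw [hcast]; push_cast; ring
  rw [hh]
  set h0 : ℤ := c.2 - 16 * (U * i) - 16 * U with hh0
  have hk : 16 * (a * m) = 16 * U := by rw [hUe]
  rw [hk]
  have hgs : sd g (c.1, h0) ≤ 16 * U := by
    rw [sd_le]; simp only; omega
  -- the cluster in `F \ blk c (128 U)`
  have hrho : 128 * (a * m) = 128 * U := by rw [hUe]
  rw [hrho] at h3 h5 h6 hg
  have hgy : Reach (F \ ↑(blk c (128 * U))) g y := Reach.trans (Reach.symm hg) h5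
  have hsub : (↑(blk (c.1, h0) (8 * (16 * U))) : Set Edg) ⊆ (↑(blk c (128 * U)) : Set Edg)ᶜ := by
    intro e he he'
    rw [Finset.mem_coe, mem_blk, sd_le, sd_le] at he he'
    push_cast at he he'
    omega
  refine ⟨g, by push_cast; exact o1, ?_, ?_, ?_⟩
  · push_cast
    rw [abs_le]
    omega
  · have hy : (128 * U : ℤ) ≤ sd y (c.1, h0) := by
      have q1 := far_iff.1 (hF y h4)
      have q2 : ((192 * (Λ * (a * m)) : ℕ) : ℤ) = 192 * (Λ * U) := by rw [← hUe]; push_cast; ring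
      rw [q2, le_sd] at q1
      rw [le_sd]
      simp only
      omega
    obtain ⟨w, a1, a2, a3⟩ := first_level (c.1, h0) (128 * U) hgy (by omega) hy
    refine ⟨w, mem_bdB.2 (by rw [a1]; push_cast; ring), Reach.mono ?_ a2⟩
    rintro e ⟨b1, b2, b3⟩
    refine ⟨b1.1, ?_⟩
    rw [Finset.mem_coe, mem_blk]
    push_cast
    have : (8 * (16 * U) : ℤ) = 128 * U := by ring
    rw [this]
    exact ⟨b2, b3⟩
  · intro s hs hr
    push_cast at hs
    rw [abs_le] at hs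
    refine h6 s (by omega) (Reach.trans hg (Reach.mono ?_ hr))
    rintro e ⟨e1, e2⟩
    exact ⟨e1, hsub e2⟩

theorem t_DEC : S_DEC := by
  intro a Λ m c S F u0 Far ha _ hΛ hm hFS hFar hXA
  have hU : 24 * m ≤ a * m := Nat.mul_le_mul_right _ ha
  have hUΛ : 16 * (a * m) ≤ Λ * (a * m) := Nat.mul_le_mul_right _ hΛ
  have hU' : (24 * m : ℤ) ≤ (a * m : ℕ) := by exact_mod_cast hU
  have hUΛ' : (16 * (a * m : ℕ) : ℤ) ≤ (Λ * (a * m) : ℕ) := by exact_mod_cast hUΛ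
  have hm' : (1 : ℤ) ≤ m := by exact_mod_cast hm
  obtain ⟨u, hXO, hu⟩ := XO_ex (ρ' := 512 * (a * m)) (by omega)
    (fun y hy => by
      have := far_iff.1 (hFar y hy); rw [far_iff]; push_cast at this hUΛ' hU' ⊢; omega) hXA
  set A : Set Vtx := Co c (512 * (a * m)) (↑F : Set Edg) u with hA
  have hub := mem_bdB.1 hXO.2.1
  have hAfar : ∀ x ∈ A, ((512 * (a * m) : ℕ) : ℤ) ≤ sd x c := fun x hx => Co_farD hub.ge hx
  have hu0 := mem_bdB.1 hXA.1
  have hu0A : u0 ∉ A := by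
    intro h
    have := hAfar u0 h
    push_cast at this hu0
    omega
  have huA : u ∈ A := Reach.refl _ _
  -- third case
  by_cases hcase3 : ∃ g, g ∈ Co c (128 * (a * m)) (↑F : Set Edg) u0 ∧ ¬ Off m c g ∧
      (256 * (a * m) : ℤ) ≤ sd g c ∧ sd g c ≤ 64 * (Λ * (a * m))
  · obtain ⟨g, g1, g2, g3, g4⟩ := hcase3
    right; right
    refine ⟨nl_of ha hΛ hm hFar hXA g1 g2 g3 g4, ?_⟩
    obtain ⟨u', hu', -⟩ := XO_ex (ρ' := 192 * (Λ * (a * m))) (by omega) hFar hXA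
    exact ⟨u', hu'⟩
  have hOff : ∀ g, g ∈ Co c (128 * (a * m)) (↑F : Set Edg) u0 → (256 * (a * m) : ℤ) ≤ sd g c →
      sd g c ≤ 64 * (Λ * (a * m)) → Off m c g := by
    intro g g1 g2 g3
    by_contra g4
    exact hcase3 ⟨g, g1, g4, g2, g3⟩
  -- the path to `A`
  set G : Set Edg := (↑F : Set Edg) \ ↑(blk c (128 * (a * m))) with hG
  obtain ⟨w', w, a1, a2, a3, a4, a5⟩ := first_hit A hu hu0A huA
  set G' : Set Edg := {e | e ∈ G ∧ src e ∉ A ∧ tgt e ∉ A} with hG'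
  have hG'G : G' ⊆ G := fun e he => he.1
  -- second case
  by_cases hcase2 : ∃ v, Reach G' u0 v ∧ (64 * (Λ * (a * m)) : ℤ) ≤ sd v c
  · obtain ⟨v, v1, v2⟩ := hcase2
    right; left
    refine ⟨u, hXO, crs_iff.2 ⟨u0, v, ?_, ?_, ?_⟩⟩
    · rw [hu0]; push_cast; omega
    · push_cast; exact v2
    · refine Reach.mono ?_ v1
      rintro e ⟨⟨e1, e2⟩, e3, e4⟩
      rw [Finset.coe_sdiff]
      refine ⟨e1, ?_⟩
      intro h
      rw [Finset.mem_coe, mem_KX] at h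
      rcases h.2.2 with h5 | h5
      · exact e3 h5
      · exact e4 h5
  left
  have hlt : ∀ v, Reach G' u0 v → sd v c < 64 * (Λ * (a * m)) := by
    intro v hv
    by_contra h
    push Not at h
    exact hcase2 ⟨v, hv, h⟩
  -- the edge from `w'` to `w`
  have hadj := adj_sd' a3 c
  have hedge : ∃ e, e ∈ (↑F : Set Edg) ∧ e ∈ blk c (512 * (a * m)) ∧
      ((src e = w' ∧ tgt e = w) ∨ (src e = w ∧ tgt e = w')) := by
    obtain ⟨e, ⟨he1, he2⟩, he3⟩ := a3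
    refine ⟨e, he1, ?_, he3⟩
    by_contra hc
    apply a2
    refine Reach.trans a1 (Adj.reach ⟨e, ⟨he1, by rwa [Finset.mem_coe]⟩, he3.symm⟩)
  obtain ⟨e0, he1, he2, he3⟩ := hedge
  have he2' := mem_blk.1 he2
  have hw : sd w c = ((512 * (a * m) : ℕ) : ℤ) := by
    have h1 := hAfar w a1
    rcases he3 with ⟨h2, h3⟩ | ⟨h2, h3⟩
    · rw [h3] at he2'; omega
    · rw [h2] at he2'; omega
  -- back to level `256 U`
  obtain ⟨z, z1, z2, z3⟩ := last_level c (256 * (a * m)) a4 (by rw [hu0]; push_cast; omega)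
    (by rw [hw] at hadj; push_cast at hadj; push_cast at hU'; omega)
  have hz2 : ∀ v, Reach {e | e ∈ G' ∧ ¬ (sd (src e) c ≤ 256 * (a * m) ∧
      sd (tgt e) c ≤ 256 * (a * m))} z v → Reach G' u0 v ∧ (256 * (a * m) : ℤ) ≤ sd v c := by
    intro v hv
    refine ⟨Reach.trans z3 (Reach.mono (fun e he => he.1) hv), ?_⟩
    refine reach_inv (P := fun x => (256 * (a * m) : ℤ) ≤ sd x c) ?_ hv z1.ge
    intro x y hx' hadj
    have h2 := adj_sd' hadj c
    obtain ⟨e, ⟨-, q2⟩, hcase⟩ := hadj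
    rcases hcase with ⟨rfl, rfl⟩ | ⟨rfl, rfl⟩ <;> omega
  have hinC : ∀ v, Reach G' u0 v → v ∈ Co c (128 * (a * m)) (↑F : Set Edg) u0 :=
    fun v hv => Reach.mono hG'G hv
  have hoff2 : ∀ v, Reach {e | e ∈ G' ∧ ¬ (sd (src e) c ≤ 256 * (a * m) ∧
      sd (tgt e) c ≤ 256 * (a * m))} z v → Off m c v := by
    intro v hv
    obtain ⟨h1, h2⟩ := hz2 v hv
    exact hOff v (hinC v h1) h2 (hlt v h1).le
  have hwC : w ∈ Co c (128 * (a * m)) (↑F : Set Edg) u0 :=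
    Reach.trans (hinC w' a4) (Adj.reach a3)
  have hwoff : Off m c w := by
    refine hOff w hwC ?_ ?_
    · rw [hw]; push_cast; omega
    · rw [hw]; push_cast at hUΛ' ⊢; omega
  refine ⟨u, hXO, hu, ⟨w, a1, mem_bdB.2 hw, z, mem_bdB.2 (by rw [z1]; push_cast; ring), ?_⟩, ?_⟩
  · have hzw' := reach_restrict' (P := fun v => Off m c v ∧ sd v c < 64 * (Λ * (a * m))) z2
      (fun v hv => ⟨hoff2 v hv, hlt v (hz2 v hv).1⟩)
    have hw'P : Off m c w' ∧ sd w' c < 64 * (Λ * (a * m)) := ⟨hoff2 w' z2, hlt w' a4⟩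
    refine Reach.trans (Adj.reach ⟨e0, ?_, he3.symm⟩) (Reach.symm (Reach.mono ?_ hzw'))
    · refine ⟨he1, ?_, blk_mono (by omega) he2, ?_, ?_⟩
      · rw [mem_KO]
        rintro ⟨-, h1 | h1⟩
        · exact h1 (blk_mono (by omega) he2)
        · exact h1.1 he2
      · rw [mem_blk]
        push_cast at hw hU' ⊢
        rcases he3 with ⟨h2, h3⟩ | ⟨h2, h3⟩
        · rw [h3, hw]; omega
        · rw [h2, hw]; omega
      · rcases he3 with ⟨h2, h3⟩ | ⟨h2, h3⟩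
        · rw [h2, h3]; exact ⟨hw'P.1, hwoff⟩
        · rw [h2, h3]; exact ⟨hwoff, hw'P.1⟩
    · rintro e ⟨⟨⟨⟨e1, e2⟩, e3, e4⟩, e5⟩, ⟨e6, e7⟩, e8, e9⟩
      refine ⟨e1, ?_, ?_, ?_, e6, e8⟩
      · rw [mem_KO]
        rintro ⟨-, h1 | h1⟩
        · apply h1
          rw [mem_blk]
          push_cast
          push_cast at hUΛ'
          omega
        · rcases h1.2 with h2 | h2
          · exact e3 h2
          · exact e4 h2
      · rw [mem_blk]
        push_cast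
        exact ⟨e7.le, e9.le⟩
      · rw [mem_blk]
        push_cast
        exact e5
  · intro x hx hxb
    have h1 := mem_bdB.1 hxb
    refine hOff x ?_ ?_ ?_
    · refine Reach.trans hu (Reach.mono ?_ hx)
      rintro e ⟨e1, e2⟩
      have hmono : blk c (128 * (a * m)) ⊆ blk c (512 * (a * m)) := blk_mono (by omega)
      exact ⟨e1, fun h => e2 (by exact_mod_cast hmono (by exact_mod_cast h))⟩
    · rw [h1]; push_cast; omega
    · rw [h1]; push_cast at hUΛ' ⊢; omega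

end Run7.h561
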