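import Pool.Agent.Run7.h561.TP.P_FINA

/-! # FINA: the probability -/

set_option autoImplicit false

namespace Run7.h561

open H974 H12S Finset H984P H984N SURG H342P

/-- The bad event on the line `x = x0`. -/
def BadL (a m0 : ℕ) (η : ℝ) (n w : ℕ) (G : ℕ → Finset Edg → Prop) (x0 : ℤ) (F : Finset Edg) : Prop :=
  ∃ z : Vtx, (0 ≤ z.2 ∧ z.2 ≤ n) ∧ TipE x0 w (↑F : Set Edg) z ∧
    ¬ ∃ m : ℕ, m0 ≤ m ∧ η * n ≤ m ∧ 400 * (a * m) ≤ w ∧ GoodAt a m x0 (G m) F z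

theorem fin_one {t : ℝ} {M B a m0 : ℕ} {p c0 E0 η : ℝ} {n w m1 : ℕ} {G : ℕ → Finset Edg → Prop}
    (ha : 1 ≤ a) (hm0 : 1 ≤ m0) (hc0 : 0 ≤ c0) (hη : 0 ≤ η)
    (hG : ∀ m, m0 ≤ m → Gad t M B a m p c0 E0 (G m)) {F : Finset Edg} (hF : F ⊆ RE 0 n 0 n)
    (hw : 1 ≤ w) (hw1 : 2 * w ≤ m1) {v x y : Vtx} (hv : v ∈ Plain.box n)
    (hx : x ∈ Cu (↑F : Set Edg) v) (hy : y ∈ Cu (↑F : Set Edg) v)
    (hxy : x.1 + 2 * m1 ≤ y.1)
    (hbad : ∀ j ∈ Finset.Icc (1 : ℤ) ((n : ℤ) / w), (w : ℤ) ≤ w * j → w * j ≤ n - w →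
      ¬ BadL a m0 η n w G (w * j) F) :
    c0 / 25 * η ^ (4 / 3 : ℝ) * (n : ℝ) ^ (4 / 3 : ℝ) ≤
      ((Pool.Agent.W424.OD.accessible n F v).card : ℝ) := by
  have hbox : ∀ c ∈ Cu (↑F : Set Edg) v, c ∈ Plain.box n := by
    intro c hc
    rw [mem_box] at hv ⊢
    exact reach_mem (A := {v : Vtx | inR 0 n 0 n v}) (fun e he => mem_RE.1 (hF (by exact_mod_cast he)))
      hc hv
  have hxb := mem_box.1 (hbox x hx)
  have hyb := mem_box.1 (hbox y hy)
  have hw' : (1 : ℤ) ≤ w := by exact_mod_cast hw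
  have hw1' : 2 * (w : ℤ) ≤ m1 := by exact_mod_cast hw1
  set q : ℤ := x.1 / w with hq
  have k1 := Int.emod_add_mul_ediv x.1 w
  have k2 := Int.emod_nonneg x.1 (show (w : ℤ) ≠ 0 by omega)
  have k3 := Int.emod_lt_of_pos x.1 (show (0 : ℤ) < w by omega)
  rw [← hq] at k1
  have q0 : 0 ≤ q := Int.ediv_nonneg hxb.1.1 (by omega)
  have e1 : (w : ℤ) * (q + 2) = w * q + 2 * w := by ring
  have wq0 : 0 ≤ (w : ℤ) * q := mul_nonneg (by omega) q0
  have hj : q + 2 ∈ Finset.Icc (1 : ℤ) ((n : ℤ) / w) := by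
    rw [Finset.mem_Icc]
    refine ⟨by omega, ?_⟩
    rw [Int.le_ediv_iff_mul_le (by omega), mul_comm, e1]
    omega
  obtain ⟨z, z1, z2, z3⟩ := tip_ex hF (w := w) (x0 := w * (q + 2)) hv hx hy (by rw [e1]; omega)
    (by rw [e1]; omega)
  have hnb := hbad (q + 2) hj (by rw [e1]; omega) (by rw [e1]; omega)
  have hz := mem_box.1 z2
  obtain ⟨m, hm, hηm, h400, hgood⟩ : ∃ m : ℕ, m0 ≤ m ∧ η * n ≤ m ∧ 400 * (a * m) ≤ w ∧
      GoodAt a m (w * (q + 2)) (G m) F z := by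
    by_contra hcon
    exact hnb ⟨z, hz.2, z3, hcon⟩
  have h1 := acc_count (hG m hm) hF ha (by omega) z2 z3 h400 hgood
  rw [acc_eq z1] at h1
  have h2 : (η * n) ^ (4 / 3 : ℝ) ≤ (m : ℝ) ^ (4 / 3 : ℝ) :=
    Real.rpow_le_rpow (by positivity) hηm (by norm_num)
  rw [Real.mul_rpow hη (by positivity)] at h2
  have h3 := mul_le_mul_of_nonneg_left h2 hc0
  calc c0 / 25 * η ^ (4 / 3 : ℝ) * (n : ℝ) ^ (4 / 3 : ℝ)
      = c0 * (η ^ (4 / 3 : ℝ) * (n : ℝ) ^ (4 / 3 : ℝ)) / 25 := by ring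
    _ ≤ (25 * ((Pool.Agent.W424.OD.accessible n F v).card : ℝ)) / 25 := by
        apply div_le_div_of_nonneg_right _ (by norm_num)
        exact h3.trans h1
    _ = _ := by ring

/-- **FINA** -/
theorem t_FINA (gad : S_GAD) (tip : S_TIP) : S_FINA := by
  intro ε hε
  obtain ⟨K0, hK0⟩ := exists_pow_lt_of_lt_one (show (0:ℝ) < ε / 2 by linarith)
    (show (1/2:ℝ) < 1 by norm_num)
  set K := K0 + 1 with hK
  have hKd : (1/2:ℝ) ^ K ≤ ε / 2 := by
    rw [hK, pow_succ]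
    have : (0:ℝ) ≤ (1/2) ^ K0 := by positivity
    linarith
  have hK1 : (1 : ℝ) ≤ K := by rw [hK]; push_cast; linarith [Nat.cast_nonneg (α := ℝ) K0]
  obtain ⟨M, B, a0, d, -, -, hd, hgad⟩ := gad 1 (by norm_num) (by norm_num)
  obtain ⟨a1, htip⟩ := tip (ε / (192 * K)) (1 / (48 * K)) (by positivity) (by positivity)
  set a : ℕ := 2 * d * (a0 + a1 + 1) with ha
  have haa : a0 + a1 + 1 ≤ a := by
    rw [ha]
    exact Nat.le_mul_of_pos_left _ (by omega)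
  obtain ⟨p, c0, E0, m0, hp, hc0, hE0, hm0⟩ := hgad a (by omega) ⟨2 * (a0 + a1 + 1), by rw [ha]; ring⟩
    ⟨d * (a0 + a1 + 1), by rw [ha]; ring⟩
  obtain ⟨η, n0, hη, hn0⟩ := htip a (by omega) ⟨d * (a0 + a1 + 1), by rw [ha]; ring⟩ p (m0 + 1) hp
  choose! G hG using hm0
  refine ⟨c0 / 25 * η ^ (4 / 3 : ℝ), n0 + 96 * K, by positivity, ?_⟩
  intro n hn
  have hnn0 : n0 ≤ n := by omega
  have hnK : 96 * K ≤ n := by omega
  set L : ℕ := n / (2 * K) with hL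
  set m1 : ℕ := L / 3 with hm1
  set w : ℕ := m1 / 2 with hw
  have hKpos : 0 < K := by omega
  have hLn : 2 * K * L ≤ n := Nat.mul_div_le n (2 * K)
  have hLn2 : n < 2 * K * (L + 1) := Nat.lt_mul_div_succ n (by omega)
  have hL48 : 48 ≤ L := by
    rw [hL, Nat.le_div_iff_mul_le (by omega)]
    omega
  have hKL : K * (L + 1) ≤ n + 1 := by nlinarith
  have hLnn : L ≤ n := by nlinarith
  have hw8 : 8 ≤ w := by omega
  have hLw : L + 1 ≤ 8 * w := by omega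
  have hnw : n ≤ 16 * K * w := by
    have : 2 * K * (L + 1) ≤ 2 * K * (8 * w) := Nat.mul_le_mul_left _ hLw
    nlinarith
  have hnwR : (n : ℝ) ≤ 16 * K * w := by exact_mod_cast hnw
  have hδ : 1 / (48 * (K : ℝ)) * n ≤ w := by
    rw [div_mul_eq_mul_div, one_mul, div_le_iff₀ (by positivity)]
    have : (0 : ℝ) ≤ w := by positivity
    nlinarith
  set S : Finset Edg := RE 0 n 0 n with hS
  have hNB := pr_not_big (n := n) (L := L) (K := K) (by omega) (m := (m1 : ℤ)) (by omega)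
    (by omega) hKL hLnn
  -- lines
  set J : Finset ℤ := (Finset.Icc (1 : ℤ) ((n : ℤ) / w)).filter
    (fun j => (w : ℤ) ≤ w * j ∧ w * j ≤ n - w) with hJ
  have hJc : (J.card : ℝ) ≤ 16 * K := by
    have h1 : J.card ≤ (Finset.Icc (1 : ℤ) ((n : ℤ) / w)).card := Finset.card_filter_le _ _
    rw [Int.card_Icc, add_sub_cancel_right] at h1
    have h2 : (n : ℤ) / w ≤ 16 * K := by
      apply Int.ediv_le_of_le_mul (by omega)
      exact_mod_cast hnw
    have h3 : J.card ≤ 16 * K := by omega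
    exact_mod_cast h3
  have hbad1 : ∀ j ∈ J, PQ (1 / 2) S (BadL a (m0 + 1) η n w G (w * j)) ≤ ε / (192 * K) := by
    intro j hj
    rw [hJ, Finset.mem_filter] at hj
    exact hn0 n hnn0 G (fun m hm => (hG m (by omega)).toGLc) (w * j) w hδ hj.2.1 hj.2.2
  have hbad2 : ∀ j ∈ J, PQ (1 / 2) S (fun F => BadL a (m0 + 1) η n w G (w * j) (tps.mp F)) ≤
      ε / (192 * K) := by
    intro j hj
    have h1 := LSym.pr tps (1 / 2) S (BadL a (m0 + 1) η n w G (w * j))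
    have h2 : tps.mp S = S := by rw [hS, tps_RE]
    rw [h2] at h1
    unfold PQ
    rw [← h1]
    exact hbad1 j hj
  rw [Plain.prob_eq]
  -- union bound
  have hall : PQ (1 / 2) S (fun F => ¬ (∀ v, Plain.Largest n F v →
      c0 / 25 * η ^ (4 / 3 : ℝ) * (n : ℝ) ^ (4 / 3 : ℝ) ≤
        ((Pool.Agent.W424.OD.accessible n F v).card : ℝ))) ≤
      PQ (1 / 2) S (fun F => ¬ Big n m1 (↑F) ∨ ((∃ j ∈ J, BadL a (m0 + 1) η n w G (w * j) F) ∨
        ∃ j ∈ J, BadL a (m0 + 1) η n w G (w * j) (tps.mp F))) := by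
    refine Pr_mono ok_half fun F hF hbadF => ?_
    by_contra hcon
    push Not at hcon
    obtain ⟨hbig, hb1, hb2⟩ := hcon
    apply hbadF
    intro v hv
    have hmax := Plain.isMax_of_largest hv
    obtain ⟨x, y, hx, hy, hxy⟩ := hmax
    obtain ⟨c, e, hc, he, hce, h8⟩ := hbig
    have h9 : 8 * (m1 : ℤ) ^ 2 ≤ dsq x y := h8.trans (hxy c e hc he hce)
    have h10 : 2 * (m1 : ℤ) ≤ |x.1 - y.1| ∨ 2 * (m1 : ℤ) ≤ |x.2 - y.2| := by
      by_contra h11
      push Not at h11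
      have k1 : (x.1 - y.1) ^ 2 < (2 * (m1 : ℤ)) ^ 2 := by
        rw [← sq_abs (x.1 - y.1)]
        exact pow_lt_pow_left₀ h11.1 (abs_nonneg _) (by norm_num)
      have k2 : (x.2 - y.2) ^ 2 < (2 * (m1 : ℤ)) ^ 2 := by
        rw [← sq_abs (x.2 - y.2)]
        exact pow_lt_pow_left₀ h11.2 (abs_nonneg _) (by norm_num)
      unfold dsq at h9
      nlinarith
    have hvb : v ∈ Plain.box n := hv.1
    have main : ∀ (F : Finset Edg) (v x y : Vtx), F ⊆ RE 0 n 0 n → v ∈ Plain.box n →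
        Reach (↑F : Set Edg) v x → Reach (↑F : Set Edg) v y → 2 * (m1 : ℤ) ≤ |x.1 - y.1| →
        (∀ j ∈ J, ¬ BadL a (m0 + 1) η n w G (w * j) F) →
        c0 / 25 * η ^ (4 / 3 : ℝ) * (n : ℝ) ^ (4 / 3 : ℝ) ≤
          ((Pool.Agent.W424.OD.accessible n F v).card : ℝ) := by
      intro F v x y hF hv hx hy hd hb
      have hb' : ∀ j ∈ Finset.Icc (1 : ℤ) ((n : ℤ) / w), (w : ℤ) ≤ w * j → w * j ≤ n - w →
          ¬ BadL a (m0 + 1) η n w G (w * j) F := by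
        intro j j1 j2 j3
        exact hb j (by rw [hJ, Finset.mem_filter]; exact ⟨j1, j2, j3⟩)
      rw [le_abs'] at hd
      rcases hd with hd | hd
      · exact fin_one (by omega) (by omega) hc0.le hη.le (fun m hm => hG m (by omega)) hF
          (by omega) (m1 := m1) (by omega) hv hx hy (by omega) hb'
      · exact fin_one (by omega) (by omega) hc0.le hη.le (fun m hm => hG m (by omega)) hF
          (by omega) (m1 := m1) (by omega) hv hy hx (by omega) hb'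
    rcases h10 with h10 | h10
    · exact main F v x y hF hvb hx hy h10 hb1
    · have hF' : tps.mp F ⊆ RE 0 n 0 n := by
        have := LSym.mp_mono tps hF
        rwa [tps_RE] at this
      have r1 : ∀ {c : Vtx}, Reach (↑F : Set Edg) v c →
          Reach (↑(tps.mp F) : Set Edg) (v.2, v.1) (c.2, c.1) := by
        intro c hc
        rw [LSym.coe_mp]
        exact tps.reach hc
      have h12 := main (tps.mp F) (v.2, v.1) (x.2, x.1) (y.2, y.1) hF'
        (by rw [mem_box] at hvb ⊢; exact ⟨hvb.2, hvb.1⟩) (r1 hx) (r1 hy) h10 hb2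
      refine h12.trans ?_
      exact_mod_cast acc_tps v
  have h1 := Pr_or_le ok_half S (fun F => ¬ Big n m1 (↑F))
    (fun F => (∃ j ∈ J, BadL a (m0 + 1) η n w G (w * j) F) ∨
        ∃ j ∈ J, BadL a (m0 + 1) η n w G (w * j) (tps.mp F))
  have h2 := Pr_or_le ok_half S (fun F => ∃ j ∈ J, BadL a (m0 + 1) η n w G (w * j) F)
    (fun F => ∃ j ∈ J, BadL a (m0 + 1) η n w G (w * j) (tps.mp F))
  have h3 := Pr_exists_le ok_half S J (fun j => BadL a (m0 + 1) η n w G (w * j))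
  have h4 := Pr_exists_le ok_half S J (fun j F => BadL a (m0 + 1) η n w G (w * j) (tps.mp F))
  have h5 : ∑ j ∈ J, Pr (fun _ => (1 / 2 : ℝ)) S (BadL a (m0 + 1) η n w G (w * j)) ≤ ε / 4 := by
    refine (Finset.sum_le_sum hbad1).trans ?_
    rw [Finset.sum_const, nsmul_eq_mul]
    calc (J.card : ℝ) * (ε / (192 * K)) ≤ (16 * K) * (ε / (192 * K)) :=
          mul_le_mul_of_nonneg_right hJc (by positivity)
      _ = ε / 12 := by field_simp; ring
      _ ≤ ε / 4 := by linarith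
  have h6 : ∑ j ∈ J, Pr (fun _ => (1 / 2 : ℝ)) S
      (fun F => BadL a (m0 + 1) η n w G (w * j) (tps.mp F)) ≤ ε / 4 := by
    refine (Finset.sum_le_sum hbad2).trans ?_
    rw [Finset.sum_const, nsmul_eq_mul]
    calc (J.card : ℝ) * (ε / (192 * K)) ≤ (16 * K) * (ε / (192 * K)) :=
          mul_le_mul_of_nonneg_right hJc (by positivity)
      _ = ε / 12 := by field_simp; ring
      _ ≤ ε / 4 := by linarith
  unfold PQ at hall
  rw [Pr_not] at hall
  linarith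

end Run7.h561
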