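import Pool.Agent.Run7.h561.TP.Stm

/-! # MIX -/

set_option autoImplicit false

namespace Run7.h561

open H974 H12S Finset H984P H984N

theorem mix {E : Type*} [DecidableEq E] {p : E → ℝ} (hp : Ok p) (S : Finset E)
    (K : Finset E → Finset E) (hK : Stop S K) (hKS : ∀ F, F ⊆ S → K F ⊆ S)
    (T1 T2 T3 : Finset E) (h1 : T1 ⊆ S) (h2 : T2 ⊆ S) (h3 : T3 ⊆ S) (hd : Disjoint T1 T2)
    (hKT : ∀ F, F ⊆ S → Disjoint (K F) T1 ∧ Disjoint (K F) T3) (N O D M : Finset E → Prop)
    (hO : ∀ F, O F ↔ O (F ∩ T1)) (hOi : ∀ F G, F ⊆ G → O F → O G)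
    (hD : ∀ F, D F ↔ D (F ∩ T2)) (hDd : ∀ F G, F ⊆ G → D G → D F)
    (hM : ∀ F, M F ↔ M (F ∩ T3)) (hMi : ∀ F G, M F → F ⊆ G → G \ F ⊆ T1 → M G)
    (hMd : ∀ F G, M F → G ⊆ F → F \ G ⊆ T2 → M G)
    (hN : ∀ F F', F ⊆ S → F' ⊆ S → F ∩ K F = F' ∩ K F →
      F \ (T2 ∪ T3) ⊆ F' \ (T2 ∪ T3) → N F → N F') :
    Pr p S N * (Pr p S O * Pr p S D * Pr p S M) ≤
      Pr p S (fun F => N F ∧ O F ∧ D (F \ K F) ∧ M F) := by
  rw [MK_part p S K (fun F => N F ∧ O F ∧ D (F \ K F) ∧ M F), MK_part p S K N, Finset.sum_mul]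
  refine Finset.sum_le_sum fun K0 _ => ?_
  rw [Finset.sum_mul]
  refine Finset.sum_le_sum fun T _ => ?_
  have nO := Pr_nonneg hp S O
  have nD := Pr_nonneg hp S D
  have nM := Pr_nonneg hp S M
  by_cases h : ∃ F1, F1 ⊆ S ∧ K F1 ∩ S = K0 ∧ F1 ∩ K0 = T
  · obtain ⟨F1, hF1, hK1, hT1⟩ := h
    have hK0 : K0 ⊆ S := by rw [← hK1]; exact Finset.inter_subset_right
    have hK1' : K F1 = K0 := by
      rw [← hK1]; exact (Finset.inter_eq_left.2 (hKS F1 hF1)).symm
    have key : ∀ F, F ⊆ S → F ∩ K0 = T → K F = K0 := by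
      intro F hF hFT
      rw [← hK1']
      apply hK F1 F hF1 hF
      rw [hK1', hT1, hFT]
    have hTK : T ⊆ K0 := by rw [← hT1]; exact Finset.inter_subset_right
    have hTS : T ⊆ S := hTK.trans hK0
    have dK1 : Disjoint K0 T1 := by rw [← hK1']; exact (hKT F1 hF1).1
    have dK3 : Disjoint K0 T3 := by rw [← hK1']; exact (hKT F1 hF1).2
    set N' : Finset E → Prop := fun F => N (T ∪ (F \ K0)) with hN'
    set g : Finset E → Prop := fun F => D (F \ K0) with hg
    have eT : ∀ F : Finset E, (T ∪ (F \ K0)) ∩ K0 = T := by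
      intro F
      ext x
      simp only [Finset.mem_inter, Finset.mem_union, Finset.mem_sdiff]
      constructor
      · rintro ⟨h | h, hx⟩
        · exact h
        · exact absurd hx h.2
      · intro hx; exact ⟨Or.inl hx, hTK hx⟩
    have sT : ∀ F : Finset E, F ⊆ S → T ∪ (F \ K0) ⊆ S := fun F hF =>
      Finset.union_subset hTS (Finset.sdiff_subset.trans hF)
    have eF : ∀ F : Finset E, F ∩ K0 = T → T ∪ (F \ K0) = F := by
      intro F hF
      rw [← hF]
      ext x
      simp only [Finset.mem_inter, Finset.mem_union, Finset.mem_sdiff]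
      tauto
    have e1 : Pr p S (fun F => (K F ∩ S = K0 ∧ F ∩ K0 = T) ∧
        (N F ∧ O F ∧ D (F \ K F) ∧ M F)) =
        Pr p S (fun F => F ∩ K0 = T ∧ ((N' F ∧ M F) ∧ (O F ∧ g F))) := by
      apply Pr_congr
      intro F hF
      constructor
      · rintro ⟨⟨_, a2⟩, a3, a4, a5, a6⟩
        refine ⟨a2, ⟨?_, a6⟩, a4, ?_⟩
        · simp only [hN']; rw [eF F a2]; exact a3
        · simp only [hg]; rw [← key F hF a2]; exact a5
      · rintro ⟨a2, ⟨a3, a6⟩, a4, a5⟩
        have k := key F hF a2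
        refine ⟨⟨?_, a2⟩, ?_, a4, ?_, a6⟩
        · rw [k]; exact Finset.inter_eq_left.2 hK0
        · simp only [hN'] at a3; rwa [eF F a2] at a3
        · rw [k]; exact a5
    have e2 : Pr p S (fun F => (K F ∩ S = K0 ∧ F ∩ K0 = T) ∧ N F) =
        Pr p S (fun F => F ∩ K0 = T ∧ N' F) := by
      apply Pr_congr
      intro F hF
      constructor
      · rintro ⟨⟨_, a2⟩, a3⟩
        refine ⟨a2, ?_⟩
        simp only [hN']; rw [eF F a2]; exact a3
      · rintro ⟨a2, a3⟩
        refine ⟨⟨?_, a2⟩, ?_⟩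
        · rw [key F hF a2]; exact Finset.inter_eq_left.2 hK0
        · simp only [hN'] at a3; rwa [eF F a2] at a3
    have lT : ∀ F : Finset E, F ⊆ S → (F ∩ K0 = T ↔ (F ∩ K0) ∩ K0 = T) := by
      intro F _
      rw [Finset.inter_assoc, Finset.inter_self]
    have sd0 : ∀ F : Finset E, F ⊆ S → (F ∩ (S \ K0)) \ K0 = F \ K0 := by
      intro F hF
      ext x
      simp only [Finset.mem_sdiff, Finset.mem_inter]
      constructor
      · rintro ⟨⟨a1, -, -⟩, a2⟩; exact ⟨a1, a2⟩
      · rintro ⟨a1, a2⟩; exact ⟨⟨a1, hF a1, a2⟩, a2⟩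
    have lN : ∀ F : Finset E, F ⊆ S → (N' F ↔ N' (F ∩ (S \ K0))) := by
      intro F hF
      simp only [hN']
      rw [sd0 F hF]
    have lg : ∀ F : Finset E, F ⊆ S → (g F ↔ g (F ∩ (S \ K0))) := by
      intro F hF
      simp only [hg]
      rw [sd0 F hF]
    have i1 : ∀ F : Finset E, F ⊆ S → (F ∩ (S \ K0)) ∩ T1 = F ∩ T1 := by
      intro F hF
      ext x
      simp only [Finset.mem_sdiff, Finset.mem_inter]
      constructor
      · rintro ⟨⟨a1, -, -⟩, a2⟩; exact ⟨a1, a2⟩
      · rintro ⟨a1, a2⟩; exact ⟨⟨a1, hF a1, fun h => Finset.disjoint_left.1 dK1 h a2⟩, a2⟩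
    have i3 : ∀ F : Finset E, F ⊆ S → (F ∩ (S \ K0)) ∩ T3 = F ∩ T3 := by
      intro F hF
      ext x
      simp only [Finset.mem_sdiff, Finset.mem_inter]
      constructor
      · rintro ⟨⟨a1, -, -⟩, a2⟩; exact ⟨a1, a2⟩
      · rintro ⟨a1, a2⟩; exact ⟨⟨a1, hF a1, fun h => Finset.disjoint_left.1 dK3 h a2⟩, a2⟩
    have lO : ∀ F : Finset E, F ⊆ S → (O F ↔ O (F ∩ (S \ K0))) := by
      intro F hF
      rw [hO F, hO (F ∩ (S \ K0)), i1 F hF]
    have lM : ∀ F : Finset E, F ⊆ S → (M F ↔ M (F ∩ (S \ K0))) := by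
      intro F hF
      rw [hM F, hM (F ∩ (S \ K0)), i3 F hF]
    have ind1 := Pr_indep (p := p) (U := S) (S := K0) (T := S \ K0) hK0 Finset.sdiff_subset
      Finset.disjoint_sdiff (A := fun F => F ∩ K0 = T) (B := N') lT lN
    have ind2 := Pr_indep (p := p) (U := S) (S := K0) (T := S \ K0) hK0 Finset.sdiff_subset
      Finset.disjoint_sdiff (A := fun F => F ∩ K0 = T)
      (B := fun F => (N' F ∧ M F) ∧ (O F ∧ g F)) lT (by
        intro F hF
        rw [lN F hF, lM F hF, lO F hF, lg F hF])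
    -- monotonicity of `N'`
    have mN : ∀ F G : Finset E, F ⊆ S → G ⊆ S → (∀ x ∈ F, x ∉ T2 → x ∉ T3 → x ∈ G) →
        N' F → N' G := by
      intro F G hF hG hx hF'
      refine hN (T ∪ (F \ K0)) (T ∪ (G \ K0)) (sT F hF) (sT G hG) ?_ ?_ hF'
      · rw [key _ (sT F hF) (eT F), eT, eT]
      · intro x
        simp only [Finset.mem_sdiff, Finset.mem_union]
        rintro ⟨b | ⟨b1, b2⟩, c⟩
        · exact ⟨Or.inl b, c⟩
        · exact ⟨Or.inr ⟨hx x b1 (fun h => c (Or.inl h)) (fun h => c (Or.inr h)), b2⟩, c⟩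
    have ind3 : Pr p S (fun F => N' F ∧ M F) = Pr p S N' * Pr p S M := by
      refine Pr_indep (p := p) (U := S) (S := S \ T3) (T := T3) Finset.sdiff_subset h3
        Finset.sdiff_disjoint ?_ (fun F _ => hM F)
      intro F hF
      have s1 : F ∩ (S \ T3) ⊆ S := Finset.inter_subset_left.trans hF
      constructor
      · apply mN F _ hF s1
        intro x a1 _ a3
        simp only [Finset.mem_inter, Finset.mem_sdiff]
        exact ⟨a1, hF a1, a3⟩
      · apply mN _ F s1 hF
        intro x a1 _ _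
        exact (Finset.mem_inter.1 a1).1
    have hs := harris_signed hp (S := S) (T₁ := T1) (T₂ := T2) h1 h2 hd
      (N := fun F => N' F ∧ M F) (f := O) (g := g) (fun F _ => hO F) hOi
      (by
        intro F _
        simp only [hg]
        have e : (F ∩ T2) \ K0 = (F \ K0) ∩ T2 := by
          ext x
          simp only [Finset.mem_sdiff, Finset.mem_inter]
          tauto
        rw [e]
        exact hD _)
      (by
        intro F G hFG hG
        exact hDd _ _ (Finset.sdiff_subset_sdiff hFG (Finset.Subset.refl _)) hG)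
      (by
        rintro F G hF hG e a1 a2 ⟨b1, b2⟩
        have mem : ∀ x, x ∉ T1 → x ∉ T2 → (x ∈ F ↔ x ∈ G) := by
          intro x x1 x2
          have := Finset.ext_iff.1 e x
          simp only [Finset.mem_sdiff, Finset.mem_union, x1, x2, or_self, not_false_eq_true,
            and_true] at this
          exact this
        constructor
        · apply mN F G hF hG _ b1
          intro x xF x2 _
          by_cases x1 : x ∈ T1
          · exact (Finset.mem_inter.1 (a1 (Finset.mem_inter.2 ⟨xF, x1⟩))).1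
          · exact (mem x x1 x2).1 xF
        · have m1 : M (F ∪ (G ∩ T1)) := by
            apply hMi F _ b2 Finset.subset_union_left
            intro x
            simp only [Finset.mem_sdiff, Finset.mem_union, Finset.mem_inter]
            rintro ⟨b | b, c⟩
            · exact absurd b c
            · exact b.2
          apply hMd _ G m1
          · intro x xG
            simp only [Finset.mem_union, Finset.mem_inter]
            by_cases x1 : x ∈ T1
            · exact Or.inr ⟨xG, x1⟩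
            · by_cases x2 : x ∈ T2
              · exact Or.inl (Finset.mem_inter.1 (a2 (Finset.mem_inter.2 ⟨xG, x2⟩))).1
              · exact Or.inl ((mem x x1 x2).2 xG)
          · intro x
            simp only [Finset.mem_sdiff, Finset.mem_union, Finset.mem_inter]
            rintro ⟨b | b, c⟩
            · by_contra x2
              by_cases x1 : x ∈ T1
              · exact c (Finset.mem_inter.1 (a1 (Finset.mem_inter.2 ⟨b, x1⟩))).1
              · exact c ((mem x x1 x2).1 b)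
            · exact absurd b.1 c)
    have hgD : Pr p S D ≤ Pr p S g := Pr_mono hp fun F _ hF => hDd _ _ Finset.sdiff_subset hF
    rw [e1, e2, ind1, ind2]
    rw [ind3] at hs
    have nT := Pr_nonneg hp S (fun F => F ∩ K0 = T)
    have nN := Pr_nonneg hp S N'
    have q1 : Pr p S N' * Pr p S M * (Pr p S O * Pr p S D) ≤
        Pr p S N' * Pr p S M * (Pr p S O * Pr p S g) :=
      mul_le_mul_of_nonneg_left (mul_le_mul_of_nonneg_left hgD nO) (mul_nonneg nN nM)
    calc Pr p S (fun F => F ∩ K0 = T) * Pr p S N' * (Pr p S O * Pr p S D * Pr p S M)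
        = Pr p S (fun F => F ∩ K0 = T) * (Pr p S N' * Pr p S M * (Pr p S O * Pr p S D)) := by ring
      _ ≤ _ := mul_le_mul_of_nonneg_left (q1.trans hs) nT
  · have hz : Pr p S (fun F => (K F ∩ S = K0 ∧ F ∩ K0 = T) ∧ N F) = 0 := by
      apply MK_false
      rintro F hF ⟨⟨a1, a2⟩, -⟩
      exact h ⟨F, hF, a1, a2⟩
    rw [hz, zero_mul]
    exact Pr_nonneg hp _ _

theorem ok_half : Ok (fun _ : Edg => (1 / 2 : ℝ)) := fun _ => by norm_num

/-- **MIX** -/
theorem t_MIX : S_MIX := by
  intro S K hK hKS T1 T2 T3 h1 h2 h3 hd hKT N O D M hO hOi hD hDd hM hMi hMd hN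
  exact mix ok_half S K hK hKS T1 T2 T3 h1 h2 h3 hd hKT N O D M hO hOi hD hDd hM hMi hMd hN

end Run7.h561
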