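import Pool.Agent.Run7.h561.TP.P_PBX

/-! # Piece NL: a cluster comes near the line without touching it -/

set_option autoImplicit false

namespace Run7.h561

open H974 H12S Finset H984P H984N

theorem nl_side {G : Set Edg} {u : Vtx} {x : ℤ} (h : ∀ w, Reach G u w → w.1 ≠ x) :
    (∀ w, Reach G u w → w.1 < x) ∨ (∀ w, Reach G u w → x < w.1) := by
  rcases lt_or_gt_of_ne (h u (Reach.refl _ _)) with h1 | h1
  · left
    intro w hw
    induction hw with
    | refl => exact h1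
    | @tail y z h2 h3 ih =>
      have h4 := adj_step h3
      have h5 := h z (Reach.trans h2 (Adj.reach h3))
      omega
  · right
    intro w hw
    induction hw with
    | refl => exact h1
    | @tail y z h2 h3 ih =>
      have h4 := adj_step h3
      have h5 := h z (Reach.trans h2 (Adj.reach h3))
      omega

theorem nl_blk {x0 h xi : ℤ} {k l l' : ℕ} (hx : |xi - x0| ≤ k) (hl : l + k ≤ l') :
    blk (x0, h) l ⊆ blk (xi, h) l' := by
  intro e he
  rw [mem_blk] at he ⊢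
  rw [sd_le, sd_le] at he ⊢
  rw [abs_le] at hx
  simp only at he ⊢
  have : (l : ℤ) + k ≤ l' := by exact_mod_cast hl
  omega

theorem nl_one {x0 h xi : ℤ} {k t : ℕ} {F : Set Edg} (hx : |xi - x0| ≤ k) (ht : t ≤ k)
    (H : NLn xi h k t F) : ∃ u ∈ ctr (x0, h) (2 * k),
      RB src tgt {y | BSfar (x0, h) (3 * (2 * k)) y} (F ∩ ↑(blk (x0, h) (6 * k))) u ∧
      |u.1 - xi| ≤ t ∧ ((∀ w, Reach (F ∩ ↑(blk (x0, h) (6 * k))) u w → w.1 < xi) ∨
        ∀ w, Reach (F ∩ ↑(blk (x0, h) (6 * k))) u w → xi < w.1) := by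
  obtain ⟨u, h1, h2, ⟨y, h3, h4⟩, h5⟩ := H
  have htk : (t : ℤ) ≤ k := by exact_mod_cast ht
  have hx' := abs_le.1 hx
  have h1' := abs_le.1 h1
  have h2' := abs_le.1 h2
  have hu : sd u (x0, h) ≤ 2 * k := by rw [sd_le]; simp only; omega
  have hsub : (↑(blk (x0, h) (6 * k)) : Set Edg) ⊆ ↑(blk (xi, h) (8 * k)) := by
    exact_mod_cast nl_blk hx (by omega)
  refine ⟨u, mem_ctr.2 (by push_cast; exact hu), ?_, h1, ?_⟩
  · have hy : (6 * k : ℤ) ≤ sd y (x0, h) := by
      have h6 := mem_bdB.1 h3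
      have h7 : ((8 * k : ℕ) : ℤ) ≤ sd y (xi, h) := h6.ge
      rw [le_sd] at h7 ⊢
      simp only at h7 ⊢
      push_cast at h7
      omega
    obtain ⟨w, a1, a2, a3⟩ := first_level (x0, h) (6 * k) h4 (by omega) hy
    refine ⟨w, far_iff.2 (by push_cast; omega), ?_⟩
    refine Reach.mono ?_ a2
    rintro e ⟨b1, b2, b3⟩
    refine ⟨b1.1, ?_⟩
    rw [Finset.mem_coe, mem_blk]
    push_cast
    exact ⟨b2, b3⟩
  · apply nl_side
    intro w hw hwx
    have h6 : Reach (F ∩ ↑(blk (xi, h) (8 * k))) u w :=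
      Reach.mono (Set.inter_subset_inter_right _ hsub) hw
    have h7 : sd w (x0, h) ≤ 6 * k := by
      refine reach_mem (A := {v : Vtx | sd v (x0, h) ≤ 6 * k}) ?_ hw (by
        simp only [Set.mem_setOf_eq]; omega)
      rintro e ⟨-, he⟩
      rw [Finset.mem_coe, mem_blk] at he
      push_cast at he
      exact he
    rw [sd_le] at h7
    simp only at h7
    have h8 : w = (xi, w.2) := by rw [← hwx]
    rw [h8] at h6
    exact h5 w.2 (by rw [abs_le]; omega) h6

theorem nl_count {x0 h : ℤ} {k t n : ℕ} {F : Set Edg} (ht0 : 1 ≤ t) (ht : t ≤ k)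
    (hn : ∀ i < n, 3 * t * i ≤ k) (I : Finset ℕ) (hI : ∀ i ∈ I, i < n ∧
      NLn (x0 + 3 * t * (i : ℕ)) h k t F) :
    I.card ≤ 2 * NC src tgt (ctr (x0, h) (2 * k)) {y | BSfar (x0, h) (3 * (2 * k)) y}
      (F ∩ ↑(blk (x0, h) (6 * k))) := by
  classical
  set G : Set Edg := F ∩ ↑(blk (x0, h) (6 * k)) with hG
  have key : ∀ i ∈ I, ∃ p : Set Vtx × Bool, p ∈ (TC src tgt (ctr (x0, h) (2 * k))
      {y | BSfar (x0, h) (3 * (2 * k)) y} G) ×ˢ (Finset.univ : Finset Bool) ∧
      (p.2 = true → (∀ w ∈ p.1, w.1 < x0 + 3 * t * (i : ℕ)) ∧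
        ∃ w ∈ p.1, x0 + 3 * t * (i : ℕ) - t ≤ w.1) ∧
      (p.2 = false → (∀ w ∈ p.1, x0 + 3 * t * (i : ℕ) < w.1) ∧
        ∃ w ∈ p.1, w.1 ≤ x0 + 3 * t * (i : ℕ) + t) := by
    intro i hi
    obtain ⟨hi1, hi2⟩ := hI i hi
    have h3 : ((3 * t * i : ℕ) : ℤ) ≤ k := by exact_mod_cast hn i hi1
    push_cast at h3
    have h4 : |x0 + 3 * t * (i : ℕ) - x0| ≤ (k : ℤ) := by
      rw [add_sub_cancel_left, abs_of_nonneg (by positivity)]
      exact h3
    obtain ⟨u, a1, a2, a3, a4⟩ := nl_one h4 ht hi2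
    have a3' := abs_le.1 a3
    rcases a4 with a4 | a4
    · refine ⟨(clu src tgt G u, true), ?_, ?_, ?_⟩
      · rw [Finset.mem_product]
        exact ⟨mem_TC.2 ⟨u, a1, a2, rfl⟩, Finset.mem_univ _⟩
      · intro _
        exact ⟨fun w hw => a4 w hw, u, GR.refl _ _, by omega⟩
      · intro h; exact absurd h (by simp)
    · refine ⟨(clu src tgt G u, false), ?_, ?_, ?_⟩
      · rw [Finset.mem_product]
        exact ⟨mem_TC.2 ⟨u, a1, a2, rfl⟩, Finset.mem_univ _⟩
      · intro h; exact absurd h (by simp)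
      · intro _
        exact ⟨fun w hw => a4 w hw, u, GR.refl _ _, by omega⟩
  choose! f hf using key
  have h1 := Finset.card_le_card_of_injOn f (fun i hi => (hf i hi).1) (by
    intro i hi j hj hij
    obtain ⟨-, b1, b2⟩ := hf i hi
    obtain ⟨-, c1, c2⟩ := hf j hj
    rw [← hij] at c1 c2
    have fin : ∀ d : ℤ, (t : ℤ) * (3 * d) < t → (t : ℤ) * (3 * d) > -t → d = 0 := by
      intro d h1 h2
      have ht' : (0 : ℤ) < t := by exact_mod_cast ht0
      by_contra hd
      rcases lt_or_gt_of_ne hd with hd | hd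
      · nlinarith
      · nlinarith
    have fin2 : (i : ℤ) - j = 0 → i = j := by intro h; omega
    cases hb : (f i).2 with
    | true =>
      obtain ⟨b3, w, b4, b5⟩ := b1 hb
      obtain ⟨c3, w', c4, c5⟩ := c1 hb
      have e1 := c3 w b4
      have e2 := b3 w' c4
      exact fin2 (fin _ (by nlinarith) (by nlinarith))
    | false =>
      obtain ⟨b3, w, b4, b5⟩ := b2 hb
      obtain ⟨c3, w', c4, c5⟩ := c2 hb
      have e1 := c3 w b4
      have e2 := b3 w' c4
      exact fin2 (fin _ (by nlinarith) (by nlinarith)))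
  rw [Finset.card_product, Finset.card_univ, Fintype.card_bool] at h1
  unfold NC
  omega

theorem nl_local {x0 h : ℤ} {k t : ℕ} {F : Finset Edg} : NLn x0 h k t (↑F : Set Edg) ↔
    NLn x0 h k t (↑(F ∩ blk (x0, h) (8 * k)) : Set Edg) := by
  unfold NLn
  have e : (↑(F ∩ blk (x0, h) (8 * k)) : Set Edg) ∩ ↑(blk (x0, h) (8 * k)) =
      (↑F : Set Edg) ∩ ↑(blk (x0, h) (8 * k)) := by
    rw [Finset.coe_inter, Set.inter_assoc, Set.inter_self]
  rw [e]

theorem nl_trl {x0 h a : ℤ} {k t : ℕ} {F : Finset Edg} (H : NLn x0 h k t (↑F : Set Edg)) :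
    NLn (x0 + a) h k t (↑((trl a 0).mp F) : Set Edg) := by
  obtain ⟨u, h1, h2, ⟨y, h3, h4⟩, h5⟩ := H
  have eb : (trl a 0).mp (blk (x0, h) (8 * k)) = blk (x0 + a, h) (8 * k) := by
    unfold blk
    rw [trl_RE]
    congr 1 <;> ring
  have hr : ∀ v w : Vtx, Reach (↑((trl a 0).mp F) ∩ ↑(blk (x0 + a, h) (8 * k)) : Set Edg)
      (v.1 + a, v.2 + 0) (w.1 + a, w.2 + 0) ↔
      Reach (↑F ∩ ↑(blk (x0, h) (8 * k)) : Set Edg) v w := by
    intro v w
    rw [← eb, ← Finset.coe_inter, ← LSym.mp_inter, ← Finset.coe_inter]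
    exact BS_reach_trl a 0
  refine ⟨(u.1 + a, u.2 + 0), ?_, ?_, ⟨(y.1 + a, y.2 + 0), ?_, (hr u y).2 h4⟩, ?_⟩
  · simpa using h1
  · simpa using h2
  · rw [mem_bdB] at h3 ⊢
    rw [← h3]
    unfold sd
    simp
  · intro s hs hsr
    have := (hr u (x0, s)).1 (by simpa using hsr)
    exact h5 s hs this

theorem t_NL (hNC : S_NC) : S_NL := by
  obtain ⟨C, hC, hNC⟩ := hNC
  refine ⟨6 * C, by positivity, fun x0 h k t S ht0 ht hS => ?_⟩
  have hk0 : 1 ≤ k := ht0.trans ht
  set p := PQ (1 / 2) S (fun F => NLn x0 h k t (↑F : Set Edg)) with hp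
  set T : Finset Edg := blk (x0, h) (9 * k) with hT
  set n : ℕ := k / (3 * t) + 1 with hn
  have hn1 : ∀ i < n, 3 * t * i ≤ k := by
    intro i hi
    have : i ≤ k / (3 * t) := by omega
    calc 3 * t * i ≤ 3 * t * (k / (3 * t)) := Nat.mul_le_mul_left _ this
      _ ≤ k := Nat.mul_div_le _ _
  have hshift : ∀ i < n, p ≤ PQ (1 / 2) T (fun F => NLn (x0 + 3 * t * (i : ℕ)) h k t (↑F : Set Edg)) := by
    intro i hi
    have e1 : p = PQ (1 / 2) (blk (x0, h) (8 * k)) (fun F => NLn x0 h k t (↑F : Set Edg)) :=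
      Pr_local hS (fun F _ => nl_local)
    have h3 : ((3 * t * i : ℕ) : ℤ) ≤ k := by exact_mod_cast hn1 i hi
    push_cast at h3
    have hsub : blk (x0 + 3 * t * (i : ℕ), h) (8 * k) ⊆ T := by
      refine nl_blk (k := k) ?_ (by omega)
      rw [sub_add_cancel_left, abs_neg, abs_of_nonneg (by positivity)]
      exact h3
    have e2 : PQ (1 / 2) T (fun F => NLn (x0 + 3 * t * (i : ℕ)) h k t (↑F : Set Edg)) =
        PQ (1 / 2) (blk (x0 + 3 * t * (i : ℕ), h) (8 * k))
          (fun F => NLn (x0 + 3 * t * (i : ℕ)) h k t (↑F : Set Edg)) :=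
      Pr_local hsub (fun F _ => nl_local)
    have eb : (trl (3 * t * (i : ℕ)) 0).mp (blk (x0, h) (8 * k)) =
        blk (x0 + 3 * t * (i : ℕ), h) (8 * k) := by
      unfold blk
      rw [trl_RE]
      congr 1 <;> ring
    rw [e1, e2, ← eb]
    unfold PQ
    rw [(trl (3 * t * (i : ℕ)) 0).pr]
    exact Pr_mono okhalf (fun F _ hF => nl_trl hF)
  have hsum : (n : ℝ) * p ≤ 2 * C := by
    have h1 : (n : ℝ) * p ≤ ∑ i ∈ Finset.range n,
        PQ (1 / 2) T (fun F => NLn (x0 + 3 * t * (i : ℕ)) h k t (↑F : Set Edg)) := by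
      have : (n : ℝ) * p = ∑ i ∈ Finset.range n, p := by
        rw [Finset.sum_const, Finset.card_range, nsmul_eq_mul]
      rw [this]
      exact Finset.sum_le_sum (fun i hi => hshift i (Finset.mem_range.1 hi))
    refine h1.trans ?_
    unfold PQ Pr
    rw [← Ex_sum]
    have h2 : Ex (fun _ : Edg => (1 / 2 : ℝ)) T (fun F => ∑ i ∈ Finset.range n,
        ind (NLn (x0 + 3 * t * (i : ℕ)) h k t (↑F : Set Edg))) ≤
        Ex (fun _ : Edg => (1 / 2 : ℝ)) T (fun F => 2 * (NC src tgt (ctr (x0, h) (2 * k))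
          {y | BSfar (x0, h) (3 * (2 * k)) y} (↑(F ∩ blk (x0, h) (6 * k)) : Set Edg) : ℝ)) := by
      refine Ex_mono okhalf (fun F _ => ?_)
      classical
      have h3 := nl_count (x0 := x0) (h := h) (F := (↑F : Set Edg)) ht0 ht hn1
        ((Finset.range n).filter (fun i => NLn (x0 + 3 * t * (i : ℕ)) h k t (↑F : Set Edg)))
        (fun i hi => by rw [Finset.mem_filter, Finset.mem_range] at hi; exact hi)
      have h4 : ∑ i ∈ Finset.range n, ind (NLn (x0 + 3 * t * (i : ℕ)) h k t (↑F : Set Edg)) =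
          (((Finset.range n).filter
            (fun i => NLn (x0 + 3 * t * (i : ℕ)) h k t (↑F : Set Edg))).card : ℝ) := by
        rw [Finset.card_filter]
        push_cast
        refine Finset.sum_congr rfl (fun i _ => ?_)
        by_cases hi : NLn (x0 + 3 * t * (i : ℕ)) h k t (↑F : Set Edg)
        · rw [ind_of hi, if_pos hi]
        · rw [ind_not_of hi, if_neg hi]
      rw [h4, Finset.coe_inter]
      exact_mod_cast h3
    refine h2.trans ?_
    rw [Ex_mul_left]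
    have h5 : Ex (fun _ : Edg => (1 / 2 : ℝ)) T (fun F => (NC src tgt (ctr (x0, h) (2 * k))
          {y | BSfar (x0, h) (3 * (2 * k)) y} (↑(F ∩ blk (x0, h) (6 * k)) : Set Edg) : ℝ)) =
        Ex (fun _ : Edg => (1 / 2 : ℝ)) (blk (x0, h) (6 * k)) (fun F =>
          (NC src tgt (ctr (x0, h) (2 * k))
          {y | BSfar (x0, h) (3 * (2 * k)) y} (↑F : Set Edg) : ℝ)) := by
      rw [Ex_local (S' := blk (x0, h) (6 * k)) (blk_mono (by omega)) (fun F _ => by
        rw [Finset.inter_assoc, Finset.inter_self])]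
      refine Ex_congr (fun F hF => ?_)
      rw [Finset.inter_eq_left.2 hF]
    rw [h5]
    have h6 := hNC (x0, h) (2 * k) (blk (x0, h) (6 * k)) (by omega)
    linarith
  have hp0 : 0 ≤ p := Pr_nonneg okhalf _ _
  have hkt : (k : ℝ) / (3 * t) ≤ n := by
    have h1 : k < 3 * t * n := by
      rw [hn]
      exact Nat.lt_mul_div_succ k (by omega)
    rw [div_le_iff₀ (by positivity)]
    have h2 : (k : ℝ) ≤ 3 * t * n := by exact_mod_cast h1.le
    linarith
  have ht' : (0 : ℝ) < t := by exact_mod_cast ht0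
  have hk' : (0 : ℝ) < k := by exact_mod_cast hk0
  have h7 : (k : ℝ) / (3 * t) * p ≤ 2 * C := (mul_le_mul_of_nonneg_right hkt hp0).trans hsum
  have h8 : p = (k : ℝ) / (3 * t) * p * (3 * (t / k)) := by field_simp
  rw [h8]
  calc (k : ℝ) / (3 * t) * p * (3 * (t / k)) ≤ 2 * C * (3 * (t / k)) :=
        mul_le_mul_of_nonneg_right h7 (by positivity)
    _ = 6 * C * (t / k) := by ring

end Run7.h561
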