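import Pool.Agent.Run7.h561.TP.P_DET

/-! # ONE: the one-point lower bound -/

set_option autoImplicit false

namespace Run7.h561

open H974 H12S Finset H984P H984N SURG

/-- The class of the origin is determined by the edges which touch it. -/
theorem cl_eq {R : ℕ} {S F F' : Finset Edg} (hF : F ⊆ S) (hF' : F' ⊆ S)
    (h : F ∩ KV R F = F' ∩ KV R F) :
    Pool.Agent.Y989.FR.cl R (↑F' : Set Edg) = Pool.Agent.Y989.FR.cl R (↑F : Set Edg) := by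
  have h1 : ∀ e ∈ KV R F, (e ∈ F ↔ e ∈ F') := by
    intro e he
    have := Finset.ext_iff.1 h e
    simp only [Finset.mem_inter, he, and_true] at this
    exact this
  ext x
  constructor
  · intro hx
    refine reach_inv (P := fun x => x ∈ Pool.Agent.Y989.FR.cl R (↑F : Set Edg)) ?_ hx (Reach.refl _ _)
    rintro y z hy ⟨e, ⟨he1, he2⟩, he3⟩
    have heF' : e ∈ F' := by exact_mod_cast he1
    have heB : e ∈ boxE R := by exact_mod_cast he2
    have hK : e ∈ KV R F := by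
      rw [mem_KV]
      refine ⟨heB, ?_⟩
      rcases he3 with ⟨a1, _⟩ | ⟨_, a1⟩
      · left; rw [a1]; exact hy
      · right; rw [a1]; exact hy
    have heF : e ∈ F := (h1 e hK).2 heF'
    exact Reach.trans hy (Adj.reach ⟨e, ⟨by exact_mod_cast heF, he2⟩, he3⟩)
  · intro hx
    have h3 := reach_restrict hx
    refine Reach.mono ?_ h3
    rintro e ⟨⟨he1, he2⟩, a1, a2⟩
    have heF : e ∈ F := by exact_mod_cast he1
    have heB : e ∈ boxE R := by exact_mod_cast he2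
    have hK : e ∈ KV R F := mem_KV.2 ⟨heB, Or.inl a1⟩
    exact ⟨by exact_mod_cast (h1 e hK).1 heF, he2⟩

theorem KV_eq {R : ℕ} {S F F' : Finset Edg} (hF : F ⊆ S) (hF' : F' ⊆ S)
    (h : F ∩ KV R F = F' ∩ KV R F) : KV R F' = KV R F := by
  ext e
  rw [mem_KV, mem_KV, cl_eq hF hF' h]

theorem stop_KV (R : ℕ) (S : Finset Edg) : Stop S (KV R) := fun _ _ hF hF' h => KV_eq hF hF' h

theorem acc_mono {k l : ℕ} (hk : 1 ≤ k) (h : k ≤ l) {F : Set Edg}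
    (hA : Pool.Agent.Y989.FR.Acc l F) : Pool.Agent.Y989.FR.Acc k F := by
  obtain ⟨⟨w, w1, w2⟩, h1, y, y1, h2⟩ := hA
  rw [mem_bdB] at w1 y1
  have hkl : (k : ℤ) ≤ l := by exact_mod_cast h
  have hk' : (1 : ℤ) ≤ k := by exact_mod_cast hk
  have sub : ∀ x ∈ Pool.Agent.Y989.FR.cl k F, x ∈ Pool.Agent.Y989.FR.cl l F := fun x hx =>
    cl_mono_box h hx
  refine ⟨?_, fun h3 => h1 (sub _ h3), ?_⟩
  · obtain ⟨w', a1, a2, -⟩ := first_level (0, 0) (k : ℤ) w2 (by rw [sd_le]; simp) (by omega)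
    refine ⟨w', mem_bdB.2 a1, ?_⟩
    refine a2.mono ?_
    rintro e ⟨⟨b1, b2⟩, b3, b4⟩
    exact ⟨b1, by exact_mod_cast mem_boxE.2 ⟨b3, b4⟩⟩
  · obtain ⟨y', a1, a2, -⟩ := first_level (0, 0) (k : ℤ) h2
      (by rw [sd_le]; simp only; omega) (by omega)
    refine ⟨y', mem_bdB.2 a1, a2.mono ?_⟩
    rintro e ⟨⟨b1, b2, b3⟩, b4, b5⟩
    exact ⟨mem_boxE.2 ⟨b4, b5⟩, fun h => b2 (sub _ h), fun h => b3 (sub _ h)⟩

theorem adm_rot {g : LSym} (hg : NSym g) {a m ρ : ℕ} {T : Finset (ℤ × ℤ)} {e : ℤ × ℤ}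
    (h : AdS a m ρ T e) (hb : (cell m (g.ψ e)).2 ≤ -(5 * (a * m) : ℤ) + m) :
    Adm a m ρ (T.image g.ψ) (g.ψ e) := by
  refine ⟨Finset.mem_image_of_mem _ h.mem, ?_, ?_, hb⟩
  · intro q hq
    rw [Finset.mem_image] at hq
    obtain ⟨q', hq', rfl⟩ := hq
    rw [← hg.cel, hg.sd0]
    exact h.hi q' hq'
  · intro q hq
    rw [Finset.mem_image] at hq
    obtain ⟨q', hq', rfl⟩ := hq
    rw [← hg.cel, hg.sd0]
    exact h.lo q' hq'

theorem ads_rot {g : LSym} (hg : NSym g) {a m ρ : ℕ} {T : Finset (ℤ × ℤ)} {e : ℤ × ℤ}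
    (h : AdS a m ρ T e)
    (hb : ((cell m (g.ψ e)).2 ≤ -(5 * (a * m) : ℤ) + m ∨ 5 * (a * m : ℤ) - m ≤ (cell m (g.ψ e)).2) ∨
    ((cell m (g.ψ e)).1 ≤ -(5 * (a * m) : ℤ) + m ∨ 5 * (a * m : ℤ) - m ≤ (cell m (g.ψ e)).1)) :
    AdS a m ρ (T.image g.ψ) (g.ψ e) := by
  refine ⟨Finset.mem_image_of_mem _ h.mem, ?_, ?_, hb⟩
  · intro q hq
    rw [Finset.mem_image] at hq
    obtain ⟨q', hq', rfl⟩ := hq
    rw [← hg.cel, hg.sd0]
    exact h.hi q' hq'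
  · intro q hq
    rw [Finset.mem_image] at hq
    obtain ⟨q', hq', rfl⟩ := hq
    rw [← hg.cel, hg.sd0]
    exact h.lo q' hq'

/-- Rotation of the exit to the bottom. -/
theorem to_bottom {M B a m ρ ρ' n : ℕ} {T : Finset (ℤ × ℤ)} {e : ℤ × ℤ} (h : AdS a m ρ T e) :
    ∃ (T' : Finset (ℤ × ℤ)) (e' : ℤ × ℤ), Adm a m ρ T' e' ∧
      PQ (1 / 2) (boxE n) (fun F => Cl1 M B a m ρ T e (↑F : Set Edg) ∧ Cl2 a m ρ' T F) ≤
      PQ (1 / 2) (boxE n) (fun F => Cl1 M B a m ρ T' e' (↑F : Set Edg) ∧ Cl2 a m ρ' T' F) := by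
  -- vertical exits
  have vert : ∀ (T : Finset (ℤ × ℤ)) (e : ℤ × ℤ), AdS a m ρ T e →
      ((cell m e).2 ≤ -(5 * (a * m) : ℤ) + m ∨ 5 * (a * m : ℤ) - m ≤ (cell m e).2) →
      ∃ (T' : Finset (ℤ × ℤ)) (e' : ℤ × ℤ), Adm a m ρ T' e' ∧
      PQ (1 / 2) (boxE n) (fun F => Cl1 M B a m ρ T e (↑F : Set Edg) ∧ Cl2 a m ρ' T F) ≤
      PQ (1 / 2) (boxE n) (fun F => Cl1 M B a m ρ T' e' (↑F : Set Edg) ∧ Cl2 a m ρ' T' F) := by
    intro T e h hs
    rcases hs with hs | hs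
    · exact ⟨T, e, ⟨h.mem, h.hi, h.lo, hs⟩, le_rfl⟩
    · refine ⟨T.image (rfy 0).ψ, (rfy 0).ψ e, adm_rot nsym_rfy h ?_, nsym_rfy.pr_le⟩
      obtain ⟨e1, e2⟩ := e
      simp only [cell, rfy_ψ] at hs ⊢
      have : (m : ℤ) * (0 - e2) = -(m * e2) := by ring
      rw [this]
      omega
  rcases h.side with hs | hs
  · exact vert T e h hs
  · have h1 : ((cell m (tps.ψ e)).2 ≤ -(5 * (a * m) : ℤ) + m ∨
        5 * (a * m : ℤ) - m ≤ (cell m (tps.ψ e)).2) := by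
      obtain ⟨e1, e2⟩ := e
      simp only [cell, tps_ψ] at hs ⊢
      exact hs
    obtain ⟨T', e', h2, h3⟩ := vert _ _ (ads_rot nsym_tps h (Or.inl h1)) h1
    exact ⟨T', e', h2, nsym_tps.pr_le.trans h3⟩

theorem exists_L {D δ s : ℝ} (hs : 0 < s) (hδ : 0 < δ) :
    ∃ L : ℕ, 3 ≤ L ∧ D * (1 / (L : ℝ)) ^ s ≤ δ := by
  have h1 : Filter.Tendsto (fun L : ℕ => D * (1 / (L : ℝ)) ^ s) Filter.atTop (nhds 0) := by
    have h2 : Filter.Tendsto (fun L : ℕ => (1 / (L : ℝ))) Filter.atTop (nhds 0) :=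
      tendsto_one_div_atTop_nhds_zero_nat
    have h3 := (h2.rpow_const (p := s) (Or.inr hs.le)).const_mul D
    rw [Real.zero_rpow hs.ne', mul_zero] at h3
    exact h3
  have h4 := (h1.eventually (ge_mem_nhds hδ)).and (Filter.eventually_ge_atTop 3)
  obtain ⟨L, h5, h6⟩ := h4.exists
  exact ⟨L, h6, h5⟩

/-- **ONE** -/
theorem t_ONE (acc : Pool.Agent.Y989.FR.S_ACC) (acu : Pool.Agent.Y989.FR.S_ACU)
    (thk : Pool.Agent.Y989.FR.S_THK) (crs : S_CRS) : S_ONE := by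
  obtain ⟨c, c0, hacc⟩ := acc
  obtain ⟨C1, C10, hacu⟩ := acu
  obtain ⟨C2, s, C20, s0, hcrs⟩ := crs
  obtain ⟨M, B, m0, hM, hB, hthk⟩ := thk (c / 2) (by positivity)
  set K : ℝ := (512 : ℝ) ^ (-(2 / 3 : ℝ)) with hK
  have K0 : 0 < K := by positivity
  obtain ⟨L, hL, hLs⟩ := exists_L (D := C1 * C2) (δ := c / 4 * K) s0 (by positivity)
  refine ⟨M, B, L, 45 * KZ M B L + 4 * L ^ 2, hM, hB, hL, ?_⟩
  intro a ha hdv
  obtain ⟨d, hd⟩ := hdv
  have hL2 : 0 < L ^ 2 := by positivity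
  have hd2 : 2 ≤ d := by
    by_contra h
    push Not at h
    have h1 : a ≤ 2 * L ^ 2 * 1 := by rw [hd]; exact Nat.mul_le_mul_left _ (by omega)
    omega
  have ha1 : 45 * KZ M B L ≤ a := by omega
  have ha0 : 1 ≤ a := by omega
  set N : ℝ := ((Bx a).powerset.card : ℝ) * (Bx a).card with hN
  have hBx : (0, 0) ∈ Bx a := by
    unfold Bx
    rw [Finset.mem_product]
    simp only [Finset.mem_Icc]
    omega
  have N0 : 0 < N := by
    rw [hN]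
    have h1 : 0 < (Bx a).powerset.card := Finset.card_pos.2 ⟨∅, by simp⟩
    have h2 : 0 < (Bx a).card := Finset.card_pos.2 ⟨_, hBx⟩
    positivity
  refine ⟨c / 4 * K * (a : ℝ) ^ (-(2 / 3 : ℝ)) / N, m0 + 1, by positivity, ?_⟩
  intro m hm
  have hm1 : 1 ≤ m := by omega
  set U : ℕ := a * m with hU
  have hU1 : 1 ≤ U := Nat.mul_pos ha0 hm1
  set X : ℝ := (U : ℝ) ^ (-(2 / 3 : ℝ)) with hX
  have X0 : 0 < X := by
    have : (0 : ℝ) < U := by exact_mod_cast hU1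
    positivity
  have eX : ((512 * U : ℕ) : ℝ) ^ (-(2 / 3 : ℝ)) = K * X := by
    push_cast
    rw [Real.mul_rpow (by norm_num) (by positivity)]
  have eX2 : X = (a : ℝ) ^ (-(2 / 3 : ℝ)) * (m : ℝ) ^ (-(2 / 3 : ℝ)) := by
    rw [hX, hU]; push_cast
    rw [Real.mul_rpow (by positivity) (by positivity)]
  -- probabilities in the box of radius `512 U`
  set S : Finset Edg := boxE (512 * U) with hS
  have p1 : c * (K * X) ≤ PQ (1 / 2) S (fun F => Pool.Agent.Y989.FR.Acc (512 * U) ↑F) := by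
    have := hacc (512 * U) (by omega)
    rwa [eX] at this
  have p2 : PQ (1 / 2) S (fun F => Pool.Agent.Y989.FR.Acc (512 * U) ↑F ∧
      ¬ Pool.Agent.Y989.FR.TkA M B (8 * U) (512 * U) ↑F) ≤ c / 2 * (K * X) := by
    have h1 : m0 ≤ 512 * U := by
      have : m ≤ U := Nat.le_mul_of_pos_left m ha0
      omega
    have := hthk (512 * U) h1
    rw [eX, show 512 * U / 64 = 8 * U by omega] at this
    exact this
  have hLU : U / L * L = U := by
    apply Nat.div_mul_cancel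
    rw [hU, hd]
    exact ⟨2 * L * d * m, by ring⟩
  have hUL1 : 1 ≤ U / L := by
    rcases Nat.eq_zero_or_pos (U / L) with h | h
    · rw [h] at hLU; omega
    · exact h
  have p3 : PQ (1 / 2) S (fun F => Pool.Agent.Y989.FR.Acc (512 * U) ↑F ∧
      Crs 0 0 (U / L) U (↑(F \ KV U F) : Set Edg)) ≤ c / 4 * (K * X) := by
    have h1 : PQ (1 / 2) S (fun F => Pool.Agent.Y989.FR.Acc (512 * U) ↑F ∧
        Crs 0 0 (U / L) U (↑(F \ KV U F) : Set Edg)) ≤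
        PQ (1 / 2) S (fun F => Pool.Agent.Y989.FR.Acc U ↑F ∧
        (fun F : Finset Edg => Crs 0 0 (U / L) U (↑F : Set Edg)) (F \ KV U F)) :=
      Pr_mono ok_half fun F _ h => ⟨acc_mono hU1 (by omega) h.1, h.2⟩
    have h2 := markov_le (p := fun _ => (1 / 2 : ℝ)) ok_half (S := S) (stop_KV U S)
      (A := fun F => Pool.Agent.Y989.FR.Acc U (↑F : Set Edg))
      (B := fun F => Crs 0 0 (U / L) U (↑F : Set Edg))
      (by
        intro F F' hF hF' h h3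
        unfold Pool.Agent.Y989.FR.Acc at h3 ⊢
        rw [cl_eq hF hF' h]
        exact h3)
      (fun F G h h3 => BS_crs_mono (by exact_mod_cast h) h3)
    have h3 : PQ (1 / 2) S (fun F => Pool.Agent.Y989.FR.Acc U ↑F) ≤ C1 * X :=
      hacu U hU1 S (boxE_mono (by omega))
    have h4 : PQ (1 / 2) S (fun F => Crs 0 0 (U / L) U (↑F : Set Edg)) ≤ C2 * (1 / (L : ℝ)) ^ s := by
      have := hcrs 0 0 (U / L) U S hUL1 (Nat.div_le_self _ _)
      have e1 : (((U / L : ℕ) : ℝ)) / U = 1 / L := by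
        have h5 : ((U / L : ℕ) : ℝ) * L = U := by exact_mod_cast hLU
        have hL0 : (0 : ℝ) < L := by
          have : 0 < L := by omega
          exact_mod_cast this
        have hU0 : (0 : ℝ) < U := by exact_mod_cast hU1
        rw [div_eq_div_iff hU0.ne' hL0.ne']
        rw [h5]; ring
      rwa [e1] at this
    calc _ ≤ _ := h1
      _ ≤ _ := h2
      _ ≤ (C1 * X) * (C2 * (1 / (L : ℝ)) ^ s) :=
          mul_le_mul h3 h4 (Pr_nonneg ok_half _ _) (by positivity)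
      _ = (C1 * C2 * (1 / (L : ℝ)) ^ s) * X := by ring
      _ ≤ (c / 4 * K) * X := mul_le_mul_of_nonneg_right hLs X0.le
      _ = _ := by ring
  set Ev : Finset Edg → Prop := fun F => (Pool.Agent.Y989.FR.Acc (512 * U) ↑F ∧
    Pool.Agent.Y989.FR.TkA M B (8 * U) (512 * U) ↑F) ∧
    ¬ Crs 0 0 (U / L) U (↑(F \ KV U F) : Set Edg) with hEv
  have p4 : c / 4 * (K * X) ≤ PQ (1 / 2) S Ev := by
    have h1 : PQ (1 / 2) S (fun F => Pool.Agent.Y989.FR.Acc (512 * U) ↑F) ≤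
        PQ (1 / 2) S (fun F => Ev F ∨ ((Pool.Agent.Y989.FR.Acc (512 * U) ↑F ∧
          ¬ Pool.Agent.Y989.FR.TkA M B (8 * U) (512 * U) ↑F) ∨
          (Pool.Agent.Y989.FR.Acc (512 * U) ↑F ∧
            Crs 0 0 (U / L) U (↑(F \ KV U F) : Set Edg)))) := by
      refine Pr_mono ok_half fun F _ h => ?_
      simp only [hEv]
      tauto
    have h2 := Pr_or_le ok_half S Ev (fun F => (Pool.Agent.Y989.FR.Acc (512 * U) ↑F ∧
          ¬ Pool.Agent.Y989.FR.TkA M B (8 * U) (512 * U) ↑F) ∨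
          (Pool.Agent.Y989.FR.Acc (512 * U) ↑F ∧
            Crs 0 0 (U / L) U (↑(F \ KV U F) : Set Edg)))
    have h3 := Pr_or_le ok_half S (fun F => Pool.Agent.Y989.FR.Acc (512 * U) ↑F ∧
          ¬ Pool.Agent.Y989.FR.TkA M B (8 * U) (512 * U) ↑F)
          (fun F => Pool.Agent.Y989.FR.Acc (512 * U) ↑F ∧
            Crs 0 0 (U / L) U (↑(F \ KV U F) : Set Edg))
    unfold PQ at p1 p2 p3 h1 ⊢
    linarith
  -- pigeonhole
  set W : (Finset (ℤ × ℤ)) × (ℤ × ℤ) → Finset Edg → Prop := fun t F =>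
    AdS a m (U / (2 * L ^ 2)) t.1 t.2 ∧
      Cl1 M B a m (U / (2 * L ^ 2)) t.1 t.2 (↑F : Set Edg) ∧ Cl2 a m (U / L) t.1 F with hW
  have p5 : PQ (1 / 2) S Ev ≤ ∑ t ∈ (Bx a).powerset ×ˢ Bx a, PQ (1 / 2) S (W t) := by
    have h1 : PQ (1 / 2) S Ev ≤ PQ (1 / 2) S (fun F => ∃ t ∈ (Bx a).powerset ×ˢ Bx a, W t F) := by
      refine Pr_mono ok_half fun F _ h => ?_
      obtain ⟨T, hT, e, he, h2, h3, h4⟩ := one_det hB (by omega) hd hd2 ha1 hm1 h.1.1.1 h.1.2 h.2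
      exact ⟨(T, e), Finset.mem_product.2 ⟨hT, he⟩, h2, h3, h4⟩
    exact h1.trans (Pr_exists_le ok_half S _ _)
  obtain ⟨t, ht, ht2⟩ : ∃ t ∈ (Bx a).powerset ×ˢ Bx a,
      c / 4 * (K * X) / N ≤ PQ (1 / 2) S (W t) := by
    by_contra hcon
    push Not at hcon
    have h1 : ∑ t ∈ (Bx a).powerset ×ˢ Bx a, PQ (1 / 2) S (W t) <
        ∑ _t ∈ (Bx a).powerset ×ˢ Bx a, c / 4 * (K * X) / N :=
      Finset.sum_lt_sum_of_nonempty ⟨(∅, (0, 0)), Finset.mem_product.2 ⟨by simp, hBx⟩⟩ hcon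
    rw [Finset.sum_const, nsmul_eq_mul, Finset.card_product, Nat.cast_mul, ← hN,
      mul_div_cancel₀ _ N0.ne'] at h1
    linarith
  have hpos : 0 < PQ (1 / 2) S (W t) := lt_of_lt_of_le (by positivity) ht2
  have hAd : AdS a m (U / (2 * L ^ 2)) t.1 t.2 := by
    by_contra h
    have : PQ (1 / 2) S (W t) = 0 := MK_false _ _ fun F _ hF => h hF.1
    linarith
  obtain ⟨T', e', hAdm, hle⟩ := to_bottom (M := M) (B := B) (ρ' := U / L) (n := 512 * U) hAd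
  refine ⟨T', e', hAdm, ?_⟩
  intro S' hS'
  have loc : ∀ F : Finset Edg, ((Cl1 M B a m (U / (2 * L ^ 2)) T' e' (↑F : Set Edg) ∧
      Cl2 a m (U / L) T' F) ↔
      (Cl1 M B a m (U / (2 * L ^ 2)) T' e' (↑(F ∩ boxE (5 * U)) : Set Edg) ∧
        Cl2 a m (U / L) T' (F ∩ boxE (5 * U)))) := by
    intro F
    have k : ∀ g ∈ boxE (5 * U), (g ∈ F ↔ g ∈ F ∩ boxE (5 * U)) := fun g hg => by
      rw [Finset.mem_inter]; exact ⟨fun h => ⟨h, hg⟩, fun h => h.1⟩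
    have k0 : ∀ g ∈ boxE U, (g ∈ F ↔ g ∈ F ∩ boxE (5 * U)) := fun g hg =>
      k g (boxE_mono (by omega) hg)
    constructor
    · rintro ⟨h1, h2⟩
      exact ⟨Cl1_congr k0 h1, Cl2_congr k h2⟩
    · rintro ⟨h1, h2⟩
      exact ⟨Cl1_congr (fun g hg => (k0 g hg).symm) h1, Cl2_congr (fun g hg => (k g hg).symm) h2⟩
  have e1 : PQ (1 / 2) S (fun F => Cl1 M B a m (U / (2 * L ^ 2)) T' e' (↑F : Set Edg) ∧
      Cl2 a m (U / L) T' F) = PQ (1 / 2) (boxE (5 * U)) (fun F =>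
      Cl1 M B a m (U / (2 * L ^ 2)) T' e' (↑F : Set Edg) ∧ Cl2 a m (U / L) T' F) :=
    Pr_local (boxE_mono (by omega)) fun F _ => loc F
  have e2 : PQ (1 / 2) S' (fun F => Cl1 M B a m (U / (2 * L ^ 2)) T' e' (↑F : Set Edg) ∧
      Cl2 a m (U / L) T' F) = PQ (1 / 2) (boxE (5 * U)) (fun F =>
      Cl1 M B a m (U / (2 * L ^ 2)) T' e' (↑F : Set Edg) ∧ Cl2 a m (U / L) T' F) :=
    Pr_local hS' fun F _ => loc F
  rw [e2, ← e1]
  refine le_trans ?_ (ht2.trans (le_trans ?_ hle))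
  · rw [eX2]
    apply le_of_eq
    ring
  · exact Pr_mono ok_half fun F _ h => ⟨h.2.1, h.2.2⟩

end Run7.h561
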