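import Pool.Agent.Run7.h561.TP.P_TIP
import Pool.Agent.Run7.h561.TP.P_GAD
import Pool.Agent.Run7.h561.TP.P_FINB
import Pool.Agent.Run7.h561.TP.P_MIX
import Pool.Agent.Run7.h561.TP.P_SURG
import Pool.Agent.Run7.h561.TP.P_SDET
import Pool.Agent.Run7.h561.TP.P_DEC
import Pool.Agent.Run7.h561.TP.P_KXS
import Pool.Agent.Run7.h561.TP.P_PBX
import Pool.Agent.Run7.h561.TP.P_NL
import Pool.Agent.Run7.h561.TP.P_PN
import Pool.Agent.Run7.h561.TP.P_ONE
import Pool.Agent.Run7.h561.TP.P_CZ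

/-! # Project TP: the steps together -/

set_option autoImplicit false

namespace Run7.h561

theorem a_TIP : S_TIP := t_TIP (t_SURG t_MIX t_PBX t_KXS) (t_SDET t_CZ) t_DEC t_KXS t_NC
  (t_PN t_CRS (t_NL t_NC) t_KXS) t_CRS

theorem a_GAD' (acc : Pool.Agent.Y989.FR.S_ACC) (acu : Pool.Agent.Y989.FR.S_ACU)
    (thk : Pool.Agent.Y989.FR.S_THK) (u3 : Pool.Agent.Y989.FR.S_U3) : S_GAD :=
  t_GAD' (t_ONE acc acu thk t_CRS) u3

end Run7.h561
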