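import Pool.Agent.Run7.h561.TP.P_ROT

/-! # ONE_DET: the thick path visits cells -/

set_option autoImplicit false

namespace Run7.h561

open H974 H12S Finset H984P H984N SURG

/-- The cells near the box. -/
noncomputable def Bx (a : ℕ) : Finset (ℤ × ℤ) :=
  Finset.Icc (-(3 * a : ℤ)) (3 * a) ×ˢ Finset.Icc (-(3 * a : ℤ)) (3 * a)

/-- Admissible classes with an exit on one of the four sides. -/
structure AdS (a m ρ : ℕ) (T : Finset (ℤ × ℤ)) (e : ℤ × ℤ) : Prop where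
  mem : e ∈ T
  hi : ∀ q ∈ T, sd (cell m q) (0, 0) ≤ 5 * (a * m) + m
  lo : ∀ q ∈ T, (ρ : ℤ) ≤ 4 * sd (cell m q) (0, 0)
  side : ((cell m e).2 ≤ -(5 * (a * m) : ℤ) + m ∨ 5 * (a * m : ℤ) - m ≤ (cell m e).2) ∨
    ((cell m e).1 ≤ -(5 * (a * m) : ℤ) + m ∨ 5 * (a * m : ℤ) - m ≤ (cell m e).1)

/-- The constant of the clearance. -/
def KZ (M B L : ℕ) : ℕ := (2 * L ^ 2) ^ B * M * 64 ^ (B - 1)

theorem awy_far {M B L U m ρ : ℕ} (hB : 1 ≤ B) (hU : U = 2 * L ^ 2 * ρ) (hU0 : 1 ≤ U)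
    (hK : 45 * KZ M B L * m ≤ U) {c z : Vtx}
    (hz : (ρ : ℤ) ≤ sd z (0, 0)) (h : Pool.Agent.Y989.FR.Awy M B (8 * U) (0, 0) c z) :
    (45 * m : ℤ) < sd z c := by
  unfold Pool.Agent.Y989.FR.Awy at h
  obtain ⟨b, rfl⟩ : ∃ b, B = b + 1 := ⟨B - 1, by omega⟩
  set s : ℤ := sd z (0, 0) with hs
  set t : ℤ := sd z c with ht
  have hs0 : 0 ≤ s := sd_nonneg _ _
  have ht0 : 0 ≤ t := sd_nonneg _ _
  have hUs : (U : ℤ) ≤ (2 * L ^ 2 : ℕ) * s := by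
    rw [hU]; push_cast
    exact mul_le_mul_of_nonneg_left hz (by positivity)
  have h1 : (U : ℤ) ^ (b + 1) ≤ ((2 * L ^ 2 : ℕ) : ℤ) ^ (b + 1) * s ^ (b + 1) := by
    rw [← mul_pow]
    exact pow_le_pow_left₀ (by positivity) hUs _
  have hL : 0 < ((2 * L ^ 2 : ℕ) : ℤ) := by
    rcases Nat.eq_zero_or_pos (2 * L ^ 2) with h0 | h0
    · exfalso; rw [h0] at hU; simp at hU; omega
    · exact_mod_cast h0
  have h2 : (U : ℤ) ^ (b + 1) < ((2 * L ^ 2 : ℕ) : ℤ) ^ (b + 1) *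
      ((M : ℤ) * ((8 * (8 * U) : ℕ) : ℤ) ^ (b + 1 - 1) * t) :=
    lt_of_le_of_lt h1 (mul_lt_mul_of_pos_left h (pow_pos hL _))
  have e1 : ((2 * L ^ 2 : ℕ) : ℤ) ^ (b + 1) * ((M : ℤ) * ((8 * (8 * U) : ℕ) : ℤ) ^ (b + 1 - 1) * t) =
      (U : ℤ) ^ b * (((KZ M (b + 1) L : ℕ) : ℤ) * t) := by
    unfold KZ
    push_cast
    rw [show (8 : ℤ) * (8 * U) = 64 * U by ring, mul_pow 64 (U : ℤ) b]
    ring
  rw [e1, pow_succ] at h2
  have h3 : (U : ℤ) < ((KZ M (b + 1) L : ℕ) : ℤ) * t :=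
    lt_of_mul_lt_mul_left h2 (by positivity)
  have h4 : (45 * m : ℤ) * ((KZ M (b + 1) L : ℕ) : ℤ) ≤ U := by
    have : ((45 * KZ M (b + 1) L * m : ℕ) : ℤ) ≤ U := by exact_mod_cast hK
    push_cast at this ⊢
    linarith [this]
  have h5 : (45 * m : ℤ) * ((KZ M (b + 1) L : ℕ) : ℤ) < t * ((KZ M (b + 1) L : ℕ) : ℤ) := by
    linarith [mul_comm t ((KZ M (b + 1) L : ℕ) : ℤ)]
  exact lt_of_mul_lt_mul_right h5 (by positivity)

theorem cl_mono_box {k l : ℕ} (h : k ≤ l) {F : Set Edg} {x : Vtx}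
    (hx : x ∈ Pool.Agent.Y989.FR.cl k F) : x ∈ Pool.Agent.Y989.FR.cl l F :=
  Reach.mono (Set.inter_subset_inter_right _ (by exact_mod_cast boxE_mono h)) hx

/-- **ONE_DET** -/
theorem one_det {M B L a m d : ℕ} (hB : 1 ≤ B) (hL : 1 ≤ L) (hd : a = 2 * L ^ 2 * d) (hd2 : 2 ≤ d)
    (ha : 45 * KZ M B L ≤ a) (hm : 1 ≤ m) {F : Finset Edg}
    (hA : ∃ w ∈ bdB (0, 0) (512 * (a * m)), w ∈ Pool.Agent.Y989.FR.cl (512 * (a * m))
      (↑F : Set Edg))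
    (hT : Pool.Agent.Y989.FR.TkA M B (8 * (a * m)) (512 * (a * m)) (↑F : Set Edg))
    (hN : ¬ Crs 0 0 (a * m / L) (a * m) (↑(F \ KV (a * m) F) : Set Edg)) :
    ∃ T ∈ (Bx a).powerset, ∃ e ∈ Bx a, AdS a m (a * m / (2 * L ^ 2)) T e ∧
      Cl1 M B a m (a * m / (2 * L ^ 2)) T e (↑F : Set Edg) ∧ Cl2 a m (a * m / L) T F := by
  classical
  set U : ℕ := a * m with hU
  have hL2 : 0 < L ^ 2 := by positivity
  have div1 : U / (2 * L ^ 2) = d * m := by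
    rw [hU, hd, mul_assoc]
    exact Nat.mul_div_cancel_left _ (by positivity)
  have hUd : U = 2 * L ^ 2 * (d * m) := by rw [hU, hd]; ring
  have ha4 : 4 ≤ a := by
    rw [hd]
    calc 4 = 2 * 1 * 2 := by norm_num
      _ ≤ 2 * L ^ 2 * d := Nat.mul_le_mul (Nat.mul_le_mul le_rfl hL2) hd2
  have hm' : (1 : ℤ) ≤ m := by exact_mod_cast hm
  have ha' : (4 : ℤ) ≤ a := by exact_mod_cast ha4
  have eU : ((a : ℤ) * m) = (U : ℤ) := by rw [hU]; push_cast; ring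
  have hUm : 4 * (m : ℤ) ≤ U := by
    rw [← eU]; exact mul_le_mul_of_nonneg_right ha' (by positivity)
  have hU0 : 1 ≤ U := by zify; omega
  have hdm : 2 * (m : ℤ) ≤ ((d * m : ℕ) : ℤ) := by exact_mod_cast Nat.mul_le_mul_right m hd2
  have hKZ : 45 * KZ M B L * m ≤ U := Nat.mul_le_mul_right m ha
  set C : Set Vtx := Pool.Agent.Y989.FR.cl (512 * U) (↑F : Set Edg) with hC
  have far := fun {c z : Vtx} (h1 : ((d * m : ℕ) : ℤ) ≤ sd z (0, 0))
      (h2 : Pool.Agent.Y989.FR.Awy M B (8 * U) (0, 0) c z) =>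
    awy_far (L := L) (m := m) hB hUd hU0 hKZ h1 h2
  have clC : ∀ x ∈ Pool.Agent.Y989.FR.cl U (↑F : Set Edg), x ∈ C := fun x hx =>
    cl_mono_box (by omega) hx
  -- coordinates
  have up : ∀ k l r : ℤ, 2 * ((m : ℤ) * k) < r * U + l * m → 2 * k < r * a + l := by
    intro k l r h
    apply lt_of_mul (m := m)
    have e1 : (m : ℤ) * (r * a + l) = r * U + l * m := by rw [← eU]; ring
    have e2 : (m : ℤ) * (2 * k) = 2 * (m * k) := by ring
    rw [e1, e2]; exact h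
  have dn : ∀ k l r : ℤ, r * U + l * m < 2 * ((m : ℤ) * k) → r * a + l < 2 * k := by
    intro k l r h
    apply lt_of_mul (m := m)
    have e1 : (m : ℤ) * (r * a + l) = r * U + l * m := by rw [← eU]; ring
    have e2 : (m : ℤ) * (2 * k) = 2 * (m * k) := by ring
    rw [e1, e2]; exact h
  -- the thick path
  obtain ⟨x, x1, y0, y01, hxy0⟩ := hT
  rw [mem_bdB] at x1 y01
  obtain ⟨y, y1, hxy, -⟩ := first_level (0, 0) (5 * (U : ℤ)) hxy0 (by push_cast at x1; omega)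
    (by push_cast at y01; omega)
  -- good vertices
  set Good : Vtx → Prop := fun z => ∀ c ∈ C, Pool.Agent.Y989.FR.Awy M B (8 * U) (0, 0) c z with hGood
  have hxy' : Reach {e | (Good (src e) ∧ sd (src e) (0, 0) ≤ 5 * U) ∧
      (Good (tgt e) ∧ sd (tgt e) (0, 0) ≤ 5 * U)} x y := by
    refine hxy.mono ?_
    rintro e ⟨⟨h1, h2, h3⟩, h4, h5⟩
    exact ⟨⟨h2, h4⟩, h3, h5⟩
  -- the classes
  set T : Finset (ℤ × ℤ) := (Bx a).filter (fun q => ∃ z, sd z (cell m q) ≤ m ∧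
    ((d * m : ℕ) : ℤ) ≤ sd z (0, 0) ∧ sd z (0, 0) ≤ 5 * U ∧ Good z) with hTdef
  have inT : ∀ z : Vtx, ((d * m : ℕ) : ℤ) ≤ sd z (0, 0) → sd z (0, 0) ≤ 5 * U → Good z →
      ∃ q ∈ T, sd z (cell m q) ≤ m := by
    intro z z1 z2 z3
    obtain ⟨i, i1, i2⟩ := cell_ex hm z.1
    obtain ⟨j, j1, j2⟩ := cell_ex hm z.2
    have z4 := sd_le.1 z2
    simp only at z4
    have b1 : 2 * i < 5 * a + 2 := up i 2 5 (by omega)
    have b2 : -5 * a + -2 < 2 * i := dn i (-2) (-5) (by omega)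
    have b3 : 2 * j < 5 * a + 2 := up j 2 5 (by omega)
    have b4 : -5 * a + -2 < 2 * j := dn j (-2) (-5) (by omega)
    have hs : sd z (cell m (i, j)) ≤ m := by
      rw [sd_le]; simp only [cell]; omega
    refine ⟨(i, j), ?_, hs⟩
    rw [hTdef, Finset.mem_filter]
    refine ⟨?_, z, hs, z1, z2, z3⟩
    unfold Bx
    rw [Finset.mem_product, Finset.mem_Icc, Finset.mem_Icc]
    simp only
    omega
  have farT : ∀ q ∈ T, ∀ c ∈ C, (44 * m : ℤ) ≤ sd c (cell m q) := by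
    intro q hq c hc
    rw [hTdef, Finset.mem_filter] at hq
    obtain ⟨-, z, z1, z2, z3, z4⟩ := hq
    have h1 := far z2 (z4 c hc)
    have h2 := sd_tri z (cell m q) c
    rw [sd_comm (cell m q) c] at h2
    omega
  have hyG : Good y := by
    rcases reach_cases (Reach.symm hxy') with h | ⟨w, ⟨e, ⟨h1, h2⟩, h3⟩, -⟩
    · exfalso; rw [h] at y1; push_cast at x1; omega
    · rcases h3 with ⟨rfl, -⟩ | ⟨-, rfl⟩
      · exact h1.1
      · exact h2.1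
  have hdU : ((d * m : ℕ) : ℤ) ≤ U := by
    rw [hUd]; push_cast
    have : (1 : ℤ) ≤ 2 * L ^ 2 := by
      have : (1 : ℤ) ≤ L ^ 2 := by exact_mod_cast hL2
      omega
    calc (d : ℤ) * m = 1 * (d * m) := by ring
      _ ≤ 2 * L ^ 2 * (d * m) := mul_le_mul_of_nonneg_right this (by positivity)
  obtain ⟨e, heT, he⟩ := inT y (by omega) (by omega) hyG
  refine ⟨T, ?_, e, ?_, ⟨heT, ?_, ?_, ?_⟩, ⟨?_, x, ?_, y, he, ?_⟩, ?_⟩
  · rw [Finset.mem_powerset]; exact Finset.filter_subset _ _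
  · exact (Finset.mem_filter.1 heT).1
  · intro q hq
    rw [hTdef, Finset.mem_filter] at hq
    obtain ⟨-, z, z1, z2, z3, z4⟩ := hq
    have h1 := sd_tri (cell m q) z (0, 0)
    rw [sd_comm (cell m q) z] at h1
    rw [eU]
    omega
  · intro q hq
    rw [hTdef, Finset.mem_filter] at hq
    obtain ⟨-, z, z1, z2, z3, z4⟩ := hq
    have h1 := sd_tri z (cell m q) (0, 0)
    rw [div1]
    omega
  · have h1 := le_sd.1 y1.ge
    rw [sd_le] at he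
    rw [eU]
    omega
  · intro c hc q hq
    have := farT q hq c (clC c hc)
    omega
  · rw [mem_bdB]; exact x1
  · refine hxy'.mono ?_
    rintro g ⟨g1, g2⟩ z hz
    have key : ∀ z : Vtx, Good z → sd z (0, 0) ≤ 5 * U →
        ((sd z (0, 0) ≤ ((U / (2 * L ^ 2) : ℕ) : ℤ) ∧
          ∀ c ∈ Pool.Agent.Y989.FR.cl U (↑F : Set Edg),
            Pool.Agent.Y989.FR.Awy M B (8 * U) (0, 0) c z) ∨ ∃ q ∈ T, sd z (cell m q) ≤ m) := by
      intro z z1 z2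
      by_cases h : sd z (0, 0) ≤ ((U / (2 * L ^ 2) : ℕ) : ℤ)
      · exact Or.inl ⟨h, fun c hc => z1 c (clC c hc)⟩
      · right
        rw [div1] at h
        exact inT z (by omega) z2 z1
    rcases hz with rfl | rfl
    · exact key _ g1.1 g1.2
    · exact key _ g2.1 g2.2
  · -- Cl2
    obtain ⟨w, w1, w2⟩ := hA
    rw [mem_bdB] at w1
    obtain ⟨y2, y21, h0y, -⟩ := first_level (0, 0) (5 * (U : ℤ)) w2
      (by rw [sd_le]; simp only; omega) (by push_cast at w1; omega)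
    have hy2C : y2 ∉ Pool.Agent.Y989.FR.cl U (↑F : Set Edg) := by
      intro h
      have := cl_box h
      omega
    obtain ⟨u1, u2, a1, a2, ⟨g, hg, hg2⟩, a4, -⟩ :=
      last_hit (Pool.Agent.Y989.FR.cl U (↑F : Set Edg)) h0y (Reach.refl _ _) hy2C
    have hu1 := cl_box a1
    obtain ⟨⟨hgF, hgB⟩, hg3, hg4⟩ := hg
    have hgn : ¬ (sd (src g) (0, 0) ≤ U ∧ sd (tgt g) (0, 0) ≤ U) := by
      intro h
      apply a2
      have : g ∈ boxE U := mem_boxE.2 h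
      exact Reach.trans a1 (Adj.reach ⟨g, ⟨hgF, by exact_mod_cast this⟩, hg2⟩)
    have hu1' : sd u1 (0, 0) = U := by
      have h1 := adj_sd' (G := (↑F : Set Edg)) ⟨g, hgF, hg2⟩ (0, 0)
      rcases hg2 with ⟨rfl, rfl⟩ | ⟨rfl, rfl⟩ <;> omega
    -- the arm
    have harm : Reach {e | e ∈ F ∧ e ∉ KV U F ∧ (sd (src e) (0, 0) ≤ 5 * U ∧
        sd (tgt e) (0, 0) ≤ 5 * U) ∧ (src e ∈ C ∧ tgt e ∈ C)} u1 y2 := by
      have hall : ∀ v, Reach {e | e ∈ (↑F : Set Edg) ∩ ↑(boxE (512 * U)) ∧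
          sd (src e) (0, 0) ≤ 5 * U ∧ sd (tgt e) (0, 0) ≤ 5 * U} u1 v → v ∈ C := by
        intro v hv
        refine Reach.trans (clC _ a1) (hv.mono ?_)
        rintro e ⟨h, -⟩; exact h
      have hg5 : Reach {e | e ∈ F ∧ e ∉ KV U F ∧ (sd (src e) (0, 0) ≤ 5 * U ∧
        sd (tgt e) (0, 0) ≤ 5 * U) ∧ (src e ∈ C ∧ tgt e ∈ C)} u1 u2 := by
        apply Adj.reach
        refine ⟨g, ⟨by exact_mod_cast hgF, ?_, ⟨hg3, hg4⟩, ?_⟩, hg2⟩
        · rw [mem_KV, mem_boxE]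
          rintro ⟨h, -⟩
          exact hgn h
        · have k1 : u1 ∈ C := clC _ a1
          have k2 : u2 ∈ C := Reach.trans k1 (Adj.reach ⟨g, ⟨hgF, hgB⟩, hg2⟩)
          rcases hg2 with ⟨rfl, rfl⟩ | ⟨rfl, rfl⟩
          · exact ⟨k1, k2⟩
          · exact ⟨k2, k1⟩
      refine hg5.trans ?_
      have k2 : u2 ∈ C := by
        refine Reach.trans (clC _ a1) (Adj.reach ⟨g, ⟨hgF, hgB⟩, hg2⟩)
      have a5 := reach_restrict' (P := fun v => v ∈ C) a4 (by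
        intro v hv
        refine Reach.trans k2 (hv.mono ?_)
        rintro e ⟨⟨h, -⟩, -⟩; exact h)
      refine a5.mono ?_
      rintro e ⟨⟨⟨⟨b1, b2⟩, b3, b4⟩, b5, b6⟩, b7, b8⟩
      refine ⟨by exact_mod_cast b1, ?_, ⟨b3, b4⟩, b7, b8⟩
      rw [mem_KV]
      rintro ⟨-, h | h⟩
      · exact b5 h
      · exact b6 h
    refine ⟨u1, a1, by rw [mem_bdB]; exact hu1', y2, by rw [mem_bdB, y21, hU]; push_cast; ring, ?_⟩
    have hout : ∀ v, Reach {e | e ∈ F ∧ e ∉ KV U F ∧ (sd (src e) (0, 0) ≤ 5 * U ∧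
        sd (tgt e) (0, 0) ≤ 5 * U) ∧ (src e ∈ C ∧ tgt e ∈ C)} u1 v →
        ((U / L : ℕ) : ℤ) < sd v (0, 0) := by
      intro v hv
      by_contra h
      push Not at h
      apply hN
      refine crs_iff.2 ⟨v, u1, h, hu1'.ge, Reach.symm (hv.mono ?_)⟩
      rintro e ⟨b1, b2, -⟩
      rw [Finset.coe_sdiff]
      exact ⟨by exact_mod_cast b1, by exact_mod_cast b2⟩
    refine (reach_restrict' (P := fun v => ((U / L : ℕ) : ℤ) < sd v (0, 0)) harm hout).mono ?_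
    rintro e ⟨⟨b1, b2, ⟨b3, b4⟩, b5, b6⟩, b7, b8⟩
    refine ⟨b1, b2, ?_, ?_, ?_⟩
    · rw [mem_blk]
      rintro ⟨h, -⟩
      omega
    · rw [mem_blk]
      push_cast
      exact ⟨b3, b4⟩
    · rintro z (rfl | rfl) q hq
      · have := farT q hq _ b5; omega
      · have := farT q hq _ b6; omega

end Run7.h561
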