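import Pool.Agent.Run7.h561.TP.P_FINC
import Pool.Agent.Run7.h561.TP.StmB

/-! # DISC: the largest cluster is rich -/

set_option autoImplicit false

namespace Run7.h561

open H974 H12S Finset H984P H984N SURG H342P
open Pool.Agent.W822.PD

/-- Choice of the constant. -/
theorem clr_of {M B a m n M' : ℕ} {η ζ : ℝ} (hη : 0 < η) (hζ : 0 < ζ) (hB : 1 ≤ B) (hn : 1 ≤ n)
    (h64 : 64 * (a * m) ≤ n) (hm : η * n ≤ m) (hM1 : M ≤ M')
    (hM2 : 12 ^ B * (2 / η) ≤ (M' : ℝ)) (hM3 : 12 ^ B * (1 / ζ) ≤ (M' : ℝ)) {w c x : Vtx}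
    (hx : sd x w ≤ 12 * n)
    (h : Cln M B (8 * (a * m)) m w c x ∨ ζ * n ≤ ((sd x c : ℤ) : ℝ)) :
    sd x w ^ B ≤ (M' : ℤ) * (n : ℤ) ^ (B - 1) * sd x c := by
  have hn' : (0 : ℝ) < n := by exact_mod_cast hn
  obtain ⟨b, rfl⟩ : ∃ b, B = b + 1 := ⟨B - 1, by omega⟩
  simp only [Nat.add_sub_cancel]
  have h0 := sd_nonneg x w
  have hsd : (0 : ℤ) ≤ sd x c := sd_nonneg x c
  have key : ∀ ξ : ℝ, 0 < ξ → 12 ^ (b + 1) * (1 / ξ) ≤ (M' : ℝ) → ξ * n ≤ ((sd x c : ℤ) : ℝ) →
      sd x w ^ (b + 1) ≤ (M' : ℤ) * (n : ℤ) ^ b * sd x c := by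
    intro ξ hξ h1 h2
    have h3 : sd x w ^ (b + 1) ≤ (12 * (n : ℤ)) ^ (b + 1) := pow_le_pow_left₀ h0 hx _
    have h4 : ((sd x w : ℤ) : ℝ) ^ (b + 1) ≤ (12 * (n : ℝ)) ^ (b + 1) := by exact_mod_cast h3
    have h5 : (12 * (n : ℝ)) ^ (b + 1) = 12 ^ (b + 1) * (1 / ξ) * (n : ℝ) ^ b * (ξ * n) := by
      rw [mul_pow, pow_succ (n : ℝ) b]
      field_simp
    have h6 : 12 ^ (b + 1) * (1 / ξ) * (n : ℝ) ^ b * (ξ * n) ≤
        (M' : ℝ) * (n : ℝ) ^ b * ((sd x c : ℤ) : ℝ) := by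
      apply mul_le_mul _ h2 (by positivity) (by positivity)
      exact mul_le_mul_of_nonneg_right h1 (by positivity)
    have h7 : ((sd x w : ℤ) : ℝ) ^ (b + 1) ≤ (M' : ℝ) * (n : ℝ) ^ b * ((sd x c : ℤ) : ℝ) := by
      rw [h5] at h4
      exact h4.trans h6
    exact_mod_cast h7
  rcases h with (h | h) | h
  · unfold Pool.Agent.Y989.FR.Awy at h
    simp only [Nat.add_sub_cancel] at h
    refine h.le.trans ?_
    have h1 : ((8 * (8 * (a * m)) : ℕ) : ℤ) ≤ n := by
      have : 8 * (8 * (a * m)) ≤ n := by omega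
      exact_mod_cast this
    have h2 : ((8 * (8 * (a * m)) : ℕ) : ℤ) ^ b ≤ (n : ℤ) ^ b := pow_le_pow_left₀ (by positivity) h1 b
    have h3 : (M : ℤ) ≤ M' := by exact_mod_cast hM1
    apply mul_le_mul_of_nonneg_right _ hsd
    exact mul_le_mul h3 h2 (by positivity) (by positivity)
  · refine key (η / 2) (by positivity) ?_ ?_
    · rw [show 1 / (η / 2) = 2 / η by field_simp]
      exact hM2
    · have : (m : ℝ) ≤ 2 * ((sd x c : ℤ) : ℝ) := by exact_mod_cast h
      linarith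
  · exact key ζ hζ hM3 h

/-- Translation of the energy. -/
theorem EnV_image {V : Finset Vtx} {f : Vtx → Vtx} (hf : Function.Injective f)
    (hd : ∀ u v, sd (f u) (f v) = sd u v) (t : ℝ) : EnV t (V.image f) = EnV t V := by
  unfold EnV
  rw [Finset.sum_image (fun _ _ _ _ h => hf h)]
  refine Finset.sum_congr rfl fun u _ => ?_
  rw [Finset.sum_image (fun _ _ _ _ h => hf h)]
  refine Finset.sum_congr rfl fun v _ => ?_
  rw [hd]

/-- The deterministic part: a good tip makes the cluster rich. -/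
theorem rich_tip {t : ℝ} {M B a m : ℕ} {p c0 E0 : ℝ} {G : Finset Edg → Prop}
    (hG : Gad t M B a m p c0 E0 G) {n M' : ℕ} {F : Finset Edg} {x0 : ℤ} {w : ℕ}
    {η ζ κ : ℝ} (ht1 : t < 4 / 3) (hc0 : 0 ≤ c0) (hE0 : 0 ≤ E0)
    (hη : 0 < η) (hζ : 0 < ζ) (hB : 1 ≤ B) (hn : 1 ≤ n) (hM1 : M ≤ M')
    (hM2 : 12 ^ B * (2 / η) ≤ (M' : ℝ)) (hM3 : 12 ^ B * (1 / ζ) ≤ (M' : ℝ))
    {z : Vtx} (ha : 1 ≤ a) (hm : 1 ≤ m) (hηm : η * n ≤ m) (hκ : κ * n ≤ 8 * (a * m))
    (hz : TipE x0 w (↑F : Set Edg) z)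
    (hw : 400 * (a * m) ≤ w) (hwn : w ≤ n) (hgood : GoodAt a m x0 G F z)
    (hsl : ∀ (s : ℤ) (c : Vtx), (s : ℝ) ≤ z.2 - κ * n → c ∈ Cu (↑F : Set Edg) z →
      ζ * n < ((sd (x0, s) c : ℤ) : ℝ)) :
    RichO t (c0 * η ^ (4 / 3 : ℝ)) E0 M' B n z (↑F : Set Edg) := by
  classical
  obtain ⟨hz1, hz2, y, hy1, hy2⟩ := hz
  obtain ⟨h, hh, hG0, x, hx1, hx2⟩ := hgood
  set U : ℕ := a * m with hU
  have eU : ((a : ℤ) * m) = (U : ℤ) := by rw [hU]; push_cast; ring
  have eUr : ((a : ℝ) * m) = (U : ℝ) := by rw [hU]; push_cast; ring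
  have hU1 : (1 : ℤ) ≤ U := by exact_mod_cast Nat.mul_pos ha hm
  have hmU : m ≤ U := Nat.le_mul_of_pos_left m (by omega)
  have hmn : m ≤ n := by omega
  have hn' : (0 : ℝ) < n := by exact_mod_cast hn
  have hm' : (0 : ℝ) < m := by exact_mod_cast hm
  set C : Set Vtx := Cu (↑F : Set Edg) z with hC
  set F0 : Finset Edg := (trl (-x0) (-h)).mp F with hF0
  have hsh : ∀ {a b : Vtx}, Reach (↑F : Set Edg) a b →
      Reach (↑F0 : Set Edg) (a.1 - x0, a.2 - h) (b.1 - x0, b.2 - h) := fun {a b} h1 => by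
    have := (BS_reach_trl (-x0) (-h) (F := F) (u := a) (v := b)).2 h1
    simpa [sub_eq_add_neg] using this
  have hush : ∀ {a b : Vtx}, Reach (↑F0 : Set Edg) a b →
      Reach (↑F : Set Edg) (a.1 + x0, a.2 + h) (b.1 + x0, b.2 + h) := fun {a b} h1 => by
    apply (BS_reach_trl (-x0) (-h) (F := F) (u := (a.1 + x0, a.2 + h)) (v := (b.1 + x0, b.2 + h))).1
    simpa using h1
  set u0 : Vtx := (z.1 - x0, z.2 - h) with hu0
  obtain ⟨V, hV1, hV2, hV4, hV3⟩ := hG.det F0 u0 hG0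
    ⟨(x.1 - x0, x.2 - h), by
      rw [mem_ctr, sd_le] at hx1 ⊢
      simp only [tr] at hx1 ⊢
      omega, hsh hx2⟩
    ⟨(y.1 - x0, y.2 - h), by
      rw [far_iff, le_sd]
      rw [le_abs] at hy2
      have hw' : ((400 * (a * m) : ℕ) : ℤ) ≤ w := by exact_mod_cast hw
      have e1 : ((400 * (a * m) : ℕ) : ℤ) = 400 * U := by rw [hU]; push_cast; ring
      rw [e1] at hw'
      simp only
      push_cast
      rw [eU]
      omega, hsh hy1⟩
  have hCeq : ∀ c : Vtx, c ∈ Cu (↑F0 : Set Edg) u0 ↔ (c.1 + x0, c.2 + h) ∈ C := by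
    intro c
    constructor
    · intro hc
      have h1 := hush hc
      have h2 : Reach (↑F : Set Edg) z (c.1 + x0, c.2 + h) := by simpa [hu0] using h1
      exact h2
    · intro hc
      have h1 := hsh hc
      have h2 : Reach (↑F0 : Set Edg) u0 c := by simpa [hu0] using h1
      exact h2
  set f : Vtx → Vtx := fun v => (v.1 + x0, v.2 + h) with hf
  have hfi : Function.Injective f := by
    intro u v huv
    simp only [hf, Prod.mk.injEq] at huv
    ext
    · omega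
    · omega
  have hfd : ∀ u v, sd (f u) (f v) = sd u v := by
    intro u v
    unfold sd
    simp only [hf]
    congr 2
    · ring
    · ring
  refine ⟨V.image f, ?_, ?_, ?_⟩
  · rw [Finset.card_image_of_injective _ hfi]
    refine le_trans ?_ hV2
    have h2 : (η * n) ^ (4 / 3 : ℝ) ≤ (m : ℝ) ^ (4 / 3 : ℝ) :=
      Real.rpow_le_rpow (by positivity) hηm (by norm_num)
    rw [Real.mul_rpow hη.le (by positivity)] at h2
    rw [mul_assoc]
    exact mul_le_mul_of_nonneg_left h2 hc0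
  · rw [EnV_image hfi hfd]
    refine hV4.trans ?_
    refine mul_le_mul_of_nonneg_left ?_ hE0
    exact Real.rpow_le_rpow (by positivity) (by exact_mod_cast hmn) (by linarith)
  · intro w0 hw0
    rw [Finset.mem_image] at hw0
    obtain ⟨v, hv, rfl⟩ := hw0
    obtain ⟨k1, x', k2, k3⟩ := hV3 v hv
    rw [mem_bdB] at k2
    have hvb := hV1 hv
    rw [mem_ctr, sd_le] at hvb
    simp only [v0] at hvb
    refine ⟨(hCeq v).1 k1, ?_⟩
    -- the property of the path
    set P : Vtx → Prop := fun b => ∀ c ∈ C, Cln M B (8 * (a * m)) m (f v) c b ∨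
      ζ * n ≤ ((sd b c : ℤ) : ℝ) with hP
    have k5 : Reach {e | P (src e) ∧ P (tgt e)} (x'.1 + x0, x'.2 + h)
        ((s0 a m).1 + x0, (s0 a m).2 + h) := by
      refine reach_trans_set (P := fun b => ∀ c ∈ Cu (↑F0 : Set Edg) u0,
        Cln M B (8 * (a * m)) m v c b) (Q := P) (x0, h) ?_ k3
      intro b hb c hc
      left
      have h1 := hb (c.1 - x0, c.2 - h) ((hCeq _).2 (by simpa using hc))
      have e1 : sd b (c.1 - x0, c.2 - h) = sd (b.1 + x0, b.2 + h) c := by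
        unfold sd
        congr 2
        · simp only; ring
        · simp only; ring
      have e2 : sd b v = sd (b.1 + x0, b.2 + h) (f v) := (hfd b v).symm
      rcases h1 with h1 | h1
      · left
        unfold Pool.Agent.Y989.FR.Awy at h1 ⊢
        rw [← e1, ← e2]
        exact h1
      · right
        rw [← e1]
        exact h1
    have k6 : Reach {e | P (src e) ∧ P (tgt e)} ((s0 a m).1 + x0, (s0 a m).2 + h)
        (x0, min (-(136 * U : ℤ) + h) (-(136 * U : ℤ) + h - 20 * n)) := by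
      have e1 : ((s0 a m).1 + x0, (s0 a m).2 + h) = (x0, -(136 * U : ℤ) + h) := by
        simp only [s0, eU, zero_add]
      rw [e1]
      refine vseg (P := P) fun s s1 s2 => ?_
      have l2 : s ≤ -(136 * U : ℤ) + h := by
        rcases le_max_iff.1 s2 with l2 | l2
        · exact l2
        · exact l2.trans (min_le_left _ _)
      intro c hc
      right
      refine (hsl s c ?_ hc).le
      have l3 : s ≤ z.2 - 8 * U := by
        rw [eU] at hh
        omega
      have l4 : (s : ℝ) ≤ z.2 - 8 * U := by exact_mod_cast l3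
      rw [eUr] at hκ
      linarith
    have k7 := k5.trans k6
    have k8 : sd (x'.1 + x0, x'.2 + h) (f v) ≤ 2 := by
      have : sd (f x') (f v) = sd x' v := hfd x' v
      rw [show ((x'.1 + x0, x'.2 + h) : Vtx) = f x' from rfl, this, k2]
      norm_num
    have k9 : (10 * n : ℤ) ≤ sd (x0, min (-(136 * U : ℤ) + h) (-(136 * U : ℤ) + h - 20 * n)) (f v) := by
      rw [le_sd]
      right; right
      simp only [hf]
      have := min_le_right (-(136 * U : ℤ) + h) (-(136 * U : ℤ) + h - 20 * n)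
      have hh2 := hvb
      have e3 : (128 * ((a : ℤ) * m)) = 128 * U := by rw [eU]
      have hwU : (400 * U : ℤ) ≤ n := by
        have : 400 * U ≤ n := hw.trans hwn
        exact_mod_cast this
      have hmU' : (m : ℤ) ≤ U := by exact_mod_cast hmU
      omega
    obtain ⟨y1, y2, y3, -⟩ := first_level (f v) (10 * n) k7 (by
      have : (1 : ℤ) ≤ n := by exact_mod_cast hn
      omega) k9
    refine ⟨(x'.1 + x0, x'.2 + h), y1, k8, y2.ge, y3.mono ?_⟩
    rintro e ⟨⟨h1, h2⟩, h3, h4⟩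
    have hU64 : 64 * (a * m) ≤ n := by omega
    have hclr : ∀ b : Vtx, P b → sd b (f v) ≤ 10 * n → Clr M' B n (Cu (↑F : Set Edg) z) (f v) b := by
      intro b hb hb2
      have hb3 : sd b (f v) ≤ 12 * n := by
        have : (0 : ℤ) ≤ n := Int.natCast_nonneg n
        omega
      refine ⟨hb3, fun c hc => ?_⟩
      exact clr_of hη hζ hB hn hU64 hηm hM1 hM2 hM3 hb3 (hb c hc)
    exact ⟨hclr _ h1 h3, hclr _ h2 h4⟩

/-- Richness only depends on the cluster. -/
theorem RichO_congr {t lam E : ℝ} {M B n : ℕ} {v z : Vtx} {F : Set Edg} (h : z ∈ Cu F v)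
    (hr : RichO t lam E M B n z F) : RichO t lam E M B n v F := by
  unfold RichO at hr ⊢
  rwa [Cu_eq_of_mem h] at hr

/-- Transposition. -/
theorem RichO_tps {t lam E : ℝ} {M B n : ℕ} {F : Finset Edg} {v : Vtx}
    (hr : RichO t lam E M B n (v.2, v.1) (↑(tps.mp F) : Set Edg)) :
    RichO t lam E M B n v (↑F : Set Edg) := by
  classical
  obtain ⟨V, h1, h2, h3⟩ := hr
  have hcl : ∀ (a b : Vtx), Reach (↑(tps.mp F) : Set Edg) (a.2, a.1) (b.2, b.1) ↔
      Reach (↑F : Set Edg) a b := by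
    intro a b
    rw [LSym.coe_mp]
    exact tps.reach_iff (u := a) (v := b)
  set f : Vtx → Vtx := fun v => (v.2, v.1) with hf
  have hfi : Function.Injective f := by
    intro u v huv
    simp only [hf, Prod.mk.injEq] at huv
    ext
    · omega
    · omega
  have hfd : ∀ u v, sd (f u) (f v) = sd u v := by
    intro u v
    unfold sd
    simp only [hf]
    rw [max_comm]
  refine ⟨V.image f, ?_, ?_, ?_⟩
  · rw [Finset.card_image_of_injective _ hfi]
    exact h1
  · rw [EnV_image hfi hfd]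
    exact h2
  · intro w0 hw0
    rw [Finset.mem_image] at hw0
    obtain ⟨w, hw, rfl⟩ := hw0
    obtain ⟨g1, x, y, g2, g3, g4⟩ := h3 w hw
    have hmem : ∀ c : Vtx, f c ∈ Cu (↑F : Set Edg) v ↔ c ∈ Cu (↑(tps.mp F) : Set Edg) (v.2, v.1) := by
      intro c
      exact (hcl v (c.2, c.1)).symm
    refine ⟨(hmem w).2 g1, f x, f y, ?_, ?_, ?_⟩
    · rw [hfd]; exact g2
    · rw [hfd]; exact g3
    · have h8 := tps.reach g4
      refine Reach.mono ?_ h8
      rintro _ ⟨g, ⟨g5, g6⟩, rfl⟩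
      have key : ∀ c : Vtx, Clr M B n (Cu (↑(tps.mp F) : Set Edg) (v.2, v.1)) w c →
          Clr M B n (Cu (↑F : Set Edg) v) (f w) (tps.ψ c) := by
        intro c hc
        have e1 : tps.ψ c = f c := rfl
        rw [e1]
        refine ⟨by rw [hfd]; exact hc.1, fun c' hc' => ?_⟩
        have h9 := hc.2 (f c') ((hmem (f c')).1 (by simpa [hf] using hc'))
        have e2 : sd c (f c') = sd (f c) c' := by
          rw [← hfd c (f c')]
        rw [hfd, ← e2]
        exact h9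
      rcases tps.compat g with ⟨c1, c2⟩ | ⟨c1, c2⟩
      · refine ⟨?_, ?_⟩
        · rw [c1]; exact key _ g5
        · rw [c2]; exact key _ g6
      · refine ⟨?_, ?_⟩
        · rw [c1]; exact key _ g6
        · rw [c2]; exact key _ g5

end Run7.h561
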