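import Pool.Agent.Run7.h561.TP.P_FB2

/-! # FB: the mean number of clusters which join the block of radius `ρ` to distance `w` and do not
touch the slit -/

set_option autoImplicit false

namespace Run7.h561

open H974 H12S Finset H984P H984N

/-- FB (with `3 ρ ≤ w`): the mean number of clusters which join the block of radius `ρ` to distance
`w` and do not touch the slit is at most `C ρ / w`. -/
def S_FB3 : Prop := ∃ C : ℝ, 0 < C ∧ ∀ (c : ℤ × ℤ) (ρ w : ℕ) (S : Finset Edg) (Far : Set Vtx),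
  1 ≤ ρ → 3 * ρ ≤ w → blk c w ⊆ S → (∀ y ∈ Far, BSfar c w y) →
  fX S c ρ Far ≤ C * ((ρ : ℝ) / w)

namespace FB

open Classical in
theorem ind_ex_le {ι : Type*} (T : Finset ι) (P : ι → Prop) (h : ∀ i, P i → i ∈ T) :
    ind (∃ i, P i) ≤ ∑ i ∈ T, ind (P i) := by
  by_cases h1 : ∃ i, P i
  · obtain ⟨i, hi⟩ := h1
    calc ind (∃ i, P i) ≤ 1 := ind_le_one _
      _ = ind (P i) := (ind_of hi).symm
      _ ≤ _ := Finset.single_le_sum (f := fun i => ind (P i)) (fun j _ => ind_nonneg _) (h i hi)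
  · rw [ind_not_of h1]
    exact Finset.sum_nonneg fun _ _ => ind_nonneg _

open Classical in
theorem sum_ind_le {ι : Type*} (T : Finset ι) (P : ι → Prop)
    (h : ∀ i j, P i → P j → i = j) : ∑ i ∈ T, ind (P i) ≤ ind (∃ i, P i) := by
  by_cases h1 : ∃ i, P i
  · obtain ⟨i, hi⟩ := h1
    rw [ind_of ⟨i, hi⟩]
    calc ∑ j ∈ T, ind (P j) ≤ ∑ j ∈ T, (if j = i then (1 : ℝ) else 0) := by
          refine Finset.sum_le_sum fun j _ => ?_
          split_ifs with h2
          · exact ind_le_one _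
          · exact (ind_not_of fun h3 => h2 (h j i h3 hi)).le
      _ ≤ 1 := by
          rw [Finset.sum_ite_eq']
          split_ifs <;> norm_num
  · refine le_of_eq ?_
    rw [ind_not_of h1]
    exact Finset.sum_eq_zero fun j _ => ind_not_of fun h2 => h1 ⟨j, h2⟩

theorem pr_ex_le (S : Finset Edg) {ι : Type*} (T : Finset ι) (P : ι → Finset Edg → Prop)
    (h : ∀ i F, P i F → i ∈ T) :
    PQ (1 / 2) S (fun F => ∃ i, P i F) ≤ ∑ i ∈ T, PQ (1 / 2) S (P i) := by
  unfold PQ Pr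
  rw [← Ex_sum]
  exact Ex_mono okh fun F _ => ind_ex_le T (fun i => P i F) fun i hi => h i F hi

theorem sum_pr_le (S : Finset Edg) {ι : Type*} (T : Finset ι) (P : ι → Finset Edg → Prop)
    (h : ∀ i j F, F ⊆ S → P i F → P j F → i = j) :
    ∑ i ∈ T, PQ (1 / 2) S (P i) ≤ PQ (1 / 2) S (fun F => ∃ i, P i F) := by
  unfold PQ Pr
  rw [← Ex_sum]
  exact Ex_mono okh fun F hF => sum_ind_le T (fun i => P i F) fun i j => h i j F hF

/-- Painting, summed over the boundary vertices of the window. -/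
theorem paint_sum (sdet : S_SDET) {a Λ m : ℕ} {p0 : ℝ} {c : ℤ × ℤ} {S : Finset Edg}
    {G : Finset Edg → Prop} {Far : Set Vtx} {A : Vtx → Finset Edg → Prop}
    (ha : 24 ≤ a) (hev : Even a) (hΛ : 16 ≤ Λ) (hm : 1 ≤ m)
    (hF : ∀ y ∈ Far, BSfar c (192 * (Λ * (a * m))) y)
    (hsurg : ∀ u, p0 * PQ (1 / 2) S (fun F => A u F ∧ I4 a m Λ c S u F) ≤
      PQ (1 / 2) S (fun F => (A u F ∧ I4 a m Λ c S u F) ∧ Pnt a m Λ c S u G F))
    (hA : ∀ u F, A u F → XO c (512 * (a * m)) Far (↑F : Set Edg) u ∧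
      ∀ x ∈ Co c (512 * (a * m)) (↑F : Set Edg) u, x ∈ bdB c (512 * (a * m)) → Off m c x) :
    p0 * PQ (1 / 2) S (fun F => ∃ u, A u F ∧ I4 a m Λ c S u F) ≤
      PQ (1 / 2) S (fun F => ∃ u, (A u F ∧ I4 a m Λ c S u F) ∧ Pnt a m Λ c S u G F) ∨ p0 < 0 := by
  by_cases hp : p0 < 0
  · exact Or.inr hp
  left
  push Not at hp
  have h1 := pr_ex_le S (ctr c (512 * (a * m))) (fun u F => A u F ∧ I4 a m Λ c S u F)
    (fun u F h => mem_ctr.2 (mem_bdB.1 (hA u F h.1).1.2.1).le)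
  refine (mul_le_mul_of_nonneg_left h1 hp).trans ?_
  rw [Finset.mul_sum]
  refine (Finset.sum_le_sum fun u _ => hsurg u).trans ?_
  refine sum_pr_le S (ctr c (512 * (a * m)))
    (fun u F => (A u F ∧ I4 a m Λ c S u F) ∧ Pnt a m Λ c S u G F) ?_
  rintro u u' F hFS ⟨⟨h2, h3⟩, h4⟩ ⟨⟨h5, -⟩, -⟩
  obtain ⟨k1, k2⟩ := hA u F h2
  obtain ⟨k3, k4⟩ := hA u' F h5
  have k5 := (sdet a Λ m c S u G F Far ha hev hΛ hm hFS hF k1.2 k2 h3 h4).2.2.2.2 u' k3.2.1 k3.2.2.1
  exact rp_inj k1.1 k3.1 k1.2.1 k3.2.1 k5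

/-- The main inequality. -/
theorem main_ineq (sdet : S_SDET) (dec : S_DEC) {a Λ m w : ℕ} {p0 C Cp s : ℝ} {c : ℤ × ℤ}
    {S : Finset Edg} {Far : Set Vtx} (hp0 : 0 < p0) (hC1 : 1 ≤ C)
    (hC : ∀ (c : ℤ × ℤ) (k : ℕ) (S : Finset Edg), 1 ≤ k →
      Ex (fun _ => (1 / 2 : ℝ)) S (fun F =>
        (NC src tgt (ctr c k) {y | BSfar c (3 * k) y} (↑F : Set Edg) : ℝ)) ≤ C)
    (hpn : ∀ (a Λ m : ℕ) (c : ℤ × ℤ) (S : Finset Edg)
      (Far : Set Vtx), 24 ≤ a → 16 ≤ Λ → 1 ≤ m → blk c (192 * (Λ * (a * m))) ⊆ S →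
      PQ (1 / 2) S (fun F => ∃ u, XO c (512 * (a * m)) Far (↑F : Set Edg) u ∧
        Crs c.1 c.2 (512 * (a * m)) (64 * (Λ * (a * m)))
          (↑(F \ KX c (512 * (a * m)) S u F) : Set Edg)) ≤
          Cp * (Λ : ℝ) ^ (-s) * fX S c (512 * (a * m)) Far ∧
      PQ (1 / 2) S (fun F =>
        (∃ j ∈ Finset.Icc 17 (4 * Λ + 1),
          NLn c.1 (c.2 - 16 * (a * m * (j : ℕ))) (16 * (a * m)) (16 * m) (↑F : Set Edg)) ∧
        ∃ u, XO c (192 * (Λ * (a * m))) Far (↑F : Set Edg) u) ≤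
          Cp * ((Λ : ℝ) / a) * fX S c (192 * (Λ * (a * m))) Far)
    (ha : 24 ≤ a) (hev : Even a) (hΛ : 16 ≤ Λ) (hm : 1 ≤ m)
    (hw : 192 * (Λ * (a * m)) ≤ w) (hS : blk c w ⊆ S) (hF : ∀ y ∈ Far, BSfar c w y)
    (hsurg : ∀ u, p0 * PQ (1 / 2) S (fun F => (XO c (512 * (a * m)) Far (↑F : Set Edg) u ∧
        ∀ x ∈ Co c (512 * (a * m)) (↑F : Set Edg) u, x ∈ bdB c (512 * (a * m)) → Off m c x) ∧
        I4 a m Λ c S u F) ≤
      PQ (1 / 2) S (fun F => ((XO c (512 * (a * m)) Far (↑F : Set Edg) u ∧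
        ∀ x ∈ Co c (512 * (a * m)) (↑F : Set Edg) u, x ∈ bdB c (512 * (a * m)) → Off m c x) ∧
        I4 a m Λ c S u F) ∧ Pnt a m Λ c S u (fun _ => True) F)) :
    gX S c (128 * (a * m)) Far ≤ 24 * C * 512 / p0 * ((a : ℝ) * m / w) +
      Cp * (Λ : ℝ) ^ (-s) * fX S c (512 * (a * m)) Far +
      Cp * ((Λ : ℝ) / a) * fX S c (192 * (Λ * (a * m))) Far := by
  have haz : (24 : ℤ) ≤ a := by exact_mod_cast ha
  have hfar : ∀ y ∈ Far, BSfar c (192 * (Λ * (a * m))) y := by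
    intro y hy
    have := far_iff.1 (hF y hy)
    rw [far_iff]
    have h2 : ((192 * (Λ * (a * m)) : ℕ) : ℤ) ≤ w := by exact_mod_cast hw
    omega
  have ham : 1 ≤ a * m := Nat.one_le_iff_ne_zero.2 (by
    have : 0 < a * m := Nat.mul_pos (by omega) (by omega)
    omega)
  have hbig : 512 * (a * m) ≤ w := by
    refine le_trans ?_ hw
    have : 16 * (a * m) ≤ Λ * (a * m) := Nat.mul_le_mul_right _ hΛ
    omega
  have hw1 : 1 ≤ w := by omega
  obtain ⟨q1, q2⟩ := hpn a Λ m c S Far ha hΛ hm ((blk_mono hw).trans hS)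
  set A : Vtx → Finset Edg → Prop := fun u F => XO c (512 * (a * m)) Far (↑F : Set Edg) u ∧
        ∀ x ∈ Co c (512 * (a * m)) (↑F : Set Edg) u, x ∈ bdB c (512 * (a * m)) → Off m c x with hA
  have e1 : gX S c (128 * (a * m)) Far ≤
      PQ (1 / 2) S (fun F => ∃ u, A u F ∧ I4 a m Λ c S u F) +
      (PQ (1 / 2) S (fun F => ∃ u, XO c (512 * (a * m)) Far (↑F : Set Edg) u ∧
        Crs c.1 c.2 (512 * (a * m)) (64 * (Λ * (a * m)))
          (↑(F \ KX c (512 * (a * m)) S u F) : Set Edg)) +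
      PQ (1 / 2) S (fun F =>
        (∃ j ∈ Finset.Icc 17 (4 * Λ + 1),
          NLn c.1 (c.2 - 16 * (a * m * (j : ℕ))) (16 * (a * m)) (16 * m) (↑F : Set Edg)) ∧
        ∃ u, XO c (192 * (Λ * (a * m))) Far (↑F : Set Edg) u)) := by
    refine le_trans ?_ (add_le_add_right (Pr_or_le okh S _ _) _)
    refine le_trans ?_ (Pr_or_le okh S _ _)
    refine Pr_mono okh fun F hFS h => ?_
    obtain ⟨u0, -, h0⟩ := h
    rcases dec a Λ m c S F u0 Far ha hev hΛ hm hFS hfar h0 with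
      ⟨u, b1, -, b2, b3⟩ | h1 | h1
    · exact Or.inl ⟨u, ⟨b1, b3⟩, b2⟩
    · exact Or.inr (Or.inl h1)
    · exact Or.inr (Or.inr h1)
  have e2 : PQ (1 / 2) S (fun F => ∃ u, A u F ∧ I4 a m Λ c S u F) ≤
      24 * C * 512 / p0 * ((a : ℝ) * m / w) := by
    have e3 := (paint_sum sdet ha hev hΛ hm hfar hsurg (fun u F h => h)).resolve_right
      (not_lt.2 hp0.le)
    have e4 : PQ (1 / 2) S (fun F => ∃ u, (A u F ∧ I4 a m Λ c S u F) ∧
        Pnt a m Λ c S u (fun _ => True) F) ≤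
        PQ (1 / 2) S (fun F => Tp c w (512 * (a * m)) (↑F : Set Edg)) := by
      refine Pr_mono okh fun F hFS h => ?_
      obtain ⟨u, ⟨⟨k1, k2⟩, h3⟩, h4⟩ := h
      obtain ⟨g1, ⟨s1, g2, g3⟩, -, -, -⟩ :=
        sdet a Λ m c S u (fun _ => True) F Far ha hev hΛ hm hFS hfar k1.2 k2 h3 h4
      refine Tv_Tp hbig hF ⟨u, ?_, ⟨s1, ?_, g3⟩, ?_⟩
      · obtain ⟨y, y1, y2⟩ := k1.2.2.1
        exact ⟨y, y1, Reach.mono Set.diff_subset y2⟩
      · push_cast; exact g2
      · intro s hs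
        have := g1 s hs
        have hU : (0 : ℤ) ≤ a * m := by positivity
        push_cast
        omega
    have e5 := tip_le hC hC1 (c := c) (W := w) (t := 512 * (a * m)) (S := S) (by omega) hw1 hS
    have e6 := e3.trans (e4.trans e5)
    rw [show 24 * C * 512 / p0 * ((a : ℝ) * m / w) = 24 * C * ((((512 * (a * m) : ℕ)) : ℝ) / w) / p0
      by push_cast; ring]
    rw [le_div_iff₀ hp0]
    calc _ = p0 * PQ (1 / 2) S (fun F => ∃ u, A u F ∧ I4 a m Λ c S u F) := by ring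
      _ ≤ _ := e6
  linarith

end FB

open FB in
/-- **FB** -/
theorem t_FB3 (surg : S_SURG) (sdet : S_SDET) (dec : S_DEC) (kxs : S_KXS) (nc : S_NC)
    (pn : S_PN) : S_FB3 := by
  obtain ⟨C0, hC00, hC0⟩ := nc
  obtain ⟨Cp, s, hCp, hs, hpn⟩ := pn
  set C : ℝ := max C0 1 with hCd
  have hC1 : 1 ≤ C := le_max_right _ _
  have hC : ∀ (c : ℤ × ℤ) (k : ℕ) (S : Finset Edg), 1 ≤ k →
      Ex (fun _ => (1 / 2 : ℝ)) S (fun F =>
        (NC src tgt (ctr c k) {y | BSfar c (3 * k) y} (↑F : Set Edg) : ℝ)) ≤ C :=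
    fun c k S hk => (hC0 c k S hk).trans (le_max_left _ _)
  -- choice of `Λ`
  obtain ⟨Λ, hΛ, hΛ2⟩ : ∃ Λ : ℕ, 16 ≤ Λ ∧ Cp * (Λ : ℝ) ^ (-s) * C * 12 ≤ 1 / 4 := by
    have h1 : Filter.Tendsto (fun Λ : ℕ => Cp * (Λ : ℝ) ^ (-s) * C * 12) Filter.atTop
        (nhds (Cp * 0 * C * 12)) := by
      refine Filter.Tendsto.mul_const _ (Filter.Tendsto.mul_const _ (Filter.Tendsto.const_mul _ ?_))
      exact (tendsto_rpow_neg_atTop hs).comp tendsto_natCast_atTop_atTop
    have h2 : Cp * 0 * C * 12 < 1 / 4 := by norm_num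
    have h3 := (h1.eventually (gt_mem_nhds h2)).and (Filter.eventually_ge_atTop 16)
    obtain ⟨Λ, h4, h5⟩ := h3.exists
    exact ⟨Λ, h5, h4.le⟩
  have hΛ0 : (0 : ℝ) < Λ := by
    have : 0 < Λ := by omega
    exact_mod_cast this
  -- choice of `a`
  obtain ⟨b, hb⟩ := exists_nat_ge (Cp * (Λ : ℝ) * C * (5 * Λ) * 4)
  set a : ℕ := 2 * (b + 12) with ha'
  have ha : 24 ≤ a := by omega
  have hev : Even a := ⟨b + 12, by omega⟩
  have ha0 : (0 : ℝ) < a := by
    have : 0 < a := by omega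
    exact_mod_cast this
  have hγ : Cp * ((Λ : ℝ) / a) * C * (5 * Λ) ≤ 1 / 4 := by
    have h1 : (b : ℝ) ≤ a := by
      have : b ≤ a := by omega
      exact_mod_cast this
    rw [show Cp * ((Λ : ℝ) / a) * C * (5 * Λ) = (Cp * (Λ : ℝ) * C * (5 * Λ) * 4) / a / 4 by ring]
    have h2 : (Cp * (Λ : ℝ) * C * (5 * Λ) * 4) / a ≤ 1 := by
      rw [div_le_one ha0]; linarith
    linarith
  obtain ⟨p0, hp0, hsurg⟩ := surg a Λ 1 ha hev hΛ one_pos
  set A1 : ℝ := 24 * C * 512 / p0 * a with hA1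
  have hA1' : 0 ≤ A1 := by rw [hA1]; positivity
  set K : ℝ := 2 * A1 + 640 * Λ * a with hK
  have hK0 : 0 < K := by rw [hK]; positivity
  have hG : ∀ m : ℕ, GLc a m 1 (fun _ => True) := fun m =>
    ⟨fun _ => Iff.rfl, fun _ _ _ _ _ => trivial, fun _ _ _ _ _ => trivial,
      fun S _ => (Pr_true S (fun _ _ => trivial)).ge⟩
  -- the induction
  have main : ∀ (c : ℤ × ℤ) (w : ℕ) (S : Finset Edg) (Far : Set Vtx), blk c w ⊆ S →
      (∀ y ∈ Far, BSfar c w y) → ∀ n m : ℕ, 1 ≤ m → w ≤ m + n → 128 * (a * m) ≤ w →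
      gX S c (128 * (a * m)) Far ≤ K * ((m : ℝ) / w) := by
    intro c w S Far hS hF n
    have hfar : ∀ k, k ≤ w → ∀ y ∈ Far, BSfar c k y := by
      intro k hk y hy
      have := far_iff.1 (hF y hy)
      rw [far_iff]
      have h2 : (k : ℤ) ≤ w := by exact_mod_cast hk
      omega
    induction n using Nat.strong_induction_on with
    | _ n ih =>
      intro m hm hmn hmw
      have ham : 24 * m ≤ a * m := Nat.mul_le_mul_right _ ha
      have hw0 : (0 : ℝ) < w := by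
        have : 0 < w := by omega
        exact_mod_cast this
      have hm0 : (0 : ℝ) < m := by exact_mod_cast hm
      by_cases hbig : w < 640 * (Λ * (a * m))
      · refine (gX_le_one _ _ _ _).trans ?_
        have h1 : (w : ℝ) ≤ 640 * (Λ * (a * m)) := by exact_mod_cast hbig.le
        rw [mul_div_assoc', le_div_iff₀ hw0, one_mul]
        calc (w : ℝ) ≤ (640 * Λ * a) * m := by linarith
          _ ≤ K * m := by
              apply mul_le_mul_of_nonneg_right _ hm0.le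
              rw [hK]; linarith
      push Not at hbig
      have hLam : 16 * (a * m) ≤ Λ * (a * m) := Nat.mul_le_mul_right _ hΛ
      -- surgery
      have hsurg' : ∀ u, p0 * PQ (1 / 2) S (fun F => (XO c (512 * (a * m)) Far (↑F : Set Edg) u ∧
          ∀ x ∈ Co c (512 * (a * m)) (↑F : Set Edg) u, x ∈ bdB c (512 * (a * m)) → Off m c x) ∧
          I4 a m Λ c S u F) ≤
          PQ (1 / 2) S (fun F => ((XO c (512 * (a * m)) Far (↑F : Set Edg) u ∧
          ∀ x ∈ Co c (512 * (a * m)) (↑F : Set Edg) u, x ∈ bdB c (512 * (a * m)) → Off m c x) ∧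
          I4 a m Λ c S u F) ∧ Pnt a m Λ c S u (fun _ => True) F) := by
        intro u
        refine hsurg m c S u (fun _ => True) hm ((blk_mono ?_).trans hS) (hG m) _ ?_
        · omega
        · intro F F' hFS hFS' he h
          have k1 := ((kxs c (512 * (a * m)) (192 * (Λ * (a * m))) S u (by omega)).2.2
            F F' hFS hFS' he).1
          unfold XO XA Rp at h ⊢
          rw [k1]
          exact h
      have h1 := main_ineq sdet dec hp0 hC1 hC hpn ha hev hΛ hm (by omega) hS hF hsurg'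
      have h2 : fX S c (512 * (a * m)) Far ≤ C * (K * ((12 * m : ℕ) : ℝ) / w) := by
        have e1 := fX_le hC (S := S) (c := c) (ρ := 512 * (a * m)) (Far := Far) (by omega)
          ((blk_mono (by omega)).trans hS) (hfar _ (by omega))
        refine e1.trans (mul_le_mul_of_nonneg_left ?_ (by linarith))
        have e2 : 3 * (512 * (a * m)) = 128 * (a * (12 * m)) := by ring
        rw [e2]
        have e3 : 640 * (Λ * (a * m)) ≤ w := hbig
        have e4 : a * (12 * m) = 12 * (a * m) := by ring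
        have := ih (n - 1) (by omega) (12 * m) (by omega) (by omega) (by omega)
        rw [mul_div_assoc]
        exact this
      have h3 : fX S c (192 * (Λ * (a * m))) Far ≤ C * (K * ((5 * Λ * m : ℕ) : ℝ) / w) := by
        have e1 := fX_le hC (S := S) (c := c) (ρ := 192 * (Λ * (a * m))) (Far := Far) (by omega)
          ((blk_mono (by omega)).trans hS) (hfar _ (by omega))
        refine e1.trans (mul_le_mul_of_nonneg_left ?_ (by linarith))
        have e2 : 128 * (a * (5 * Λ * m)) = 640 * (Λ * (a * m)) := by ring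
        have e3 : gX S c (3 * (192 * (Λ * (a * m)))) Far ≤ gX S c (128 * (a * (5 * Λ * m))) Far :=
          gX_mono (by omega) (hfar _ (by omega))
        refine e3.trans ?_
        have e5 : 80 * m ≤ 5 * Λ * m := Nat.mul_le_mul_right _ (by omega)
        have := ih (n - 1) (by omega) (5 * Λ * m) (by omega) (by omega) (by omega)
        rw [mul_div_assoc]
        exact this
      have hX : 0 ≤ K * (m : ℝ) / w := by positivity
      have h4 : Cp * (Λ : ℝ) ^ (-s) * fX S c (512 * (a * m)) Far ≤ 1 / 4 * (K * (m : ℝ) / w) := by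
        calc Cp * (Λ : ℝ) ^ (-s) * fX S c (512 * (a * m)) Far
            ≤ Cp * (Λ : ℝ) ^ (-s) * (C * (K * ((12 * m : ℕ) : ℝ) / w)) :=
              mul_le_mul_of_nonneg_left h2 (by positivity)
          _ = (Cp * (Λ : ℝ) ^ (-s) * C * 12) * (K * (m : ℝ) / w) := by push_cast; ring
          _ ≤ _ := mul_le_mul_of_nonneg_right hΛ2 hX
      have h5 : Cp * ((Λ : ℝ) / a) * fX S c (192 * (Λ * (a * m))) Far ≤
          1 / 4 * (K * (m : ℝ) / w) := by
        calc Cp * ((Λ : ℝ) / a) * fX S c (192 * (Λ * (a * m))) Far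
            ≤ Cp * ((Λ : ℝ) / a) * (C * (K * ((5 * Λ * m : ℕ) : ℝ) / w)) :=
              mul_le_mul_of_nonneg_left h3 (by positivity)
          _ = (Cp * ((Λ : ℝ) / a) * C * (5 * Λ)) * (K * (m : ℝ) / w) := by push_cast; ring
          _ ≤ _ := mul_le_mul_of_nonneg_right hγ hX
      have h6 : 24 * C * 512 / p0 * ((a : ℝ) * m / w) ≤ 1 / 2 * (K * (m : ℝ) / w) := by
        rw [show 24 * C * 512 / p0 * ((a : ℝ) * m / w) = A1 * ((m : ℝ) / w) by rw [hA1]; ring,
          show 1 / 2 * (K * (m : ℝ) / w) = (K / 2) * ((m : ℝ) / w) by ring]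
        apply mul_le_mul_of_nonneg_right _ (by positivity)
        rw [hK]
        have : (0 : ℝ) ≤ 640 * Λ * a := by positivity
        linarith
      rw [mul_div_assoc'] 
      linarith
  refine ⟨C * (4 * K + 3 + 128 * a), by positivity, ?_⟩
  intro c ρ w S Far hρ hρw hS hF
  have hfar : ∀ k, k ≤ w → ∀ y ∈ Far, BSfar c k y := by
    intro k hk y hy
    have := far_iff.1 (hF y hy)
    rw [far_iff]
    have h2 : (k : ℤ) ≤ w := by exact_mod_cast hk
    omega
  have hw0 : (0 : ℝ) < w := by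
    have : 0 < w := by omega
    exact_mod_cast this
  have hρ0 : (1 : ℝ) ≤ ρ := by exact_mod_cast hρ
  have e1 := fX_le hC (S := S) (c := c) (ρ := ρ) (Far := Far) hρ
          ((blk_mono hρw).trans hS) (hfar _ hρw)
  refine e1.trans ?_
  rw [mul_assoc]
  refine mul_le_mul_of_nonneg_left ?_ (by linarith)
  set m : ℕ := 3 * ρ / (128 * a) + 1 with hm
  have hm1 : 3 * ρ < 128 * a * m := by
    have := Nat.lt_mul_div_succ (3 * ρ) (show 0 < 128 * a by omega)
    simpa [hm] using this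
  have hm2 : 128 * a * m ≤ 3 * ρ + 128 * a := by
    have := Nat.mul_div_le (3 * ρ) (128 * a)
    have h2 : 128 * a * m = 128 * a * (3 * ρ / (128 * a)) + 128 * a := by rw [hm]; ring
    omega
  have hm3 : m ≤ 4 * ρ := by
    have h2 : 3 * ρ / (128 * a) ≤ 3 * ρ := Nat.div_le_self _ _
    omega
  have hm4 : 1 ≤ m := Nat.le_add_left 1 _
  by_cases hmw : 128 * (a * m) ≤ w
  · have h1 : gX S c (3 * ρ) Far ≤ gX S c (128 * (a * m)) Far :=
      gX_mono (by rw [← mul_assoc]; omega) (hfar _ hmw)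
    refine h1.trans ((main c w S Far hS hF w m hm4 (by omega) hmw).trans ?_)
    rw [mul_div_assoc', mul_div_assoc']
    apply div_le_div_of_nonneg_right _ hw0.le
    have h2 : (m : ℝ) ≤ 4 * ρ := by exact_mod_cast hm3
    calc K * (m : ℝ) ≤ K * (4 * ρ) := mul_le_mul_of_nonneg_left h2 hK0.le
      _ = (4 * K) * ρ := by ring
      _ ≤ (4 * K + 3 + 128 * (a : ℝ)) * ρ := by
          apply mul_le_mul_of_nonneg_right _ (by linarith)
          linarith
  · push Not at hmw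
    refine (gX_le_one _ _ _ _).trans ?_
    rw [mul_div_assoc', le_div_iff₀ hw0, one_mul]
    have h1 : w ≤ 3 * ρ + 128 * a := by
      have : 128 * (a * m) = 128 * a * m := by ring
      omega
    have h2 : (w : ℝ) ≤ 3 * ρ + 128 * a := by exact_mod_cast h1
    have h3 : 128 * (a : ℝ) * 1 ≤ 128 * a * ρ := mul_le_mul_of_nonneg_left hρ0 (by positivity)
    have h4 : 0 ≤ 4 * K * (ρ : ℝ) := by positivity
    calc (w : ℝ) ≤ 3 * ρ + 128 * a * ρ := by linarith
      _ ≤ (4 * K + 3 + 128 * (a : ℝ)) * ρ := by linarith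

end Run7.h561
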