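import Pool.Agent.Run7.h561.TP.P_KXS

/-! # FB, part 1: multiplicities and monotonicity in the radius -/

set_option autoImplicit false

namespace Run7.h561.FB

open H974 H12S Finset H984P H984N Run7.h561

theorem okh : Ok (fun _ : Edg => (1 / 2 : ℝ)) := fun _ => ⟨by norm_num, by norm_num⟩

/-- Probability that some cluster joins the block of radius `ρ` to `Far` and does not touch the
slit. -/
noncomputable def gX (S : Finset Edg) (c : ℤ × ℤ) (ρ : ℕ) (Far : Set Vtx) : ℝ :=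
  PQ (1 / 2) S (fun F => ∃ u, XO c ρ Far (↑F : Set Edg) u)

theorem xa_xo {c : ℤ × ℤ} {ρ : ℕ} {Far : Set Vtx} {F : Set Edg} {u : Vtx} (h : XA c ρ Far F u) :
    ∃ u', XO c ρ Far F u' ∧ Co c ρ F u' = Co c ρ F u := by
  classical
  obtain ⟨h1, h2, h3⟩ := h
  set P : ℕ → Prop := fun k => ∃ u', u' ∈ bdB c ρ ∧ u' ∈ Co c ρ F u ∧ Encodable.encode u' = k
    with hPd
  have hP : ∃ k, P k := ⟨_, u, h1, Reach.refl _ _, rfl⟩
  obtain ⟨u', a1, a2, a3⟩ := Nat.find_spec hP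
  have e : Co c ρ F u' = Co c ρ F u := Cu_eq_of_mem a2
  refine ⟨u', ⟨?_, a1, ?_, ?_⟩, e⟩
  · intro v hv hv'
    rw [a3]
    exact Nat.find_min' hP ⟨v, hv, by rw [← e]; exact hv', rfl⟩
  · rw [e]; exact h2
  · rw [e]; exact h3

theorem rp_inj {c : ℤ × ℤ} {ρ : ℕ} {F : Set Edg} {u u' : Vtx} (hu : Rp c ρ F u)
    (hu' : Rp c ρ F u') (b : u ∈ bdB c ρ) (b' : u' ∈ bdB c ρ) (h : u' ∈ Co c ρ F u) : u = u' := by
  have h1 := hu u' b' h
  have h2 := hu' u b (Reach.symm h)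
  exact Encodable.encode_injective (le_antisymm h1 h2)

theorem xa_up {c : ℤ × ℤ} {ρ ρ' : ℕ} (hρ : ρ ≤ ρ') {Far : Set Vtx}
    (hF : ∀ y ∈ Far, BSfar c ρ' y) {F : Set Edg} {u : Vtx} (h : XA c ρ Far F u) :
    ∃ u', XA c ρ' Far F u' ∧ Reach (F \ ↑(blk c ρ)) u u' := by
  obtain ⟨h1, ⟨y, y1, y2⟩, h3⟩ := h
  rw [mem_bdB] at h1
  have hy := far_iff.1 (hF y y1)
  have hρ' : (ρ : ℤ) ≤ ρ' := by exact_mod_cast hρ
  obtain ⟨w, w1, w2, w3⟩ := last_level c (ρ' : ℤ) y2 (by omega) hy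
  have hsub : F \ ↑(blk c ρ') ⊆ F \ (↑(blk c ρ) : Set Edg) := by
    apply Set.diff_subset_diff_right
    exact_mod_cast blk_mono hρ
  refine ⟨w, ⟨mem_bdB.2 w1, ⟨y, y1, w2.mono ?_⟩, ?_⟩, w3⟩
  · rintro e ⟨⟨e1, e2⟩, e3⟩
    refine ⟨e1, fun h => e3 ?_⟩
    exact mem_blk.1 (by exact_mod_cast h)
  · intro s hs hc
    exact h3 s hs (Reach.trans w3 (Reach.mono hsub hc))

theorem gX_mono {S : Finset Edg} {c : ℤ × ℤ} {ρ ρ' : ℕ} {Far : Set Vtx} (hρ : ρ ≤ ρ')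
    (hF : ∀ y ∈ Far, BSfar c ρ' y) : gX S c ρ Far ≤ gX S c ρ' Far := by
  refine Pr_mono okh fun F _ h => ?_
  obtain ⟨u, -, hu⟩ := h
  obtain ⟨u', hu', -⟩ := xa_up hρ hF hu
  obtain ⟨u'', h2, -⟩ := xa_xo hu'
  exact ⟨u'', h2⟩

theorem gX_le_one (S : Finset Edg) (c : ℤ × ℤ) (ρ : ℕ) (Far : Set Vtx) : gX S c ρ Far ≤ 1 :=
  Pr_le_one okh _ _

theorem gX_nonneg (S : Finset Edg) (c : ℤ × ℤ) (ρ : ℕ) (Far : Set Vtx) : 0 ≤ gX S c ρ Far :=
  Pr_nonneg okh _ _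

theorem fX_nonneg (S : Finset Edg) (c : ℤ × ℤ) (ρ : ℕ) (Far : Set Vtx) : 0 ≤ fX S c ρ Far :=
  Finset.sum_nonneg fun _ _ => Pr_nonneg okh _ _

/-- The edges of the annulus. -/
noncomputable def An (c : ℤ × ℤ) (ρ : ℕ) : Finset Edg := blk c (3 * ρ) \ blk c ρ

theorem key_ann {c : ℤ × ℤ} {ρ : ℕ} {Far : Set Vtx} (hF : ∀ y ∈ Far, BSfar c (3 * ρ) y)
    {F : Finset Edg} {u : Vtx} (h : XA c ρ Far (↑F : Set Edg) u) :
    ∃ w ∈ ctr c ρ, RB src tgt {y | BSfar c (3 * ρ) y} (↑(F ∩ An c ρ) : Set Edg) w ∧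
      Reach (↑F \ ↑(blk c ρ)) u w := by
  obtain ⟨h1, ⟨y, y1, y2⟩, h3⟩ := h
  rw [mem_bdB] at h1
  have hy := far_iff.1 (hF y y1)
  obtain ⟨w, w', w1, w2, w3, w4, w5⟩ := cross_ann c (d := (ρ : ℤ)) (k := ((3 * ρ : ℕ) : ℤ))
    (by push_cast; omega) y2 (by omega) hy
  refine ⟨w, mem_ctr.2 w1.le, ⟨w', far_iff.2 w2.ge, ?_⟩, w4⟩
  refine Reach.mono ?_ w3
  rintro e ⟨⟨e1, e2⟩, e3, e4⟩
  have : e ∈ F ∩ An c ρ := by
    rw [Finset.mem_inter]
    refine ⟨by exact_mod_cast e1, ?_⟩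
    unfold An
    rw [Finset.mem_sdiff]
    exact ⟨mem_blk.2 e3, fun h => e4 (mem_blk.1 h)⟩
  exact_mod_cast this

open Classical in
/-- The number of the clusters is at most the number of crossing clusters of the annulus. -/
theorem count_le {c : ℤ × ℤ} {ρ : ℕ} {Far : Set Vtx} (hF : ∀ y ∈ Far, BSfar c (3 * ρ) y)
    (F : Finset Edg) : ∑ u ∈ ctr c ρ, ind (XO c ρ Far (↑F : Set Edg) u) ≤
      (NC src tgt (ctr c ρ) {y | BSfar c (3 * ρ) y} (↑(F ∩ An c ρ) : Set Edg) : ℝ) := by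
  have e1 : ∑ u ∈ ctr c ρ, ind (XO c ρ Far (↑F : Set Edg) u) =
      (((ctr c ρ).filter (fun u => XO c ρ Far (↑F : Set Edg) u)).card : ℝ) := by
    rw [Finset.card_filter]
    push_cast
    refine Finset.sum_congr rfl fun u _ => ?_
    unfold ind
    congr
  rw [e1]
  have key : ∀ u, XO c ρ Far (↑F : Set Edg) u →
      ∃ w ∈ ctr c ρ, RB src tgt {y | BSfar c (3 * ρ) y} (↑(F ∩ An c ρ) : Set Edg) w ∧
      Reach (↑F \ ↑(blk c ρ)) u w := fun u hu => key_ann hF hu.2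
  choose! f f1 f2 f3 using key
  unfold NC
  norm_cast
  refine Finset.card_le_card_of_injOn (fun u => clu src tgt (↑(F ∩ An c ρ) : Set Edg) (f u)) ?_ ?_
  · intro u hu
    have hu' : XO c ρ Far (↑F : Set Edg) u := by
      have := Finset.mem_coe.1 hu
      exact (Finset.mem_filter.1 this).2
    exact mem_TC.2 ⟨f u, f1 u hu', f2 u hu', rfl⟩
  · intro u hu u' hu' he
    have k1 : XO c ρ Far (↑F : Set Edg) u := (Finset.mem_filter.1 (Finset.mem_coe.1 hu)).2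
    have k2 : XO c ρ Far (↑F : Set Edg) u' := (Finset.mem_filter.1 (Finset.mem_coe.1 hu')).2
    have h1 : f u' ∈ clu src tgt (↑(F ∩ An c ρ) : Set Edg) (f u) := by
      have : f u' ∈ clu src tgt (↑(F ∩ An c ρ) : Set Edg) (f u') := GR.refl _ _
      simp only at he
      rw [he]; exact this
    have h2 : Reach (↑(F ∩ An c ρ) : Set Edg) (f u) (f u') := h1
    have h3 : Reach (↑F \ ↑(blk c ρ)) (f u) (f u') := by
      refine Reach.mono ?_ h2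
      intro e he
      have he' : e ∈ F ∩ An c ρ := by exact_mod_cast he
      rw [Finset.mem_inter] at he'
      unfold An at he'
      rw [Finset.mem_sdiff] at he'
      exact ⟨by exact_mod_cast he'.1, fun h => he'.2.2 (by exact_mod_cast h)⟩
    exact rp_inj k1.1 k2.1 k1.2.1 k2.2.1
      (Reach.trans (f3 u k1) (Reach.trans h3 (Reach.symm (f3 u' k2))))

theorem fX_eq (S : Finset Edg) (c : ℤ × ℤ) (ρ : ℕ) (Far : Set Vtx) : fX S c ρ Far =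
    Ex (fun _ => (1 / 2 : ℝ)) S (fun F => ∑ u ∈ ctr c ρ, ind (XO c ρ Far (↑F : Set Edg) u)) := by
  unfold fX
  rw [Ex_sum (fun _ => (1 / 2 : ℝ)) S (ctr c ρ) (fun u F => ind (XO c ρ Far (↑F : Set Edg) u))]
  rfl

theorem Co_restrict (c : ℤ × ℤ) (ρ : ℕ) (S F : Finset Edg) (hF : F ⊆ S) (u : Vtx) :
    Co c ρ (↑F : Set Edg) u = Co c ρ (↑(F ∩ (S \ blk c ρ)) : Set Edg) u := by
  unfold Co
  congr 1
  ext e
  simp only [Set.mem_diff, Finset.mem_coe, Finset.mem_inter, Finset.mem_sdiff]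
  constructor
  · rintro ⟨h1, h2⟩
    exact ⟨⟨h1, hF h1, h2⟩, h2⟩
  · rintro ⟨⟨h1, -, -⟩, h2⟩
    exact ⟨h1, h2⟩

theorem XO_local (c : ℤ × ℤ) (ρ : ℕ) (S F : Finset Edg) (Far : Set Vtx) (hF : F ⊆ S) (u : Vtx) :
    XO c ρ Far (↑F : Set Edg) u ↔ XO c ρ Far (↑(F ∩ (S \ blk c ρ)) : Set Edg) u := by
  unfold XO XA Rp
  rw [← Co_restrict c ρ S F hF u]

/-- Multiplicities. -/
theorem fX_le {C : ℝ} (hC : ∀ (c : ℤ × ℤ) (k : ℕ) (S : Finset Edg), 1 ≤ k →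
      Ex (fun _ => (1 / 2 : ℝ)) S (fun F =>
        (NC src tgt (ctr c k) {y | BSfar c (3 * k) y} (↑F : Set Edg) : ℝ)) ≤ C)
    {S : Finset Edg} {c : ℤ × ℤ} {ρ : ℕ} {Far : Set Vtx} (hρ : 1 ≤ ρ)
    (hS : blk c (3 * ρ) ⊆ S) (hF : ∀ y ∈ Far, BSfar c (3 * ρ) y) :
    fX S c ρ Far ≤ C * gX S c (3 * ρ) Far := by
  have hAn : An c ρ ⊆ S := (Finset.sdiff_subset).trans hS
  have e1 : fX S c ρ Far ≤ Ex (fun _ => (1 / 2 : ℝ)) S (fun F =>
      (NC src tgt (ctr c ρ) {y | BSfar c (3 * ρ) y} (↑(F ∩ An c ρ) : Set Edg) : ℝ) *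
        ind (∃ u, XO c (3 * ρ) Far (↑F : Set Edg) u)) := by
    rw [fX_eq]
    refine Ex_mono okh fun F _ => ?_
    by_cases h : ∃ u, XO c (3 * ρ) Far (↑F : Set Edg) u
    · rw [ind_of h, mul_one]
      exact count_le hF F
    · rw [ind_not_of h, mul_zero]
      refine le_of_eq (Finset.sum_eq_zero fun u _ => ind_not_of fun hu => h ?_)
      obtain ⟨u', hu', -⟩ := xa_up (show ρ ≤ 3 * ρ by omega) hF hu.2
      obtain ⟨u'', h2, -⟩ := xa_xo hu'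
      exact ⟨u'', h2⟩
  refine e1.trans ?_
  rw [Ex_mul_indep (U := S) (S := An c ρ) (T := S \ blk c (3 * ρ)) hAn Finset.sdiff_subset]
  · refine mul_le_mul_of_nonneg_right ?_ (gX_nonneg _ _ _ _)
    rw [Ex_local hAn (f := fun F =>
      (NC src tgt (ctr c ρ) {y | BSfar c (3 * ρ) y} (↑(F ∩ An c ρ) : Set Edg) : ℝ))]
    · rw [Ex_congr (g := fun F =>
        (NC src tgt (ctr c ρ) {y | BSfar c (3 * ρ) y} (↑F : Set Edg) : ℝ))]
      · exact hC c ρ _ hρ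
      · intro F hF'
        rw [Finset.inter_eq_left.2 hF']
    · intro F _
      rw [Finset.inter_assoc, Finset.inter_self]
  · rw [Finset.disjoint_left]
    intro e h1 h2
    unfold An at h1
    rw [Finset.mem_sdiff] at h1 h2
    exact h2.2 h1.1
  · intro F _
    rw [Finset.inter_assoc, Finset.inter_self]
  · intro F hF'
    refine ind_congr ?_
    refine exists_congr fun u => XO_local c (3 * ρ) S F Far hF' u

end Run7.h561.FB
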