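import Pool.Agent.Run7.h561.TP.P_FB1

/-! # FB, part 2: the probability of a tip -/

set_option autoImplicit false

namespace Run7.h561.FB

open H974 H12S Finset H984P H984N Run7.h561

/-- There is a tip at height within `t` of `c` of a cluster of the block of radius `W`. -/
def Tp (c : ℤ × ℤ) (W t : ℕ) (F : Set Edg) : Prop :=
  ∃ z : Vtx, z.1 = c.1 ∧ |z.2 - c.2| ≤ t ∧ (∃ y : Vtx, (W : ℤ) ≤ sd y c ∧
    Reach (F ∩ ↑(blk c W)) z y) ∧
    ∀ s : ℤ, s < z.2 → ¬ Reach (F ∩ ↑(blk c W)) z (c.1, s)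

/-- Some cluster reaches `Far` and has its lowest point on the line at distance at most `t`. -/
def Tv (c : ℤ × ℤ) (t : ℕ) (Far : Set Vtx) (F : Set Edg) : Prop :=
  ∃ v, (∃ y ∈ Far, y ∈ Cu F v) ∧ (∃ s : ℤ, s ≤ c.2 + t ∧ (c.1, s) ∈ Cu F v) ∧
    ∀ s : ℤ, (c.1, s) ∈ Cu F v → c.2 - t ≤ s

/-- The lowest vertex on the line. -/
theorem lowest {x0 b : ℤ} {F : Set Edg} {v : Vtx} {s1 : ℤ} (h1 : (x0, s1) ∈ Cu F v)
    (h2 : ∀ s : ℤ, (x0, s) ∈ Cu F v → b ≤ s) :
    ∃ s0 : ℤ, s0 ≤ s1 ∧ b ≤ s0 ∧ (x0, s0) ∈ Cu F v ∧ ∀ s : ℤ, s < s0 → (x0, s) ∉ Cu F v := by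
  classical
  set P : ℕ → Prop := fun k => (x0, b + k) ∈ Cu F v with hPd
  have e1 : b + ((s1 - b).toNat : ℤ) = s1 := by
    have := h2 s1 h1
    omega
  have hP : ∃ k, P k := ⟨(s1 - b).toNat, by rw [hPd]; simp only; rw [e1]; exact h1⟩
  have h3 := Nat.find_spec hP
  refine ⟨b + (Nat.find hP : ℕ), ?_, by omega, h3, ?_⟩
  · have : Nat.find hP ≤ (s1 - b).toNat := Nat.find_min' hP (by
      rw [hPd]; simp only; rw [e1]; exact h1)
    omega
  · intro s hs hc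
    have h4 := h2 s hc
    have h5 : Nat.find hP ≤ (s - b).toNat := Nat.find_min' hP (by
      rw [hPd]; simp only
      have : b + ((s - b).toNat : ℤ) = s := by omega
      rw [this]; exact hc)
    omega

theorem Tv_Tp {c : ℤ × ℤ} {W t : ℕ} {Far : Set Vtx} {F : Set Edg} (htW : t ≤ W)
    (hF : ∀ y ∈ Far, BSfar c W y) (h : Tv c t Far F) : Tp c W t F := by
  obtain ⟨v, ⟨y, y1, y2⟩, ⟨s1, s2, s3⟩, h3⟩ := h
  obtain ⟨s0, a1, a2, a3, a4⟩ := lowest s3 h3
  have hy := far_iff.1 (hF y y1)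
  have hzy : Reach F (c.1, s0) y := Reach.trans (Reach.symm a3) y2
  have htW' : (t : ℤ) ≤ W := by exact_mod_cast htW
  have hz : sd (c.1, s0) c ≤ (W : ℤ) := by
    rw [sd_le]; simp only; omega
  obtain ⟨w, w1, w2, -⟩ := first_level c (W : ℤ) hzy hz hy
  refine ⟨(c.1, s0), rfl, ?_, ⟨w, w1.ge, w2.mono ?_⟩, ?_⟩
  · simp only; rw [abs_le]; omega
  · rintro e ⟨e1, e2⟩
    exact ⟨e1, by exact_mod_cast mem_blk.2 e2⟩
  · intro s hs hr
    refine a4 s hs ?_
    exact Reach.trans a3 (Reach.mono Set.inter_subset_left hr)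

theorem blk_trl (c : ℤ × ℤ) (W : ℕ) (h : ℤ) :
    (trl 0 h).mp (blk c W) = blk (c.1, c.2 + h) W := by
  unfold blk
  rw [trl_RE]
  congr 1 <;> ring

theorem Tp_trl (c : ℤ × ℤ) (W t : ℕ) (h : ℤ) (F : Finset Edg) :
    Tp (c.1, c.2 + h) W t (↑((trl 0 h).mp F) : Set Edg) ↔ Tp c W t (↑F : Set Edg) := by
  have e1 : (↑((trl 0 h).mp F) ∩ ↑(blk (c.1, c.2 + h) W) : Set Edg) =
      (trl 0 h).φ '' (↑F ∩ ↑(blk c W)) := by
    rw [← blk_trl, LSym.coe_mp, LSym.coe_mp, Set.image_inter (trl 0 h).φ.injective]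
  have R : ∀ x y x' y' : ℤ, Reach (↑((trl 0 h).mp F) ∩ ↑(blk (c.1, c.2 + h) W) : Set Edg)
      (x, y + h) (x', y' + h) ↔ Reach (↑F ∩ ↑(blk c W)) (x, y) (x', y') := by
    intro x y x' y'
    rw [e1]
    have := (trl 0 h).reach_iff (F := ↑F ∩ ↑(blk c W)) (u := (x, y)) (v := (x', y'))
    rw [trl_ψ, trl_ψ, add_zero, add_zero] at this
    exact this
  constructor
  · rintro ⟨z, z1, z2, ⟨y, y1, y2⟩, z3⟩
    refine ⟨(z.1, z.2 - h), z1, ?_, ⟨(y.1, y.2 - h), ?_, ?_⟩, ?_⟩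
    · simp only at z2 ⊢
      rw [show z.2 - h - c.2 = z.2 - (c.2 + h) by ring]
      exact z2
    · rw [le_sd] at y1 ⊢
      simp only at y1 ⊢
      omega
    · rw [← R]
      simpa using y2
    · intro s hs hr
      refine z3 (s + h) (by simp only at hs; omega) ?_
      rw [← R] at hr
      simpa using hr
  · rintro ⟨z, z1, z2, ⟨y, y1, y2⟩, z3⟩
    refine ⟨(z.1, z.2 + h), z1, ?_, ⟨(y.1, y.2 + h), ?_, ?_⟩, ?_⟩
    · simp only
      rw [show z.2 + h - (c.2 + h) = z.2 - c.2 by ring]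
      exact z2
    · rw [le_sd] at y1 ⊢
      simp only
      omega
    · rw [R]
      exact y2
    · intro s hs hr
      have e2 : s = (s - h) + h := by ring
      rw [e2, R] at hr
      refine z3 (s - h) (by simp only at hs; omega) ?_
      exact hr

theorem Tp_local (c : ℤ × ℤ) (W t : ℕ) (F S : Finset Edg) (hS : blk c W ⊆ S) :
    Tp c W t (↑F : Set Edg) ↔ Tp c W t (↑(F ∩ S) : Set Edg) := by
  have : (↑F ∩ ↑(blk c W) : Set Edg) = ↑(F ∩ S) ∩ ↑(blk c W) := by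
    ext e
    simp only [Set.mem_inter_iff, Finset.mem_coe, Finset.mem_inter]
    constructor
    · rintro ⟨h1, h2⟩; exact ⟨⟨h1, hS h2⟩, h2⟩
    · rintro ⟨⟨h1, -⟩, h2⟩; exact ⟨h1, h2⟩
  unfold Tp
  rw [this]

theorem Tp_pr (c : ℤ × ℤ) (W t : ℕ) (S S' : Finset Edg) (h : ℤ) (hS : blk c W ⊆ S)
    (hS' : blk (c.1, c.2 + h) W ⊆ S') :
    PQ (1 / 2) S (fun F => Tp c W t (↑F : Set Edg)) =
      PQ (1 / 2) S' (fun F => Tp (c.1, c.2 + h) W t (↑F : Set Edg)) := by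
  rw [PQ, PQ, Pr_local (S' := blk c W) hS (fun F _ => Tp_local c W t F _ (Finset.Subset.refl _)),
    Pr_local (S' := blk (c.1, c.2 + h) W) hS'
      (fun F _ => Tp_local (c.1, c.2 + h) W t F _ (Finset.Subset.refl _)),
    ← blk_trl, LSym.pr]
  exact Pr_congr fun F _ => (Tp_trl c W t h F).symm

open Classical in
theorem tips_le (c : ℤ × ℤ) (W t k N : ℕ) (h1 : (2 * t + 1) * N + t ≤ k) (h2 : 4 * k ≤ W)
    (F : Finset Edg) :
    ∑ i ∈ range (N + 1), ind (Tp (c.1, c.2 + ((2 * t + 1) * i : ℕ)) W t (↑F : Set Edg)) ≤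
      (NC src tgt (ctr c k) {y | BSfar c (3 * k) y} (↑(F ∩ blk c (3 * k)) : Set Edg) : ℝ) := by
  have e1 : ∑ i ∈ range (N + 1), ind (Tp (c.1, c.2 + ((2 * t + 1) * i : ℕ)) W t (↑F : Set Edg)) =
      (((range (N + 1)).filter
        (fun i => Tp (c.1, c.2 + ((2 * t + 1) * i : ℕ)) W t (↑F : Set Edg))).card : ℝ) := by
    rw [Finset.card_filter]
    push_cast
    refine Finset.sum_congr rfl fun u _ => ?_
    unfold ind
    congr
  rw [e1]
  set G : Set Edg := (↑(F ∩ blk c (3 * k)) : Set Edg) with hG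
  have key : ∀ i, (i ≤ N ∧ Tp (c.1, c.2 + ((2 * t + 1) * i : ℕ)) W t (↑F : Set Edg)) →
      ∃ z : Vtx, z ∈ ctr c k ∧ RB src tgt {y | BSfar c (3 * k) y} G z ∧ z.1 = c.1 ∧
        |z.2 - (c.2 + ((2 * t + 1) * i : ℕ))| ≤ t ∧ ∀ s : ℤ, s < z.2 → ¬ Reach G z (c.1, s) := by
    rintro i ⟨hi, z, z1, z2, ⟨y, y1, y2⟩, z3⟩
    simp only at z1 z2 z3
    have hi' : (2 * t + 1) * i ≤ (2 * t + 1) * N := Nat.mul_le_mul_left _ hi
    have hi2 : (2 * t + 1) * i + t ≤ k := by omega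
    set p : ℕ := (2 * t + 1) * i with hp
    have z2' := abs_le.1 z2
    have hzk : sd z c ≤ (k : ℤ) := by
      rw [sd_le]; omega
    have hyk : ((3 * k : ℕ) : ℤ) ≤ sd y c := by
      rw [le_sd] at y1 ⊢
      simp only at y1
      push_cast
      omega
    have hsub : ∀ e, (sd (src e) c ≤ ((3 * k : ℕ) : ℤ) ∧ sd (tgt e) c ≤ ((3 * k : ℕ) : ℤ)) →
        e ∈ blk (c.1, c.2 + (p : ℤ)) W := by
      rintro e ⟨e1, e2⟩
      rw [mem_blk]
      rw [sd_le] at e1 e2 ⊢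
      rw [sd_le]
      simp only
      push_cast at e1 e2
      omega
    refine ⟨z, mem_ctr.2 hzk, ?_, z1, z2, ?_⟩
    · obtain ⟨w, w1, w2, -⟩ := first_level c ((3 * k : ℕ) : ℤ) y2 (by push_cast; omega) hyk
      refine ⟨w, far_iff.2 w1.ge, ?_⟩
      refine Reach.mono ?_ w2
      rintro e ⟨⟨e1, -⟩, e3⟩
      rw [hG]
      exact_mod_cast Finset.mem_inter.2 ⟨by exact_mod_cast e1, mem_blk.2 e3⟩
    · intro s hs hr
      refine z3 s hs (hr.mono ?_)
      intro e he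
      have he' : e ∈ F ∩ blk c (3 * k) := by rw [hG] at he; exact_mod_cast he
      rw [Finset.mem_inter, mem_blk] at he'
      exact ⟨by exact_mod_cast he'.1, by exact_mod_cast hsub e he'.2⟩
  choose! f f1 f2 f3 f4 f5 using key
  unfold NC
  norm_cast
  have hmem : ∀ i ∈ ((range (N + 1)).filter
        (fun i => Tp (c.1, c.2 + ((2 * t + 1) * i : ℕ)) W t (↑F : Set Edg))),
        i ≤ N ∧ Tp (c.1, c.2 + ((2 * t + 1) * i : ℕ)) W t (↑F : Set Edg) := by
    intro i hi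
    rw [Finset.mem_filter, Finset.mem_range] at hi
    exact ⟨by omega, hi.2⟩
  have hlt : ∀ i j, i < j → (i ≤ N ∧ Tp (c.1, c.2 + ((2 * t + 1) * i : ℕ)) W t (↑F : Set Edg)) →
      (j ≤ N ∧ Tp (c.1, c.2 + ((2 * t + 1) * j : ℕ)) W t (↑F : Set Edg)) →
      ¬ Reach G (f i) (f j) := by
    intro i j hij hi hj hr
    have g1 := abs_le.1 (f4 i hi)
    have g2 := abs_le.1 (f4 j hj)
    have g3 : (2 * t + 1) * i + (2 * t + 1) ≤ (2 * t + 1) * j := by
      calc (2 * t + 1) * i + (2 * t + 1) = (2 * t + 1) * (i + 1) := by ring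
        _ ≤ (2 * t + 1) * j := Nat.mul_le_mul_left _ hij
    have g3' : (((2 * t + 1) * i : ℕ) : ℤ) + (2 * t + 1) ≤ (((2 * t + 1) * j : ℕ) : ℤ) := by
      exact_mod_cast g3
    refine f5 j hj (f i).2 (by omega) ?_
    have e3 : ((c.1, (f i).2) : Vtx) = f i := by
      rw [← f3 i hi]
    rw [e3]
    exact Reach.symm hr
  refine Finset.card_le_card_of_injOn (fun i => clu src tgt G (f i)) ?_ ?_
  · intro i hi
    have hi' := hmem i (Finset.mem_coe.1 hi)
    exact mem_TC.2 ⟨f i, f1 i hi', f2 i hi', rfl⟩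
  · intro i hi j hj he
    have hi' := hmem i (Finset.mem_coe.1 hi)
    have hj' := hmem j (Finset.mem_coe.1 hj)
    have hr : Reach G (f i) (f j) := by
      have : f j ∈ clu src tgt G (f j) := GR.refl _ _
      simp only at he
      rw [← he] at this
      exact this
    by_contra hne
    rcases Nat.lt_or_gt_of_ne hne with h | h
    · exact hlt i j h hi' hj' hr
    · exact hlt j i h hj' hi' (Reach.symm hr)

theorem tip_le {C : ℝ} (hC : ∀ (c : ℤ × ℤ) (k : ℕ) (S : Finset Edg), 1 ≤ k →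
      Ex (fun _ => (1 / 2 : ℝ)) S (fun F =>
        (NC src tgt (ctr c k) {y | BSfar c (3 * k) y} (↑F : Set Edg) : ℝ)) ≤ C) (hC1 : 1 ≤ C)
    {c : ℤ × ℤ} {W t : ℕ} {S : Finset Edg} (ht : 1 ≤ t) (h0 : 1 ≤ W) (hS : blk c W ⊆ S) :
    PQ (1 / 2) S (fun F => Tp c W t (↑F : Set Edg)) ≤ 24 * C * ((t : ℝ) / W) := by
  have ht0 : (1 : ℝ) ≤ t := by exact_mod_cast ht
  have hW : (0 : ℝ) < W := by exact_mod_cast h0
  by_cases hsm : W < 16 * t
  · refine (Pr_le_one okh _ _).trans ?_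
    have h1 : (W : ℝ) ≤ 16 * t := by exact_mod_cast hsm.le
    have h2 : (1 : ℝ) / 16 ≤ t / W := by
      rw [div_le_div_iff₀ (by norm_num) hW]; linarith
    nlinarith
  push Not at hsm
  set k : ℕ := W / 4 with hk
  have hk1 : 4 * k ≤ W := Nat.mul_div_le W 4
  have hk2 : W < 4 * k + 4 := by omega
  set N : ℕ := (k - t) / (2 * t + 1) with hN
  have hN1 : (2 * t + 1) * N ≤ k - t := Nat.mul_div_le _ _
  have hN2 : k - t < (2 * t + 1) * (N + 1) := by
    have := Nat.lt_mul_div_succ (k - t) (show 0 < 2 * t + 1 by omega)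
    simpa [hN] using this
  have hkt : t ≤ k := by omega
  have hsum : ((N : ℝ) + 1) * PQ (1 / 2) S (fun F => Tp c W t (↑F : Set Edg)) ≤ C := by
    have e1 : ((N : ℝ) + 1) * PQ (1 / 2) S (fun F => Tp c W t (↑F : Set Edg)) =
        ∑ i ∈ range (N + 1), PQ (1 / 2) (blk c (2 * W))
          (fun F => Tp (c.1, c.2 + ((2 * t + 1) * i : ℕ)) W t (↑F : Set Edg)) := by
      have : ∀ i ∈ range (N + 1), PQ (1 / 2) (blk c (2 * W))
          (fun F => Tp (c.1, c.2 + ((2 * t + 1) * i : ℕ)) W t (↑F : Set Edg)) =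
          PQ (1 / 2) S (fun F => Tp c W t (↑F : Set Edg)) := by
        intro i hi
        rw [Finset.mem_range] at hi
        symm
        apply Tp_pr c W t S _ _ hS
        have hi' : (2 * t + 1) * i ≤ (2 * t + 1) * N := Nat.mul_le_mul_left _ (by omega)
        intro e he
        rw [mem_blk] at he ⊢
        rw [sd_le, sd_le] at he
        rw [sd_le, sd_le]
        simp only at he
        set p : ℕ := (2 * t + 1) * i with hp
        push_cast
        omega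
      rw [Finset.sum_congr rfl this, Finset.sum_const, Finset.card_range, nsmul_eq_mul]
      push_cast
      ring
    rw [e1]
    unfold PQ Pr
    rw [← Ex_sum]
    refine (Ex_mono okh (fun F _ => tips_le c W t k N (by omega) hk1 F)).trans ?_
    have hb : blk c (3 * k) ⊆ blk c (2 * W) := blk_mono (by omega)
    rw [Ex_local hb (f := fun F =>
      (NC src tgt (ctr c k) {y | BSfar c (3 * k) y} (↑(F ∩ blk c (3 * k)) : Set Edg) : ℝ))]
    · rw [Ex_congr (g := fun F =>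
        (NC src tgt (ctr c k) {y | BSfar c (3 * k) y} (↑F : Set Edg) : ℝ))]
      · exact hC c k _ (by omega)
      · intro F hF'
        rw [Finset.inter_eq_left.2 hF']
    · intro F _
      rw [Finset.inter_assoc, Finset.inter_self]
  have hN3 : (W : ℝ) ≤ 24 * t * (N + 1) := by
    have h1 : k - t + 1 ≤ (2 * t + 1) * (N + 1) := hN2
    have h2 : k + 1 ≤ (2 * t + 1) * (N + 1) + t := by omega
    have h3 : (2 * t + 1) * (N + 1) ≤ 3 * t * (N + 1) := Nat.mul_le_mul_right _ (by omega)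
    have h4 : 1 * (N + 1) ≤ t * (N + 1) := Nat.mul_le_mul_right _ ht
    have h5 : W ≤ 24 * (t * (N + 1)) := by
      have h6 : 3 * t * (N + 1) = 3 * (t * (N + 1)) := by ring
      rw [h6] at h3
      omega
    have : (W : ℝ) ≤ ((24 * (t * (N + 1)) : ℕ) : ℝ) := by exact_mod_cast h5
    push_cast at this
    linarith
  have hP : 0 ≤ PQ (1 / 2) S (fun F => Tp c W t (↑F : Set Edg)) := Pr_nonneg okh _ _
  have hN0 : (0 : ℝ) < (N : ℝ) + 1 := by positivity
  rw [mul_div_assoc', le_div_iff₀ hW]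
  calc PQ (1 / 2) S (fun F => Tp c W t (↑F : Set Edg)) * W
      ≤ PQ (1 / 2) S (fun F => Tp c W t (↑F : Set Edg)) * (24 * t * (N + 1)) :=
        mul_le_mul_of_nonneg_left hN3 hP
    _ = 24 * t * (((N : ℝ) + 1) * PQ (1 / 2) S (fun F => Tp c W t (↑F : Set Edg))) := by ring
    _ ≤ 24 * t * C := mul_le_mul_of_nonneg_left hsum (by positivity)
    _ = 24 * C * t := by ring

end Run7.h561.FB
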