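import Pool.Agent.Run7.h561.TP.P_SURG
import Pool.Agent.Run7.h561.TP.Seg

/-! # GLOC: locality of the gadget -/

set_option autoImplicit false

namespace Run7.h561

open H974 H12S Finset H984P H984N SURG

theorem mem_mpv {v : Vtx} {F : Finset Edg} {e : Edg} :
    e ∈ (trl (-v.1) (-v.2)).mp F ↔ (e.1 + v.1, e.2.1 + v.2, e.2.2) ∈ F := by
  rw [LSym.mem_mp]
  have : (trl (-v.1) (-v.2)).φ.symm e = (e.1 + v.1, e.2.1 + v.2, e.2.2) := by
    change (e.1 - -v.1, e.2.1 - -v.2, e.2.2) = _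
    simp
  rw [this]

theorem src_add (v : Vtx) (e : Edg) : src (e.1 + v.1, e.2.1 + v.2, e.2.2) =
    ((src e).1 + v.1, (src e).2 + v.2) := by
  obtain ⟨x, y, b⟩ := e; rfl

theorem tgt_add (v : Vtx) (e : Edg) : tgt (e.1 + v.1, e.2.1 + v.2, e.2.2) =
    ((tgt e).1 + v.1, (tgt e).2 + v.2) := by
  obtain ⟨x, y, _ | _⟩ := e
  · simp; ring
  · simp; ring

theorem cl_congr {R : ℕ} {F F' : Finset Edg} (h : ∀ e ∈ boxE R, (e ∈ F ↔ e ∈ F')) :
    Pool.Agent.Y989.FR.cl R (↑F : Set Edg) = Pool.Agent.Y989.FR.cl R (↑F' : Set Edg) := by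
  unfold Pool.Agent.Y989.FR.cl
  have : (↑F : Set Edg) ∩ ↑(boxE R) = (↑F' : Set Edg) ∩ ↑(boxE R) := by
    ext e
    simp only [Set.mem_inter_iff, Finset.mem_coe]
    constructor
    · rintro ⟨h1, h2⟩; exact ⟨(h e h2).1 h1, h2⟩
    · rintro ⟨h1, h2⟩; exact ⟨(h e h2).2 h1, h2⟩
  rw [this]

theorem KV_congr {R : ℕ} {F F' : Finset Edg} (h : ∀ e ∈ boxE R, (e ∈ F ↔ e ∈ F')) :
    KV R F = KV R F' := by
  ext e
  rw [mem_KV, mem_KV, cl_congr h]

theorem boxE_mono {k l : ℕ} (h : k ≤ l) : boxE k ⊆ boxE l := by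
  rw [boxE_eq, boxE_eq]; exact blk_mono h

theorem Cl1_congr {M B a m ρ : ℕ} {T : Finset (ℤ × ℤ)} {e : ℤ × ℤ} {F F' : Finset Edg}
    (h : ∀ e ∈ boxE (a * m), (e ∈ F ↔ e ∈ F')) (h1 : Cl1 M B a m ρ T e (↑F : Set Edg)) :
    Cl1 M B a m ρ T e (↑F' : Set Edg) := by
  unfold Cl1 at h1 ⊢
  rw [← cl_congr h]
  exact h1

theorem Cl2_congr {a m ρ' : ℕ} {T : Finset (ℤ × ℤ)} {F F' : Finset Edg}
    (h : ∀ e ∈ boxE (5 * (a * m)), (e ∈ F ↔ e ∈ F')) (h1 : Cl2 a m ρ' T F) :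
    Cl2 a m ρ' T F' := by
  have h0 : ∀ e ∈ boxE (a * m), (e ∈ F ↔ e ∈ F') := fun e he =>
    h e (boxE_mono (by omega) he)
  unfold Cl2 at h1 ⊢
  rw [← cl_congr h0, ← KV_congr h0]
  obtain ⟨u, u1, u2, y, y1, h2⟩ := h1
  refine ⟨u, u1, u2, y, y1, h2.mono ?_⟩
  rintro g ⟨g1, g2, g3, g4, g5⟩
  exact ⟨(h g (by rw [boxE_eq]; exact g4)).1 g1, g2, g3, g4, g5⟩

theorem ncr_congr {R k l : ℕ} (hkl : k ≤ l) (hl : l ≤ R) {F F' : Finset Edg}
    (h : ∀ e ∈ boxE R, (e ∈ F ↔ e ∈ F'))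
    (h1 : Crs 0 0 k l (↑(F \ KV R F) : Set Edg)) : Crs 0 0 k l (↑(F' \ KV R F') : Set Edg) := by
  rw [← KV_congr h]
  have h2 := crs_local (c := (0, 0)) hkl (T := blk (0, 0) l) (fun e h _ => h) h1
  refine BS_crs_mono ?_ h2
  intro e he
  rw [Finset.mem_coe, Finset.mem_inter, Finset.mem_sdiff] at he
  rw [Finset.mem_coe, Finset.mem_sdiff]
  have h3 : e ∈ boxE R := by rw [boxE_eq]; exact blk_mono hl he.2
  exact ⟨(h e h3).1 he.1.1, he.1.2⟩

/-- The event at `v` depends only on the edges of `blk v (5 a m)`. -/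
theorem ClA_congr {M B L a m : ℕ} {T : Finset (ℤ × ℤ)} {e : ℤ × ℤ} {v : Vtx}
    {F F' : Finset Edg} (hL : 1 ≤ L) (h : ∀ e ∈ blk v (5 * (a * m)), (e ∈ F ↔ e ∈ F'))
    (h1 : ClA M B L a m T e v F) : ClA M B L a m T e v F' := by
  have h5 : ∀ e ∈ boxE (5 * (a * m)), (e ∈ (trl (-v.1) (-v.2)).mp F ↔
      e ∈ (trl (-v.1) (-v.2)).mp F') := by
    intro e he
    rw [mem_mpv, mem_mpv]
    apply h
    rw [mem_boxE, sd_le, sd_le] at he
    rw [mem_blk, src_add, tgt_add, sd_le, sd_le]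
    simp only at he ⊢
    omega
  have h0 : ∀ e ∈ boxE (a * m), (e ∈ (trl (-v.1) (-v.2)).mp F ↔
      e ∈ (trl (-v.1) (-v.2)).mp F') := fun e he => h5 e (boxE_mono (by omega) he)
  obtain ⟨⟨h2, h3⟩, h4⟩ := h1
  refine ⟨⟨Cl1_congr h0 h2, Cl2_congr h5 h3⟩, fun h6 => h4 ?_⟩
  refine ncr_congr ?_ (Nat.div_le_self _ _) (fun e he => (h0 e he).symm) h6
  exact Nat.div_le_div_left (Nat.le_self_pow (by norm_num) L) hL

/-- Coordinates of the cells of the classes. -/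
theorem T_coord {a m ρ : ℕ} {T : Finset (ℤ × ℤ)} {e : ℤ × ℤ} (hAdm : Adm a m ρ T e)
    {q : ℤ × ℤ} (hq : q ∈ T) :
    (-(5 * (a * m) + m : ℤ) ≤ 2 * (m * q.1) ∧ 2 * (m * q.1) ≤ 5 * (a * m) + m) ∧
    (-(5 * (a * m) + m : ℤ) ≤ 2 * (m * q.2) ∧ 2 * (m * q.2) ≤ 5 * (a * m) + m) := by
  have h1 := hAdm.hi q hq
  rw [sd_le] at h1
  simp only [cell] at h1
  omega

/-- Positions of the closed cells of the gadget (relative to the centre `v0`). -/
theorem Cor_coord {a m ρ : ℕ} {T : Finset (ℤ × ℤ)} {e : ℤ × ℤ}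
    (hAdm : Adm a m ρ T e) {q : ℤ × ℤ} (hq : q ∈ T ∪ Cor a e) :
    ((-(5 * (a * m) + m : ℤ) ≤ 2 * (m * q.1) ∧ 2 * (m * q.1) ≤ 5 * (a * m) + m) ∧
      (-(8 * (a * m) : ℤ) ≤ 2 * (m * q.2) ∧ 2 * (m * q.2) ≤ 5 * (a * m) + m)) ∨
    ((-(6 * (a * m) : ℤ) ≤ 2 * (m * q.1) ∧ 2 * (m * q.1) ≤ 128 * (a * m)) ∧
      2 * (m * q.2) = -(8 * (a * m) : ℤ)) ∨
    ((-(5 * (a * m) + m : ℤ) ≤ 2 * (m * q.1) ∧ 2 * (m * q.1) ≤ 5 * (a * m) + m) ∧
      (-(5 * (a * m) + m : ℤ) ≤ 2 * (m * q.2) ∧ 2 * (m * q.2) ≤ 5 * (a * m) + m)) := by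
  have mulm : ∀ k l : ℤ, k ≤ l → (m : ℤ) * k ≤ m * l := fun k l h =>
    mul_le_mul_of_nonneg_left h (by positivity)
  have heT := T_coord hAdm hAdm.mem
  have heb := hAdm.bot
  simp only [cell] at heb
  rw [Finset.mem_union] at hq
  rcases hq with hq | hq
  · right; right
    exact T_coord hAdm hq
  · unfold Cor at hq
    simp only [Finset.mem_union, Finset.mem_image, Finset.mem_Icc] at hq
    rcases hq with ⟨j, ⟨j1, j2⟩, rfl⟩ | ⟨i, ⟨i1, i2⟩, rfl⟩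
    · left
      have h1 := mulm _ _ j1
      have h2 := mulm _ _ j2
      have e1 : (m : ℤ) * -(4 * a) = -(4 * (a * m)) := by ring
      simp only
      omega
    · right; left
      have h1 := mulm _ _ i1
      have h2 := mulm _ _ i2
      have e1 : (m : ℤ) * -(4 * a) = -(4 * (a * m)) := by ring
      have e2 : (m : ℤ) * -(3 * a) = -(3 * (a * m)) := by ring
      have e3 : (m : ℤ) * (64 * a) = 64 * (a * m) := by ring
      simp only
      omega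

/-- Positions of the open cells of the gadget. -/
theorem Fam_coord {a m : ℕ} {T : Finset (ℤ × ℤ)} {e : ℤ × ℤ} {q : ℤ × ℤ} (hq : q ∈ Fam a T e) :
    (-(7 * (a * m) : ℤ) ≤ 2 * (m * q.1) ∧ 2 * (m * q.1) ≤ 7 * (a * m)) ∧
      (-(7 * (a * m) : ℤ) ≤ 2 * (m * q.2) ∧ 2 * (m * q.2) ≤ 7 * (a * m)) := by
  unfold Fam at hq
  simp only [Finset.mem_filter, Finset.mem_product, Finset.mem_Icc] at hq
  obtain ⟨-, -, h1, -⟩ := hq
  have h2 : 2 * |q.1| ≤ 7 * (a : ℤ) := le_trans (by linarith [le_max_left |q.1| |q.2|]) h1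
  have h3 : 2 * |q.2| ≤ 7 * (a : ℤ) := le_trans (by linarith [le_max_right |q.1| |q.2|]) h1
  have key : ∀ x : ℤ, 2 * |x| ≤ 7 * (a : ℤ) →
      (-(7 * (a * m) : ℤ) ≤ 2 * (m * x) ∧ 2 * (m * x) ≤ 7 * (a * m)) := by
    intro x hx
    have h4 : 2 * x ≤ 7 * a := by have := le_abs_self x; omega
    have h5 : 2 * -x ≤ 7 * a := by have := neg_abs_le x; omega
    have h6 := mul_le_mul_of_nonneg_left h4 (show (0 : ℤ) ≤ m by positivity)
    have h7 := mul_le_mul_of_nonneg_left h5 (show (0 : ℤ) ≤ m by positivity)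
    have e1 : (m : ℤ) * (2 * x) = 2 * (m * x) := by ring
    have e2 : (m : ℤ) * (2 * -x) = -(2 * (m * x)) := by ring
    have e3 : (m : ℤ) * (7 * a) = 7 * (a * m) := by ring
    omega
  exact ⟨key _ h2, key _ h3⟩

/-- The gadget event only depends on the edges near the cells. -/
theorem GE_congr {t : ℝ} {M B L a m : ℕ} {c0 E0 : ℝ} {T : Finset (ℤ × ℤ)} {e : ℤ × ℤ}
    (hL : 1 ≤ L) {F F' : Finset Edg}
    (h1 : ∀ q ∈ Fam a T e, BSU (tr (v0 a m) (cell m q)) m F → BSU (tr (v0 a m) (cell m q)) m F')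
    (h2 : ∀ q ∈ T ∪ Cor a e, BSD (tr (v0 a m) (cell m q)) (2 * m) F →
      BSD (tr (v0 a m) (cell m q)) (2 * m) F')
    (h3 : ∀ v ∈ ctr (v0 a m) (m / 2), ∀ g ∈ blk v (5 * (a * m)), (g ∈ F ↔ g ∈ F'))
    (h : GE t M B L a m T e c0 E0 F) : GE t M B L a m T e c0 E0 F' := by
  obtain ⟨a1, a2, a3, a4⟩ := h
  have hV : VG M B L a m T e F = VG M B L a m T e F' := by
    classical
    unfold VG
    apply Finset.filter_congr
    intro v hv
    exact ⟨ClA_congr hL (h3 v hv), ClA_congr hL (fun g hg => (h3 v hv g hg).symm)⟩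
  refine ⟨fun q hq => h1 q hq (a1 q hq), fun q hq => h2 q hq (a2 q hq), ?_, ?_⟩
  · rw [← hV]; exact a3
  · rw [← hV]; exact a4

theorem bsu_congr {q : ℤ × ℤ} {k : ℕ} {F F' : Finset Edg}
    (h : ∀ e ∈ blk q (3 * k), (e ∈ F ↔ e ∈ F')) (h1 : BSU q k F) : BSU q k F' := by
  rw [BSU_local] at h1 ⊢
  have : F ∩ blk q (3 * k) = F' ∩ blk q (3 * k) := by
    ext e
    simp only [Finset.mem_inter]
    constructor
    · rintro ⟨h1, h2⟩; exact ⟨(h e h2).1 h1, h2⟩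
    · rintro ⟨h1, h2⟩; exact ⟨(h e h2).2 h1, h2⟩
  rwa [← this]

theorem bsd_congr {q : ℤ × ℤ} {k : ℕ} {F F' : Finset Edg}
    (h : ∀ e ∈ blk q (3 * k), (e ∈ F ↔ e ∈ F')) (h1 : BSD q k F) : BSD q k F' := by
  rw [BSD_local] at h1 ⊢
  have : F ∩ blk q (3 * k) = F' ∩ blk q (3 * k) := by
    ext e
    simp only [Finset.mem_inter]
    constructor
    · rintro ⟨h1, h2⟩; exact ⟨(h e h2).1 h1, h2⟩
    · rintro ⟨h1, h2⟩; exact ⟨(h e h2).2 h1, h2⟩
  rwa [← this]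

/-- **GLOC** -/
theorem t_GLOC : S_GLOC := by
  intro t M B L a m c0 E0 T e ha hL hm hAdm
  have ha' : (24 : ℤ) ≤ a := by exact_mod_cast ha
  have hm' : (1 : ℤ) ≤ m := by exact_mod_cast hm
  have hUm : 24 * (m : ℤ) ≤ a * m := mul_le_mul_of_nonneg_right ha' (by positivity)
  -- position of the blocks
  have b1 : ∀ q ∈ Fam a T e, ∀ g ∈ blk (tr (v0 a m) (cell m q)) (3 * m),
      g ∈ blk (v0 a m) (9 * (a * m)) ∧ (src g).1 ≤ -(120 * (a * m) : ℤ) := by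
    intro q hq g hg
    have h1 := Fam_coord (m := m) hq
    rw [mem_blk, sd_le, sd_le] at hg ⊢
    simp only [tr, v0, cell] at hg ⊢
    push_cast at hg ⊢
    omega
  have b2 : ∀ q ∈ T ∪ Cor a e, ∀ g ∈ blk (tr (v0 a m) (cell m q)) (3 * (2 * m)),
      g ∈ TG a m ∧ (src g).2 ≤ -(122 * (a * m) : ℤ) := by
    intro q hq g hg
    have h1 := Cor_coord hAdm hq
    unfold TG
    rw [Finset.mem_union]
    rw [mem_blk, sd_le, sd_le] at hg
    rw [mem_blk, sd_le, sd_le, mem_RE]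
    unfold inR
    simp only [tr, v0, cell] at hg ⊢
    push_cast at hg ⊢
    rcases h1 with h1 | h1 | h1
    · refine ⟨Or.inl ?_, ?_⟩ <;> omega
    · refine ⟨Or.inr ?_, ?_⟩ <;> omega
    · refine ⟨Or.inl ?_, ?_⟩ <;> omega
  have b3 : ∀ v ∈ ctr (v0 a m) (m / 2), ∀ g ∈ blk v (5 * (a * m)),
      g ∈ blk (v0 a m) (9 * (a * m)) ∧ (src g).1 ≤ -(120 * (a * m) : ℤ) ∧
        (src g).2 ≤ -(122 * (a * m) : ℤ) := by
    intro v hv g hg
    rw [mem_ctr, sd_le] at hv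
    have hm2 : 2 * ((m / 2 : ℕ) : ℤ) ≤ m := by omega
    rw [mem_blk, sd_le, sd_le] at hg ⊢
    simp only [v0] at hv ⊢
    push_cast at hg ⊢
    omega
  have hTG : ∀ g ∈ blk (v0 a m) (9 * (a * m)), g ∈ TG a m := fun g hg => by
    unfold TG; exact Finset.mem_union_left _ hg
  refine ⟨?_, ?_, ?_⟩
  · intro F
    have key : ∀ g ∈ TG a m, (g ∈ F ↔ g ∈ F ∩ TG a m) := by
      intro g hg
      rw [Finset.mem_inter]
      exact ⟨fun h => ⟨h, hg⟩, fun h => h.1⟩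
    constructor
    · exact GE_congr hL (fun q hq => bsu_congr fun g hg => key g (hTG g (b1 q hq g hg).1))
        (fun q hq => bsd_congr fun g hg => key g (b2 q hq g hg).1)
        (fun v hv g hg => key g (hTG g (b3 v hv g hg).1))
    · exact GE_congr hL (fun q hq => bsu_congr fun g hg => (key g (hTG g (b1 q hq g hg).1)).symm)
        (fun q hq => bsd_congr fun g hg => (key g (b2 q hq g hg).1).symm)
        (fun v hv g hg => (key g (hTG g (b3 v hv g hg).1)).symm)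
  · intro F F' h h1 h2
    have key : ∀ g : Edg, (src g).2 ≤ -(122 * (a * m) : ℤ) → (g ∈ F ↔ g ∈ F') := by
      intro g hg
      refine ⟨fun h => h1 h, fun h3 => ?_⟩
      by_contra h4
      have h5 := h2 (Finset.mem_sdiff.2 ⟨h3, h4⟩)
      unfold TI at h5
      rw [mem_RE] at h5
      have h6 := h5.1.2.1
      omega
    exact GE_congr hL (fun q hq => BSU_mono h1)
      (fun q hq => bsd_congr fun g hg => key g (b2 q hq g hg).2)
      (fun v hv g hg => key g (b3 v hv g hg).2.2) h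
  · intro F F' h h1 h2
    have key : ∀ g : Edg, (src g).1 ≤ -(120 * (a * m) : ℤ) → (g ∈ F ↔ g ∈ F') := by
      intro g hg
      refine ⟨fun h3 => ?_, fun h => h1 h⟩
      by_contra h4
      have h5 := h2 (Finset.mem_sdiff.2 ⟨h3, h4⟩)
      unfold TD at h5
      rw [mem_RE] at h5
      have h6 := h5.1.1.1
      omega
    exact GE_congr hL (fun q hq => bsu_congr fun g hg => key g (b1 q hq g hg).2)
      (fun q hq => bsd_dec h1)
      (fun v hv g hg => key g (b3 v hv g hg).2.1) h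

end Run7.h561
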