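import Pool.Agent.Run7.h561.TP.P_GLOC

/-! # ONE_ROT: symmetries of the one-point event -/

set_option autoImplicit false

namespace Run7.h561

open H974 H12S Finset H984P H984N SURG

/-- Symmetries which fix the origin and map cells to cells. -/
structure NSym (g : LSym) : Prop where
  zero : g.ψ (0, 0) = (0, 0)
  dist : ∀ x y : Vtx, sd (g.ψ x) (g.ψ y) = sd x y
  cel : ∀ (m : ℕ) (q : ℤ × ℤ), g.ψ (cell m q) = cell m (g.ψ q)

theorem nsym_rfy : NSym (rfy 0) := by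
  refine ⟨by simp, ?_, ?_⟩
  · rintro ⟨x1, x2⟩ ⟨y1, y2⟩
    simp only [rfy_ψ]
    have h1 := sd_le.1 (le_refl (sd (x1, x2) (y1, y2)))
    have h2 := sd_le.1 (le_refl (sd (x1, 0 - x2) (y1, 0 - y2)))
    simp only at h1 h2
    apply le_antisymm
    · rw [sd_le]; simp only; omega
    · rw [sd_le]; simp only; omega
  · rintro m ⟨q1, q2⟩
    simp only [cell, rfy_ψ]
    ext
    · rfl
    · simp only; ring

theorem nsym_tps : NSym tps := by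
  refine ⟨by simp, ?_, ?_⟩
  · rintro ⟨x1, x2⟩ ⟨y1, y2⟩
    simp only [tps_ψ]
    unfold sd
    simp only
    rw [max_comm]
  · rintro m ⟨q1, q2⟩
    simp only [cell, tps_ψ]

namespace NSym

variable {g : LSym}

theorem sd0 (hg : NSym g) (x : Vtx) : sd (g.ψ x) (0, 0) = sd x (0, 0) := by
  rw [← hg.dist x (0, 0), hg.zero]

theorem ends (hg : NSym g) (e : Edg) {P : Vtx → Prop} :
    (P (src (g.φ e)) ∧ P (tgt (g.φ e))) ↔ (P (g.ψ (src e)) ∧ P (g.ψ (tgt e))) := by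
  rcases g.compat e with ⟨h1, h2⟩ | ⟨h1, h2⟩
  · rw [h1, h2]
  · rw [h1, h2]; exact and_comm

theorem ends' (hg : NSym g) (e : Edg) {P : Vtx → Prop} :
    (P (src (g.φ e)) ∨ P (tgt (g.φ e))) ↔ (P (g.ψ (src e)) ∨ P (g.ψ (tgt e))) := by
  rcases g.compat e with ⟨h1, h2⟩ | ⟨h1, h2⟩
  · rw [h1, h2]
  · rw [h1, h2]; exact or_comm

theorem mem_blk (hg : NSym g) (n : ℕ) (e : Edg) : g.φ e ∈ blk (0, 0) n ↔ e ∈ blk (0, 0) n := by
  rw [Run7.h561.mem_blk, Run7.h561.mem_blk, hg.ends e (P := fun x => sd x (0, 0) ≤ n), hg.sd0,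
    hg.sd0]

theorem mp_blk (hg : NSym g) (n : ℕ) : g.mp (blk (0, 0) n) = blk (0, 0) n := by
  ext e
  rw [LSym.mem_mp]
  have := hg.mem_blk n (g.φ.symm e)
  rw [Equiv.apply_symm_apply] at this
  exact this.symm

theorem mp_boxE (hg : NSym g) (n : ℕ) : g.mp (boxE n) = boxE n := by
  rw [boxE_eq]; exact hg.mp_blk n

theorem mem_mp (F : Finset Edg) (e : Edg) : g.φ e ∈ g.mp F ↔ e ∈ F := by
  rw [LSym.mem_mp, Equiv.symm_apply_apply]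

theorem cl_iff (hg : NSym g) (n : ℕ) (F : Finset Edg) (x : Vtx) :
    g.ψ x ∈ Pool.Agent.Y989.FR.cl n (↑(g.mp F) : Set Edg) ↔
      x ∈ Pool.Agent.Y989.FR.cl n (↑F : Set Edg) := by
  unfold Pool.Agent.Y989.FR.cl
  simp only [Set.mem_setOf_eq]
  rw [← g.reach_iff (F := (↑F : Set Edg) ∩ ↑(boxE n)) (u := (0, 0)) (v := x), hg.zero]
  have : (↑(g.mp F) : Set Edg) ∩ ↑(boxE n) = g.φ '' ((↑F : Set Edg) ∩ ↑(boxE n)) := by
    rw [LSym.image_inter, hg.mp_boxE]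
  rw [this]

theorem KV_iff (hg : NSym g) (n : ℕ) (F : Finset Edg) (e : Edg) :
    g.φ e ∈ KV n (g.mp F) ↔ e ∈ KV n F := by
  rw [mem_KV, mem_KV, hg.ends' e (P := fun x => x ∈ Pool.Agent.Y989.FR.cl n (↑(g.mp F) : Set Edg)),
    hg.cl_iff, hg.cl_iff, boxE_eq, hg.mem_blk]

/-- Transport of a path. -/
theorem path (hg : NSym g) {G G' : Set Edg} (h : ∀ e ∈ G, g.φ e ∈ G') {x y : Vtx}
    (h1 : Reach G x y) : Reach G' (g.ψ x) (g.ψ y) := by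
  refine Reach.mono ?_ (g.reach h1)
  rintro _ ⟨e, he, rfl⟩
  exact h e he

theorem Cl1 (hg : NSym g) {M B a m ρ : ℕ} {T : Finset (ℤ × ℤ)} {e : ℤ × ℤ} {F : Finset Edg}
    (h : Cl1 M B a m ρ T e (↑F : Set Edg)) :
    Run7.h561.Cl1 M B a m ρ (T.image g.ψ) (g.ψ e) (↑(g.mp F) : Set Edg) := by
  obtain ⟨h1, x, x1, y, y1, h2⟩ := h
  have tr : ∀ z : Vtx, ((sd z (0, 0) ≤ ρ ∧ ∀ c ∈ Pool.Agent.Y989.FR.cl (a * m) (↑F : Set Edg),
        Pool.Agent.Y989.FR.Awy M B (8 * (a * m)) (0, 0) c z) ∨ ∃ q ∈ T, sd z (cell m q) ≤ m) →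
      ((sd (g.ψ z) (0, 0) ≤ ρ ∧ ∀ c ∈ Pool.Agent.Y989.FR.cl (a * m) (↑(g.mp F) : Set Edg),
        Pool.Agent.Y989.FR.Awy M B (8 * (a * m)) (0, 0) c (g.ψ z)) ∨
        ∃ q ∈ T.image g.ψ, sd (g.ψ z) (cell m q) ≤ m) := by
    rintro z (⟨h3, h4⟩ | ⟨q, h3, h4⟩)
    · left
      refine ⟨by rw [hg.sd0]; exact h3, ?_⟩
      intro c hc
      have hc' : g.ψ (g.ψ.symm c) ∈ Pool.Agent.Y989.FR.cl (a * m) (↑(g.mp F) : Set Edg) := by
        rw [Equiv.apply_symm_apply]; exact hc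
      have h5 := h4 _ ((hg.cl_iff _ _ _).1 hc')
      unfold Pool.Agent.Y989.FR.Awy at h5 ⊢
      rw [hg.sd0, ← Equiv.apply_symm_apply g.ψ c, hg.dist]
      exact h5
    · right
      refine ⟨g.ψ q, Finset.mem_image_of_mem _ h3, ?_⟩
      rw [← hg.cel, hg.dist]
      exact h4
  refine ⟨?_, g.ψ x, ?_, g.ψ y, ?_, ?_⟩
  · intro z hz q hq
    rw [Finset.mem_image] at hq
    obtain ⟨q', hq', rfl⟩ := hq
    have hz' : g.ψ (g.ψ.symm z) ∈ Pool.Agent.Y989.FR.cl (a * m) (↑(g.mp F) : Set Edg) := by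
      rw [Equiv.apply_symm_apply]; exact hz
    have h5 := h1 _ ((hg.cl_iff _ _ _).1 hz') q' hq'
    rw [← hg.cel, ← Equiv.apply_symm_apply g.ψ z, hg.dist]
    exact h5
  · rw [mem_bdB, hg.sd0]; exact mem_bdB.1 x1
  · rw [← hg.cel, hg.dist]; exact y1
  · refine hg.path (G := {g' | (∀ z, (z = src g' ∨ z = tgt g') →
      ((sd z (0, 0) ≤ ρ ∧ ∀ c ∈ Pool.Agent.Y989.FR.cl (a * m) (↑F : Set Edg),
        Pool.Agent.Y989.FR.Awy M B (8 * (a * m)) (0, 0) c z) ∨ ∃ q ∈ T, sd z (cell m q) ≤ m))}) ?_ h2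
    intro e' he' z hz
    have k1 := tr _ (he' _ (Or.inl rfl))
    have k2 := tr _ (he' _ (Or.inr rfl))
    rcases g.compat e' with ⟨c1, c2⟩ | ⟨c1, c2⟩
    · rcases hz with rfl | rfl
      · rw [c1]; exact k1
      · rw [c2]; exact k2
    · rcases hz with rfl | rfl
      · rw [c1]; exact k2
      · rw [c2]; exact k1

theorem Cl2 (hg : NSym g) {a m ρ' : ℕ} {T : Finset (ℤ × ℤ)} {F : Finset Edg}
    (h : Cl2 a m ρ' T F) : Run7.h561.Cl2 a m ρ' (T.image g.ψ) (g.mp F) := by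
  obtain ⟨u, u1, u2, y, y1, h2⟩ := h
  refine ⟨g.ψ u, (hg.cl_iff _ _ _).2 u1, ?_, g.ψ y, ?_, ?_⟩
  · rw [mem_bdB, hg.sd0]; exact mem_bdB.1 u2
  · rw [mem_bdB, hg.sd0]; exact mem_bdB.1 y1
  · refine hg.path ?_ h2
    rintro e' ⟨b1, b2, b3, b4, b5⟩
    refine ⟨(NSym.mem_mp F e').2 b1, fun h => b2 ((hg.KV_iff _ _ _).1 h),
      fun h => b3 ((hg.mem_blk _ _).1 h), (hg.mem_blk _ _).2 b4, ?_⟩
    intro z hz q hq
    rw [Finset.mem_image] at hq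
    obtain ⟨q', hq', rfl⟩ := hq
    have k1 := b5 _ (Or.inl rfl) q' hq'
    have k2 := b5 _ (Or.inr rfl) q' hq'
    rw [← hg.cel]
    rcases g.compat e' with ⟨c1, c2⟩ | ⟨c1, c2⟩
    · rcases hz with rfl | rfl
      · rw [c1, hg.dist]; exact k1
      · rw [c2, hg.dist]; exact k2
    · rcases hz with rfl | rfl
      · rw [c1, hg.dist]; exact k2
      · rw [c2, hg.dist]; exact k1

/-- Probabilities. -/
theorem pr_le (hg : NSym g) {M B a m ρ ρ' n : ℕ} {T : Finset (ℤ × ℤ)} {e : ℤ × ℤ} :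
    PQ (1 / 2) (boxE n) (fun F => Run7.h561.Cl1 M B a m ρ T e (↑F : Set Edg) ∧
      Run7.h561.Cl2 a m ρ' T F) ≤
    PQ (1 / 2) (boxE n) (fun F => Run7.h561.Cl1 M B a m ρ (T.image g.ψ) (g.ψ e) (↑F : Set Edg) ∧
      Run7.h561.Cl2 a m ρ' (T.image g.ψ) F) := by
  have h1 := LSym.pr g (1 / 2) (boxE n) (fun F => Run7.h561.Cl1 M B a m ρ (T.image g.ψ) (g.ψ e)
    (↑F : Set Edg) ∧ Run7.h561.Cl2 a m ρ' (T.image g.ψ) F)
  rw [hg.mp_boxE] at h1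
  unfold PQ
  rw [h1]
  exact Pr_mono ok_half fun F _ h => ⟨hg.Cl1 h.1, hg.Cl2 h.2⟩

end NSym

end Run7.h561
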