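import Pool.Agent.Run7.h561.TP.P_FB
import Pool.Agent.Run7.h561.TP.P_SURG

/-! # TIP, part 1: deterministic part -/

set_option autoImplicit false

namespace Run7.h561.TIP

open H974 H12S Finset H984P H984N Run7.h561 Run7.h561.FB

/-- The vertices at distance at least `w` of the line. -/
def Fr (x0 : ℤ) (w : ℕ) : Set Vtx := {y | (w : ℤ) ≤ |y.1 - x0|}

theorem Fr_far {x0 h : ℤ} {w k : ℕ} (hk : k ≤ w) : ∀ y ∈ Fr x0 w, BSfar (x0, h) k y := by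
  intro y hy
  have h1 : (w : ℤ) ≤ |y.1 - x0| := hy
  rw [le_abs'] at h1
  rw [far_iff, le_sd]
  simp only
  omega

/-- The gadget of size `m` at the height `h` occurs and is connected to `C`. -/
def GdC (a m : ℕ) (x0 : ℤ) (G : ℕ → Finset Edg → Prop) (F : Finset Edg) (h : ℤ) (C : Set Vtx) :
    Prop :=
  G m ((trl (-x0) (-h)).mp F) ∧ ∃ x ∈ ctr (tr (x0, h) (q1 a m)) m, x ∈ C

/-- No much bigger gadget below the height `h` is connected to `C`. -/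
def NoB (a Λ : ℕ) (P : ℕ → Prop) (x0 : ℤ) (G : ℕ → Finset Edg → Prop) (m : ℕ) (h : ℤ)
    (C : Set Vtx) (F : Finset Edg) : Prop :=
  ∀ m', P m' → 64 * (Λ * m) ≤ m' → ∀ h' : ℤ, h' - 128 * (a * m') ≤ h → ¬ GdC a m' x0 G F h' C

/-- The explored event of the window. -/
def AE (a Λ : ℕ) (P : ℕ → Prop) (x0 : ℤ) (w : ℕ) (G : ℕ → Finset Edg → Prop) (m : ℕ) (h : ℤ)
    (u : Vtx) (F : Finset Edg) : Prop :=
  (XO (x0, h) (512 * (a * m)) (Fr x0 w) (↑F : Set Edg) u ∧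
    ∀ x ∈ Co (x0, h) (512 * (a * m)) (↑F : Set Edg) u, x ∈ bdB (x0, h) (512 * (a * m)) →
      Off m (x0, h) x) ∧
  NoB a Λ P x0 G m h (Co (x0, h) (512 * (a * m)) (↑F : Set Edg) u) F

/-- The tip `(x0, s)` and its first gadget. -/
def QE (a Λ : ℕ) (P : ℕ → Prop) (x0 : ℤ) (w : ℕ) (G : ℕ → Finset Edg → Prop) (m : ℕ) (h : ℤ)
    (s : ℤ) (F : Finset Edg) : Prop :=
  TipE x0 w (↑F : Set Edg) (x0, s) ∧ (h - 120 * (a * m) ≤ s ∧ s ≤ h + 512 * (a * m)) ∧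
    GdC a m x0 G F h (Cu (↑F : Set Edg) (x0, s)) ∧
    NoB a Λ P x0 G m h (Cu (↑F : Set Edg) (x0, s)) F

theorem TG_fine {a m : ℕ} {e : Edg} (he : e ∈ TG a m) :
    (src e).1 ≤ -(119 * (a * m) : ℤ) ∨ (src e).2 ≤ -(136 * (a * m) : ℤ) + 6 * m := by
  unfold TG at he
  rw [Finset.mem_union, mem_blk, mem_RE] at he
  rcases he with ⟨h2, -⟩ | ⟨h2, -⟩
  · rw [sd_le] at h2
    simp only [v0] at h2
    push_cast at h2
    omega
  · unfold inR at h2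
    omega

theorem AE_det (kxs : S_KXS) {a Λ : ℕ} {P : ℕ → Prop} {x0 : ℤ} {w : ℕ}
    {G : ℕ → Finset Edg → Prop} {m : ℕ} {h : ℤ} {u : Vtx} {S : Finset Edg} {p : ℝ}
    (ha : 24 ≤ a) (hΛ : 16 ≤ Λ) (hm : 1 ≤ m) (hG : ∀ m', P m' → GLc a m' p (G m')) :
    ∀ F F', F ⊆ S → F' ⊆ S →
      F ∩ KO (x0, h) (512 * (a * m)) (192 * (Λ * (a * m))) S u F =
      F' ∩ KO (x0, h) (512 * (a * m)) (192 * (Λ * (a * m))) S u F →
      AE a Λ P x0 w G m h u F → AE a Λ P x0 w G m h u F' := by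
  intro F F' hF hF' he hA
  have hUm : 24 * m ≤ a * m := Nat.mul_le_mul_right _ ha
  have hLU : 16 * (a * m) ≤ Λ * (a * m) := Nat.mul_le_mul_right _ hΛ
  obtain ⟨k1, k2⟩ := (kxs (x0, h) (512 * (a * m)) (192 * (Λ * (a * m))) S u (by omega)).2.2
    F F' hF hF' he
  unfold AE XO XA Rp at hA ⊢
  rw [k1]
  refine ⟨hA.1, ?_⟩
  intro m' hm' hmm h' hh' hc
  refine hA.2 m' hm' hmm h' hh' ⟨?_, hc.2⟩
  have hc1 := hc.1
  rw [(hG m' hm').loc] at hc1 ⊢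
  have e1 : (trl (-x0) (-h')).mp F' ∩ TG a m' = (trl (-x0) (-h')).mp F ∩ TG a m' := by
    ext e
    rw [Finset.mem_inter, Finset.mem_inter]
    refine and_congr_left fun hT => ?_
    rw [show (trl (-x0) (-h')) = (trl (-x0, -h').1 (-x0, -h').2) from rfl, SURG.mp_trl_mem,
      SURG.mp_trl_mem]
    symm
    apply k2
    intro hb
    rw [mem_blk, SURG.src_shift, sd_le] at hb
    have hb1 := hb.1
    simp only at hb1
    have hf := TG_fine hT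
    have h24 : 24 * m' ≤ a * m' := Nat.mul_le_mul_right _ ha
    have h64 : 64 * (Λ * (a * m)) ≤ a * m' := by
      calc 64 * (Λ * (a * m)) = a * (64 * (Λ * m)) := by ring
        _ ≤ a * m' := Nat.mul_le_mul_left _ hmm
    have hp : 1 ≤ a * m := by omega
    have h24' : 24 * (m' : ℤ) ≤ a * m' := by exact_mod_cast h24
    have h64' : 64 * ((Λ * (a * m) : ℕ) : ℤ) ≤ a * m' := by exact_mod_cast h64
    have hLU' : 16 ≤ ((Λ * (a * m) : ℕ) : ℤ) := by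
      have : 16 ≤ Λ * (a * m) := by omega
      exact_mod_cast this
    push_cast at hb1 hLU' h64'
    omega
  rw [← e1]
  exact hc1

/-- After painting there is a tip with a first gadget. -/
theorem painted (sdet : S_SDET) {a Λ : ℕ} {P : ℕ → Prop} {x0 : ℤ} {w : ℕ}
    {G : ℕ → Finset Edg → Prop} {m : ℕ} {h : ℤ} {u : Vtx} {S F : Finset Edg}
    (ha : 24 ≤ a) (hev : Even a) (hΛ : 16 ≤ Λ) (hm : 1 ≤ m) (hFS : F ⊆ S)
    (hw : 192 * (Λ * (a * m)) ≤ w) (hA : AE a Λ P x0 w G m h u F)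
    (h4 : I4 a m Λ (x0, h) S u F) (hp : Pnt a m Λ (x0, h) S u (G m) F) :
    ∃ s, QE a Λ P x0 w G m h s F := by
  obtain ⟨⟨h1, h2⟩, h3⟩ := hA
  obtain ⟨d1, ⟨s1, d2, d3⟩, d4, ⟨x, x1, x2⟩, -⟩ :=
    sdet a Λ m (x0, h) S u (G m) F (Fr x0 w) ha hev hΛ hm hFS (Fr_far hw) h1.2 h2 h4 hp
  simp only at d1 d2 d3
  obtain ⟨s0, a1, a2, a3, a4⟩ := lowest d3 d1
  have e : Cu (↑F : Set Edg) (x0, s0) = Cu (↑F : Set Edg) u := Cu_eq_of_mem a3
  refine ⟨s0, ⟨rfl, ?_, ?_⟩, ⟨a2, by omega⟩, ⟨hp.2.2, x, x1, by rw [e]; exact x2⟩, ?_⟩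
  · intro s hs
    rw [e]
    exact a4 s hs
  · obtain ⟨y, y1, y2⟩ := h1.2.2.1
    exact ⟨y, by rw [e]; exact Reach.mono Set.diff_subset y2, y1⟩
  · intro m' hm' hmm h' hh' hc
    refine h3 m' hm' hmm h' hh' ⟨hc.1, ?_⟩
    obtain ⟨x', x1', x2'⟩ := hc.2
    rw [e] at x2'
    refine ⟨x', x1', d4 x' x2' ?_⟩
    have h64 : 64 * (Λ * (a * m)) ≤ a * m' := by
      calc 64 * (Λ * (a * m)) = a * (64 * (Λ * m)) := by ring
        _ ≤ a * m' := Nat.mul_le_mul_left _ hmm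
    have h24 : 24 * m' ≤ a * m' := Nat.mul_le_mul_right _ ha
    have h24' : 24 * (m' : ℤ) ≤ a * m' := by exact_mod_cast h24
    have h64' : 64 * ((Λ * (a * m) : ℕ) : ℤ) ≤ a * m' := by exact_mod_cast h64
    rw [mem_ctr, sd_le] at x1'
    simp only [tr, q1] at x1'
    rw [far_iff, le_sd]
    simp only
    push_cast at h64' ⊢
    have : (0 : ℤ) ≤ Λ * (a * m) := by positivity
    omega

/-- A tip without gadget: the three cases. -/
theorem bad_cases (dec : S_DEC) {a Λ : ℕ} {P : ℕ → Prop} {x0 : ℤ} {w : ℕ}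
    {G : ℕ → Finset Edg → Prop} {m : ℕ} {h : ℤ} {z : Vtx} {S F : Finset Edg}
    (ha : 24 ≤ a) (hev : Even a) (hΛ : 16 ≤ Λ) (hm : 1 ≤ m) (hFS : F ⊆ S)
    (hw : 192 * (Λ * (a * m)) ≤ w) (hP : ∀ m', P m' → ¬ GoodAt a m' x0 (G m') F z)
    (hz : TipE x0 w (↑F : Set Edg) z) (z1 : h ≤ z.2) (z2 : z.2 ≤ h + 64 * (a * m)) :
    (∃ u, AE a Λ P x0 w G m h u F ∧ I4 a m Λ (x0, h) S u F) ∨
    (∃ u, XO (x0, h) (512 * (a * m)) (Fr x0 w) (↑F : Set Edg) u ∧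
      Crs x0 h (512 * (a * m)) (64 * (Λ * (a * m)))
        (↑(F \ KX (x0, h) (512 * (a * m)) S u F) : Set Edg)) ∨
    ((∃ j ∈ Finset.Icc 17 (4 * Λ + 1),
      NLn x0 (h - 16 * (a * m * (j : ℕ))) (16 * (a * m)) (16 * m) (↑F)) ∧
    ∃ u, XO (x0, h) (192 * (Λ * (a * m))) (Fr x0 w) (↑F) u) := by
  have hUm : 24 * m ≤ a * m := Nat.mul_le_mul_right _ ha
  have hLU : 16 * (a * m) ≤ Λ * (a * m) := Nat.mul_le_mul_right _ hΛ
  have hU : (1 : ℤ) ≤ a * m := by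
    have : 1 ≤ a * m := by omega
    exact_mod_cast this
  obtain ⟨t1, t2, ⟨y, y1, y2⟩⟩ := hz
  have hy := far_iff.1 (Fr_far (x0 := x0) (h := h) (k := 128 * (a * m)) (w := w) (by omega) y y2)
  have hzs : sd z (x0, h) ≤ ((128 * (a * m) : ℕ) : ℤ) := by
    rw [sd_le]; simp only; push_cast; omega
  obtain ⟨w0, w1, w2, w3⟩ := last_level (x0, h) ((128 * (a * m) : ℕ) : ℤ) y1 hzs hy
  have hco : Co (x0, h) (128 * (a * m)) (↑F : Set Edg) w0 ⊆ Cu (↑F : Set Edg) z := by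
    intro v hv
    exact Reach.trans w3 (Reach.mono Set.diff_subset hv)
  have hXA : XA (x0, h) (128 * (a * m)) (Fr x0 w) (↑F : Set Edg) w0 := by
    refine ⟨mem_bdB.2 w1, ⟨y, y2, ?_⟩, ?_⟩
    · refine Reach.mono ?_ w2
      rintro e ⟨e1, e2⟩
      exact ⟨e1, fun hb => e2 (mem_blk.1 (by exact_mod_cast hb))⟩
    · intro s hs hc
      simp only at hs hc
      exact t2 s (by omega) (hco hc)
  rcases dec a Λ m (x0, h) S F w0 (Fr x0 w) ha hev hΛ hm hFS (Fr_far hw) hXA with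
    ⟨u, b1, b2, b3, b4⟩ | h1 | h1
  · left
    refine ⟨u, ⟨⟨b1, b4⟩, ?_⟩, b3⟩
    intro m' hm' _ h' hh' hc
    refine hP m' hm' ⟨h', by omega, hc.1, ?_⟩
    obtain ⟨x, x1, x2⟩ := hc.2
    refine ⟨x, x1, ?_⟩
    have hu : Reach (↑F : Set Edg) z u := hco b2
    exact Reach.trans hu (Reach.mono Set.diff_subset x2)
  · exact Or.inr (Or.inl h1)
  · exact Or.inr (Or.inr h1)

/-- Two first gadgets of the same tip have comparable sizes. -/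
theorem QE_sep {a Λ : ℕ} {P : ℕ → Prop} {x0 : ℤ} {w : ℕ}
    {G : ℕ → Finset Edg → Prop} {m1 m2 : ℕ} {h1 h2 s : ℤ} {F : Finset Edg}
    (hΛ : 16 ≤ Λ) (hP : P m1) (h12 : 64 * (Λ * m2) ≤ m1)
    (q1 : QE a Λ P x0 w G m1 h1 s F) (q2 : QE a Λ P x0 w G m2 h2 s F) : False := by
  refine q2.2.2.2 m1 hP h12 h1 ?_ q1.2.2.1
  have e1 := q1.2.1
  have e2 := q2.2.1
  have h3 : 64 * (a * m2) ≤ a * m1 := by
    calc 64 * (a * m2) = a * (64 * (1 * m2)) := by ring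
      _ ≤ a * (64 * (Λ * m2)) := by
          apply Nat.mul_le_mul_left; apply Nat.mul_le_mul_left; apply Nat.mul_le_mul_right; omega
      _ ≤ a * m1 := Nat.mul_le_mul_left _ h12
  have h3' : 64 * ((a : ℤ) * m2) ≤ a * m1 := by exact_mod_cast h3
  omega

end Run7.h561.TIP
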