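import Pool.Agent.Run7.h561.TP.StmB
import Pool.Agent.W978.PD.UL
import Pool.Agent.W597.PDBL
import Pool.Agent.W424.OD.Ann

/-!
Piece B_UPO, part 1: topology.  The event `EvO` is open, and it is forced by points of the outer
boundary; lattice paths along continuous paths.
-/

set_option autoImplicit false

namespace Run7.h561

open H974 H12S Finset H389NS H984P H984N H342P H342L H342T
open MeasureTheory Filter Topology
open Pool.Agent.H389R2.Dim Pool.Agent.W822.PD Pool.Agent.W424.OD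
open scoped ENNReal NNReal

namespace UPO

/-! ### Open events -/

theorem EvO_open (z : ℂ) (r ρ ζ : ℝ) : IsOpen (EvO z r ρ ζ) := by
  have h1 : IsOpen {c : Curve | ∃ s : unitInterval, c.path s ∈ Metric.ball z r} :=
    Pool.Agent.W597.PDBL.isOpen_hit Metric.isOpen_ball
  have h2 : IsOpen {c : Curve | ∃ s : unitInterval, c.path s ∈ (Metric.closedBall z ρ)ᶜ} :=
    Pool.Agent.W597.PDBL.isOpen_hit Metric.isClosed_closedBall.isOpen_compl
  have h3 : IsOpen {c : Curve | ∃ g : C(unitInterval, ℂ), dist (g 0) z < r ∧ 10 < ‖g 1‖ ∧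
      ∀ s t, ζ < dist (g t) (c.path s)} := by
    rw [Metric.isOpen_iff]
    rintro c ⟨g, hg0, hg1, hg⟩
    have hcont : Continuous (fun p : unitInterval × unitInterval => dist (g p.1) (c.path p.2)) := by
      fun_prop
    obtain ⟨p, hp, hmin⟩ := (isCompact_univ (X := unitInterval × unitInterval)).exists_isMinOn
      Set.univ_nonempty hcont.continuousOn
    have hε : 0 < dist (g p.1) (c.path p.2) - ζ := by
      have := hg p.2 p.1
      linarith
    refine ⟨_, hε, fun c' hcc' => ⟨g, hg0, hg1, fun s t => ?_⟩⟩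
    rw [Metric.mem_ball, Curve.dist_def, cdist_eq] at hcc'
    obtain ⟨φ, hφ⟩ := exists_lt_of_ciInf_lt hcc'
    have h := ContinuousMap.dist_apply_le_dist (f := c'.path) (g := rep c.path φ) s
    rw [rep_apply] at h
    have h4 : dist (g p.1) (c.path p.2) ≤ dist (g t) (c.path (φ s)) :=
      hmin (Set.mem_univ (t, φ s))
    have h5 := dist_triangle (g t) (c'.path s) (c.path (φ s))
    linarith
  have h4 : EvO z r ρ ζ = ({c : Curve | ∃ s : unitInterval, c.path s ∈ Metric.ball z r} ∩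
      {c : Curve | ∃ s : unitInterval, c.path s ∈ (Metric.closedBall z ρ)ᶜ}) ∩
      {c : Curve | ∃ g : C(unitInterval, ℂ), dist (g 0) z < r ∧ 10 < ‖g 1‖ ∧
        ∀ s t, ζ < dist (g t) (c.path s)} := by
    ext c
    simp only [EvO, Set.mem_inter_iff, Set.mem_ofPred_eq, Metric.mem_ball, Set.mem_compl_iff,
      Metric.mem_closedBall, not_le]
    tauto
  rw [h4]
  exact (h1.inter h2).inter h3

theorem EvO_anti {z : ℂ} {r ρ ζ ζ' : ℝ} (h : ζ ≤ ζ') : EvO z r ρ ζ' ⊆ EvO z r ρ ζ := by
  rintro c ⟨h1, h2, g, h3, h4, h5⟩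
  exact ⟨h1, h2, g, h3, h4, fun s t => h.trans_lt (h5 s t)⟩

/-! ### The unbounded component -/

theorem unb_comp {K : Set ℂ} {z y : ℂ} (hy : y ∈ connectedComponentIn Kᶜ z) :
    y ∈ unb K ↔ z ∈ unb K := by
  have hz : z ∈ Kᶜ := by
    by_contra hcon
    rw [connectedComponentIn_eq_empty hcon] at hy
    exact hy
  have hyU : y ∈ Kᶜ := connectedComponentIn_subset _ _ hy
  have he := connectedComponentIn_eq hy
  unfold unb
  rw [Set.mem_ofPred_eq, Set.mem_ofPred_eq, he]
  exact ⟨fun h => ⟨hz, h.2⟩, fun h => ⟨hyU, h.2⟩⟩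

theorem unb_open {K : Set ℂ} (hK : IsClosed K) : IsOpen (unb K) := by
  rw [isOpen_iff_forall_mem_open]
  intro z hz
  exact ⟨connectedComponentIn Kᶜ z, fun y hy => (unb_comp hy).2 hz,
    hK.isOpen_compl.connectedComponentIn, mem_connectedComponentIn hz.1⟩

theorem oB_sub {K : Set ℂ} (hK : IsClosed K) : oB K ⊆ K := by
  intro z hz
  by_contra hcon
  have hopen : IsOpen (connectedComponentIn Kᶜ z) := hK.isOpen_compl.connectedComponentIn
  have hzC : z ∈ connectedComponentIn Kᶜ z := mem_connectedComponentIn hcon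
  unfold oB at hz
  rw [frontier, Set.mem_sdiff] at hz
  by_cases ho : z ∈ unb K
  · refine hz.2 (mem_interior.2 ⟨_, fun y hy => ?_, hopen, hzC⟩)
    exact (unb_comp hy).2 ho
  · obtain ⟨y, hy1, hy2⟩ := mem_closure_iff.1 hz.1 _ hopen hzC
    exact ho ((unb_comp hy1).1 hy2)

/-- A point of the outer boundary near `z` forces the event. -/
theorem EvO_of {c : Curve} {z z' : ℂ} {r ρ : ℝ} (hz' : z' ∈ oB (Set.range c.path))
    (hzz : dist z' z < r) (hρ : ∃ s, ρ < dist (c.path s) z) :
    ∃ j : ℕ, c ∈ EvO z r ρ (1 / ((j : ℝ) + 1)) := by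
  have hKc : IsCompact (Set.range c.path) := isCompact_range c.path.continuous
  have hK : IsClosed (Set.range c.path) := hKc.isClosed
  obtain ⟨s0, hs0⟩ := oB_sub hK hz'
  -- a point of the unbounded component
  have h1 : z' ∈ closure (unb (Set.range c.path)) := frontier_subset_closure hz'
  obtain ⟨w, hw1, hw2⟩ := mem_closure_iff.1 h1 (Metric.ball z r) Metric.isOpen_ball
    (Metric.mem_ball.2 hzz)
  -- a far away point of the component
  set U := connectedComponentIn (Set.range c.path)ᶜ w with hU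
  have hwU : w ∈ U := mem_connectedComponentIn hw2.1
  have hUo : IsOpen U := hK.isOpen_compl.connectedComponentIn
  have hUc : IsConnected U := isConnected_connectedComponentIn_iff.2 hw2.1
  obtain ⟨y, hyU, hy⟩ : ∃ y ∈ U, 10 < ‖y‖ := by
    by_contra hcon
    push Not at hcon
    apply hw2.2
    refine (Metric.isBounded_closedBall (x := (0:ℂ)) (r := 10)).subset fun y hy => ?_
    rw [Metric.mem_closedBall, dist_zero_right]
    exact hcon y hy
  have hUp : IsPathConnected U := (hUo.isConnected_iff_isPathConnected).1 hUc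
  obtain ⟨g, hg⟩ := hUp.joinedIn w hwU y hyU
  -- the distance is positive
  have hcont : Continuous (fun p : unitInterval × unitInterval => dist (g p.1) (c.path p.2)) := by
    fun_prop
  obtain ⟨p, hp, hmin⟩ := (isCompact_univ (X := unitInterval × unitInterval)).exists_isMinOn
    Set.univ_nonempty hcont.continuousOn
  have hpos : 0 < dist (g p.1) (c.path p.2) := by
    rw [dist_pos]
    intro h
    have h2 := connectedComponentIn_subset _ _ (hg p.1)
    exact h2 ⟨p.2, h.symm⟩
  obtain ⟨j, hj⟩ := exists_nat_one_div_lt hpos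
  refine ⟨j, ⟨s0, by rw [hs0]; exact hzz⟩, hρ, g.toContinuousMap, ?_, ?_, fun s t => ?_⟩
  · have : g.toContinuousMap 0 = w := g.source
    rw [this]
    exact Metric.mem_ball.1 hw1
  · have : g.toContinuousMap 1 = y := g.target
    rw [this]
    exact hy
  · have h4 : dist (g p.1) (c.path p.2) ≤ dist (g t) (c.path s) := hmin (Set.mem_univ (t, s))
    exact hj.trans_le h4

/-! ### Staying on one side -/

theorem stay {A : Set ℂ} (hA : IsOpen A) {f : unitInterval → ℂ} (hf : Continuous f)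
    (h : ∀ t, f t ∉ frontier A) {a b : unitInterval} (ha : f a ∈ A) : f b ∈ A := by
  have hcl : f ⁻¹' A = f ⁻¹' (closure A) := by
    ext t
    simp only [Set.mem_preimage]
    refine ⟨fun ht => subset_closure ht, fun ht => ?_⟩
    by_contra hcon
    apply h t
    rw [frontier, Set.mem_sdiff, hA.interior_eq]
    exact ⟨ht, hcon⟩
  have hclopen : IsClopen (f ⁻¹' A) := by
    refine ⟨?_, hA.preimage hf⟩
    rw [hcl]
    exact isClosed_closure.preimage hf
  have := hclopen.eq_univ ⟨a, ha⟩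
  have hb : b ∈ f ⁻¹' A := by rw [this]; exact Set.mem_univ _
  exact hb

/-! ### Lattice paths along continuous paths -/

/-- the lattice vertex near `w` -/
noncomputable def q (n : ℕ) (w : ℂ) : Vtx := (⌊n * w.re⌋, ⌊n * w.im⌋)

theorem dist_pt {n : ℕ} (hn : 0 < n) {v : Vtx} {w : ℂ} {a b : ℝ}
    (h1 : |(v.1 : ℝ) - n * w.re| ≤ a) (h2 : |(v.2 : ℝ) - n * w.im| ≤ b) :
    dist (pt n v) w ≤ (a + b) / n := by
  have hn' : (0:ℝ) < n := by exact_mod_cast hn
  rw [dist_eq_norm]
  refine (Complex.norm_le_abs_re_add_abs_im _).trans ?_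
  have e1 : (pt n v - w).re = ((v.1 : ℝ) - n * w.re) / n := by
    unfold pt
    rw [Complex.sub_re]
    field_simp
  have e2 : (pt n v - w).im = ((v.2 : ℝ) - n * w.im) / n := by
    unfold pt
    rw [Complex.sub_im]
    field_simp
  rw [e1, e2, abs_div, abs_div, Nat.abs_cast, ← add_div]
  exact div_le_div_of_nonneg_right (add_le_add h1 h2) hn'.le

theorem q_near {n : ℕ} (w : ℂ) :
    |((q n w).1 : ℝ) - n * w.re| ≤ 1 ∧ |((q n w).2 : ℝ) - n * w.im| ≤ 1 := by
  have a1 := Int.floor_le ((n : ℝ) * w.re)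
  have a2 := Int.lt_floor_add_one ((n : ℝ) * w.re)
  have b1 := Int.floor_le ((n : ℝ) * w.im)
  have b2 := Int.lt_floor_add_one ((n : ℝ) * w.im)
  refine ⟨?_, ?_⟩
  · unfold q
    rw [abs_le]
    constructor <;> simp only <;> linarith
  · unfold q
    rw [abs_le]
    constructor <;> simp only <;> linarith

theorem dist_q {n : ℕ} (hn : 0 < n) (w : ℂ) : dist (pt n (q n w)) w ≤ 2 / n := by
  obtain ⟨h1, h2⟩ := q_near (n := n) w
  have := dist_pt hn h1 h2
  norm_num at this
  exact this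

/-- the vertices near the path -/
def Nr (n : ℕ) (g : unitInterval → ℂ) (v : Vtx) : Prop := ∃ t, dist (pt n v) (g t) ≤ 3 / n

theorem hstep {n : ℕ} {g : unitInterval → ℂ} {x y : ℤ} {x' : ℤ} (hx : x' = x ∨ x' = x + 1 ∨
    x' = x - 1) (h1 : Nr n g (x, y)) (h2 : Nr n g (x', y)) :
    Reach {e | Nr n g (src e) ∧ Nr n g (tgt e)} (x, y) (x', y) := by
  rcases hx with h | h | h
  · rw [h]; exact Reach.refl _ _
  · apply Adj.reach
    refine ⟨(x, y, true), ⟨?_, ?_⟩, Or.inl ⟨rfl, ?_⟩⟩
    · exact h1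
    · rw [tgt_true, ← h]; exact h2
    · rw [tgt_true, h]
  · apply Adj.reach
    refine ⟨(x', y, true), ⟨?_, ?_⟩, Or.inr ⟨rfl, ?_⟩⟩
    · exact h2
    · have : x' + 1 = x := by omega
      rw [tgt_true, this]; exact h1
    · have : x' + 1 = x := by omega
      rw [tgt_true, this]

theorem vstep {n : ℕ} {g : unitInterval → ℂ} {x y : ℤ} {y' : ℤ} (hy : y' = y ∨ y' = y + 1 ∨
    y' = y - 1) (h1 : Nr n g (x, y)) (h2 : Nr n g (x, y')) :
    Reach {e | Nr n g (src e) ∧ Nr n g (tgt e)} (x, y) (x, y') := by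
  rcases hy with h | h | h
  · rw [h]; exact Reach.refl _ _
  · apply Adj.reach
    refine ⟨(x, y, false), ⟨?_, ?_⟩, Or.inl ⟨rfl, ?_⟩⟩
    · exact h1
    · rw [tgt_false, ← h]; exact h2
    · rw [tgt_false, h]
  · apply Adj.reach
    refine ⟨(x, y', false), ⟨?_, ?_⟩, Or.inr ⟨rfl, ?_⟩⟩
    · exact h2
    · have : y' + 1 = y := by omega
      rw [tgt_false, this]; exact h1
    · have : y' + 1 = y := by omega
      rw [tgt_false, this]

/-- nearby points of the path -/
theorem local_reach {n : ℕ} (hn : 0 < n) {g : unitInterval → ℂ} {s t : unitInterval}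
    (h : dist (g s) (g t) < 1 / (2 * n)) :
    Reach {e | Nr n g (src e) ∧ Nr n g (tgt e)} (q n (g t)) (q n (g s)) := by
  have hn' : (0:ℝ) < n := by exact_mod_cast hn
  have hre : |(n : ℝ) * (g s).re - n * (g t).re| < 1 / 2 := by
    have h1 := (ML.le_dist_re (g s) (g t)).trans_lt h
    rw [← mul_sub, abs_mul, abs_of_pos hn']
    have h2 := mul_lt_mul_of_pos_left h1 hn'
    have e : (n : ℝ) * (1 / (2 * n)) = 1 / 2 := by field_simp
    rw [e] at h2
    exact h2
  have him : |(n : ℝ) * (g s).im - n * (g t).im| < 1 / 2 := by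
    have h1 := (ML.le_dist_im (g s) (g t)).trans_lt h
    rw [← mul_sub, abs_mul, abs_of_pos hn']
    have h2 := mul_lt_mul_of_pos_left h1 hn'
    have e : (n : ℝ) * (1 / (2 * n)) = 1 / 2 := by field_simp
    rw [e] at h2
    exact h2
  have key : ∀ a b : ℝ, |a - b| < 1 / 2 → ⌊a⌋ = ⌊b⌋ ∨ ⌊a⌋ = ⌊b⌋ + 1 ∨ ⌊a⌋ = ⌊b⌋ - 1 := by
    intro a b hab
    rw [abs_lt] at hab
    have a1 := Int.floor_le a
    have a2 := Int.lt_floor_add_one a
    have b1 := Int.floor_le b
    have b2 := Int.lt_floor_add_one b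
    have c1 : ⌊a⌋ < ⌊b⌋ + 2 := by
      have : ((⌊a⌋ : ℤ) : ℝ) < ((⌊b⌋ + 2 : ℤ) : ℝ) := by push_cast; linarith
      exact_mod_cast this
    have c2 : ⌊b⌋ < ⌊a⌋ + 2 := by
      have : ((⌊b⌋ : ℤ) : ℝ) < ((⌊a⌋ + 2 : ℤ) : ℝ) := by push_cast; linarith
      exact_mod_cast this
    omega
  obtain ⟨p1, p2⟩ := q_near (n := n) (g s)
  obtain ⟨p3, p4⟩ := q_near (n := n) (g t)
  have hx := key _ _ hre
  have hy := key _ _ him
  have n1 : Nr n g (q n (g t)) := ⟨t, (dist_q hn _).trans (by gcongr; norm_num)⟩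
  have n3 : Nr n g (q n (g s)) := ⟨s, (dist_q hn _).trans (by gcongr; norm_num)⟩
  have n2 : Nr n g ((q n (g s)).1, (q n (g t)).2) := by
    refine ⟨t, ?_⟩
    have h5 : |(((q n (g s)).1 : ℤ) : ℝ) - n * (g t).re| ≤ 3 / 2 := by
      have := abs_sub_le (((q n (g s)).1 : ℤ) : ℝ) (n * (g s).re) (n * (g t).re)
      linarith
    have h6 := dist_pt (v := ((q n (g s)).1, (q n (g t)).2)) hn h5 p4
    refine h6.trans ?_
    gcongr
    norm_num
  exact (hstep hx n1 n2).trans (vstep hy n2 n3)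

/-- the lattice path along a continuous path -/
theorem path_reach {n : ℕ} (hn : 0 < n) {g : unitInterval → ℂ} (hg : Continuous g)
    (a b : unitInterval) :
    Reach {e | Nr n g (src e) ∧ Nr n g (tgt e)} (q n (g a)) (q n (g b)) := by
  have hn' : (0:ℝ) < n := by exact_mod_cast hn
  have hlc : IsLocallyConstant (fun t : unitInterval =>
      Reach {e | Nr n g (src e) ∧ Nr n g (tgt e)} (q n (g a)) (q n (g t))) := by
    rw [IsLocallyConstant.iff_eventually_eq]
    intro t
    have h1 : ∀ᶠ s in 𝓝 t, dist (g s) (g t) < 1 / (2 * n) :=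
      (Metric.continuousAt_iff'.1 hg.continuousAt) _ (by positivity)
    filter_upwards [h1] with s hs
    have h2 := local_reach hn hs
    exact propext ⟨fun h => h.trans h2.symm, fun h => h.trans h2⟩
  have h := hlc.apply_eq_of_preconnectedSpace a b
  rw [← h]
  exact Reach.refl _ _

end UPO

end Run7.h561
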