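import Pool.Agent.Run7.h561.TP.P_UPO1

/-!
Piece B_UPO, part 2: the event forces three arms; probability bound.
-/

set_option autoImplicit false

namespace Run7.h561

open H974 H12S Finset H389NS H984P H984N H342P H342L H342T
open MeasureTheory Filter Topology
open Pool.Agent.H389R2.Dim Pool.Agent.W822.PD Pool.Agent.W424.OD Pool.Agent.W978.PDUL
open Pool.Agent.W462.DPL
open scoped ENNReal NNReal

namespace UPO

theorem bdN (v w : ℤ × ℤ) (n : ℕ) (hn : 0 < n)
    (h : (v.1 = w.1 ∧ |v.2 - w.2| ≤ 1) ∨ (v.2 = w.2 ∧ |v.1 - w.1| ≤ 1)) :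
    dist (pt n v) (pt n w) ≤ 1 / (n : ℝ) := by
  have hn' : (0:ℝ) < n := by exact_mod_cast hn
  have e1 : (n : ℝ) * (pt n w).re = w.1 := by
    unfold pt
    show (n : ℝ) * ((w.1 : ℝ) / n) = _
    field_simp
  have e2 : (n : ℝ) * (pt n w).im = w.2 := by
    unfold pt
    show (n : ℝ) * ((w.2 : ℝ) / n) = _
    field_simp
  rcases h with ⟨h1, h2⟩ | ⟨h1, h2⟩
  · have k1 : |(v.1 : ℝ) - n * (pt n w).re| ≤ 0 := by
      rw [e1, h1, sub_self, abs_zero]
    have k2 : |(v.2 : ℝ) - n * (pt n w).im| ≤ 1 := by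
      rw [e2]
      exact_mod_cast h2
    have := dist_pt hn k1 k2
    rwa [zero_add] at this
  · have k1 : |(v.1 : ℝ) - n * (pt n w).re| ≤ 1 := by
      rw [e1]
      exact_mod_cast h2
    have k2 : |(v.2 : ℝ) - n * (pt n w).im| ≤ 0 := by
      rw [e2, h1, sub_self, abs_zero]
    have := dist_pt hn k1 k2
    rwa [add_zero] at this

/-- every point of the body is near a vertex of the cluster -/
theorem body_near {n : ℕ} (hn : 0 < n) {F : Finset Plain.Edge} {v : ℤ × ℤ} {z : ℂ}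
    (hz : z ∈ body n F v) : ∃ x, Reach (↑F : Set Edg) v x ∧ dist (pt n x) z ≤ 1 / n := by
  unfold body at hz
  rcases hz with hz | hz
  · obtain ⟨w, hw, hz⟩ := Set.mem_iUnion₂.1 hz
    rw [Set.mem_singleton_iff] at hz
    refine ⟨w, (Plain.mem_cluster F v w).1 hw, ?_⟩
    rw [hz, dist_self]
    positivity
  · obtain ⟨e, he, hz⟩ := Set.mem_iUnion₂.1 hz
    refine ⟨Plain.fst e, (Plain.mem_cluster F v _).1 he.2, ?_⟩
    have h1 : dist (pt n (Plain.fst e)) (pt n (Plain.snd e)) ≤ 1 / (n : ℝ) := by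
      apply bdN _ _ _ hn
      obtain ⟨x, y, b⟩ := e
      cases b <;> simp [Plain.fst, Plain.snd]
    unfold seg at hz
    have h2 : z ∈ Metric.closedBall (pt n (Plain.fst e)) (1 / (n : ℝ)) := by
      refine (convex_closedBall _ _).segment_subset ?_ ?_ hz
      · exact Metric.mem_closedBall_self (by positivity)
      · rw [Metric.mem_closedBall, dist_comm]
        exact h1
    rw [Metric.mem_closedBall, dist_comm] at h2
    exact h2

/-- far away points are outside -/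
theorem far_outside {n : ℕ} (hn : 0 < n) {F : Finset Plain.Edge} (hF : F ⊆ Plain.edges n)
    {v : ℤ × ℤ} (hv : v ∈ Plain.box n) {w : ℂ} (hw : 10 < ‖w‖) : w ∈ outside n F v := by
  have hbody : ∀ z ∈ body n F v, ‖z‖ ≤ 2 := by
    intro z hz
    obtain ⟨⟨h1, h2⟩, h3, h4⟩ := CPT_body_square hn hF hv hz
    refine (Complex.norm_le_abs_re_add_abs_im z).trans ?_
    rw [abs_of_nonneg h1, abs_of_nonneg h3]
    linarith
  set R : Set ℂ := (fun s : ℝ => (s : ℂ) * w) '' Set.Ici 1 with hR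
  have hRc : IsPreconnected R :=
    isPreconnected_Ici.image _ (by fun_prop)
  have hwR : w ∈ R := ⟨1, Set.mem_Ici.2 le_rfl, by simp⟩
  have hsub : R ⊆ (body n F v)ᶜ := by
    rintro _ ⟨s, hs, rfl⟩ hcon
    have h1 := hbody _ hcon
    rw [norm_mul, Complex.norm_real, Real.norm_eq_abs, abs_of_nonneg (by
      have := Set.mem_Ici.1 hs
      linarith)] at h1
    have := Set.mem_Ici.1 hs
    nlinarith
  have hcomp := hRc.subset_connectedComponentIn hwR hsub
  refine ⟨hsub hwR, fun hb => ?_⟩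
  have hb2 := hb.subset hcomp
  obtain ⟨R', hR'⟩ := hb2.subset_ball (0 : ℂ)
  have h3 : ((|R'| + 1 : ℝ) : ℂ) * w ∈ R :=
    ⟨|R'| + 1, Set.mem_Ici.2 (by have := abs_nonneg R'; linarith), rfl⟩
  have h4 := hR' h3
  rw [Metric.mem_ball, dist_zero_right, norm_mul, Complex.norm_real, Real.norm_eq_abs,
    abs_of_nonneg (by positivity)] at h4
  have h6 := le_abs_self R'
  have h7 := abs_nonneg R'
  nlinarith

/-- The event forces three arms. -/
theorem det_O {n : ℕ} (hn : 0 < n) {F : Finset Plain.Edge} (hF : F ⊆ Plain.edges n)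
    {v : ℤ × ℤ} (hv : v ∈ Plain.box n) {c : Curve}
    (hc : Set.range c.path = outerBoundary n F v) {z : ℂ} {r d ζ : ℝ}
    (hδr : 1 / (n : ℝ) ≤ r) (hd : 256 * (2 * r) ≤ d) (hζ : 8 / (n : ℝ) ≤ ζ)
    (hball : Metric.ball z d ⊆ Sq) (hE : c ∈ EvO z r (d / 2) ζ) :
    A3v (ctc (1 / n) z) (⌈(2 * r) / (1 / (n : ℝ))⌉₊ + 3) ⌊d / (8 * (1 / (n : ℝ)))⌋₊ ↑F := by
  have hδ : (0:ℝ) < 1 / n := by positivity
  have hn' : (0:ℝ) < n := by exact_mod_cast hn
  obtain ⟨⟨s, hs⟩, ⟨s', hs'⟩, g, hg0, hg1, hg⟩ := hE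
  have hr : 0 < r := hδ.trans_le hδr
  have hd0 : 0 < d := by linarith
  obtain ⟨s1, _, _, _⟩ := sizes hδ (by linarith : 1 / (n : ℝ) ≤ 2 * r) hd
  have e2n : (2:ℝ) / n = 1 / n + 1 / n := by ring
  have e3n : (3:ℝ) / n = 1 / n + 1 / n + 1 / n := by ring
  have e8n : (8:ℝ) / n = 8 * (1 / n) := by ring
  have hbox : ∀ x : Vtx, BX (ctc (1 / n) z) ⌊d / (8 * (1 / (n : ℝ)))⌋₊ x →
      dist (pt n x) z ≤ d / 4 + 2 * (1 / n) := by
    intro x hx
    have h5 := box_nearC hn hx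
    have hk : (⌊d / (8 * (1 / (n : ℝ)))⌋₊ : ℝ) ≤ d / (8 * (1 / (n : ℝ))) :=
      Nat.floor_le (by positivity)
    have h6 : 2 * (1 / (n : ℝ)) * (⌊d / (8 * (1 / (n : ℝ)))⌋₊ : ℝ) ≤ d / 4 := by
      calc 2 * (1 / (n : ℝ)) * (⌊d / (8 * (1 / (n : ℝ)))⌋₊ : ℝ) ≤
            2 * (1 / (n : ℝ)) * (d / (8 * (1 / (n : ℝ)))) :=
            mul_le_mul_of_nonneg_left hk (by positivity)
        _ = d / 4 := by
            have : (n : ℝ) ≠ 0 := by positivity
            field_simp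
            norm_num
    linarith
  -- vertices of the cluster
  have hmem : ∀ t, c.path t ∈ body n F v := by
    intro t
    apply CPT_frontier_sub n F v
    rw [← hc]
    exact ⟨t, rfl⟩
  obtain ⟨x, hx1, hx2⟩ := body_near hn (hmem s)
  obtain ⟨x', hx1', hx2'⟩ := body_near hn (hmem s')
  have hX : BX (ctc (1 / n) z) (⌈(2 * r) / (1 / (n : ℝ))⌉₊ + 3) x := by
    apply near_boxC hn
    have := dist_triangle (pt n x) (c.path s) z
    linarith
  have hX' : ¬ BX (ctc (1 / n) z) ⌊d / (8 * (1 / (n : ℝ)))⌋₊ x' := by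
    intro hcon
    have h1 := hbox _ hcon
    have h2 := dist_triangle_left (c.path s') z (pt n x')
    linarith
  -- the path stays outside
  have houto : IsOpen (outside n F v) := unb_open (CPT_isCompact_body n F v).isClosed
  have hgo : ∀ t, g t ∈ outside n F v := by
    intro t
    refine stay houto g.continuous (fun u hu => ?_) (far_outside hn hF hv hg1)
    have hu' : g u ∈ Set.range c.path := by rw [hc]; exact hu
    obtain ⟨y, hy⟩ := hu'
    have := hg y u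
    rw [hy, dist_self] at this
    have h8 : 0 < 8 / (n : ℝ) := by positivity
    linarith
  -- vertices near the path are not in the cluster
  have hnr : ∀ w : Vtx, Nr n g w → ¬ Reach (↑F : Set Edg) v w := by
    rintro w ⟨t, ht⟩ hcon
    have hwb : pt n w ∈ body n F v := by
      left
      exact Set.mem_biUnion (x := w) ((Plain.mem_cluster F v w).2 hcon) (Set.mem_singleton _)
    have hcont : Continuous (fun u : unitInterval =>
        g t + ((u : ℝ) : ℂ) * (pt n w - g t)) := by fun_prop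
    have h1 : g t + (((0 : unitInterval) : ℝ) : ℂ) * (pt n w - g t) ∈ outside n F v := by
      simpa using hgo t
    have h2 := stay (b := 1) houto hcont (fun u hu => ?_) h1
    · have h3 : pt n w ∈ outside n F v := by simpa using h2
      exact h3.1 hwb
    · have hu' : g t + ((u : ℝ) : ℂ) * (pt n w - g t) ∈ Set.range c.path := by
        rw [hc]; exact hu
      obtain ⟨y, hy⟩ := hu'
      have h4 := hg y t
      rw [hy, dist_eq_norm] at h4
      have e : g t - (g t + ((u : ℝ) : ℂ) * (pt n w - g t)) =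
          -(((u : ℝ) : ℂ) * (pt n w - g t)) := by ring
      rw [e, norm_neg, norm_mul, Complex.norm_real, Real.norm_eq_abs,
        abs_of_nonneg u.2.1, ← dist_eq_norm] at h4
      have h5 : (u : ℝ) * dist (pt n w) (g t) ≤ 1 * (3 / n) :=
        mul_le_mul u.2.2 ht dist_nonneg zero_le_one
      linarith
  -- the lattice path
  have hreach := path_reach hn g.continuous 0 1
  have hW : BX (ctc (1 / n) z) (⌈(2 * r) / (1 / (n : ℝ))⌉₊ + 3) (q n (g 0)) := by
    apply near_boxC hn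
    have h1 := dist_q hn (g 0)
    have h2 := dist_triangle (pt n (q n (g 0))) (g 0) z
    linarith
  have hW' : ¬ BX (ctc (1 / n) z) ⌊d / (8 * (1 / (n : ℝ)))⌋₊ (q n (g 1)) := by
    intro hcon
    obtain ⟨b1, b2, b3, b4⟩ := dom_boxC hn (by linarith : 64 * (1 / (n : ℝ)) ≤ d) hball
    obtain ⟨⟨c1, c2⟩, c3, c4⟩ := hcon
    have hin : q n (g 1) ∈ Plain.box n := by
      unfold Plain.box
      rw [Finset.mem_product, Finset.mem_Icc, Finset.mem_Icc]
      omega
    obtain ⟨⟨d1, d2⟩, d3, d4⟩ := CPT_pt_box hn hin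
    have h1 : ‖pt n (q n (g 1))‖ ≤ 2 := by
      refine (Complex.norm_le_abs_re_add_abs_im _).trans ?_
      rw [abs_of_nonneg d1, abs_of_nonneg d3]
      linarith
    have h2 := dist_q hn (g 1)
    rw [dist_comm, dist_eq_norm] at h2
    have h3 := norm_sub_norm_le (g 1) (pt n (q n (g 1)))
    have h4 : (2:ℝ) / n ≤ 2 := by
      rw [div_le_iff₀ hn']
      have : (1:ℝ) ≤ n := by exact_mod_cast hn
      linarith
    linarith
  refine A3v_of (by omega) hX hx1 hX' hx1' hW hW' (hreach.mono ?_)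
  rintro e ⟨he1, he2⟩
  exact ⟨hnr _ he1, hnr _ he2⟩

/-- probability bound -/
theorem prob_leO (hU : U3) {sel : (n : ℕ) → Finset Plain.Edge → ℤ × ℤ}
    {γ : (n : ℕ) → Finset Plain.Edge → Curve} (hG : Gam sel γ) :
    ∃ C : ℝ, 0 < C ∧ ∀ (z : ℂ) (r d ζ : ℝ) (n : ℕ), 0 < r → r ≤ d →
      Metric.ball z d ⊆ Sq → 0 < n → 1 / (n : ℝ) ≤ r → 8 / (n : ℝ) ≤ ζ →
        (lawOf n (γ n) : Measure Curve) (EvO z r (d / 2) ζ) ≤
          ENNReal.ofReal (C * (r / d) ^ (2/3 : ℝ)) := by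
  obtain ⟨C, hC, hU'⟩ := hU
  refine ⟨(C + 1) * 512 ^ (2/3 : ℝ), by positivity, ?_⟩
  intro z r d ζ n hr hrd hball hn hδr hζ
  have hδ : (0:ℝ) < 1 / n := by positivity
  have hd0 : 0 < d := hr.trans_le hrd
  rw [lawOf_apply _ _ (EvO_open z r (d / 2) ζ).measurableSet]
  apply ENNReal.ofReal_le_ofReal
  have hq : 0 < r / d := by positivity
  have hRHS : (C + 1) * 512 ^ (2/3 : ℝ) * (r / d) ^ (2/3 : ℝ) =
      (C + 1) * (512 * (r / d)) ^ (2/3 : ℝ) := by
    rw [Real.mul_rpow (by norm_num) hq.le]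
    ring
  rw [hRHS]
  by_cases h256 : 256 * (2 * r) ≤ d
  · obtain ⟨s1, s2, s3, s4⟩ := sizes hδ (by linarith : 1 / (n : ℝ) ≤ 2 * r) h256
    obtain ⟨b1, b2, b3, b4⟩ := dom_boxC hn (by linarith) hball
    have hsub : blk (ctc (1 / n) z) ⌊d / (8 * (1 / (n : ℝ)))⌋₊ ⊆ RE 0 n 0 n :=
      RE_subset b1.le b2.le b3.le b4.le
    have h1 := hU' (ctc (1 / n) z) (⌈(2 * r) / (1 / (n : ℝ))⌉₊ + 3)
      ⌊d / (8 * (1 / (n : ℝ)))⌋₊ (by omega) (by omega) (RE 0 n 0 n) hsub
    have hmono : Plain.prob n (fun F => γ n F ∈ EvO z r (d / 2) ζ) ≤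
        PQ (1/2) (RE 0 n 0 n) (fun F =>
          A3v (ctc (1 / n) z) (⌈(2 * r) / (1 / (n : ℝ))⌉₊ + 3)
            ⌊d / (8 * (1 / (n : ℝ)))⌋₊ ↑F) := by
      refine Plain.prob_le_of_pr ?_
      intro F hF hE
      exact det_O hn hF (hG.1 n F hn hF).1 (hG.2 n F hn hF) hδr h256 hζ hball hE
    have hpow : (((⌈(2 * r) / (1 / (n : ℝ))⌉₊ + 3 : ℕ) : ℝ) /
        (⌊d / (8 * (1 / (n : ℝ)))⌋₊ : ℝ)) ^ (2/3 : ℝ) ≤
        (512 * (r / d)) ^ (2/3 : ℝ) := by
      apply Real.rpow_le_rpow (by positivity) _ (by norm_num)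
      have h2 : (512 : ℝ) * (r / d) = 256 * (2 * r / d) := by ring
      rw [h2]
      refine le_trans ?_ s4
      have k1 : (0:ℝ) < ((⌊d / (8 * (1 / (n : ℝ)))⌋₊ - 2 : ℕ) : ℝ) := by
        have : 0 < ⌊d / (8 * (1 / (n : ℝ)))⌋₊ - 2 := by omega
        exact_mod_cast this
      have k2 : ((⌊d / (8 * (1 / (n : ℝ)))⌋₊ - 2 : ℕ) : ℝ) ≤ (⌊d / (8 * (1 / (n : ℝ)))⌋₊ : ℝ) := by
        exact_mod_cast Nat.sub_le _ _
      have k3 : ((⌈(2 * r) / (1 / (n : ℝ))⌉₊ + 3 : ℕ) : ℝ) ≤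
          ((⌈(2 * r) / (1 / (n : ℝ))⌉₊ + 3 + 2 : ℕ) : ℝ) := by
        push_cast
        linarith
      exact div_le_div₀ (by positivity) k3 k1 k2
    have h3 := mul_le_mul_of_nonneg_left hpow hC.le
    have hx0 : 0 ≤ (512 * (r / d)) ^ (2/3 : ℝ) := by positivity
    refine (hmono.trans (h1.trans h3)).trans ?_
    nlinarith
  · push Not at h256
    have h1 : Plain.prob n (fun F => γ n F ∈ EvO z r (d / 2) ζ) ≤ 1 := by
      rw [Plain.prob_eq]
      exact Pr_le_one okh _ _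
    refine h1.trans ?_
    have h2 : 1 ≤ 512 * (r / d) := by
      rw [← mul_div_assoc, le_div_iff₀ hd0]
      linarith
    have h3 : 1 ≤ (512 * (r / d)) ^ (2/3 : ℝ) := Real.one_le_rpow h2 (by norm_num)
    nlinarith

end UPO

end Run7.h561
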