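import Pool.Agent.Run7.h561.TP.P_GLOC

/-! # Piece VFA: one vertex, with the open and the closed cells -/

set_option autoImplicit false

namespace Run7.h561

open H974 H12S Finset H984P H984N SURG

theorem cl_stop {R : ℕ} {F F' : Finset Edg} (h : F ∩ KV R F = F' ∩ KV R F) :
    Pool.Agent.Y989.FR.cl R (↑F' : Set Edg) = Pool.Agent.Y989.FR.cl R (↑F : Set Edg) := by
  have h1 : ∀ e ∈ KV R F, (e ∈ F ↔ e ∈ F') := by
    intro e he
    have := Finset.ext_iff.1 h e
    simp only [Finset.mem_inter, he, and_true] at this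
    exact this
  ext x
  constructor
  · intro hx
    refine reach_inv (P := fun x => x ∈ Pool.Agent.Y989.FR.cl R (↑F : Set Edg)) ?_ hx
      (Reach.refl _ _)
    rintro y z hy ⟨e, ⟨he1, he2⟩, he3⟩
    have : e ∈ KV R F := by
      rw [mem_KV]
      refine ⟨by exact_mod_cast he2, ?_⟩
      rcases he3 with ⟨a1, _⟩ | ⟨_, a1⟩
      · left; rw [a1]; exact hy
      · right; rw [a1]; exact hy
    have heF : e ∈ F := (h1 e this).2 (by exact_mod_cast he1)
    exact Reach.trans hy (Adj.reach ⟨e, ⟨by exact_mod_cast heF, he2⟩, he3⟩)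
  · intro hx
    refine Reach.mono ?_ (reach_restrict hx)
    rintro e ⟨⟨he1, he2⟩, a1, a2⟩
    have : e ∈ KV R F := mem_KV.2 ⟨by exact_mod_cast he2, Or.inl a1⟩
    exact ⟨by exact_mod_cast (h1 e this).1 (by exact_mod_cast he1), he2⟩

theorem KV_stop {R : ℕ} {F F' : Finset Edg} (h : F ∩ KV R F = F' ∩ KV R F) :
    KV R F' = KV R F := by
  ext e
  rw [mem_KV, mem_KV, cl_stop h]

theorem Cor_pos {a : ℕ} {e q : ℤ × ℤ} (hq : q ∈ Cor a e) :
    (q.1 = e.1 ∧ -(4 * a : ℤ) ≤ q.2 ∧ q.2 ≤ e.2) ∨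
      (q.2 = -(4 * a : ℤ) ∧ -(3 * a : ℤ) ≤ q.1 ∧ q.1 ≤ 64 * a) := by
  unfold Cor at hq
  simp only [Finset.mem_union, Finset.mem_image, Finset.mem_Icc] at hq
  rcases hq with ⟨j, ⟨j1, j2⟩, rfl⟩ | ⟨i, ⟨i1, i2⟩, rfl⟩
  · left; exact ⟨rfl, j1, j2⟩
  · right; exact ⟨rfl, i1, i2⟩

/-- Positions of the corridor and of the row, times `2 m`. -/
theorem Cor_pos' {a m ρ : ℕ} {T : Finset (ℤ × ℤ)} {e : ℤ × ℤ} (hAdm : Adm a m ρ T e)
    {q : ℤ × ℤ} (hq : q ∈ Cor a e) :
    (m * q.1 = m * e.1 ∧ -(8 * (a * m) : ℤ) ≤ 2 * (m * q.2) ∧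
        2 * (m * q.2) ≤ -(5 * (a * m) : ℤ) + m ∧ 2 * (m * q.2) ≤ 2 * (m * e.2)) ∨
      (2 * (m * q.2) = -(8 * (a * m) : ℤ) ∧ -(6 * (a * m) : ℤ) ≤ 2 * (m * q.1) ∧
        2 * (m * q.1) ≤ 128 * (a * m)) := by
  have mulm : ∀ k l : ℤ, k ≤ l → (m : ℤ) * k ≤ m * l := fun k l h =>
    mul_le_mul_of_nonneg_left h (by positivity)
  have heb := hAdm.bot
  simp only [cell] at heb
  rcases Cor_pos hq with ⟨h1, h2, h3⟩ | ⟨h1, h2, h3⟩
  · left
    have k2 := mulm _ _ h2
    have k3 := mulm _ _ h3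
    have e1 : (m : ℤ) * -(4 * a) = -(4 * (a * m)) := by ring
    refine ⟨by rw [h1], ?_, ?_, ?_⟩ <;> omega
  · right
    have k2 := mulm _ _ h2
    have k3 := mulm _ _ h3
    have e1 : (m : ℤ) * -(4 * a) = -(4 * (a * m)) := by ring
    have e2 : (m : ℤ) * -(3 * a) = -(3 * (a * m)) := by ring
    have e3 : (m : ℤ) * (64 * a) = 64 * (a * m) := by ring
    rw [h1]
    refine ⟨?_, ?_, ?_⟩ <;> omega

/-- The open cells of the gadget are far. -/
theorem Fam_far {a m : ℕ} {T : Finset (ℤ × ℤ)} {e : ℤ × ℤ} {q : ℤ × ℤ} (hq : q ∈ Fam a T e) :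
    (5 * (a * m) - 3 * m : ℤ) ≤ 2 * (m * q.1) ∨ 2 * (m * q.1) ≤ -(5 * (a * m) - 3 * m : ℤ) ∨
      (5 * (a * m) - 3 * m : ℤ) ≤ 2 * (m * q.2) ∨ 2 * (m * q.2) ≤ -(5 * (a * m) - 3 * m : ℤ) := by
  unfold Fam at hq
  simp only [Finset.mem_filter, Finset.mem_product, Finset.mem_Icc] at hq
  obtain ⟨-, h1, -⟩ := hq
  have mulm : ∀ k l : ℤ, k ≤ l → (m : ℤ) * k ≤ m * l := fun k l h =>
    mul_le_mul_of_nonneg_left h (by positivity)
  have e1 : (m : ℤ) * (5 * a - 3) = 5 * (a * m) - 3 * m := by ring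
  have e2 : ∀ x : ℤ, (m : ℤ) * (2 * x) = 2 * (m * x) := fun x => by ring
  have e3 : ∀ x : ℤ, (m : ℤ) * (2 * -x) = -(2 * (m * x)) := fun x => by ring
  have h2 : 5 * (a : ℤ) - 3 ≤ 2 * |q.1| ∨ 5 * (a : ℤ) - 3 ≤ 2 * |q.2| := by
    rcases max_choice |q.1| |q.2| with h | h
    · left; rw [h] at h1; exact h1
    · right; rw [h] at h1; exact h1
  rcases h2 with h2 | h2
  · rcases abs_choice q.1 with h | h
    · rw [h] at h2
      have := mulm _ _ h2
      rw [e1, e2] at this
      left; exact this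
    · rw [h] at h2
      have := mulm _ _ h2
      rw [e1, e3] at this
      right; left; omega
  · rcases abs_choice q.2 with h | h
    · rw [h] at h2
      have := mulm _ _ h2
      rw [e1, e2] at this
      right; right; left; exact this
    · rw [h] at h2
      have := mulm _ _ h2
      rw [e1, e3] at this
      right; right; right; omega

/-- The open cells are away from the closed ones. -/
theorem Fam_away {a m : ℕ} {T : Finset (ℤ × ℤ)} {e : ℤ × ℤ} {q q' : ℤ × ℤ}
    (hq : q ∈ Fam a T e) (hq' : q' ∈ T ∪ Cor a e) :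
    (12 * m : ℤ) ≤ 2 * (m * q.1) - 2 * (m * q'.1) ∨ (12 * m : ℤ) ≤ 2 * (m * q'.1) - 2 * (m * q.1) ∨
      (12 * m : ℤ) ≤ 2 * (m * q.2) - 2 * (m * q'.2) ∨
      (12 * m : ℤ) ≤ 2 * (m * q'.2) - 2 * (m * q.2) := by
  unfold Fam at hq
  simp only [Finset.mem_filter, Finset.mem_product, Finset.mem_Icc] at hq
  obtain ⟨-, -, -, h1⟩ := hq
  have h2 := le_sd.1 (h1 q' hq')
  have key : ∀ x y : ℤ, 6 ≤ x - y → (12 * m : ℤ) ≤ 2 * (m * x) - 2 * (m * y) := by
    intro x y h
    have h3 := mul_le_mul_of_nonneg_left h (show (0 : ℤ) ≤ m by positivity)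
    have e1 : (m : ℤ) * (x - y) = m * x - m * y := by ring
    omega
  rcases h2 with (h | h) | h | h
  · left; exact key _ _ h
  · right; left; exact key _ _ h
  · right; right; left; exact key _ _ h
  · right; right; right; exact key _ _ h

/-- **VFA** -/
theorem t_VFA (mx : S_MIX) (pbx : S_PBX) : S_VFA := by
  obtain ⟨κ, κ0, κ1, hκ⟩ := pbx
  intro M B L a c hL ha hd hc
  set N1 : ℕ := (Finset.Icc (-(4 * a : ℤ)) (4 * a) ×ˢ Finset.Icc (-(4 * a : ℤ)) (4 * a)).card
    with hN1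
  set N2 : ℕ := (Finset.Icc (-(3 * a : ℤ)) (3 * a) ×ˢ Finset.Icc (-(3 * a : ℤ)) (3 * a)).card +
    ((Finset.Icc (-(4 * a : ℤ)) (3 * a)).card + (Finset.Icc (-(3 * a : ℤ)) (64 * a)).card)
    with hN2
  refine ⟨c * (κ ^ N1 * (κ ^ N2 * κ)), 1, by positivity, ?_⟩
  intro m hm T e hAdm hone S hS v hv
  have ha' : (24 : ℤ) ≤ a := by exact_mod_cast ha
  have hm' : (1 : ℤ) ≤ m := by exact_mod_cast hm
  have hUm : 24 * (m : ℤ) ≤ a * m := mul_le_mul_of_nonneg_right ha' (by positivity)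
  -- the scales
  have hk1 : a * m / L ^ 2 * 3 ≤ a * m / L := by
    have h1 : a * m / L ^ 2 = a * m / L / L := by rw [pow_two, Nat.div_div_eq_div_mul]
    rw [h1]
    calc a * m / L / L * 3 ≤ a * m / L / L * L := Nat.mul_le_mul_left _ hL
      _ ≤ a * m / L := Nat.div_mul_le_self _ _
  have hk0 : 1 ≤ a * m / L ^ 2 := by
    obtain ⟨b, hb⟩ := hd
    have hL2 : 0 < L ^ 2 := by positivity
    have h1 : a * m = L ^ 2 * (2 * b * m) := by rw [hb]; ring
    rw [h1, Nat.mul_div_cancel_left _ hL2]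
    have hb0 : b ≠ 0 := by rintro rfl; omega
    have : 0 < 2 * b * m := by positivity
    omega
  have hk2 : a * m / L ≤ a * m := Nat.div_le_self _ _
  have hk2' : ((a * m / L : ℕ) : ℤ) ≤ a * m := by exact_mod_cast hk2
  -- position of `v`
  have hv' : sd v (v0 a m) ≤ ((m / 2 : ℕ) : ℤ) := mem_ctr.1 hv
  rw [sd_le] at hv'
  have hm2 : 2 * ((m / 2 : ℕ) : ℤ) ≤ m := by omega
  simp only [v0] at hv'
  -- the explored edges
  set K : Finset Edg → Finset Edg := fun F =>
    (trl v.1 v.2).mp (KV (a * m) ((trl (-v.1) (-v.2)).mp F)) with hK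
  have gK : ∀ F, (trl (-v.1) (-v.2)).mp (K F) = KV (a * m) ((trl (-v.1) (-v.2)).mp F) :=
    fun F => trl_cancel v _
  have mK : ∀ F g, g ∈ K F → sd (src g) v ≤ ((a * m : ℕ) : ℤ) ∧ sd (tgt g) v ≤ ((a * m : ℕ) : ℤ) ∧
      (((src g).1 - v.1, (src g).2 - v.2) ∈ Pool.Agent.Y989.FR.cl (a * m)
          (↑((trl (-v.1) (-v.2)).mp F) : Set Edg) ∨
        ((tgt g).1 - v.1, (tgt g).2 - v.2) ∈ Pool.Agent.Y989.FR.cl (a * m)
          (↑((trl (-v.1) (-v.2)).mp F) : Set Edg)) := by
    intro F g hg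
    rw [hK, mp_trl_mem, mem_KV, mem_boxE, src_shift, tgt_shift, sd_le, sd_le] at hg
    rw [sd_le, sd_le]
    obtain ⟨h1, h2⟩ := hg
    simp only at h1
    refine ⟨?_, ?_, h2⟩ <;> omega
  have hgk : ∀ F F', F ∩ K F = F' ∩ K F → (trl (-v.1) (-v.2)).mp F ∩
      KV (a * m) ((trl (-v.1) (-v.2)).mp F) = (trl (-v.1) (-v.2)).mp F' ∩
      KV (a * m) ((trl (-v.1) (-v.2)).mp F) := by
    intro F F' h
    rw [← gK, ← LSym.mp_inter, ← LSym.mp_inter, h]
  set T1 : Finset Edg := (Fam a T e).biUnion (fun q => blk (tr (v0 a m) (cell m q)) (3 * m))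
    with hT1
  set T2 : Finset Edg := (T ∪ Cor a e).biUnion (fun q => blk (tr (v0 a m) (cell m q)) (6 * m)) ∪
    blk v (a * m / L) with hT2
  have m1 : ∀ g, g ∈ T1 ↔ ∃ q ∈ Fam a T e, g ∈ blk (tr (v0 a m) (cell m q)) (3 * m) := by
    intro g
    rw [hT1, Finset.mem_biUnion]
  have m2 : ∀ g, g ∈ T2 ↔ (∃ q ∈ T ∪ Cor a e, g ∈ blk (tr (v0 a m) (cell m q)) (6 * m)) ∨
      g ∈ blk v (a * m / L) := by
    intro g
    rw [hT2, Finset.mem_union, Finset.mem_biUnion]
  have hTG : ∀ g ∈ blk (v0 a m) (9 * (a * m)), g ∈ TG a m := fun g hg => by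
    unfold TG; exact Finset.mem_union_left _ hg
  have hvTG : ∀ g, (sd (src g) v ≤ 5 * ((a * m : ℕ) : ℤ) ∧ sd (tgt g) v ≤ 5 * ((a * m : ℕ) : ℤ)) →
      g ∈ TG a m := by
    intro g hg
    apply hTG
    rw [sd_le, sd_le] at hg
    rw [mem_blk, sd_le, sd_le]
    simp only [v0]
    push_cast at hg ⊢
    omega
  have s1 : T1 ⊆ S := by
    intro g hg
    obtain ⟨q, hq, hg⟩ := (m1 g).1 hg
    apply hS
    apply hTG
    have h1 := Fam_coord (m := m) hq
    rw [mem_blk, sd_le, sd_le] at hg ⊢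
    simp only [tr, v0, cell] at hg ⊢
    push_cast at hg ⊢
    omega
  have s2 : T2 ⊆ S := by
    intro g hg
    apply hS
    rcases (m2 g).1 hg with ⟨q, hq, hg⟩ | hg
    · have h1 := Cor_coord hAdm hq
      unfold TG
      rw [Finset.mem_union]
      rw [mem_blk, sd_le, sd_le] at hg
      rw [mem_blk, sd_le, sd_le, mem_RE]
      unfold inR
      simp only [tr, v0, cell] at hg ⊢
      push_cast at hg ⊢
      rcases h1 with h1 | h1 | h1
      · left; omega
      · right; omega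
      · left; omega
    · apply hvTG
      rw [mem_blk] at hg
      push_cast
      omega
  have sK : ∀ F, F ⊆ S → K F ⊆ S := by
    intro F _ g hg
    obtain ⟨h1, h2, -⟩ := mK F g hg
    exact hS (hvTG g (by omega))
  have d12 : Disjoint T1 T2 := by
    rw [Finset.disjoint_left]
    intro g h1 h2
    obtain ⟨q, hq, h1⟩ := (m1 g).1 h1
    rcases (m2 g).1 h2 with ⟨q', hq', h2⟩ | h2
    · have h3 := Fam_away (m := m) hq hq'
      rw [mem_blk, sd_le, sd_le] at h1 h2
      simp only [tr, v0, cell] at h1 h2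
      push_cast at h1 h2
      omega
    · have h3 := Fam_far (m := m) hq
      rw [mem_blk, sd_le, sd_le] at h1 h2
      simp only [tr, v0, cell] at h1
      push_cast at h1 h2 hk2'
      omega
  have dK : ∀ F, F ⊆ S → Disjoint (K F) T1 ∧ Disjoint (K F) ∅ := by
    intro F _
    refine ⟨?_, Finset.disjoint_empty_right _⟩
    rw [Finset.disjoint_left]
    intro g h1 h2
    obtain ⟨q, hq, h2⟩ := (m1 g).1 h2
    obtain ⟨h3, -, -⟩ := mK F g h1
    have h4 := Fam_far (m := m) hq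
    rw [mem_blk, sd_le, sd_le] at h2
    rw [sd_le] at h3
    simp only [tr, v0, cell] at h2
    push_cast at h2 h3
    omega
  set O : Finset Edg → Prop := fun F => ∀ q ∈ Fam a T e, BSU (tr (v0 a m) (cell m q)) m F with hO
  set D : Finset Edg → Prop := fun F =>
    (∀ q ∈ T ∪ Cor a e, BSD (tr (v0 a m) (cell m q)) (2 * m) F) ∧
    ¬ Crs 0 0 (a * m / L ^ 2) (a * m / L) (↑((trl (-v.1) (-v.2)).mp F) : Set Edg) with hD
  set NN : Finset Edg → Prop := fun F =>
    Cl1 M B a m (a * m / (2 * L ^ 2)) T e (↑((trl (-v.1) (-v.2)).mp F) : Set Edg) ∧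
    Cl2 a m (a * m / L) T ((trl (-v.1) (-v.2)).mp F) with hNN
  have lO : ∀ F, O F ↔ O (F ∩ T1) := by
    intro F
    simp only [hO]
    refine forall₂_congr fun q hq => bsu_local' fun g hg => ?_
    rw [m1]
    exact ⟨q, hq, hg⟩
  have lD : ∀ F, D F ↔ D (F ∩ T2) := by
    intro F
    simp only [hD]
    refine and_congr ?_ ?_
    · refine forall₂_congr fun q hq => bsd_local' fun g hg => ?_
      rw [m2]
      left
      refine ⟨q, hq, ?_⟩
      rw [show 3 * (2 * m) = 6 * m by ring] at hg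
      exact hg
    · constructor
      · intro h h1
        refine h (BS_crs_mono ?_ h1)
        exact_mod_cast LSym.mp_mono _ Finset.inter_subset_left
      · intro h h1
        have h2 := crs_local (c := (0, 0)) (T := (trl (-v.1) (-v.2)).mp T2)
          (show a * m / L ^ 2 ≤ a * m / L by omega) (fun g h3 _ => ?_) h1
        · rw [← LSym.mp_inter] at h2
          exact h h2
        · rw [mem_mpv, m2]
          right
          rw [mem_blk, sd_le, sd_le] at h3
          rw [mem_blk, src_add, tgt_add, sd_le, sd_le]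
          simp only at h3 ⊢
          omega
  -- the event `N`
  have hN : ∀ F F', F ⊆ S → F' ⊆ S → F ∩ K F = F' ∩ K F →
      F \ (T2 ∪ ∅) ⊆ F' \ (T2 ∪ ∅) → NN F → NN F' := by
    rintro F F' hF hF' h1 h2 ⟨h3, h4⟩
    have k1 := cl_stop (hgk F F' h1)
    have k2 := KV_stop (hgk F F' h1)
    refine ⟨?_, ?_⟩
    · unfold Cl1 at h3 ⊢
      rw [k1]
      exact h3
    · unfold Cl2 at h4 ⊢
      rw [k1, k2]
      obtain ⟨x, x1, x2, y, y1, h5⟩ := h4
      refine ⟨x, x1, x2, y, y1, h5.mono ?_⟩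
      rintro g ⟨g1, g2, g3, g4, g5⟩
      refine ⟨?_, g2, g3, g4, g5⟩
      rw [mem_mpv] at g1 ⊢
      have g6 : (g.1 + v.1, g.2.1 + v.2, g.2.2) ∉ T2 ∪ ∅ := by
        rw [Finset.union_empty]
        intro h
        rcases (m2 _).1 h with ⟨q, hq, h6⟩ | h6
        · rw [mem_blk, src_add, tgt_add, sd_le, sd_le] at h6
          simp only [tr, v0, cell] at h6
          push_cast at h6
          rw [Finset.mem_union] at hq
          rcases hq with hq | hq
          · have g7 := g5 (src g) (Or.inl rfl) q hq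
            rw [le_sd] at g7
            simp only [cell] at g7
            omega
          · rw [mem_blk, sd_le, sd_le] at g4
            simp only at g4
            push_cast at g4
            rcases Cor_pos' hAdm hq with ⟨r1, r2, r3, r4⟩ | ⟨r1, r2, r3⟩
            · have g7 := g5 (src g) (Or.inl rfl) e hAdm.mem
              have g8 := hAdm.bot
              rw [le_sd] at g7
              simp only [cell] at g7 g8
              omega
            · omega
        · apply g3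
          rw [mem_blk, src_add, tgt_add, sd_le, sd_le] at h6
          rw [mem_blk, sd_le, sd_le]
          simp only at h6 ⊢
          omega
      exact (Finset.mem_sdiff.1 (h2 (Finset.mem_sdiff.2 ⟨g1, g6⟩))).1
  have main := mx S K
    (fun F F' _ _ h => by
      rw [hK]
      simp only
      rw [KV_stop (hgk F F' h)])
    sK T1 T2 ∅ s1 s2 (Finset.empty_subset _) d12 dK NN O D (fun _ => True) lO
    (fun F F' h h1 q hq => BSU_mono h (h1 q hq)) lD
    (fun F F' h h1 => ⟨fun q hq => bsd_dec h (h1.1 q hq),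
      fun h2 => h1.2 (BS_crs_mono (by exact_mod_cast LSym.mp_mono _ h) h2)⟩)
    (fun _ => Iff.rfl) (fun _ _ _ _ _ => trivial) (fun _ _ _ _ _ => trivial) hN
  -- probabilities
  have pO : κ ^ N1 ≤ PQ (1 / 2) S O := by
    have h1 := (hκ m ((Fam a T e).image (fun q => tr (v0 a m) (cell m q))) S hm).1 (by
      intro q hq
      rw [Finset.mem_image] at hq
      obtain ⟨q', hq', rfl⟩ := hq
      intro g hg
      apply s1
      rw [m1]
      exact ⟨q', hq', hg⟩)
    have h2 : ((Fam a T e).image (fun q => tr (v0 a m) (cell m q))).card ≤ N1 := by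
      refine Finset.card_image_le.trans ?_
      unfold Fam
      exact Finset.card_le_card (Finset.filter_subset _ _)
    refine (pow_le_pow_of_le_one κ0.le κ1 h2).trans (h1.trans (le_of_eq ?_))
    apply Pr_congr
    intro F _
    simp only [Finset.forall_mem_image, hO]
  have hcard : ((T ∪ Cor a e).image (fun q => tr (v0 a m) (cell m q))).card ≤ N2 := by
    refine Finset.card_image_le.trans ((Finset.card_union_le _ _).trans ?_)
    have key : ∀ x : ℤ, -(5 * (a * m) + m : ℤ) ≤ 2 * (m * x) → 2 * (m * x) ≤ 5 * (a * m) + m →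
        -(3 * a : ℤ) ≤ x ∧ x ≤ 3 * a := by
      intro x hx1 hx2
      constructor
      · by_contra hc'
        push Not at hc'
        have h1 : (m : ℤ) * (x + 1) ≤ m * -(3 * a) := mul_le_mul_of_nonneg_left (by omega)
          (by positivity)
        have e1 : (m : ℤ) * (x + 1) = m * x + m := by ring
        have e2 : (m : ℤ) * -(3 * a) = -(3 * (a * m)) := by ring
        omega
      · by_contra hc'
        push Not at hc'
        have h1 : (m : ℤ) * (3 * a + 1) ≤ m * x := mul_le_mul_of_nonneg_left (by omega)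
          (by positivity)
        have e1 : (m : ℤ) * (3 * a + 1) = 3 * (a * m) + m := by ring
        omega
    refine Nat.add_le_add (Finset.card_le_card ?_) ?_
    · intro q hq
      obtain ⟨⟨h1, h2⟩, h3, h4⟩ := T_coord hAdm hq
      rw [Finset.mem_product, Finset.mem_Icc, Finset.mem_Icc]
      exact ⟨key _ h1 h2, key _ h3 h4⟩
    · unfold Cor
      refine (Finset.card_union_le _ _).trans (Nat.add_le_add ?_ ?_)
      · refine Finset.card_image_le.trans (Finset.card_le_card (Finset.Icc_subset_Icc le_rfl ?_))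
        obtain ⟨-, h3, h4⟩ := T_coord hAdm hAdm.mem
        exact (key _ h3 h4).2
      · exact Finset.card_image_le
  have pD : κ ^ N2 * κ ≤ PQ (1 / 2) S D := by
    have h1 := (hκ (2 * m) ((T ∪ Cor a e).image (fun q => tr (v0 a m) (cell m q))) S (by omega)).2
    have h2 := (hκ (a * m / L ^ 2) {(0, 0)} ((trl (-v.1) (-v.2)).mp S) hk0).2
    have h4 := (pow_le_pow_of_le_one κ0.le κ1 hcard).trans h1
    rw [Finset.card_singleton, pow_one] at h2
    have h3 : κ ≤ PQ (1 / 2) S (fun F =>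
        ¬ Crs 0 0 (a * m / L ^ 2) (a * m / L) (↑((trl (-v.1) (-v.2)).mp F) : Set Edg)) := by
      refine h2.trans ?_
      unfold PQ
      rw [LSym.pr]
      apply Pr_mono ok_half
      intro F _ hF h5
      have h6 : ¬ Crs 0 0 (a * m / L ^ 2) (3 * (a * m / L ^ 2))
          (↑((trl (-v.1) (-v.2)).mp F) : Set Edg) := hF (0, 0) (Finset.mem_singleton_self _)
      apply h6
      rw [crs_iff] at h5 ⊢
      obtain ⟨x, y, x1, y1, h7⟩ := h5
      refine ⟨x, y, x1, le_trans ?_ y1, h7⟩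
      have : 3 * (a * m / L ^ 2) ≤ a * m / L := by omega
      exact_mod_cast this
    have h5 := harris_dec (S := S)
      (A := fun F => ∀ q ∈ (T ∪ Cor a e).image (fun q => tr (v0 a m) (cell m q)), BSD q (2 * m) F)
      (B := fun F => ¬ Crs 0 0 (a * m / L ^ 2) (a * m / L)
        (↑((trl (-v.1) (-v.2)).mp F) : Set Edg))
      (fun F F' h h1 q hq => bsd_dec h (h1 q hq))
      (fun F F' h h1 h2 => h1 (BS_crs_mono (by exact_mod_cast LSym.mp_mono _ h) h2))
    refine (mul_le_mul h4 h3 κ0.le (Pr_nonneg ok_half _ _)).trans (h5.trans (le_of_eq ?_))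
    apply Pr_congr
    intro F _
    simp only [Finset.forall_mem_image, hD]
  have pN : c * (m : ℝ) ^ (-(2 / 3 : ℝ)) ≤ PQ (1 / 2) S NN := by
    have h1 := hone ((trl (-v.1) (-v.2)).mp S) (by
      intro g hg
      rw [mem_mpv]
      apply hS
      apply hvTG
      rw [mem_boxE, sd_le, sd_le] at hg
      rw [src_add, tgt_add, sd_le, sd_le]
      simp only at hg ⊢
      push_cast at hg ⊢
      omega)
    refine h1.trans (le_of_eq ?_)
    unfold PQ
    rw [LSym.pr]
  have pM : PQ (1 / 2) S (fun _ : Finset Edg => True) = 1 := Pr_true S (fun _ _ => trivial)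
  rw [pM, mul_one] at main
  have nn : 0 ≤ (m : ℝ) ^ (-(2 / 3 : ℝ)) := by positivity
  have q1 : κ ^ N1 * (κ ^ N2 * κ) ≤ PQ (1 / 2) S O * PQ (1 / 2) S D :=
    mul_le_mul pO pD (by positivity) (Pr_nonneg ok_half _ _)
  calc c * (κ ^ N1 * (κ ^ N2 * κ)) * (m : ℝ) ^ (-(2 / 3 : ℝ))
      = (c * (m : ℝ) ^ (-(2 / 3 : ℝ))) * (κ ^ N1 * (κ ^ N2 * κ)) := by ring
    _ ≤ PQ (1 / 2) S NN * (PQ (1 / 2) S O * PQ (1 / 2) S D) :=
        mul_le_mul pN q1 (by positivity) (Pr_nonneg ok_half _ _)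
    _ ≤ _ := main
    _ ≤ _ := by
        apply Pr_mono ok_half
        rintro F _ ⟨h1, h2, ⟨h3, h4⟩, -⟩
        rw [LSym.mp_sdiff, gK] at h4
        refine ⟨⟨h1, h4⟩, h2, ?_⟩
        intro q hq
        refine bsd_congr (fun g hg => ?_) (h3 q hq)
        rw [Finset.mem_sdiff]
        refine ⟨fun h => h.1, fun h => ⟨h, fun h5 => ?_⟩⟩
        obtain ⟨k1, k2, k3⟩ := mK F g h5
        rw [mem_blk, sd_le, sd_le] at hg
        simp only [tr, v0, cell] at hg
        push_cast at hg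
        rw [Finset.mem_union] at hq
        rcases hq with hq | hq
        · have key := h1.1.1
          rcases k3 with k3 | k3
          · have k4 := key _ k3 q hq
            rw [le_sd] at k4
            simp only [cell] at k4
            omega
          · have k4 := key _ k3 q hq
            rw [le_sd] at k4
            simp only [cell] at k4
            omega
        · rw [sd_le] at k1
          push_cast at k1
          rcases Cor_pos' hAdm hq with ⟨r1, r2, r3, r4⟩ | ⟨r1, r2, r3⟩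
          · omega
          · omega

end Run7.h561
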