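import Pool.Agent.Run7.h561.TP.Stm

/-!
# Project TP: proof plans of the pieces (comments only)

Target: `S_FINA` (Theorem A): for every `ε` there is `lam > 0` such that for large `n`, with
probability at least `1 - ε`, every largest cluster of `Λ_n` has at least `lam n ^ (4/3)` accessible
vertices; then the same for the limits (Theorem B: the outer boundary of every subsequential limit of
the perimeter has dimension `4/3` almost surely).

Library: `Pool.Agent.H974R2.*` (Reach, RE, circ_meet, FKG), `Pool.Agent.H12R2.Sep.*` (blk, BSU, BSD,
Crs, Markov.lean = markov_le / markov_ge / MK_cell, WinHalf = constants at 1/2, `win_half`,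
`win_blk`), `Pool.Agent.H984R3.Per.SHarris` (harris_signed, Harris inequality with locally monotone
events, translation of events Pr_trl ...), `Pool.Agent.Y989.FR.*` (one-point estimates: S_ACC, S_THK,
S_ACU, T_ONE3, T_TWO3, T_GOOD3 are close models for VFA, TW, SM), `Pool.Agent.W801.AV.*`.

## MIX (about 200 lines)
Decompose over the cells `K F ∩ S = K0, F ∩ K0 = T` (`MK_part`), as `MK_cell`, `markov_ge` in
`H12R2/Sep/Markov.lean`.  In a nonempty cell: `F = T ∪ F'`, `F' ⊆ S \ K0` free.  The event `N` is, on
the cell, an event `N'` of `F' \ (T2 ∪ T3)`, increasing; `O` increasing on `T1`, `D` decreasing on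
`T2 \ K0`, and `M` local on `T3`, increasing on `T1`, decreasing on `T2`.  With `X = N' ∧ M` (which is
increasing in `T1` and decreasing in `T2`: `N'` does not depend on `T2`) the signed Harris inequality
(`H984P.harris_signed`, `Pool/Agent/H984R3/Per/SHarris.lean`) gives
`P(X ∧ O ∧ D) ≥ P(X) P(O) P(D)`; `N'` and `M` are independent (`T3` against its complement).
`P(D (F \ K0)) ≥ P(D)` by monotonicity.

## CZ (about 150 lines)
`BSU q k F` = four crossings of the four rectangles of the annulus (`Circ`).  `BSU_meet`,
`circ_meet` (H974R2) give the vertex `z` with the property `hub`.  `line`: the top rectangle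
`[q.1-3k, q.1+3k] x [q.2+k, q.2+3k]` is crossed from left to right, so the crossing meets the line
`x = q.1`; it belongs to the cluster of `z`.  `nbr`: e.g. `d = (1,0)`: the right rectangle
`[q.1+k, q.1+3k] x [q.2-3k, q.2+3k]` is crossed from bottom to top; this path contains a vertex of
height `q.2`, which lies in the square of radius `k` around `q + (2k, 0)`, and its ends are at
distance `≥ 3k` of `q + (2k, 0)`.

## PBX (about 150 lines)
Single cells: `win_blk`/`win_half` type statements (RSW) at `1/2`; families: Harris inequality for
increasing resp. decreasing events (`Pr_harris` in H974R2), induction over `Q`; `BSD` for general `S`: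
the probability of the decreasing event decreases with `S`, so restrict to `S ∩ blk q (3k)`.

## NC, CRS (about 100 lines)
NC: `NC_sq` (H974R2/Count.lean) with `Pr (Crs) ≤ lam < 1` and `E X ≤ 1 + E X^2`.  CRS: polynomial
decay of the one-arm probability from the box of radius `k` to distance `K` (exists in the library;
otherwise product over disjoint annuli `BSD`).

## NL (about 350 lines)
Let `B = box of radius 8k`.  Shift the line: lines `x = x0 + 2 t i`, `|i| ≤ k/(2t)`, (translation
invariance: the event for the line `x0 + 2 t i` in the box `B_i = B + (2 t i, 0)` has the same
probability).  Common sub-box `D = box of radius 6k around (x0,h)`, `D ⊆ B_i`.  If the event occurs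
for `i` with the vertex `u`, then the `D`-cluster of `u` reaches the boundary of `D`, has a vertex
within `t` of the line `L_i` at height within `k` of `h`, and does not touch `L_i ∩ D`.  So `L_i` is
within `t` of the smallest or of the largest abscissa of the part of this `D`-cluster ... more
precisely: the `D`-cluster lies on one side of `L_i`, so `x0 + 2 t i` is within `t` of its extreme
abscissa (left or right), and each `D`-cluster is counted for at most `2` values of `i`.  The
number of `D`-clusters joining the box of radius `2k` (`|u.1 - x0| ≤ 2k`, `|u.2 - h| ≤ k`) to the
boundary of `D` (radius `6 k = 3 (2k)`) is `NC`, of mean `≤ C`.  So `(k/t) P ≤ 2 C`.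

## ONE (split: ONE_ROT, ONE_DET, ONE_PR, about 800 lines)
`R = a m`, `m' = 512 R`, `k = 8 R` (`m'/64 = k`).  `S_ACC`, `S_THK` (FR) with `ε = c/2`:
`P(Acc m' ∧ TkA M B k m') ≥ (c/2) m'^(-2/3)`.  Remove the configurations with `Crs 0 0 (R/L) R (F \ KV
R F)` (`markov_le`, `S_ACU`, CRS): choose `L`.  On the rest the thick path from distance `2` to the
first hit of `bdB (0,0) (5R)` visits cells (`cell m q`, radius `m`) outside of radius `ρ/2`,
`ρ = R/(2L^2)`; let `T` be the set of these cells, `e` the last one.  `Awy` at distance `≥ ρ/2` gives
clearance `≥ 45 m` for `a ≥ a0`.  Every vertex of `cl m'` is `≥ 45 m` away from the points of the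
thick path outside `ρ/2`, so `Cl1` holds, and `Cl2`: a path in `cl m'` from `0` to distance `5R`,
after its last vertex in `cl R` uses edges off `KV`, does not enter `blk ρ'`, `ρ' = R/L`, and keeps
`38 m` away from the cells.  Pigeonhole over the finitely many `(T, e, side)`; by the lattice
symmetries (`H985T.sy`) the side of the exit can be taken to be the bottom.

## VFA (about 400 lines), TW (300), SM (250)
VFA: MIX with `K = KV (a m)` at `v`, `N = Cl1 ∧ Cl2`, `O` = open cells `Fam`, `D` = closed cells
(radius `2m`) and no crossing of the annulus `(R/L^2, R/L)` in `F \ KV`.  `Cl2` uses edges at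
distance `≥ 38 m` from the cells of `T`, and inside `blk (5R)`, so off the blocks of radius `6m` of
the closed cells; the open cells are at cell distance `≥ 6` from the closed ones.
TW: `ClA v ∧ ClA w` implies three arms (`A3v`) in disjoint annuli around `v`, `w` (radii `2` to
`d/3`) and around both (`2d` to `am/2`): `S_U3` of FR (`Pool.Agent.W424.KI.u3`) and independence; see
`Y989/FR/T_TWO3.lean`.  SM: Paley-Zygmund and Markov inequality for the energy, see
`Y989/FR/T_GOOD3.lean`.

## GLOC (200), GCON (350), GPTH (350)
GLOC: locality of `BSU`, `BSD`, `Cl1`, `Cl2` (edges of `blk v (5 a m + ...)`, v in ctr v0 (m/2)); the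
edges `TI`, `TD` are off the blocks of the other type.
GCON: hubs (`CZ`) of neighbouring cells of `Fam` are connected; the end of the arm `Cl2` at distance
`5R` lies in a cell `q0` (cell distance `≥ 17` from the cells `T`, `Cor`); go outward from `q0` to the
ring `max = 7a/2`, then around the ring (avoiding the corridor at the bottom) to the cell
`(0, 7a/2)`, whose centre is `q1`.
GPTH: `C = Cu F u` is connected to distance `200 a m`, so it does not meet the squares of radius `2m`
of the closed cells, and inside `ctr v (R/L^2)` it is contained in the cluster of `v` in
`blk v (a m)`.  So the path of `Cl1` has the clearance `Cln`; continue it in the corridor and in the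
row of closed cells to `s0`.

## KXS (150), SURG (250), SDET (350), DEC (350), PN (250)
KXS: if `F`, `F'` agree on the explored edges then the clusters `Co` are the same (induction on
paths); see `MK`-type lemmas in H12R2/Sep.
SURG: MIX with `K = KO c (512am) (192aΛm)`, `T1` = blocks of radius `3m` of `OP`, `T2` = blocks of
radius `6m` of `CP` and `blk c (192aΛm) \ blk c (64aΛm)`, `T3` = translate of `TG`, `N = A ∧ I4`.
`D` = `CP` closed and no crossing of the annulus `(64aΛm, 192aΛm)`.
SDET: the new cluster is `Co` and what is connected to it through the block: paths of edges off `KO`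
which start at `Co ∩ bdB c (512am)`.  These do not reach distance `192aΛm` (no crossing), and do not
enter the squares of radius `2m` of `CP` (closed cells in `F \ KO`).  The arm `I4` crosses the ring of
open cells (off the slit), so it meets a hub, all the hubs are connected, also along the column
down to the cell `q1 + (0, 2m)`.
DEC: path `π` from `u0` to `Far` in `F \ blk c (128am)`; `u` = representative of the cluster of the
last vertex of `π` in `bdB c (512am)`; go back from the first vertex `y'` of `π` in `Co (512am) u` to
the last visit of `bdB c (256am)` before: these edges are off `KO` unless the path leaves `blk c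
(64aΛm)` (case 2); a vertex of it (or of `Co ∩ bdB c (512 am)`) which is not `Off` gives NLn (case 3).
PN: (1) union over `u`, `markov_le` with `KX`, CRS; (2) independence of the edges inside and outside
of `blk c (192aΛm)`, NL with `k = 16am`, `t = 16m`, at most `4Λ` values of `j`.

## FB (400)
`A(w) = max_ρ fX ρ * w/ρ`.  DEC + PN + SURG (with `G = True`) + SDET: `fX (128am) ≤ (1/p0) P(tip of a
cluster reaching distance w at height in [-120am, 512am]) + C Λ^(-s) fX (512am) + C (Λ/a) fX (192aΛm)`;
the probability of the tip is `≤ C am/w` (translate the window along the line, tips of the clusters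
of a common sub-box, each crossing cluster has one tip, NC).  Choose `Λ`, then `a`; monotonicity of
`fX` in `ρ`.

## TIP (800), FINA (500)
See the paper proof in chat MP_6bd702_pr (multi-scale argument: scales `m_j`, events `A_j(c)` = `XO`
and no good gadget at the larger scales; painting makes `j` the first good scale; sum over windows
and scales `≤ 6 E[number of macroscopic tips]`).
-/
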