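import Pool.Agent.Run7.h561.TP.Defs
import Pool.Agent.W424.OD.Defs

/-!
# Project TP: the steps (every step is a `Prop`; nothing is assumed)
-/

set_option autoImplicit false

namespace Run7.h561

open H974 H12S Finset H984P H984N

/-! ### Tools -/

/-- MIX: exploration of `K F`; `N` is determined by the explored edges and increasing in the
unexplored edges, `O` is increasing, `D` is decreasing (for the unexplored edges), `M` is a local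
event, increasing on `T1` and decreasing on `T2`. -/
def S_MIX : Prop := ∀ (S : Finset Edg) (K : Finset Edg → Finset Edg), Stop S K →
  (∀ F, F ⊆ S → K F ⊆ S) → ∀ T1 T2 T3 : Finset Edg, T1 ⊆ S → T2 ⊆ S → T3 ⊆ S → Disjoint T1 T2 →
  (∀ F, F ⊆ S → Disjoint (K F) T1 ∧ Disjoint (K F) T3) → ∀ N O D M : Finset Edg → Prop,
  (∀ F, O F ↔ O (F ∩ T1)) → (∀ F G, F ⊆ G → O F → O G) →
  (∀ F, D F ↔ D (F ∩ T2)) → (∀ F G, F ⊆ G → D G → D F) →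
  (∀ F, M F ↔ M (F ∩ T3)) → (∀ F G, M F → F ⊆ G → G \ F ⊆ T1 → M G) →
  (∀ F G, M F → G ⊆ F → F \ G ⊆ T2 → M G) →
  (∀ F F', F ⊆ S → F' ⊆ S → F ∩ K F = F' ∩ K F →
    F \ (T2 ∪ T3) ⊆ F' \ (T2 ∪ T3) → N F → N F') →
  PQ (1 / 2) S N * (PQ (1 / 2) S O * PQ (1 / 2) S D * PQ (1 / 2) S M) ≤
    PQ (1 / 2) S (fun F => N F ∧ O F ∧ D (F \ K F) ∧ M F)

/-- CZ: the circuit of a cell. -/
def S_CZ : Prop := ∀ (q : ℤ × ℤ) (k : ℕ) (F : Finset Edg), 1 ≤ k → BSU q k F →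
  ∃ z, Cz q k (↑F : Set Edg) z

/-- PBX: probabilities of families of cells. -/
def S_PBX : Prop := ∃ κ : ℝ, 0 < κ ∧ κ ≤ 1 ∧ ∀ (k : ℕ) (Q : Finset (ℤ × ℤ)) (S : Finset Edg),
  1 ≤ k → ((∀ q ∈ Q, blk q (3 * k) ⊆ S) →
    κ ^ Q.card ≤ PQ (1 / 2) S (fun F => ∀ q ∈ Q, BSU q k F)) ∧
  κ ^ Q.card ≤ PQ (1 / 2) S (fun F => ∀ q ∈ Q, BSD q k F)

/-- NC: the mean number of clusters which cross an annulus. -/
def S_NC : Prop := ∃ C : ℝ, 0 < C ∧ ∀ (c : ℤ × ℤ) (k : ℕ) (S : Finset Edg), 1 ≤ k →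
  Ex (fun _ => (1 / 2 : ℝ)) S (fun F =>
    (NC src tgt (ctr c k) {y | BSfar c (3 * k) y} (↑F : Set Edg) : ℝ)) ≤ C

/-- CRS: decay of the crossing probability. -/
def S_CRS : Prop := ∃ C s : ℝ, 0 < C ∧ 0 < s ∧ ∀ (c1 c2 : ℤ) (k K : ℕ) (S : Finset Edg), 1 ≤ k →
  k ≤ K → PQ (1 / 2) S (fun F => Crs c1 c2 k K (↑F : Set Edg)) ≤ C * ((k : ℝ) / K) ^ s

/-- NL: a cluster comes near the line without touching it. -/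
def S_NL : Prop := ∃ C : ℝ, 0 < C ∧ ∀ (x0 h : ℤ) (k t : ℕ) (S : Finset Edg), 1 ≤ t → t ≤ k →
  blk (x0, h) (8 * k) ⊆ S →
  PQ (1 / 2) S (fun F => NLn x0 h k t (↑F : Set Edg)) ≤ C * ((t : ℝ) / k)

/-! ### The gadget -/

/-- ONE: the one-point lower bound: some admissible class has probability at least `c m ^ (-2/3)`. -/
def S_ONE : Prop := ∃ M B L a0 : ℕ, 16 ≤ M ∧ 1 ≤ B ∧ 3 ≤ L ∧ ∀ a : ℕ, a0 ≤ a → 2 * L ^ 2 ∣ a →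
  ∃ (c : ℝ) (m0 : ℕ), 0 < c ∧ ∀ m : ℕ, m0 ≤ m → ∃ (T : Finset (ℤ × ℤ)) (e : ℤ × ℤ),
    Adm a m (a * m / (2 * L ^ 2)) T e ∧ ∀ S : Finset Edg, boxE (5 * (a * m)) ⊆ S →
    c * (m : ℝ) ^ (-(2 / 3 : ℝ)) ≤ PQ (1 / 2) S (fun F =>
      Cl1 M B a m (a * m / (2 * L ^ 2)) T e (↑F : Set Edg) ∧ Cl2 a m (a * m / L) T F)

/-- The corridor and the row of closed cells. -/
noncomputable def Cor (a : ℕ) (e : ℤ × ℤ) : Finset (ℤ × ℤ) :=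
  (Finset.Icc (-(4 * a : ℤ)) e.2).image (fun j => (e.1, j)) ∪
    (Finset.Icc (-(3 * a : ℤ)) (64 * a)).image (fun i => (i, -(4 * a : ℤ)))

/-- The open cells of the gadget (cells at distance between `5 R` and `7 R`, away from the closed
cells). -/
noncomputable def Fam (a : ℕ) (T : Finset (ℤ × ℤ)) (e : ℤ × ℤ) : Finset (ℤ × ℤ) := by
  classical exact ((Finset.Icc (-(4 * a : ℤ)) (4 * a) ×ˢ Finset.Icc (-(4 * a : ℤ)) (4 * a)).filter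
    (fun q => 5 * (a : ℤ) - 3 ≤ 2 * max |q.1| |q.2| ∧ 2 * max |q.1| |q.2| ≤ 7 * (a : ℤ) ∧
      ∀ q' ∈ T ∪ Cor a e, 6 ≤ sd q q'))

/-- The event at the vertex `v`. -/
def ClA (M B L a m : ℕ) (T : Finset (ℤ × ℤ)) (e : ℤ × ℤ) (v : Vtx) (F : Finset Edg) : Prop :=
  (Cl1 M B a m (a * m / (2 * L ^ 2)) T e (↑((trl (-v.1) (-v.2)).mp F) : Set Edg) ∧
    Cl2 a m (a * m / L) T ((trl (-v.1) (-v.2)).mp F)) ∧
  ¬ Crs 0 0 (a * m / L ^ 2) (a * m / L)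
    (↑((trl (-v.1) (-v.2)).mp F \ KV (a * m) ((trl (-v.1) (-v.2)).mp F)) : Set Edg)

open Classical in
/-- The vertices of the gadget. -/
noncomputable def VG (M B L a m : ℕ) (T : Finset (ℤ × ℤ)) (e : ℤ × ℤ) (F : Finset Edg) :
    Finset Vtx := (ctr (v0 a m) (m / 2)).filter (fun v => ClA M B L a m T e v F)

/-- The gadget. -/
def GE (t : ℝ) (M B L a m : ℕ) (T : Finset (ℤ × ℤ)) (e : ℤ × ℤ) (c0 E0 : ℝ) (F : Finset Edg) :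
    Prop :=
  (∀ q ∈ Fam a T e, BSU (tr (v0 a m) (cell m q)) m F) ∧
  (∀ q ∈ T ∪ Cor a e, BSD (tr (v0 a m) (cell m q)) (2 * m) F) ∧
  c0 * (m : ℝ) ^ (4 / 3 : ℝ) ≤ ((VG M B L a m T e F).card : ℝ) ∧
  ∑ v ∈ VG M B L a m T e F, ∑ w ∈ VG M B L a m T e F, ((max (sd v w) 1 : ℤ) : ℝ) ^ (-t) ≤
    E0 * (m : ℝ) ^ (8 / 3 - t)

/-- VFA: one vertex, with the open and the closed cells. -/
def S_VFA : Prop := ∀ (M B L a : ℕ) (c : ℝ), 3 ≤ L → 24 ≤ a → 2 * L ^ 2 ∣ a → 0 < c →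
  ∃ (c' : ℝ) (m1 : ℕ), 0 < c' ∧ ∀ m : ℕ, m1 ≤ m → ∀ (T : Finset (ℤ × ℤ)) (e : ℤ × ℤ),
    Adm a m (a * m / (2 * L ^ 2)) T e → (∀ S : Finset Edg, boxE (5 * (a * m)) ⊆ S →
      c * (m : ℝ) ^ (-(2 / 3 : ℝ)) ≤ PQ (1 / 2) S (fun F =>
        Cl1 M B a m (a * m / (2 * L ^ 2)) T e (↑F : Set Edg) ∧ Cl2 a m (a * m / L) T F)) →
    ∀ S : Finset Edg, TG a m ⊆ S → ∀ v ∈ ctr (v0 a m) (m / 2),
      c' * (m : ℝ) ^ (-(2 / 3 : ℝ)) ≤ PQ (1 / 2) S (fun F => ClA M B L a m T e v F ∧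
        (∀ q ∈ Fam a T e, BSU (tr (v0 a m) (cell m q)) m F) ∧
        ∀ q ∈ T ∪ Cor a e, BSD (tr (v0 a m) (cell m q)) (2 * m) F)

/-- TW: two vertices. -/
def S_TW : Prop := ∀ M B L a : ℕ, 3 ≤ L → 24 ≤ a → 2 * L ^ 2 ∣ a → ∃ (C : ℝ) (m1 : ℕ), 0 < C ∧
  ∀ m : ℕ, m1 ≤ m → ∀ (T : Finset (ℤ × ℤ)) (e : ℤ × ℤ), Adm a m (a * m / (2 * L ^ 2)) T e →
    ∀ S : Finset Edg, TG a m ⊆ S → ∀ v ∈ ctr (v0 a m) (m / 2), ∀ w ∈ ctr (v0 a m) (m / 2),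
      PQ (1 / 2) S (fun F => ClA M B L a m T e v F ∧ ClA M B L a m T e w F) ≤
        C * ((max (sd v w) 1 : ℤ) : ℝ) ^ (-(2 / 3 : ℝ)) * (m : ℝ) ^ (-(2 / 3 : ℝ))

/-- SM: second moment method. -/
def S_SM : Prop := ∀ (t : ℝ) (M B L a : ℕ) (c' C : ℝ), 0 < t → t < 4 / 3 → 0 < c' → 0 < C →
  ∃ (c0 E0 p : ℝ) (m1 : ℕ), 0 < c0 ∧ 0 < E0 ∧ 0 < p ∧ ∀ m : ℕ, m1 ≤ m →
    ∀ (T : Finset (ℤ × ℤ)) (e : ℤ × ℤ) (S : Finset Edg),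
    (∀ v ∈ ctr (v0 a m) (m / 2), c' * (m : ℝ) ^ (-(2 / 3 : ℝ)) ≤
      PQ (1 / 2) S (fun F => ClA M B L a m T e v F ∧
        (∀ q ∈ Fam a T e, BSU (tr (v0 a m) (cell m q)) m F) ∧
        ∀ q ∈ T ∪ Cor a e, BSD (tr (v0 a m) (cell m q)) (2 * m) F)) →
    (∀ v ∈ ctr (v0 a m) (m / 2), ∀ w ∈ ctr (v0 a m) (m / 2),
      PQ (1 / 2) S (fun F => ClA M B L a m T e v F ∧ ClA M B L a m T e w F) ≤
        C * ((max (sd v w) 1 : ℤ) : ℝ) ^ (-(2 / 3 : ℝ)) * (m : ℝ) ^ (-(2 / 3 : ℝ))) →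
    p ≤ PQ (1 / 2) S (GE t M B L a m T e c0 E0)

/-- GLOC: the gadget is local, increasing on `TI` and decreasing on `TD`. -/
def S_GLOC : Prop := ∀ (t : ℝ) (M B L a m : ℕ) (c0 E0 : ℝ) (T : Finset (ℤ × ℤ)) (e : ℤ × ℤ),
  24 ≤ a → 1 ≤ L → 1 ≤ m → Adm a m (a * m / (2 * L ^ 2)) T e →
  (∀ F, GE t M B L a m T e c0 E0 F ↔ GE t M B L a m T e c0 E0 (F ∩ TG a m)) ∧
  (∀ F F', GE t M B L a m T e c0 E0 F → F ⊆ F' → F' \ F ⊆ TI a m →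
    GE t M B L a m T e c0 E0 F') ∧
  (∀ F F', GE t M B L a m T e c0 E0 F → F' ⊆ F → F \ F' ⊆ TD a m →
    GE t M B L a m T e c0 E0 F')

/-- GCON: the open cells of the gadget are connected to each other, and the open arm of every vertex
of the gadget meets them. -/
def S_GCON : Prop := ∀ (M B L a m : ℕ) (T : Finset (ℤ × ℤ)) (e : ℤ × ℤ) (F : Finset Edg)
  (u : Vtx), 3 ≤ L → 100 ≤ a → Even a → 2 * L ^ 2 ∣ a → 4 ≤ m → Adm a m (a * m / (2 * L ^ 2)) T e →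
  (∀ q ∈ Fam a T e, BSU (tr (v0 a m) (cell m q)) m F) →
  (∃ x ∈ ctr (q1 a m) m, x ∈ Cu (↑F) u) →
  (∃ y, BSfar (0, 0) (200 * (a * m)) y ∧ y ∈ Cu (↑F) u) →
  ∀ v ∈ ctr (v0 a m) (m / 2), ClA M B L a m T e v F → v ∈ Cu (↑F) u

/-- GPTH: the path out of the gadget keeps away from the cluster. -/
def S_GPTH : Prop := ∀ (M B L a m : ℕ) (T : Finset (ℤ × ℤ)) (e : ℤ × ℤ) (F : Finset Edg)
  (u : Vtx), 3 ≤ L → 100 ≤ a → Even a → 2 * L ^ 2 ∣ a → 4 ≤ m → 16 ≤ M → 1 ≤ B →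
  Adm a m (a * m / (2 * L ^ 2)) T e →
  (∀ q ∈ T ∪ Cor a e, BSD (tr (v0 a m) (cell m q)) (2 * m) F) →
  (∃ y, BSfar (0, 0) (200 * (a * m)) y ∧ y ∈ Cu (↑F) u) →
  ∀ v ∈ ctr (v0 a m) (m / 2), ClA M B L a m T e v F → v ∈ Cu (↑F) u →
    Open M B (8 * (a * m)) m (Cu (↑F) u) v (s0 a m)

/-- GAD: the gadget exists. -/
def S_GAD : Prop := ∀ t : ℝ, 0 < t → t < 4 / 3 → ∃ M B a0 d : ℕ, 16 ≤ M ∧ 1 ≤ B ∧ 1 ≤ d ∧
  ∀ a : ℕ, a0 ≤ a → d ∣ a → Even a → ∃ (p c0 E0 : ℝ) (m0 : ℕ), 0 < p ∧ 0 < c0 ∧ 0 < E0 ∧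
    ∀ m : ℕ, m0 ≤ m → ∃ G, Gad t M B a m p c0 E0 G

/-! ### Painting of a window -/

/-- KXS: the explored edges form stopping sets, and determine the cluster. -/
def S_KXS : Prop := ∀ (c : ℤ × ℤ) (ρ ρ' : ℕ) (S : Finset Edg) (u : Vtx), ρ ≤ ρ' →
  (Stop S (KX c ρ S u) ∧ ∀ F F', F ⊆ S → F' ⊆ S → F ∩ KX c ρ S u F = F' ∩ KX c ρ S u F →
    Co c ρ (↑F' : Set Edg) u = Co c ρ (↑F : Set Edg) u) ∧
  (Stop S (KO c ρ ρ' S u) ∧ ∀ F F', F ⊆ S → F' ⊆ S → F ∩ KO c ρ ρ' S u F = F' ∩ KO c ρ ρ' S u F →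
    Co c ρ (↑F' : Set Edg) u = Co c ρ (↑F : Set Edg) u ∧
    ∀ e, e ∉ blk c ρ' → (e ∈ F ↔ e ∈ F'))

/-- SURG: painting costs a constant factor. -/
def S_SURG : Prop := ∀ (a Λ : ℕ) (p : ℝ), 24 ≤ a → Even a → 16 ≤ Λ → 0 < p → ∃ p0 : ℝ, 0 < p0 ∧
  ∀ (m : ℕ) (c : ℤ × ℤ) (S : Finset Edg) (u : Vtx) (G : Finset Edg → Prop), 1 ≤ m →
    blk c (192 * (Λ * (a * m)) + 6 * m) ⊆ S → GLc a m p G → ∀ A : Finset Edg → Prop,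
    (∀ F F', F ⊆ S → F' ⊆ S → F ∩ KO c (512 * (a * m)) (192 * (Λ * (a * m))) S u F =
      F' ∩ KO c (512 * (a * m)) (192 * (Λ * (a * m))) S u F → A F → A F') →
    p0 * PQ (1 / 2) S (fun F => A F ∧ I4 a m Λ c S u F) ≤
      PQ (1 / 2) S (fun F => (A F ∧ I4 a m Λ c S u F) ∧ Pnt a m Λ c S u G F)

/-- SDET: the cluster in a painted window. -/
def S_SDET : Prop := ∀ (a Λ m : ℕ) (c : ℤ × ℤ) (S : Finset Edg) (u : Vtx)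
  (G : Finset Edg → Prop) (F : Finset Edg) (Far : Set Vtx), 24 ≤ a → Even a → 16 ≤ Λ → 1 ≤ m →
  F ⊆ S → (∀ y ∈ Far, BSfar c (192 * (Λ * (a * m))) y) → XA c (512 * (a * m)) Far (↑F) u →
  (∀ x ∈ Co c (512 * (a * m)) (↑F) u, x ∈ bdB c (512 * (a * m)) → Off m c x) →
  I4 a m Λ c S u F → Pnt a m Λ c S u G F →
  (∀ s : ℤ, (c.1, s) ∈ Cu (↑F) u → c.2 - 120 * (a * m) ≤ s) ∧
  (∃ s : ℤ, s ≤ c.2 + 512 * (a * m) ∧ (c.1, s) ∈ Cu (↑F) u) ∧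
  (∀ x ∈ Cu (↑F) u, BSfar c (192 * (Λ * (a * m))) x → x ∈ Co c (512 * (a * m)) (↑F) u) ∧
  (∃ x ∈ ctr (tr c (q1 a m)) m, x ∈ Cu (↑F) u) ∧
  ∀ u' ∈ bdB c (512 * (a * m)), (∃ y ∈ Far, y ∈ Co c (512 * (a * m)) (↑F) u') →
    u' ∈ Co c (512 * (a * m)) (↑F) u

/-- DEC: decomposition of a cluster which comes near `c` and does not touch the slit. -/
def S_DEC : Prop := ∀ (a Λ m : ℕ) (c : ℤ × ℤ) (S F : Finset Edg) (u0 : Vtx) (Far : Set Vtx),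
  24 ≤ a → Even a → 16 ≤ Λ → 1 ≤ m → F ⊆ S → (∀ y ∈ Far, BSfar c (192 * (Λ * (a * m))) y) →
  XA c (128 * (a * m)) Far (↑F) u0 →
  (∃ u, XO c (512 * (a * m)) Far (↑F) u ∧ u ∈ Co c (128 * (a * m)) (↑F) u0 ∧ I4 a m Λ c S u F ∧
    ∀ x ∈ Co c (512 * (a * m)) (↑F) u, x ∈ bdB c (512 * (a * m)) → Off m c x) ∨
  (∃ u, XO c (512 * (a * m)) Far (↑F) u ∧
    Crs c.1 c.2 (512 * (a * m)) (64 * (Λ * (a * m))) (↑(F \ KX c (512 * (a * m)) S u F) : Set Edg)) ∨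
  ((∃ j ∈ Finset.Icc 17 (4 * Λ + 1), NLn c.1 (c.2 - 16 * (a * m * (j : ℕ))) (16 * (a * m)) (16 * m) (↑F)) ∧
    ∃ u, XO c (192 * (Λ * (a * m))) Far (↑F) u)

/-- The mean number of the clusters which join the block of radius `ρ` to `Far` and do not touch the
slit. -/
noncomputable def fX (S : Finset Edg) (c : ℤ × ℤ) (ρ : ℕ) (Far : Set Vtx) : ℝ :=
  ∑ u ∈ ctr c ρ, PQ (1 / 2) S (fun F => XO c ρ Far (↑F : Set Edg) u)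

/-- PN: the probabilities of the exceptional cases of DEC. -/
def S_PN : Prop := ∃ C s : ℝ, 0 < C ∧ 0 < s ∧ ∀ (a Λ m : ℕ) (c : ℤ × ℤ) (S : Finset Edg)
  (Far : Set Vtx), 24 ≤ a → 16 ≤ Λ → 1 ≤ m → blk c (192 * (Λ * (a * m))) ⊆ S →
  PQ (1 / 2) S (fun F => ∃ u, XO c (512 * (a * m)) Far (↑F : Set Edg) u ∧
    Crs c.1 c.2 (512 * (a * m)) (64 * (Λ * (a * m))) (↑(F \ KX c (512 * (a * m)) S u F) : Set Edg)) ≤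
      C * (Λ : ℝ) ^ (-s) * fX S c (512 * (a * m)) Far ∧
  PQ (1 / 2) S (fun F =>
    (∃ j ∈ Finset.Icc 17 (4 * Λ + 1),
      NLn c.1 (c.2 - 16 * (a * m * (j : ℕ))) (16 * (a * m)) (16 * m) (↑F : Set Edg)) ∧
    ∃ u, XO c (192 * (Λ * (a * m))) Far (↑F : Set Edg) u) ≤
      C * ((Λ : ℝ) / a) * fX S c (192 * (Λ * (a * m))) Far

/-- FB: the mean number of clusters which join the block of radius `ρ` to distance `w` and do not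
touch the slit is at most `C ρ / w`. -/
def S_FB : Prop := ∃ C : ℝ, 0 < C ∧ ∀ (c : ℤ × ℤ) (ρ w : ℕ) (S : Finset Edg) (Far : Set Vtx),
  1 ≤ ρ → ρ ≤ w → blk c w ⊆ S → (∀ y ∈ Far, BSfar c w y) →
  fX S c ρ Far ≤ C * ((ρ : ℝ) / w)

/-- `z` is the lowest vertex on the line of its cluster, which reaches the distance `w` of the
line. -/
def TipE (x0 : ℤ) (w : ℕ) (F : Set Edg) (z : Vtx) : Prop :=
  z.1 = x0 ∧ (∀ s : ℤ, s < z.2 → (x0, s) ∉ Cu F z) ∧ ∃ y ∈ Cu F z, (w : ℤ) ≤ |y.1 - x0|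

/-- The cluster of `z` is connected to a gadget whose exit lies below `z`. -/
def GoodAt (a m : ℕ) (x0 : ℤ) (G : Finset Edg → Prop) (F : Finset Edg) (z : Vtx) : Prop :=
  ∃ h : ℤ, h - 128 * (a * m) ≤ z.2 ∧ G ((trl (-x0) (-h)).mp F) ∧
    ∃ x ∈ ctr (tr (x0, h) (q1 a m)) m, x ∈ Cu (↑F : Set Edg) z

/-- TIP: with large probability every macroscopic cluster which crosses the line is connected to a
gadget of macroscopic size. -/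
def S_TIP : Prop := ∀ ε δ : ℝ, 0 < ε → 0 < δ → ∃ a0 : ℕ, ∀ a : ℕ, a0 ≤ a → Even a →
  ∀ (p : ℝ) (m0 : ℕ), 0 < p → ∃ (η : ℝ) (n0 : ℕ), 0 < η ∧ ∀ n : ℕ, n0 ≤ n →
  ∀ G : ℕ → Finset Edg → Prop, (∀ m : ℕ, m0 ≤ m → GLc a m p (G m)) →
    ∀ (x0 : ℤ) (w : ℕ), δ * n ≤ w → (w : ℤ) ≤ x0 → x0 ≤ n - w →
      PQ (1 / 2) (RE 0 n 0 n) (fun F => ∃ z : Vtx, (0 ≤ z.2 ∧ z.2 ≤ n) ∧ TipE x0 w (↑F) z ∧
        ¬ ∃ m : ℕ, m0 ≤ m ∧ η * n ≤ m ∧ 400 * (a * m) ≤ w ∧ GoodAt a m x0 (G m) F z) ≤ ε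

/-! ### The final theorem -/

/-- FINA: every largest cluster has at least `lam * n ^ (4/3)` accessible vertices. -/
def S_FINA : Prop := ∀ ε : ℝ, 0 < ε → ∃ (lam : ℝ) (n0 : ℕ), 0 < lam ∧ ∀ n : ℕ, n0 ≤ n →
  1 - ε ≤ H342P.Plain.prob n (fun F => ∀ v, H342P.Plain.Largest n F v →
    lam * (n : ℝ) ^ (4 / 3 : ℝ) ≤ ((Pool.Agent.W424.OD.accessible n F v).card : ℝ))

end Run7.h561
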